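import Mathlib

set_option autoImplicit false

/-!
Statement-level definitions for MP_78e4b4_an: generalized interval exchange maps of class C^r,
their space, standard maps, connections, semi-conjugacy and topological submanifolds.
-/

namespace Pool.Agent.Helper160IEM

open Set

universe u v

/-- Combinatorial data on the alphabet `Fin d`: the letter `α` sits at position `top α` in the top
partition and at position `bot α` in the bottom partition. -/
structure Comb (d : ℕ) where
  top : Equiv.Perm (Fin d)
  bot : Equiv.Perm (Fin d)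

/-- Irreducibility: for `0 < k < d` the first `k` letters of the two orders form different sets. -/
def Comb.Irreducible {d : ℕ} (π : Comb d) : Prop :=
  ∀ k : ℕ, 0 < k → k < d →
    {α : Fin d | (π.top α : ℕ) < k} ≠ {α : Fin d | (π.bot α : ℕ) < k}

/-- The `r`-jet `F 0, F 1, …, F r` of an orientation preserving `C^r` diffeomorphism `F 0` of
`[0,1]`: `F (k+1)` is the derivative of `F k` on `[0,1]`, and the first derivative is positive. -/
structure IsDiffJet {r : ℕ} (F : Fin (r + 1) → C(unitInterval, ℝ)) : Prop where
  zero : F 0 0 = 0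
  one : F 0 1 = 1
  deriv : ∀ (k : Fin r) (x : unitInterval),
    HasDerivWithinAt (fun t : ℝ => F k.castSucc (projIcc 0 1 zero_le_one t)) (F k.succ x)
      (Icc 0 1) (x : ℝ)
  pos : ∀ k : Fin r, (k : ℕ) = 0 → ∀ x : unitInterval, 0 < F k.succ x

/-- The space `X^r` of generalized interval exchange maps of class `C^r` of `[0,1)` with `d`
letters. An element consists of the top partition points `0 = a 0 < … < a d = 1`, the bottom
partition points `0 = b 0 < … < b d = 1` and, for every letter, the `r`-jet of the branch of the
letter rescaled to `[0,1]`. The combinatorial data only enters when this is read as a map. -/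
def GIEM (d r : ℕ) : Type :=
  {T : (Fin (d + 1) → ℝ) × (Fin (d + 1) → ℝ) × (Fin d → Fin (r + 1) → C(unitInterval, ℝ)) //
    (StrictMono T.1 ∧ T.1 0 = 0 ∧ T.1 (Fin.last d) = 1) ∧
    (StrictMono T.2.1 ∧ T.2.1 0 = 0 ∧ T.2.1 (Fin.last d) = 1) ∧
    ∀ α : Fin d, IsDiffJet (T.2.2 α)}

/-- The topology of `X^r`: partition points in `ℝ`, jets of the branches uniformly. -/
instance (d r : ℕ) : TopologicalSpace (GIEM d r) := instTopologicalSpaceSubtype

variable {d r : ℕ}

/-- Top partition points. -/
def GIEM.a (T : GIEM d r) : Fin (d + 1) → ℝ := T.1.1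

/-- Bottom partition points. -/
def GIEM.b (T : GIEM d r) : Fin (d + 1) → ℝ := T.1.2.1

/-- Jets of the rescaled branches. -/
def GIEM.F (T : GIEM d r) : Fin d → Fin (r + 1) → C(unitInterval, ℝ) := T.1.2.2

/-- The closed top interval of the letter `α`. -/
def GIEM.topI (T : GIEM d r) (π : Comb d) (α : Fin d) : Set ℝ :=
  Icc (T.a (π.top α).castSucc) (T.a (π.top α).succ)

/-- The branch of the letter `α`, an increasing bijection of the closed top interval of `α` onto
its closed bottom interval. -/
noncomputable def GIEM.branch (T : GIEM d r) (π : Comb d) (α : Fin d) (x : ℝ) : ℝ :=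
  T.b (π.bot α).castSucc + (T.b (π.bot α).succ - T.b (π.bot α).castSucc) *
    T.F α 0 (projIcc 0 1 zero_le_one
      ((x - T.a (π.top α).castSucc) / (T.a (π.top α).succ - T.a (π.top α).castSucc)))

/-- The bijection of `[0,1)` given by the half-open intervals `[a i, a (i+1))`. -/
noncomputable def GIEM.map (T : GIEM d r) (π : Comb d) (x : ℝ) : ℝ :=
  ∑ α : Fin d, (Ico (T.a (π.top α).castSucc) (T.a (π.top α).succ)).indicator (T.branch π α) x

/-- Standard interval exchange maps: every branch is a translation. -/
def GIEM.IsStandard (T : GIEM d r) (π : Comb d) : Prop :=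
  ∀ α : Fin d, T.b (π.bot α).succ - T.b (π.bot α).castSucc =
      T.a (π.top α).succ - T.a (π.top α).castSucc ∧
    ∀ x : unitInterval, T.F α 0 x = x

/-- No connections: no forward orbit of an interior bottom partition point meets an interior top
partition point. -/
def GIEM.NoConnection (T : GIEM d r) (π : Comb d) : Prop :=
  ∀ (m : ℕ) (i j : Fin (d + 1)), i ≠ 0 → i ≠ Fin.last d → j ≠ 0 → j ≠ Fin.last d →
    (T.map π)^[m] (T.b i) ≠ T.a j

/-- Semi-conjugacy, in closed-branch form: a continuous non-decreasing surjection `h` of `[0,1]`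
that maps each closed top interval of `T` into the one of `T₀` of the same letter, and satisfies
`h ∘ T = T₀ ∘ h` there for the extensions of the branches to the closed intervals. -/
def GIEM.SemiConj (T T₀ : GIEM d r) (π : Comb d) : Prop :=
  ∃ h : ℝ → ℝ, ContinuousOn h (Icc 0 1) ∧ MonotoneOn h (Icc 0 1) ∧ h '' Icc 0 1 = Icc 0 1 ∧
    ∀ α : Fin d, ∀ x ∈ T.topI π α,
      h x ∈ T₀.topI π α ∧ h (T.branch π α x) = T₀.branch π α (h x)

/-- `S` is a topological submanifold of codimension `k` of `X`: every point of `S` has a chart
onto an open subset of `E × ℝ^k`, with `E` a Banach space, that takes `S` to `E × {0}`. -/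
def IsTopSubmanifold {X : Type u} [TopologicalSpace X] (S : Set X) (k : ℕ) : Prop :=
  ∀ x ∈ S, ∃ (E : Type v) (_ : NormedAddCommGroup E) (_ : NormedSpace ℝ E) (_ : CompleteSpace E)
    (φ : OpenPartialHomeomorph X (E × EuclideanSpace ℝ (Fin k))),
    x ∈ φ.source ∧ ∀ y ∈ φ.source, (y ∈ S ↔ (φ y).2 = 0)

end Pool.Agent.Helper160IEM
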