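import Mathlib
import Pool.Agent.Helper160IEM.Stmt

set_option autoImplicit false

/-!
Working definitions for the disproof of MP_78e4b4_an (Keane's four interval exchange maps).
Letters `0,1,2,3`; top order `0 1 2 3`, bottom order `3 1 0 2`.
-/

namespace Pool.Agent.Helper160IEM

open Set Filter Topology

/-! ### Keane data -/

/-- Total length. -/
def tot (l : Fin 4 → ℝ) : ℝ := l 0 + l 1 + l 2 + l 3

/-- Left end points of the top intervals. -/
def sS (l : Fin 4 → ℝ) : Fin 4 → ℝ := ![0, l 0, l 0 + l 1, l 0 + l 1 + l 2]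

/-- Translations. -/
def dl (l : Fin 4 → ℝ) : Fin 4 → ℝ := ![l 3 + l 1, l 3 - l 0, l 3, -(l 0 + l 1 + l 2)]

/-- Open top interval. -/
def Bo (l : Fin 4 → ℝ) (α : Fin 4) : Set ℝ := Ioo (sS l α) (sS l α + l α)

/-- Closed top interval. -/
def Bc (l : Fin 4 → ℝ) (α : Fin 4) : Set ℝ := Icc (sS l α) (sS l α + l α)

/-- Keane's matrix with parameters `m`, `n`, acting on a length vector. -/
def KM (m n : ℕ) (μ : Fin 4 → ℝ) : Fin 4 → ℝ :=
  ![μ 2 + μ 3, (m - 1) * μ 0 + m * μ 1, n * (μ 0 + μ 1 + μ 3) + (n - 1) * μ 2,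
    μ 0 + μ 1 + μ 2 + μ 3]

/-- Keane's matrix. -/
def AM (m n : ℕ) : Matrix (Fin 4) (Fin 4) ℕ :=
  !![0, 0, 1, 1; m - 1, m, 0, 0; n, n, n - 1, n; 1, 1, 1, 1]

/-- Sum of the entries. -/
def SM (M : Matrix (Fin 4) (Fin 4) ℕ) : ℕ := ∑ i, ∑ j, M i j

def nOf (k : ℕ) (M : Matrix (Fin 4) (Fin 4) ℕ) : ℕ := 2 ^ (k + 10) * SM M

def mOf (k : ℕ) (M : Matrix (Fin 4) (Fin 4) ℕ) : ℕ := 2 ^ (k + 10) * (nOf k M + 2) * SM M

/-- The products `A_1 ⋯ A_k`. -/
def MM : ℕ → Matrix (Fin 4) (Fin 4) ℕ
  | 0 => 1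
  | k + 1 => MM k * AM (mOf k (MM k)) (nOf k (MM k))

def nn (k : ℕ) : ℕ := nOf k (MM k)

def mm (k : ℕ) : ℕ := mOf k (MM k)

/-- The cone of length vectors that can be induced forever with the parameters `mm`, `nn`. -/
def Keane (l : Fin 4 → ℝ) : Prop :=
  ∃ s : ℕ → Fin 4 → ℝ, s 0 = l ∧ (∀ k α, 0 < s k α) ∧ ∀ k, s k = KM (mm k) (nn k) (s (k + 1))

/-- A path following the word `w` from `x` inside the sets `B`. -/
def IsPath (B : Fin 4 → Set ℝ) (δ : Fin 4 → ℝ) : ℝ → List (Fin 4) → Prop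
  | _, [] => True
  | x, α :: w => x ∈ B α ∧ IsPath B δ (x + δ α) w

/-- Return words. -/
def Wd (m n : ℕ) : Fin 4 → List (Fin 4) :=
  ![3 :: (List.replicate (m - 1) 1 ++ List.replicate n 2),
    3 :: (List.replicate m 1 ++ List.replicate n 2),
    3 :: 0 :: List.replicate (n - 1) 2,
    3 :: 0 :: List.replicate n 2]

/-- Bottom positions of the letters. -/
def sg : Fin 4 → Fin 4 := ![2, 1, 3, 0]

/-- The combinatorial data. -/
def pi0 : Comb 4 where
  top := Equiv.refl _
  bot := ⟨![2, 1, 3, 0], ![3, 1, 0, 2], by decide, by decide⟩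

/-! ### The space `X^1` and its maps -/

/-- The working space. -/
abbrev X1 : Type := GIEM 4 1

/-- Rescaled branch, extended to an increasing map of the line. -/
noncomputable def GIEM.Fx {r : ℕ} (T : GIEM 4 r) (α : Fin 4) (t : ℝ) : ℝ :=
  T.F α 0 (projIcc 0 1 zero_le_one t) + (t - projIcc (0 : ℝ) 1 zero_le_one t)

/-- Branch, extended to an increasing map of the line. -/
noncomputable def GIEM.f {r : ℕ} (T : GIEM 4 r) (α : Fin 4) (x : ℝ) : ℝ :=
  T.b (sg α).castSucc + (T.b (sg α).succ - T.b (sg α).castSucc) *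
    T.Fx α ((x - T.a α.castSucc) / (T.a α.succ - T.a α.castSucc))

/-- Derivative of the branch (extended continuously to the line). -/
noncomputable def GIEM.f' (T : X1) (α : Fin 4) (x : ℝ) : ℝ :=
  (T.b (sg α).succ - T.b (sg α).castSucc) / (T.a α.succ - T.a α.castSucc) *
    T.F α 1 (projIcc 0 1 zero_le_one ((x - T.a α.castSucc) / (T.a α.succ - T.a α.castSucc)))

/-- The letter of the point `x`. -/
noncomputable def GIEM.letter {r : ℕ} (T : GIEM 4 r) (x : ℝ) : Fin 4 :=
  if x < T.a 1 then 0 else if x < T.a 2 then 1 else if x < T.a 3 then 2 else 3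

/-- The half-open bijection of `[0,1)`. -/
noncomputable def GIEM.T {r : ℕ} (T : GIEM 4 r) (x : ℝ) : ℝ := T.f (T.letter x) x

/-- Closed-branch semi-conjugacy to the standard map with lengths `l` (of total length one). -/
def SC {r : ℕ} (T : GIEM 4 r) (l : Fin 4 → ℝ) : Prop :=
  ∃ h : ℝ → ℝ, MonotoneOn h (Icc 0 1) ∧ h '' Icc 0 1 = Icc 0 1 ∧
    ∀ α : Fin 4, ∀ x ∈ Icc (T.a α.castSucc) (T.a α.succ),
      h x ∈ Bc l α ∧ h (T.f α x) = h x + dl l α

/-- Positive length vectors of total length one. -/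
def IsLen (l : Fin 4 → ℝ) : Prop := (∀ α, 0 < l α) ∧ tot l = 1

/-- Partition points with given (positional) lengths. -/
def pts (l : Fin 4 → ℝ) : Fin 5 → ℝ := ![0, l 0, l 0 + l 1, l 0 + l 1 + l 2, l 0 + l 1 + l 2 + l 3]

/-- Bottom partition points when the letter `α` has bottom length `l α`. -/
def ptsB (l : Fin 4 → ℝ) : Fin 5 → ℝ := ![0, l 3, l 3 + l 1, l 3 + l 1 + l 0, l 3 + l 1 + l 0 + l 2]

/-- The jet of the identity. -/
noncomputable def idJet (r : ℕ) (k : Fin (r + 1)) : C(unitInterval, ℝ) :=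
  if (k : ℕ) = 0 then ⟨fun x => (x : ℝ), continuous_subtype_val⟩
  else if (k : ℕ) = 1 then ContinuousMap.const _ 1 else 0

theorem isDiffJet_idJet (r : ℕ) : IsDiffJet (idJet r) where
  zero := by simp [idJet]
  one := by simp [idJet]
  deriv := by
    intro k x
    rcases Nat.eq_zero_or_pos (k : ℕ) with hk | hk
    · have h1 : ((k.castSucc : Fin (r + 1)) : ℕ) = 0 := by simpa using hk
      have h2 : ((k.succ : Fin (r + 1)) : ℕ) = 1 := by simp [hk]
      have e1 : idJet r k.castSucc = ⟨fun x => (x : ℝ), continuous_subtype_val⟩ := by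
        simp only [idJet, h1, if_true]
      have e2 : idJet r k.succ = ContinuousMap.const _ 1 := by
        simp [idJet, hk]
      rw [e1, e2]
      have := (hasDerivAt_id (x : ℝ)).hasDerivWithinAt (s := Icc (0 : ℝ) 1)
      refine this.congr_of_mem ?_ x.2
      intro t ht
      simp [projIcc_of_mem zero_le_one ht]
    · rcases Nat.lt_or_ge 1 (k : ℕ) with hk2 | hk2
      · have e1 : idJet r k.castSucc = 0 := by
          simp only [idJet, Fin.val_castSucc]
          rw [if_neg (by omega), if_neg (by omega)]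
        have e2 : idJet r k.succ = 0 := by
          simp only [idJet, Fin.val_succ]
          rw [if_neg (by omega), if_neg (by omega)]
        rw [e1, e2]
        simpa using hasDerivWithinAt_const (x : ℝ) (Icc (0 : ℝ) 1) (0 : ℝ)
      · have hk3 : (k : ℕ) = 1 := by omega
        have e1 : idJet r k.castSucc = ContinuousMap.const _ 1 := by
          simp only [idJet, Fin.val_castSucc]
          rw [if_neg (by omega), if_pos (by omega)]
        have e2 : idJet r k.succ = 0 := by
          simp only [idJet, Fin.val_succ]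
          rw [if_neg (by omega), if_neg (by omega)]
        rw [e1, e2]
        simpa using hasDerivWithinAt_const (x : ℝ) (Icc (0 : ℝ) 1) (1 : ℝ)
  pos := by
    intro k hk x
    simp [idJet, hk]

/-- The map with affine branches, top lengths `l` and bottom lengths `l'` (indexed by letters). -/
noncomputable def aff (r : ℕ) (l l' : Fin 4 → ℝ) (h : IsLen l) (h' : IsLen l') : GIEM 4 r :=
  ⟨(pts l, ptsB l', fun _ => idJet r), by
    obtain ⟨hp, ht⟩ := h
    obtain ⟨hp', ht'⟩ := h'
    have q0 := hp 0; have q1 := hp 1; have q2 := hp 2; have q3 := hp 3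
    have q0' := hp' 0; have q1' := hp' 1; have q2' := hp' 2; have q3' := hp' 3
    refine ⟨⟨?_, rfl, ?_⟩, ⟨?_, rfl, ?_⟩, fun _ => isDiffJet_idJet r⟩
    · rw [Fin.strictMono_iff_lt_succ]
      intro i
      fin_cases i <;> simp [pts] <;> linarith
    · simpa [pts, tot, Fin.last] using ht
    · rw [Fin.strictMono_iff_lt_succ]
      intro i
      fin_cases i <;> simp [ptsB] <;> linarith
    · have : ptsB l' (Fin.last 4) = l' 3 + l' 1 + l' 0 + l' 2 := by simp [ptsB, Fin.last]
      change ptsB l' (Fin.last 4) = 1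
      rw [this, ← ht', tot]; ring⟩

/-- The standard map with lengths `l`. -/
noncomputable def std (l : Fin 4 → ℝ) (h : IsLen l) : X1 := aff 1 l l h h

end Pool.Agent.Helper160IEM
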