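import Mathlib
import Pool.Agent.Helper160IEM.Core

set_option autoImplicit false
set_option linter.unusedSimpArgs false

/-!
Module B1: paths, the return words of Keane's induction.
-/

namespace Pool.Agent.Helper160IEM

open Set Filter Topology

@[simp] theorem IsPath_nil (B : Fin 4 → Set ℝ) (δ : Fin 4 → ℝ) (x : ℝ) : IsPath B δ x [] := trivial

@[simp] theorem IsPath_cons (B : Fin 4 → Set ℝ) (δ : Fin 4 → ℝ) (x : ℝ) (α : Fin 4)
    (w : List (Fin 4)) : IsPath B δ x (α :: w) ↔ x ∈ B α ∧ IsPath B δ (x + δ α) w := Iff.rfl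

theorem IsPath_append (B : Fin 4 → Set ℝ) (δ : Fin 4 → ℝ) (w w' : List (Fin 4)) (x : ℝ) :
    IsPath B δ x (w ++ w') ↔ IsPath B δ x w ∧ IsPath B δ (x + (w.map δ).sum) w' := by
  induction w generalizing x with
  | nil => simp
  | cons α w ih =>
    simp only [List.cons_append, IsPath_cons, List.map_cons, List.sum_cons, ih, and_assoc,
      add_assoc]

theorem IsPath_replicate (B : Fin 4 → Set ℝ) (δ : Fin 4 → ℝ) (k : ℕ) (α : Fin 4) (x : ℝ) :
    IsPath B δ x (List.replicate k α) ↔ ∀ i < k, x + i * δ α ∈ B α := by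
  induction k generalizing x with
  | zero => simp
  | succ k ih =>
    rw [List.replicate_succ, IsPath_cons, ih]
    constructor
    · rintro ⟨h1, h2⟩ i hi
      rcases i with _ | i
      · simpa using h1
      · have := h2 i (by omega)
        push_cast
        have e : x + (i + 1 : ℝ) * δ α = x + δ α + i * δ α := by ring
        rw [e]; exact this
    · intro h
      refine ⟨by simpa using h 0 (by omega), fun i hi => ?_⟩
      have := h (i + 1) (by omega)
      push_cast at this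
      have e : x + (i + 1 : ℝ) * δ α = x + δ α + i * δ α := by ring
      rw [← e]; exact this

@[simp] theorem sS_zero (l : Fin 4 → ℝ) : sS l 0 = 0 := rfl
@[simp] theorem sS_one (l : Fin 4 → ℝ) : sS l 1 = l 0 := rfl
@[simp] theorem sS_two (l : Fin 4 → ℝ) : sS l 2 = l 0 + l 1 := rfl
@[simp] theorem sS_three (l : Fin 4 → ℝ) : sS l 3 = l 0 + l 1 + l 2 := rfl
@[simp] theorem dl_zero (l : Fin 4 → ℝ) : dl l 0 = l 3 + l 1 := rfl
@[simp] theorem dl_one (l : Fin 4 → ℝ) : dl l 1 = l 3 - l 0 := rfl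
@[simp] theorem dl_two (l : Fin 4 → ℝ) : dl l 2 = l 3 := rfl
@[simp] theorem dl_three (l : Fin 4 → ℝ) : dl l 3 = -(l 0 + l 1 + l 2) := rfl
@[simp] theorem KM_zero (m n : ℕ) (μ : Fin 4 → ℝ) : KM m n μ 0 = μ 2 + μ 3 := rfl
@[simp] theorem KM_one (m n : ℕ) (μ : Fin 4 → ℝ) : KM m n μ 1 = (m - 1) * μ 0 + m * μ 1 := rfl
@[simp] theorem KM_two (m n : ℕ) (μ : Fin 4 → ℝ) :
    KM m n μ 2 = n * (μ 0 + μ 1 + μ 3) + (n - 1) * μ 2 := rfl
@[simp] theorem KM_three (m n : ℕ) (μ : Fin 4 → ℝ) :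
    KM m n μ 3 = μ 0 + μ 1 + μ 2 + μ 3 := rfl
theorem Wd_zero (m n : ℕ) : Wd m n 0 = 3 :: (List.replicate (m - 1) 1 ++ List.replicate n 2) := rfl
theorem Wd_one (m n : ℕ) : Wd m n 1 = 3 :: (List.replicate m 1 ++ List.replicate n 2) := rfl
theorem Wd_two (m n : ℕ) : Wd m n 2 = 3 :: 0 :: List.replicate (n - 1) 2 := rfl
theorem Wd_three (m n : ℕ) : Wd m n 3 = 3 :: 0 :: List.replicate n 2 := rfl

theorem B_step_sum (m n : ℕ) (hm : 2 ≤ m) (hn : 2 ≤ n) (μ : Fin 4 → ℝ) (j : Fin 4) :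
    ((Wd m n j).map (dl (KM m n μ))).sum = - dl μ j := by
  have hm' : ((m - 1 : ℕ) : ℝ) = m - 1 := by rw [Nat.cast_sub (by omega)]; simp
  have hn' : ((n - 1 : ℕ) : ℝ) = n - 1 := by rw [Nat.cast_sub (by omega)]; simp
  fin_cases j
  · change ((Wd m n 0).map (dl (KM m n μ))).sum = - dl μ 0
    simp [Wd_zero, hm']; ring
  · change ((Wd m n 1).map (dl (KM m n μ))).sum = - dl μ 1
    simp [Wd_one]; ring
  · change ((Wd m n 2).map (dl (KM m n μ))).sum = - dl μ 2
    simp [Wd_two, hn']; ring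
  · change ((Wd m n 3).map (dl (KM m n μ))).sum = - dl μ 3
    simp [Wd_three]; ring

/-- Index bounds as products, used to place intermediate points. -/
theorem idx_bound {i k : ℕ} (h : i < k) (s : ℝ) (hs : 0 ≤ s) :
    0 ≤ (i : ℝ) * s ∧ (i : ℝ) * s ≤ (k - 1) * s := by
  have h1 : (i : ℝ) + 1 ≤ k := by exact_mod_cast h
  exact ⟨by positivity, mul_le_mul_of_nonneg_right (by linarith) hs⟩

theorem B_step_open (m n : ℕ) (hm : 2 ≤ m) (hn : 2 ≤ n) (μ : Fin 4 → ℝ) (hμ : ∀ α, 0 < μ α)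
    (j : Fin 4) (z : ℝ) (hz : z ∈ Bo μ j) :
    IsPath (Bo (KM m n μ)) (dl (KM m n μ)) (tot (KM m n μ) - z) (Wd m n j) := by
  have hm' : ((m - 1 : ℕ) : ℝ) = m - 1 := by rw [Nat.cast_sub (by omega)]; simp
  have hn' : ((n - 1 : ℕ) : ℝ) = n - 1 := by rw [Nat.cast_sub (by omega)]; simp
  have hmR : (2 : ℝ) ≤ m := by exact_mod_cast hm
  have hnR : (2 : ℝ) ≤ n := by exact_mod_cast hn
  have q0 := hμ 0; have q1 := hμ 1; have q2 := hμ 2; have q3 := hμ 3
  have hs : 0 ≤ μ 0 + μ 1 := by linarith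
  have ht : 0 ≤ μ 0 + μ 1 + μ 2 + μ 3 := by linarith
  have a1 : 0 ≤ (m - 2 : ℝ) * (μ 0 + μ 1) := mul_nonneg (by linarith) hs
  have a2 : 0 ≤ (n - 2 : ℝ) * (μ 0 + μ 1 + μ 2 + μ 3) := mul_nonneg (by linarith) ht
  fin_cases j
  · change z ∈ Bo μ 0 at hz
    change IsPath (Bo (KM m n μ)) (dl (KM m n μ)) (tot (KM m n μ) - z) (Wd m n 0)
    rw [Wd_zero, IsPath_cons, IsPath_append, IsPath_replicate, IsPath_replicate]
    simp only [Bo, mem_Ioo, sS_zero, sS_one, sS_two, sS_three, dl_zero, dl_one, dl_two, dl_three,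
      KM_zero, KM_one, KM_two, KM_three, tot, List.map_replicate, List.sum_replicate,
      nsmul_eq_mul, hm'] at hz ⊢
    refine ⟨⟨by linarith, by linarith⟩, fun i hi => ?_, fun i hi => ?_⟩
    · have := idx_bound hi (μ 0 + μ 1) hs
      rw [hm'] at this
      constructor <;> nlinarith
    · have := idx_bound hi (μ 0 + μ 1 + μ 2 + μ 3) ht
      constructor <;> nlinarith
  · change z ∈ Bo μ 1 at hz
    change IsPath (Bo (KM m n μ)) (dl (KM m n μ)) (tot (KM m n μ) - z) (Wd m n 1)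
    rw [Wd_one, IsPath_cons, IsPath_append, IsPath_replicate, IsPath_replicate]
    simp only [Bo, mem_Ioo, sS_zero, sS_one, sS_two, sS_three, dl_zero, dl_one, dl_two, dl_three,
      KM_zero, KM_one, KM_two, KM_three, tot, List.map_replicate, List.sum_replicate,
      nsmul_eq_mul] at hz ⊢
    refine ⟨⟨by linarith, by linarith⟩, fun i hi => ?_, fun i hi => ?_⟩
    · have := idx_bound hi (μ 0 + μ 1) hs
      constructor <;> nlinarith
    · have := idx_bound hi (μ 0 + μ 1 + μ 2 + μ 3) ht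
      constructor <;> nlinarith
  · change z ∈ Bo μ 2 at hz
    change IsPath (Bo (KM m n μ)) (dl (KM m n μ)) (tot (KM m n μ) - z) (Wd m n 2)
    rw [Wd_two, IsPath_cons, IsPath_cons, IsPath_replicate]
    simp only [Bo, mem_Ioo, sS_zero, sS_one, sS_two, sS_three, dl_zero, dl_one, dl_two, dl_three,
      KM_zero, KM_one, KM_two, KM_three, tot] at hz ⊢
    refine ⟨⟨by linarith, by linarith⟩, ⟨by linarith, by linarith⟩, fun i hi => ?_⟩
    have := idx_bound hi (μ 0 + μ 1 + μ 2 + μ 3) ht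
    rw [hn'] at this
    constructor <;> nlinarith
  · change z ∈ Bo μ 3 at hz
    change IsPath (Bo (KM m n μ)) (dl (KM m n μ)) (tot (KM m n μ) - z) (Wd m n 3)
    rw [Wd_three, IsPath_cons, IsPath_cons, IsPath_replicate]
    simp only [Bo, mem_Ioo, sS_zero, sS_one, sS_two, sS_three, dl_zero, dl_one, dl_two, dl_three,
      KM_zero, KM_one, KM_two, KM_three, tot] at hz ⊢
    refine ⟨⟨by linarith, by linarith⟩, ⟨by linarith, by linarith⟩, fun i hi => ?_⟩
    have := idx_bound hi (μ 0 + μ 1 + μ 2 + μ 3) ht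
    constructor <;> nlinarith

theorem B_step_closed (m n : ℕ) (hm : 2 ≤ m) (hn : 2 ≤ n) (μ : Fin 4 → ℝ) (hμ : ∀ α, 0 < μ α)
    (j : Fin 4) (z : ℝ) (hz : z ∈ Bc μ j) :
    IsPath (Bc (KM m n μ)) (dl (KM m n μ)) (tot (KM m n μ) - z) (Wd m n j) := by
  have hm' : ((m - 1 : ℕ) : ℝ) = m - 1 := by rw [Nat.cast_sub (by omega)]; simp
  have hn' : ((n - 1 : ℕ) : ℝ) = n - 1 := by rw [Nat.cast_sub (by omega)]; simp
  have hmR : (2 : ℝ) ≤ m := by exact_mod_cast hm
  have hnR : (2 : ℝ) ≤ n := by exact_mod_cast hn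
  have q0 := hμ 0; have q1 := hμ 1; have q2 := hμ 2; have q3 := hμ 3
  have hs : 0 ≤ μ 0 + μ 1 := by linarith
  have ht : 0 ≤ μ 0 + μ 1 + μ 2 + μ 3 := by linarith
  have a1 : 0 ≤ (m - 2 : ℝ) * (μ 0 + μ 1) := mul_nonneg (by linarith) hs
  have a2 : 0 ≤ (n - 2 : ℝ) * (μ 0 + μ 1 + μ 2 + μ 3) := mul_nonneg (by linarith) ht
  fin_cases j
  · change z ∈ Bc μ 0 at hz
    change IsPath (Bc (KM m n μ)) (dl (KM m n μ)) (tot (KM m n μ) - z) (Wd m n 0)
    rw [Wd_zero, IsPath_cons, IsPath_append, IsPath_replicate, IsPath_replicate]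
    simp only [Bc, mem_Icc, sS_zero, sS_one, sS_two, sS_three, dl_zero, dl_one, dl_two, dl_three,
      KM_zero, KM_one, KM_two, KM_three, tot, List.map_replicate, List.sum_replicate,
      nsmul_eq_mul, hm'] at hz ⊢
    refine ⟨⟨by linarith, by linarith⟩, fun i hi => ?_, fun i hi => ?_⟩
    · have := idx_bound hi (μ 0 + μ 1) hs
      rw [hm'] at this
      constructor <;> nlinarith
    · have := idx_bound hi (μ 0 + μ 1 + μ 2 + μ 3) ht
      constructor <;> nlinarith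
  · change z ∈ Bc μ 1 at hz
    change IsPath (Bc (KM m n μ)) (dl (KM m n μ)) (tot (KM m n μ) - z) (Wd m n 1)
    rw [Wd_one, IsPath_cons, IsPath_append, IsPath_replicate, IsPath_replicate]
    simp only [Bc, mem_Icc, sS_zero, sS_one, sS_two, sS_three, dl_zero, dl_one, dl_two, dl_three,
      KM_zero, KM_one, KM_two, KM_three, tot, List.map_replicate, List.sum_replicate,
      nsmul_eq_mul] at hz ⊢
    refine ⟨⟨by linarith, by linarith⟩, fun i hi => ?_, fun i hi => ?_⟩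
    · have := idx_bound hi (μ 0 + μ 1) hs
      constructor <;> nlinarith
    · have := idx_bound hi (μ 0 + μ 1 + μ 2 + μ 3) ht
      constructor <;> nlinarith
  · change z ∈ Bc μ 2 at hz
    change IsPath (Bc (KM m n μ)) (dl (KM m n μ)) (tot (KM m n μ) - z) (Wd m n 2)
    rw [Wd_two, IsPath_cons, IsPath_cons, IsPath_replicate]
    simp only [Bc, mem_Icc, sS_zero, sS_one, sS_two, sS_three, dl_zero, dl_one, dl_two, dl_three,
      KM_zero, KM_one, KM_two, KM_three, tot] at hz ⊢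
    refine ⟨⟨by linarith, by linarith⟩, ⟨by linarith, by linarith⟩, fun i hi => ?_⟩
    have := idx_bound hi (μ 0 + μ 1 + μ 2 + μ 3) ht
    rw [hn'] at this
    constructor <;> nlinarith
  · change z ∈ Bc μ 3 at hz
    change IsPath (Bc (KM m n μ)) (dl (KM m n μ)) (tot (KM m n μ) - z) (Wd m n 3)
    rw [Wd_three, IsPath_cons, IsPath_cons, IsPath_replicate]
    simp only [Bc, mem_Icc, sS_zero, sS_one, sS_two, sS_three, dl_zero, dl_one, dl_two, dl_three,
      KM_zero, KM_one, KM_two, KM_three, tot] at hz ⊢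
    refine ⟨⟨by linarith, by linarith⟩, ⟨by linarith, by linarith⟩, fun i hi => ?_⟩
    have := idx_bound hi (μ 0 + μ 1 + μ 2 + μ 3) ht
    constructor <;> nlinarith

end Pool.Agent.Helper160IEM
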