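import Mathlib
import Pool.Agent.Helper160IEM.B1

set_option autoImplicit false
set_option linter.unusedSimpArgs false

/-!
Module A: linear algebra of the Keane cone.
-/

namespace Pool.Agent.Helper160IEM

open Set Filter Topology MeasureTheory

/-! ### The parameters -/

theorem A_SM_mul (M : Matrix (Fin 4) (Fin 4) ℕ) (m n : ℕ) (hm : 1 ≤ m) (hn : 1 ≤ n) :
    SM M ≤ SM (M * AM m n) := by
  obtain ⟨m, rfl⟩ := Nat.exists_eq_add_of_le' hm
  obtain ⟨n, rfl⟩ := Nat.exists_eq_add_of_le' hn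
  unfold SM
  refine Finset.sum_le_sum fun i _ => ?_
  simp only [Matrix.mul_apply, Fin.sum_univ_four, AM]
  simp
  nlinarith [Nat.zero_le (M i 0), Nat.zero_le (M i 1 * m), Nat.zero_le (M i 2 * n),
    Nat.zero_le (M i 3), Nat.zero_le (M i 1), Nat.zero_le (M i 2)]

theorem A_nOf_pos (k : ℕ) (M : Matrix (Fin 4) (Fin 4) ℕ) (h : 1 ≤ SM M) : 1024 ≤ nOf k M := by
  unfold nOf
  have h1 : 1024 ≤ 2 ^ (k + 10) := by
    calc 1024 = 2 ^ 10 := by norm_num
      _ ≤ 2 ^ (k + 10) := Nat.pow_le_pow_right (by norm_num) (by omega)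
  calc 1024 = 1024 * 1 := by norm_num
    _ ≤ 2 ^ (k + 10) * SM M := Nat.mul_le_mul h1 h

theorem A_mOf_pos (k : ℕ) (M : Matrix (Fin 4) (Fin 4) ℕ) (h : 1 ≤ SM M) : 1024 ≤ mOf k M := by
  unfold mOf
  have h1 : 1024 ≤ 2 ^ (k + 10) := by
    calc 1024 = 2 ^ 10 := by norm_num
      _ ≤ 2 ^ (k + 10) := Nat.pow_le_pow_right (by norm_num) (by omega)
  calc 1024 = 1024 * 1 * 1 := by norm_num
    _ ≤ 2 ^ (k + 10) * (nOf k M + 2) * SM M :=
      Nat.mul_le_mul (Nat.mul_le_mul h1 (by omega)) h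

theorem A_SM_pos (k : ℕ) : 1 ≤ SM (MM k) := by
  induction k with
  | zero => simp [MM, SM, Fin.sum_univ_four, Matrix.one_apply]
  | succ k ih =>
    refine ih.trans ?_
    exact A_SM_mul _ _ _ (by have := A_mOf_pos k _ ih; omega) (by have := A_nOf_pos k _ ih; omega)

theorem A_nn_ge (k : ℕ) : 1024 ≤ nn k := A_nOf_pos k _ (A_SM_pos k)

theorem A_mm_ge' (k : ℕ) : 1024 ≤ mm k := A_mOf_pos k _ (A_SM_pos k)

theorem A_mm_ge (k : ℕ) : 2 ≤ mm k := by have := A_mm_ge' k; omega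

/-! ### The linear maps -/

/-- One step. -/
noncomputable def A_T (k : ℕ) : (Fin 4 → ℝ) →ₗ[ℝ] (Fin 4 → ℝ) :=
  Matrix.mulVecLin ((AM (mm k) (nn k)).map (Nat.castRingHom ℝ))

/-- The product of the first steps. -/
noncomputable def A_L (k : ℕ) : (Fin 4 → ℝ) →ₗ[ℝ] (Fin 4 → ℝ) :=
  Matrix.mulVecLin ((MM k).map (Nat.castRingHom ℝ))

theorem A_T_apply (k : ℕ) (z : Fin 4 → ℝ) : A_T k z = KM (mm k) (nn k) z := by
  have hm := A_mm_ge k
  have hn := A_nn_ge k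
  have hm' : ((mm k - 1 : ℕ) : ℝ) = mm k - 1 := by rw [Nat.cast_sub (by omega)]; simp
  have hn' : ((nn k - 1 : ℕ) : ℝ) = nn k - 1 := by rw [Nat.cast_sub (by omega)]; simp
  funext i
  rw [A_T, Matrix.mulVecLin_apply]
  fin_cases i <;>
    (simp [Matrix.mulVec, dotProduct, Fin.sum_univ_four, AM, KM, hm', hn']; try ring)

theorem A_L_zero (z : Fin 4 → ℝ) : A_L 0 z = z := by
  have : ((1 : Matrix (Fin 4) (Fin 4) ℕ).map (Nat.castRingHom ℝ)) = 1 :=
    Matrix.map_one _ (by simp) (by simp)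
  rw [A_L, Matrix.mulVecLin_apply, MM, this, Matrix.one_mulVec]

theorem A_L_succ (k : ℕ) (z : Fin 4 → ℝ) : A_L (k + 1) z = A_L k (A_T k z) := by
  rw [A_L, A_L, A_T, Matrix.mulVecLin_apply, Matrix.mulVecLin_apply, Matrix.mulVecLin_apply,
    Matrix.mulVec_mulVec, ← Matrix.map_mul]
  rfl

theorem A_tot_add (x y : Fin 4 → ℝ) : tot (x + y) = tot x + tot y := by
  simp only [tot, Pi.add_apply]; ring

theorem A_tot_sub (x y : Fin 4 → ℝ) : tot (x - y) = tot x - tot y := by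
  simp only [tot, Pi.sub_apply]; ring

theorem A_tot_smul (c : ℝ) (y : Fin 4 → ℝ) : tot (c • y) = c * tot y := by
  simp only [tot, Pi.smul_apply, smul_eq_mul]; ring

theorem A_le_tot {z : Fin 4 → ℝ} (hz : ∀ i, 0 ≤ z i) (i : Fin 4) : z i ≤ tot z := by
  have h0 := hz 0; have h1 := hz 1; have h2 := hz 2; have h3 := hz 3
  unfold tot
  fin_cases i <;> simp <;> linarith

theorem A_tot_nonneg {z : Fin 4 → ℝ} (hz : ∀ i, 0 ≤ z i) : 0 ≤ tot z :=
  (hz 0).trans (A_le_tot hz 0)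

theorem A_T_nonneg (k : ℕ) {z : Fin 4 → ℝ} (hz : ∀ i, 0 ≤ z i) (i : Fin 4) : 0 ≤ A_T k z i := by
  rw [A_T, Matrix.mulVecLin_apply]
  simp only [Matrix.mulVec, dotProduct, Matrix.map_apply]
  exact Finset.sum_nonneg fun j _ => mul_nonneg (by simp) (hz j)

theorem A_L_nonneg (k : ℕ) {z : Fin 4 → ℝ} (hz : ∀ i, 0 ≤ z i) (i : Fin 4) : 0 ≤ A_L k z i := by
  rw [A_L, Matrix.mulVecLin_apply]
  simp only [Matrix.mulVec, dotProduct, Matrix.map_apply]
  exact Finset.sum_nonneg fun j _ => mul_nonneg (by simp) (hz j)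

theorem A_tot_T (k : ℕ) {z : Fin 4 → ℝ} (hz : ∀ i, 0 ≤ z i) : tot z ≤ tot (A_T k z) := by
  have h := A_le_tot (A_T_nonneg k hz) 3
  rw [A_T_apply, KM_three] at h
  rw [A_T_apply]
  exact h

theorem A_tot_L (k : ℕ) {z : Fin 4 → ℝ} (hz : ∀ i, 0 ≤ z i) : tot z ≤ tot (A_L k z) := by
  induction k generalizing z with
  | zero => rw [A_L_zero]
  | succ k ih =>
    rw [A_L_succ]
    exact (A_tot_T k hz).trans (ih (A_T_nonneg k hz))

theorem A_tot_L_le (k : ℕ) {z : Fin 4 → ℝ} (hz : ∀ i, 0 ≤ z i) :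
    tot (A_L k z) ≤ SM (MM k) * tot z := by
  have h : ∀ i, A_L k z i ≤ (∑ j, (MM k i j : ℝ)) * tot z := by
    intro i
    rw [A_L, Matrix.mulVecLin_apply, Finset.sum_mul]
    simp only [Matrix.mulVec, dotProduct, Matrix.map_apply]
    exact Finset.sum_le_sum fun j _ => mul_le_mul_of_nonneg_left (A_le_tot hz j) (by simp)
  have h0 := h 0; have h1 := h 1; have h2 := h 2; have h3 := h 3
  have e : (SM (MM k) : ℝ) = ∑ i, ∑ j, (MM k i j : ℝ) := by
    unfold SM; push_cast; rfl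
  rw [e, Fin.sum_univ_four]
  unfold tot at *
  nlinarith

/-! ### The columns -/

/-- The second column. -/
noncomputable def A_P (k : ℕ) : Fin 4 → ℝ := A_L k (Pi.single 1 1)

/-- The third column. -/
noncomputable def A_Q (k : ℕ) : Fin 4 → ℝ := A_L k (Pi.single 2 1)

theorem A_single_nonneg (i j : Fin 4) : 0 ≤ (Pi.single i 1 : Fin 4 → ℝ) j := by
  rw [Pi.single_apply]; split_ifs <;> norm_num

theorem A_tot_single (i : Fin 4) : tot (Pi.single i 1 : Fin 4 → ℝ) = 1 := by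
  fin_cases i <;> simp [tot]

theorem A_col_nonneg (k : ℕ) (i j : Fin 4) : 0 ≤ A_L k (Pi.single i 1) j :=
  A_L_nonneg k (A_single_nonneg i) j

theorem A_col_one_le (k : ℕ) (i : Fin 4) : 1 ≤ tot (A_L k (Pi.single i 1)) := by
  have := A_tot_L k (A_single_nonneg i)
  rwa [A_tot_single] at this

theorem A_col_le (k : ℕ) (i : Fin 4) : tot (A_L k (Pi.single i 1)) ≤ SM (MM k) := by
  have := A_tot_L_le k (A_single_nonneg i)
  rwa [A_tot_single, mul_one] at this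

theorem A_decomp (k : ℕ) (z : Fin 4 → ℝ) : A_L k z =
    z 0 • A_L k (Pi.single 0 1) + z 1 • A_L k (Pi.single 1 1) +
    z 2 • A_L k (Pi.single 2 1) + z 3 • A_L k (Pi.single 3 1) := by
  rw [← map_smul, ← map_smul, ← map_smul, ← map_smul, ← map_add, ← map_add, ← map_add]
  congr 1
  funext i
  fin_cases i <;> simp

theorem A_col0 (k : ℕ) : A_L (k + 1) (Pi.single 0 1) = A_P (k + 1) - A_P k := by
  rw [A_P, A_P, A_L_succ, A_L_succ, ← map_sub]
  congr 1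
  funext i
  simp only [A_T_apply, Pi.sub_apply]
  fin_cases i <;> simp [KM]

theorem A_col3 (k : ℕ) : A_L (k + 1) (Pi.single 3 1) = A_Q (k + 1) + A_Q k := by
  rw [A_Q, A_Q, A_L_succ, A_L_succ, ← map_add]
  congr 1
  funext i
  simp only [A_T_apply, Pi.add_apply]
  fin_cases i <;> simp [KM]

theorem A_P_succ (k : ℕ) : A_P (k + 1) =
    (mm k : ℝ) • A_P k + ((nn k : ℝ) • A_Q k + A_L k (Pi.single 3 1)) := by
  rw [A_P, A_P, A_Q, A_L_succ, A_decomp, A_T_apply]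
  simp [KM]
  abel

theorem A_Q_succ (k : ℕ) : A_Q (k + 1) =
    ((nn k : ℝ) - 1) • A_Q k + (A_L k (Pi.single 0 1) + A_L k (Pi.single 3 1)) := by
  rw [A_Q, A_Q, A_L_succ, A_decomp, A_T_apply]
  simp [KM]
  abel

/-! ### Growth -/

theorem A_S_one_le (k : ℕ) : (1 : ℝ) ≤ SM (MM k) := by exact_mod_cast A_SM_pos k

theorem A_nn_eq (k : ℕ) : (nn k : ℝ) = 2 ^ (k + 10) * SM (MM k) := by
  simp [nn, nOf]

theorem A_mm_eq (k : ℕ) : (mm k : ℝ) = 2 ^ (k + 10) * (nn k + 2) * SM (MM k) := by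
  simp [mm, mOf, nn]

theorem A_P_nonneg (k : ℕ) (i : Fin 4) : 0 ≤ A_P k i := A_col_nonneg k 1 i

theorem A_Q_nonneg (k : ℕ) (i : Fin 4) : 0 ≤ A_Q k i := A_col_nonneg k 2 i

theorem A_P_one (k : ℕ) : 1 ≤ tot (A_P k) := A_col_one_le k 1

theorem A_Q_one (k : ℕ) : 1 ≤ tot (A_Q k) := A_col_one_le k 2

theorem A_P_tot_succ (k : ℕ) : tot (A_P (k + 1)) =
    mm k * tot (A_P k) + (nn k * tot (A_Q k) + tot (A_L k (Pi.single 3 1))) := by
  rw [A_P_succ, A_tot_add, A_tot_add, A_tot_smul, A_tot_smul]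

theorem A_Q_tot_succ (k : ℕ) : tot (A_Q (k + 1)) =
    (nn k - 1) * tot (A_Q k) + (tot (A_L k (Pi.single 0 1)) + tot (A_L k (Pi.single 3 1))) := by
  rw [A_Q_succ, A_tot_add, A_tot_add, A_tot_smul]

theorem A_P_grow (k : ℕ) : mm k * tot (A_P k) ≤ tot (A_P (k + 1)) := by
  rw [A_P_tot_succ]
  have h1 := A_Q_one k
  have h2 := A_col_one_le k 3
  have : 0 ≤ (nn k : ℝ) * tot (A_Q k) := mul_nonneg (by positivity) (by linarith)
  linarith

theorem A_Q_grow (k : ℕ) : (nn k - 1) * tot (A_Q k) ≤ tot (A_Q (k + 1)) := by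
  rw [A_Q_tot_succ]
  have h1 := A_col_one_le k 0
  have h2 := A_col_one_le k 3
  linarith

theorem A_n_big (k : ℕ) : 2 ^ (k + 9) * (SM (MM k) : ℝ) ≤ nn k - 1 := by
  rw [A_nn_eq]
  have h1 := A_S_one_le k
  have h2 : (1 : ℝ) ≤ 2 ^ (k + 9) := one_le_pow₀ (by norm_num)
  have h3 : (2 : ℝ) ^ (k + 10) = 2 * 2 ^ (k + 9) := by ring
  rw [h3]
  nlinarith

theorem A_m_big (k : ℕ) : (2 : ℝ) ^ (k + 9) ≤ mm k - 1 := by
  rw [A_mm_eq]
  have h1 := A_S_one_le k
  have h2 : (1 : ℝ) ≤ 2 ^ (k + 9) := one_le_pow₀ (by norm_num)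
  have h3 : (2 : ℝ) ^ (k + 10) = 2 * 2 ^ (k + 9) := by ring
  have h4 : (2 : ℝ) ≤ nn k + 2 := by have : (0 : ℝ) ≤ nn k := by positivity
                                     linarith
  rw [h3]
  have h5 : (2 : ℝ) ≤ (nn k + 2) * SM (MM k) := by nlinarith
  nlinarith

theorem A_P_ratio (k : ℕ) :
    tot (A_P k) - A_P k 1 ≤ 1 / 4 * (1 - (1 / 2) ^ k) * tot (A_P k) := by
  induction k with
  | zero => simp [A_P, A_L_zero, A_tot_single]
  | succ k ih =>
    have g := A_P_tot_succ k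
    have e : A_P (k + 1) 1 = mm k * A_P k 1 + (nn k * A_Q k 1 + A_L k (Pi.single 3 1) 1) := by
      rw [A_P_succ]; simp
    have n1 := A_Q_nonneg k 1
    have n2 := A_col_nonneg k 3 1
    have p1 := A_P_one k
    have b1 : tot (A_Q k) ≤ SM (MM k) := A_col_le k 2
    have b2 : tot (A_L k (Pi.single 3 1)) ≤ SM (MM k) := A_col_le k 3
    have gr := A_P_grow k
    have hS := A_S_one_le k
    have hm := A_mm_eq k
    have hnn : (0 : ℝ) ≤ nn k := by positivity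
    have hmm : (0 : ℝ) ≤ mm k := by positivity
    -- error term
    have b3 : (nn k : ℝ) * tot (A_Q k) ≤ nn k * SM (MM k) := mul_le_mul_of_nonneg_left b1 hnn
    have b4 : 0 ≤ (nn k : ℝ) * A_Q k 1 := mul_nonneg hnn n1
    have c1 : (1 : ℝ) / 2 ^ (k + 1) * mm k = 2 ^ 9 * (nn k + 2) * SM (MM k) := by
      rw [hm]
      have : (2 : ℝ) ^ (k + 10) = 2 ^ (k + 1) * 2 ^ 9 := by ring
      rw [this]
      have h0 : (2 : ℝ) ^ (k + 1) ≠ 0 := by positivity
      field_simp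
    have c2 : ((1 : ℝ) / 2) ^ (k + 1) = 1 / 2 ^ (k + 1) := by rw [div_pow, one_pow]
    have c3 : ((1 : ℝ) / 2) ^ k = 2 * (1 / 2) ^ (k + 1) := by ring
    have d1 : (mm k : ℝ) * (tot (A_P k) - A_P k 1) ≤
        mm k * (1 / 4 * (1 - (1 / 2) ^ k) * tot (A_P k)) := mul_le_mul_of_nonneg_left ih hmm
    have d2 : 1 / 4 * (1 - (1 / 2) ^ (k + 1)) * (mm k * tot (A_P k)) ≤
        1 / 4 * (1 - (1 / 2) ^ (k + 1)) * tot (A_P (k + 1)) := by
      apply mul_le_mul_of_nonneg_left gr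
      have : ((1 : ℝ) / 2) ^ (k + 1) ≤ 1 := pow_le_one₀ (by norm_num) (by norm_num)
      linarith
    have d3 : 2 ^ 9 * (nn k + 2) * (SM (MM k) : ℝ) ≤ 1 / 2 ^ (k + 1) * mm k * tot (A_P k) := by
      rw [← c1]
      exact le_mul_of_one_le_right (by positivity) p1
    have d4 : (nn k + 2) * (SM (MM k) : ℝ) = nn k * SM (MM k) + 2 * SM (MM k) := by ring
    have d5 : 0 ≤ (nn k + 2) * (SM (MM k) : ℝ) := by positivity
    rw [c2] at d2 ⊢
    rw [c3, c2] at d1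
    set ε : ℝ := 1 / 2 ^ (k + 1) with hε
    have f1 : (mm k : ℝ) * (1 / 4 * (1 - 2 * ε) * tot (A_P k)) =
        1 / 4 * (mm k * tot (A_P k)) - 1 / 2 * (ε * mm k * tot (A_P k)) := by ring
    have f2 : 1 / 4 * (1 - ε) * (mm k * tot (A_P k)) =
        1 / 4 * (mm k * tot (A_P k)) - 1 / 4 * (ε * mm k * tot (A_P k)) := by ring
    have f3 : (mm k : ℝ) * (tot (A_P k) - A_P k 1) =
        (mm k : ℝ) * tot (A_P k) - (mm k : ℝ) * A_P k 1 := by ring
    rw [f1, f3] at d1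
    rw [f2] at d2
    refine le_trans ?_ d2
    rw [g, e]
    linarith

theorem A_Q_ratio (k : ℕ) :
    tot (A_Q k) - A_Q k 2 ≤ 1 / 4 * (1 - (1 / 2) ^ k) * tot (A_Q k) := by
  induction k with
  | zero => simp [A_Q, A_L_zero, A_tot_single]
  | succ k ih =>
    have g := A_Q_tot_succ k
    have e : A_Q (k + 1) 2 = (nn k - 1) * A_Q k 2 +
        (A_L k (Pi.single 0 1) 2 + A_L k (Pi.single 3 1) 2) := by
      rw [A_Q_succ]; simp
    have n1 := A_col_nonneg k 0 2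
    have n2 := A_col_nonneg k 3 2
    have p1 := A_Q_one k
    have b1 : tot (A_L k (Pi.single 0 1)) ≤ SM (MM k) := A_col_le k 0
    have b2 : tot (A_L k (Pi.single 3 1)) ≤ SM (MM k) := A_col_le k 3
    have gr := A_Q_grow k
    have hS := A_S_one_le k
    have hm := A_n_big k
    have hnn : (0 : ℝ) ≤ nn k - 1 := le_trans (by positivity) hm
    have c1 : 2 ^ 8 * (SM (MM k) : ℝ) ≤ 1 / 2 ^ (k + 1) * (nn k - 1) := by
      calc 2 ^ 8 * (SM (MM k) : ℝ) = 1 / 2 ^ (k + 1) * (2 ^ (k + 9) * (SM (MM k) : ℝ)) := by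
            have : (2 : ℝ) ^ (k + 9) = 2 ^ (k + 1) * 2 ^ 8 := by ring
            rw [this]
            have h0 : (2 : ℝ) ^ (k + 1) ≠ 0 := by positivity
            field_simp
        _ ≤ _ := mul_le_mul_of_nonneg_left hm (by positivity)
    have c2 : ((1 : ℝ) / 2) ^ (k + 1) = 1 / 2 ^ (k + 1) := by rw [div_pow, one_pow]
    have c3 : ((1 : ℝ) / 2) ^ k = 2 * (1 / 2) ^ (k + 1) := by ring
    have d1 : (nn k - 1 : ℝ) * (tot (A_Q k) - A_Q k 2) ≤
        (nn k - 1) * (1 / 4 * (1 - (1 / 2) ^ k) * tot (A_Q k)) := mul_le_mul_of_nonneg_left ih hnn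
    have d2 : 1 / 4 * (1 - (1 / 2) ^ (k + 1)) * ((nn k - 1) * tot (A_Q k)) ≤
        1 / 4 * (1 - (1 / 2) ^ (k + 1)) * tot (A_Q (k + 1)) := by
      apply mul_le_mul_of_nonneg_left gr
      have : ((1 : ℝ) / 2) ^ (k + 1) ≤ 1 := pow_le_one₀ (by norm_num) (by norm_num)
      linarith
    have d3 : (1 : ℝ) / 2 ^ (k + 1) * (nn k - 1) ≤ 1 / 2 ^ (k + 1) * (nn k - 1) * tot (A_Q k) :=
      le_mul_of_one_le_right (mul_nonneg (by positivity) hnn) p1
    rw [c2] at d2 ⊢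
    rw [c3, c2] at d1
    set ε : ℝ := 1 / 2 ^ (k + 1) with hε
    have f1 : (nn k - 1 : ℝ) * (1 / 4 * (1 - 2 * ε) * tot (A_Q k)) =
        1 / 4 * ((nn k - 1) * tot (A_Q k)) - 1 / 2 * (ε * (nn k - 1) * tot (A_Q k)) := by ring
    have f2 : 1 / 4 * (1 - ε) * ((nn k - 1) * tot (A_Q k)) =
        1 / 4 * ((nn k - 1) * tot (A_Q k)) - 1 / 4 * (ε * (nn k - 1) * tot (A_Q k)) := by ring
    have f3 : (nn k - 1 : ℝ) * (tot (A_Q k) - A_Q k 2) =
        (nn k - 1 : ℝ) * tot (A_Q k) - (nn k - 1 : ℝ) * A_Q k 2 := by ring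
    rw [f1, f3] at d1
    rw [f2] at d2
    refine le_trans ?_ d2
    rw [g, e]
    linarith

/-! ### Limits -/

/-- Composition of the steps `k, k+1, …, k+n-1`. -/
noncomputable def A_D : ℕ → ℕ → (Fin 4 → ℝ) → (Fin 4 → ℝ)
  | _, 0, w => w
  | k, n + 1, w => A_T k (A_D (k + 1) n w)

theorem A_D_nonneg (n k : ℕ) {w : Fin 4 → ℝ} (hw : ∀ i, 0 ≤ w i) (i : Fin 4) :
    0 ≤ A_D k n w i := by
  induction n generalizing k i with
  | zero => exact hw i
  | succ n ih => exact A_T_nonneg k (fun j => ih (k + 1) j) i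

theorem A_L_D (n k : ℕ) (w : Fin 4 → ℝ) : A_L (k + n) w = A_L k (A_D k n w) := by
  induction n generalizing k with
  | zero => rfl
  | succ n ih =>
    rw [show k + (n + 1) = (k + 1) + n by omega, ih (k + 1), A_L_succ]
    rfl

theorem A_seq {s : ℕ → Fin 4 → ℝ} (hs : ∀ k, s k = KM (mm k) (nn k) (s (k + 1))) (k : ℕ) :
    s 0 = A_L k (s k) := by
  induction k with
  | zero => rw [A_L_zero]
  | succ k ih => rw [ih, A_L_succ, A_T_apply, ← hs k]

theorem A_pos_of_nonneg {s : ℕ → Fin 4 → ℝ} (hs : ∀ k, s k = KM (mm k) (nn k) (s (k + 1)))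
    (h0 : ∀ k i, 0 ≤ s k i) (h1 : tot (s 0) = 1) (k : ℕ) (i : Fin 4) : 0 < s k i := by
  have ht : ∀ k, 0 < tot (s k) := by
    intro k
    rcases (A_tot_nonneg (h0 k)).lt_or_eq with h | h
    · exact h
    · have := A_tot_L_le k (h0 k)
      rw [← A_seq hs k, h1, ← h, mul_zero] at this
      linarith
  have hm := A_mm_ge k
  have hn := A_nn_ge k
  have hm2 := A_mm_ge (k + 1)
  have hn2 := A_nn_ge (k + 1)
  have hmR : (2 : ℝ) ≤ mm k := by exact_mod_cast hm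
  have hnR : (1024 : ℝ) ≤ nn k := by exact_mod_cast hn
  have hmR2 : (2 : ℝ) ≤ mm (k + 1) := by exact_mod_cast hm2
  have hnR2 : (1024 : ℝ) ≤ nn (k + 1) := by exact_mod_cast hn2
  have e1 := hs (k + 1)
  have t2 := ht (k + 2)
  have t1 := ht (k + 1)
  have z0 := h0 (k + 2) 0
  have z1 := h0 (k + 2) 1
  have z2 := h0 (k + 2) 2
  have z3 := h0 (k + 2) 3
  have u0 := h0 (k + 1) 0
  have u1 := h0 (k + 1) 1
  have u2 := h0 (k + 1) 2
  have u3 := h0 (k + 1) 3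
  have e3 : s (k + 1) 3 = tot (s (k + 2)) := by rw [e1]; rfl
  have e0 : s (k + 1) 0 = s (k + 2) 2 + s (k + 2) 3 := by rw [e1]; rfl
  have e11 : s (k + 1) 1 = (mm (k + 1) - 1) * s (k + 2) 0 + mm (k + 1) * s (k + 2) 1 := by
    rw [e1]; rfl
  have e2 : s (k + 1) 2 = nn (k + 1) * (s (k + 2) 0 + s (k + 2) 1 + s (k + 2) 3) +
      (nn (k + 1) - 1) * s (k + 2) 2 := by
    rw [e1]; rfl
  have p3 : 0 < s (k + 1) 3 := by rw [e3]; exact t2
  have p01 : 0 < s (k + 1) 0 + s (k + 1) 1 := by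
    rw [e0, e11]
    unfold tot at t2
    have a1 : s (k + 2) 0 ≤ (mm (k + 1) - 1) * s (k + 2) 0 :=
      le_mul_of_one_le_left z0 (by linarith)
    have a2 : s (k + 2) 1 ≤ mm (k + 1) * s (k + 2) 1 := le_mul_of_one_le_left z1 (by linarith)
    linarith
  fin_cases i
  · change 0 < s k 0
    rw [hs k, KM_zero]; linarith
  · change 0 < s k 1
    rw [hs k, KM_one]
    have a1 : s (k + 1) 0 ≤ (mm k - 1) * s (k + 1) 0 := le_mul_of_one_le_left u0 (by linarith)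
    have a2 : s (k + 1) 1 ≤ mm k * s (k + 1) 1 := le_mul_of_one_le_left u1 (by linarith)
    linarith
  · change 0 < s k 2
    rw [hs k, KM_two]
    have a1 : 0 < (nn k : ℝ) * (s (k + 1) 0 + s (k + 1) 1 + s (k + 1) 3) :=
      mul_pos (by linarith) (by linarith)
    have a2 : 0 ≤ (nn k - 1 : ℝ) * s (k + 1) 2 := mul_nonneg (by linarith) u2
    linarith
  · change 0 < s k 3
    rw [hs k, KM_three]; linarith

theorem A_bdd_lim (u : ℕ → Fin 4 → ℝ) (k : ℕ) (h : ∀ j, k ≤ j → ∀ i, 0 ≤ u j i ∧ u j i ≤ 1) :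
    ∃ x : Fin 4 → ℝ, (∀ i, 0 ≤ x i) ∧ Tendsto u (hyperfilter ℕ) (𝓝 x) := by
  have hc : IsCompact (Icc (0 : Fin 4 → ℝ) 1) := isCompact_Icc
  have hle : ((hyperfilter ℕ).map u : Filter (Fin 4 → ℝ)) ≤ 𝓟 (Icc (0 : Fin 4 → ℝ) 1) := by
    rw [le_principal_iff]
    have : ∀ᶠ j in (hyperfilter ℕ : Filter ℕ), u j ∈ Icc (0 : Fin 4 → ℝ) 1 := by
      have h2 : ∀ᶠ j in atTop, u j ∈ Icc (0 : Fin 4 → ℝ) 1 := by
        filter_upwards [eventually_ge_atTop k] with j hj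
        exact ⟨fun i => (h j hj i).1, fun i => (h j hj i).2⟩
      exact h2.filter_mono Nat.hyperfilter_le_atTop
    exact this
  obtain ⟨x, hx, hx2⟩ := hc.ultrafilter_le_nhds _ hle
  exact ⟨x, fun i => hx.1 i, hx2⟩

theorem A_bdd_lim' (u : ℕ → ℝ) (C : ℝ) (h : ∀ j, 0 ≤ u j ∧ u j ≤ C) :
    ∃ x : ℝ, Tendsto u (hyperfilter ℕ) (𝓝 x) := by
  have hc : IsCompact (Icc (0 : ℝ) C) := isCompact_Icc
  have hle : ((hyperfilter ℕ).map u : Filter ℝ) ≤ 𝓟 (Icc (0 : ℝ) C) := by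
    rw [le_principal_iff]
    have : ∀ᶠ j in (hyperfilter ℕ : Filter ℕ), u j ∈ Icc (0 : ℝ) C :=
      Filter.Eventually.of_forall h
    exact this
  obtain ⟨x, hx, hx2⟩ := hc.ultrafilter_le_nhds _ hle
  exact ⟨x, hx2⟩

theorem A_limit (w : Fin 4 → ℝ) (hw : ∀ i, 0 ≤ w i) (hw1 : tot w = 1) :
    ∃ x, Keane x ∧ tot x = 1 ∧
      Tendsto (fun j => (tot (A_L j w))⁻¹ • A_L j w) (hyperfilter ℕ) (𝓝 x) := by
  have hpos : ∀ j, 0 < tot (A_L j w) := by
    intro j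
    have := A_tot_L j hw
    rw [hw1] at this
    linarith
  set u : ℕ → ℕ → Fin 4 → ℝ := fun k j => (tot (A_L j w))⁻¹ • A_D k (j - k) w with hu
  have hub : ∀ k j, k ≤ j → ∀ i, 0 ≤ u k j i ∧ u k j i ≤ 1 := by
    intro k j hkj
    have n1 : ∀ i, 0 ≤ u k j i := fun i =>
      mul_nonneg (inv_nonneg.2 (hpos j).le) (A_D_nonneg _ _ hw i)
    intro i
    refine ⟨n1 i, (A_le_tot n1 i).trans ((A_tot_L k n1).trans (le_of_eq ?_))⟩
    rw [hu]
    simp only
    rw [map_smul, ← A_L_D, Nat.add_sub_cancel' hkj, A_tot_smul, inv_mul_cancel₀ (hpos j).ne']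
  choose s hs0 hs using fun k => A_bdd_lim (u k) k (hub k)
  have hrec : ∀ k, s k = KM (mm k) (nn k) (s (k + 1)) := by
    intro k
    rw [← A_T_apply]
    have t1 : Tendsto (fun j => A_T k (u (k + 1) j)) (hyperfilter ℕ) (𝓝 (A_T k (s (k + 1)))) :=
      ((A_T k).continuous_of_finiteDimensional.tendsto _).comp (hs (k + 1))
    refine tendsto_nhds_unique (hs k) (t1.congr' ?_)
    have h2 : ∀ᶠ j in atTop, A_T k (u (k + 1) j) = u k j := by
      filter_upwards [eventually_ge_atTop (k + 1)] with j hj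
      simp only [hu]
      rw [map_smul]
      obtain ⟨n, rfl⟩ := Nat.exists_eq_add_of_le hj
      rw [show k + 1 + n - (k + 1) = n by omega, show k + 1 + n - k = n + 1 by omega]
      rfl
    exact h2.filter_mono Nat.hyperfilter_le_atTop
  have hlim : Tendsto (fun j => (tot (A_L j w))⁻¹ • A_L j w) (hyperfilter ℕ) (𝓝 (s 0)) := by
    refine (hs 0).congr fun j => ?_
    simp only [hu]
    have := A_L_D j 0 w
    rw [A_L_zero, zero_add] at this
    rw [this, Nat.sub_zero]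
  have htot : tot (s 0) = 1 := by
    have hc : Continuous tot := by unfold tot; fun_prop
    refine tendsto_nhds_unique ((hc.tendsto _).comp hlim) ?_
    refine tendsto_const_nhds.congr fun j => ?_
    simp only [Function.comp]
    rw [A_tot_smul, inv_mul_cancel₀ (hpos j).ne']
  exact ⟨s 0, ⟨s, rfl, A_pos_of_nonneg hrec hs0 htot, hrec⟩, htot, hlim⟩

theorem A_Keane_comb {x y : Fin 4 → ℝ} (hx : Keane x) (hy : Keane y) {a b : ℝ} (ha : 0 ≤ a)
    (hb : 0 ≤ b) (hab : 0 < a + b) : Keane (a • x + b • y) := by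
  obtain ⟨s, rfl, hs1, hs2⟩ := hx
  obtain ⟨t, rfl, ht1, ht2⟩ := hy
  refine ⟨fun k => a • s k + b • t k, rfl, fun k α => ?_, fun k => ?_⟩
  · simp only [Pi.add_apply, Pi.smul_apply, smul_eq_mul]
    have h1 := hs1 k α
    have h2 := ht1 k α
    rcases ha.lt_or_eq with h | h
    · have := mul_pos h h1
      have := mul_nonneg hb h2.le
      linarith
    · have := mul_pos (show 0 < b by linarith) h2
      have := mul_nonneg ha h1.le
      linarith
  · simp only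
    rw [← A_T_apply, map_add, map_smul, map_smul, A_T_apply, A_T_apply, ← hs2 k, ← ht2 k]

theorem A_approx {s : ℕ → Fin 4 → ℝ} (hs : ∀ k, s k = KM (mm k) (nn k) (s (k + 1)))
    (h0 : ∀ k i, 0 < s k i) (k : ℕ) : ∃ a b : ℝ, (0 ≤ a ∧ a ≤ 3 * tot (s 0)) ∧
      (0 ≤ b ∧ b ≤ 3 * tot (s 0)) ∧
      ∀ i, |s 0 i - (a * ((tot (A_P (k + 1)))⁻¹ * A_P (k + 1) i) +
        b * ((tot (A_Q (k + 1)))⁻¹ * A_Q (k + 1) i))| ≤ 2 * tot (s 0) * (1 / 2) ^ k := by
  have e := A_seq hs (k + 1)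
  have e2 := A_decomp (k + 1) (s (k + 1))
  rw [← e, A_col0, A_col3] at e2
  change s 0 = s (k + 1) 0 • (A_P (k + 1) - A_P k) + s (k + 1) 1 • A_P (k + 1) +
    s (k + 1) 2 • A_Q (k + 1) + s (k + 1) 3 • (A_Q (k + 1) + A_Q k) at e2
  have c0 := (h0 (k + 1) 0).le
  have c1 := (h0 (k + 1) 1).le
  have c2 := (h0 (k + 1) 2).le
  have c3 := (h0 (k + 1) 3).le
  set d0 := s (k + 1) 0 with hd0
  set d1 := s (k + 1) 1 with hd1
  set d2 := s (k + 1) 2 with hd2
  set d3 := s (k + 1) 3 with hd3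
  have et : tot (s 0) = d0 * (tot (A_P (k + 1)) - tot (A_P k)) + d1 * tot (A_P (k + 1)) +
      d2 * tot (A_Q (k + 1)) + d3 * (tot (A_Q (k + 1)) + tot (A_Q k)) := by
    rw [e2, A_tot_add, A_tot_add, A_tot_add, A_tot_smul, A_tot_smul, A_tot_smul, A_tot_smul,
      A_tot_add, A_tot_sub]
  have p1 := A_P_one k
  have q1 := A_Q_one k
  have p1' := A_P_one (k + 1)
  have q1' := A_Q_one (k + 1)
  have gp := A_P_grow k
  have gq := A_Q_grow k
  have hm := A_m_big k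
  have hn := A_n_big k
  have hS := A_S_one_le k
  have h2k : (1 : ℝ) ≤ 2 ^ k := one_le_pow₀ (by norm_num)
  have hm' : 2 * 2 ^ k ≤ (mm k : ℝ) - 1 := by
    refine le_trans ?_ hm
    rw [pow_add]
    nlinarith
  have hn' : 2 * 2 ^ k ≤ (nn k : ℝ) - 1 := by
    refine le_trans ?_ hn
    rw [pow_add]
    nlinarith
  have g1 : 2 * 2 ^ k * tot (A_P k) ≤ tot (A_P (k + 1)) - tot (A_P k) := by
    have := mul_le_mul_of_nonneg_right hm' (show 0 ≤ tot (A_P k) by linarith)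
    linarith
  have g2 : 2 * 2 ^ k * tot (A_Q k) ≤ tot (A_Q (k + 1)) := by
    have := mul_le_mul_of_nonneg_right hn' (show 0 ≤ tot (A_Q k) by linarith)
    linarith
  have g3 : tot (A_P k) ≤ tot (A_P (k + 1)) - tot (A_P k) := by
    refine le_trans ?_ g1
    exact le_mul_of_one_le_left (by linarith) (by linarith)
  have k0 : 0 ≤ d0 * (tot (A_P (k + 1)) - tot (A_P k)) := mul_nonneg c0 (by linarith)
  have k1 : 0 ≤ d1 * tot (A_P (k + 1)) := mul_nonneg c1 (by linarith)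
  have k2 : 0 ≤ d2 * tot (A_Q (k + 1)) := mul_nonneg c2 (by linarith)
  have k3 : 0 ≤ d3 * tot (A_Q (k + 1)) := mul_nonneg c3 (by linarith)
  have k4 : 0 ≤ d3 * tot (A_Q k) := mul_nonneg c3 (by linarith)
  have k5 : 0 ≤ d0 * tot (A_P k) := mul_nonneg c0 (by linarith)
  have k6 : d0 * tot (A_P k) ≤ d0 * (tot (A_P (k + 1)) - tot (A_P k)) :=
    mul_le_mul_of_nonneg_left g3 c0
  have k7 : d0 * (2 * 2 ^ k * tot (A_P k)) ≤ d0 * (tot (A_P (k + 1)) - tot (A_P k)) :=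
    mul_le_mul_of_nonneg_left g1 c0
  have k8 : d3 * (2 * 2 ^ k * tot (A_Q k)) ≤ d3 * tot (A_Q (k + 1)) :=
    mul_le_mul_of_nonneg_left g2 c3
  refine ⟨(d0 + d1) * tot (A_P (k + 1)), (d2 + d3) * tot (A_Q (k + 1)),
    ⟨mul_nonneg (by linarith) (by linarith), by linarith⟩,
    ⟨mul_nonneg (by linarith) (by linarith), by linarith⟩, fun i => ?_⟩
  have e3 : s 0 i - ((d0 + d1) * tot (A_P (k + 1)) * ((tot (A_P (k + 1)))⁻¹ * A_P (k + 1) i) +
        (d2 + d3) * tot (A_Q (k + 1)) * ((tot (A_Q (k + 1)))⁻¹ * A_Q (k + 1) i)) =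
      d3 * A_Q k i - d0 * A_P k i := by
    have hp : tot (A_P (k + 1)) ≠ 0 := by linarith
    have hq : tot (A_Q (k + 1)) ≠ 0 := by linarith
    have := congrFun e2 i
    simp only [Pi.add_apply, Pi.smul_apply, Pi.sub_apply, smul_eq_mul] at this
    rw [this]
    field_simp
    ring
  rw [e3]
  have l1 : 0 ≤ d3 * A_Q k i := mul_nonneg c3 (A_Q_nonneg k i)
  have l2 : 0 ≤ d0 * A_P k i := mul_nonneg c0 (A_P_nonneg k i)
  have l3 : d3 * A_Q k i ≤ d3 * tot (A_Q k) :=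
    mul_le_mul_of_nonneg_left (A_le_tot (A_Q_nonneg k) i) c3
  have l4 : d0 * A_P k i ≤ d0 * tot (A_P k) :=
    mul_le_mul_of_nonneg_left (A_le_tot (A_P_nonneg k) i) c0
  have l5 : 2 ^ k * (d3 * tot (A_Q k) + d0 * tot (A_P k)) ≤ tot (s 0) := by linarith
  have l6 : d3 * tot (A_Q k) + d0 * tot (A_P k) ≤ tot (s 0) * (1 / 2) ^ k := by
    rw [div_pow, one_pow, mul_one_div, le_div_iff₀ (by positivity)]
    linarith
  have l7 : 0 ≤ tot (s 0) * (1 / 2) ^ k := by linarith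
  rw [abs_le]
  constructor <;> linarith

theorem A_exists_lam : ∃ lam v : Fin 4 → ℝ, tot lam = 1 ∧ tot v = 0 ∧ v ≠ 0 ∧
    (∀ t : ℝ, |t| ≤ 1 → Keane (lam + t • v)) ∧
    ∀ l, Keane l → tot l = 1 → ∃ t : ℝ, l = lam + t • v := by
  obtain ⟨x, hxK, hx1, hx⟩ := A_limit (Pi.single 1 1) (A_single_nonneg 1) (A_tot_single 1)
  obtain ⟨y, hyK, hy1, hy⟩ := A_limit (Pi.single 2 1) (A_single_nonneg 2) (A_tot_single 2)
  change Tendsto (fun j => (tot (A_P j))⁻¹ • A_P j) _ _ at hx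
  change Tendsto (fun j => (tot (A_Q j))⁻¹ • A_Q j) _ _ at hy
  have hxi : ∀ i, Tendsto (fun j => (tot (A_P j))⁻¹ * A_P j i) (hyperfilter ℕ) (𝓝 (x i)) :=
    fun i => (tendsto_pi_nhds.1 hx i)
  have hyi : ∀ i, Tendsto (fun j => (tot (A_Q j))⁻¹ * A_Q j i) (hyperfilter ℕ) (𝓝 (y i)) :=
    fun i => (tendsto_pi_nhds.1 hy i)
  have hx34 : 3 / 4 ≤ x 1 := by
    refine ge_of_tendsto (hxi 1) (Filter.Eventually.of_forall fun j => ?_)
    have h1 := A_P_ratio j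
    have h2 := A_P_one j
    have h3 : (0 : ℝ) ≤ (1 / 2) ^ j := by positivity
    rw [inv_mul_eq_div, le_div_iff₀ (by linarith)]
    nlinarith
  have hy34 : 3 / 4 ≤ y 2 := by
    refine ge_of_tendsto (hyi 2) (Filter.Eventually.of_forall fun j => ?_)
    have h1 := A_Q_ratio j
    have h2 := A_Q_one j
    have h3 : (0 : ℝ) ≤ (1 / 2) ^ j := by positivity
    rw [inv_mul_eq_div, le_div_iff₀ (by linarith)]
    nlinarith
  have hxpos : ∀ i, 0 < x i := by
    obtain ⟨s, hs, hp, _⟩ := hxK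
    intro i; rw [← hs]; exact hp 0 i
  have hypos : ∀ i, 0 < y i := by
    obtain ⟨s, hs, hp, _⟩ := hyK
    intro i; rw [← hs]; exact hp 0 i
  refine ⟨(1 / 2 : ℝ) • x + (1 / 2 : ℝ) • y, (-(1 / 2) : ℝ) • x + (1 / 2 : ℝ) • y, ?_, ?_, ?_,
    ?_, ?_⟩
  · rw [A_tot_add, A_tot_smul, A_tot_smul, hx1, hy1]; norm_num
  · rw [A_tot_add, A_tot_smul, A_tot_smul, hx1, hy1]; norm_num
  · intro h
    have h1 := congrFun h 1
    simp only [Pi.add_apply, Pi.smul_apply, smul_eq_mul, Pi.zero_apply] at h1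
    have h0 := hypos 0
    have h3 := hypos 3
    unfold tot at hy1
    linarith
  · intro t ht
    rw [abs_le] at ht
    have := A_Keane_comb hxK hyK (a := (1 - t) / 2) (b := (1 + t) / 2) (by linarith)
      (by linarith) (by linarith)
    convert this using 1
    funext i
    simp only [Pi.add_apply, Pi.smul_apply, smul_eq_mul]
    ring
  · rintro l ⟨s, rfl, hp, hs⟩ hl
    choose a b ha hb hab using A_approx hs hp
    obtain ⟨a', ha'⟩ := A_bdd_lim' (fun k => a (k - 1)) _ fun k => ha (k - 1)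
    obtain ⟨b', hb'⟩ := A_bdd_lim' (fun k => b (k - 1)) _ fun k => hb (k - 1)
    have key : ∀ i, s 0 i = a' * x i + b' * y i := by
      intro i
      have t1 : Tendsto (fun k => s 0 i - (a (k - 1) * ((tot (A_P k))⁻¹ * A_P k i) +
          b (k - 1) * ((tot (A_Q k))⁻¹ * A_Q k i))) (hyperfilter ℕ)
          (𝓝 (s 0 i - (a' * x i + b' * y i))) :=
        tendsto_const_nhds.sub ((ha'.mul (hxi i)).add (hb'.mul (hyi i)))
      have t2 : Tendsto (fun k : ℕ => 4 * tot (s 0) * (1 / 2 : ℝ) ^ k) (hyperfilter ℕ)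
          (𝓝 (4 * tot (s 0) * 0)) :=
        ((tendsto_pow_atTop_nhds_zero_of_lt_one (by norm_num) (by norm_num)).const_mul
          _).mono_left Nat.hyperfilter_le_atTop
      have t3 : |s 0 i - (a' * x i + b' * y i)| ≤ 4 * tot (s 0) * 0 := by
        refine le_of_tendsto_of_tendsto t1.abs t2 ?_
        have : ∀ᶠ k in atTop, |s 0 i - (a (k - 1) * ((tot (A_P k))⁻¹ * A_P k i) +
          b (k - 1) * ((tot (A_Q k))⁻¹ * A_Q k i))| ≤ 4 * tot (s 0) * (1 / 2 : ℝ) ^ k := by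
          filter_upwards [eventually_ge_atTop 1] with k hk
          obtain ⟨n, rfl⟩ := Nat.exists_eq_add_of_le' hk
          have := hab n i
          rw [Nat.add_sub_cancel]
          refine this.trans (le_of_eq ?_)
          ring
        exact this.filter_mono Nat.hyperfilter_le_atTop
      rw [mul_zero] at t3
      have := abs_nonpos_iff.1 t3
      linarith
    have hab1 : a' + b' = 1 := by
      have h : tot (s 0) = a' * tot x + b' * tot y := by
        unfold tot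
        rw [key 0, key 1, key 2, key 3]; ring
      rw [hl, hx1, hy1] at h
      linarith
    refine ⟨b' - a', ?_⟩
    funext i
    rw [key i]
    simp only [Pi.add_apply, Pi.smul_apply, smul_eq_mul]
    have : a' = 1 - b' := by linarith
    rw [this]
    ring

end Pool.Agent.Helper160IEM
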