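import Mathlib
import Pool.Agent.Helper160IEM.B1

set_option autoImplicit false
set_option linter.unusedSimpArgs false

/-!
Module A2: a frame of the tangent space.
-/

namespace Pool.Agent.Helper160IEM

open Set Filter Topology MeasureTheory

/-- `tot` as a linear map. -/
noncomputable def A2_totL : (Fin 4 → ℝ) →ₗ[ℝ] ℝ where
  toFun := tot
  map_add' := fun x y => by simp only [tot, Pi.add_apply]; ring
  map_smul' := fun c x => by simp only [tot, Pi.smul_apply, smul_eq_mul, RingHom.id_apply]; ring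

theorem A2_totL_apply (z : Fin 4 → ℝ) : A2_totL z = tot z := rfl

theorem A2_aux (i j k l : Fin 4) (hij : i ≠ j) (hik : i ≠ k) (hil : i ≠ l) (hjk : j ≠ k)
    (hjl : j ≠ l) (hkl : k ≠ l) (htot : ∀ z : Fin 4 → ℝ, tot z = z i + z j + z k + z l)
    (hcov : ∀ x : Fin 4, x = i ∨ x = j ∨ x = k ∨ x = l)
    (lam v : Fin 4 → ℝ) (hl : tot lam = 1) (hv : tot v = 0) (hv0 : v i ≠ 0) :
    ∃ (w1 w2 : Fin 4 → ℝ) (c1 c2 om : (Fin 4 → ℝ) →ₗ[ℝ] ℝ),
      tot w1 = 0 ∧ tot w2 = 0 ∧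
      (c1 w1 = 1 ∧ c1 w2 = 0 ∧ c1 v = 0 ∧ c1 lam = 0) ∧
      (c2 w1 = 0 ∧ c2 w2 = 1 ∧ c2 v = 0 ∧ c2 lam = 0) ∧
      (om w1 = 0 ∧ om w2 = 0 ∧ om v = 1 ∧ om lam = 0) ∧
      ∀ z, tot z = 0 → z = c1 z • w1 + c2 z • w2 + om z • v := by
  let P : (Fin 4 → ℝ) →ₗ[ℝ] (Fin 4 → ℝ) := LinearMap.id - A2_totL.smulRight lam
  have hP : ∀ z, P z = z - tot z • lam := by
    intro z
    simp [P, A2_totL_apply]
  let w1 : Fin 4 → ℝ := Pi.single j 1 - Pi.single l 1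
  let w2 : Fin 4 → ℝ := Pi.single k 1 - Pi.single l 1
  let om : (Fin 4 → ℝ) →ₗ[ℝ] ℝ := (v i)⁻¹ • ((LinearMap.proj i) ∘ₗ P)
  let c1 : (Fin 4 → ℝ) →ₗ[ℝ] ℝ := ((LinearMap.proj j) ∘ₗ P) - (v j) • om
  let c2 : (Fin 4 → ℝ) →ₗ[ℝ] ℝ := ((LinearMap.proj k) ∘ₗ P) - (v k) • om
  have hom : ∀ z, om z = (v i)⁻¹ * P z i := fun z => rfl
  have hc1 : ∀ z, c1 z = P z j - v j * om z := fun z => rfl
  have hc2 : ∀ z, c2 z = P z k - v k * om z := fun z => rfl
  have w1i : w1 i = 0 := by simp [w1, Pi.single_apply, hij, hil]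
  have w1j : w1 j = 1 := by simp [w1, Pi.single_apply, hjl]
  have w1k : w1 k = 0 := by simp [w1, Pi.single_apply, hjk.symm, hkl]
  have w1l : w1 l = -1 := by simp [w1, Pi.single_apply, hjl.symm]
  have w2i : w2 i = 0 := by simp [w2, Pi.single_apply, hik, hil]
  have w2j : w2 j = 0 := by simp [w2, Pi.single_apply, hjk, hjl]
  have w2k : w2 k = 1 := by simp [w2, Pi.single_apply, hkl]
  have w2l : w2 l = -1 := by simp [w2, Pi.single_apply, hkl.symm]
  have t1 : tot w1 = 0 := by rw [htot, w1i, w1j, w1k, w1l]; norm_num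
  have t2 : tot w2 = 0 := by rw [htot, w2i, w2j, w2k, w2l]; norm_num
  have P0 : ∀ z, tot z = 0 → P z = z := fun z hz => by rw [hP, hz, zero_smul, sub_zero]
  have Pl : P lam = 0 := by rw [hP, hl, one_smul, sub_self]
  have omw1 : om w1 = 0 := by rw [hom, P0 w1 t1, w1i, mul_zero]
  have omw2 : om w2 = 0 := by rw [hom, P0 w2 t2, w2i, mul_zero]
  have omv : om v = 1 := by rw [hom, P0 v hv, inv_mul_cancel₀ hv0]
  have oml : om lam = 0 := by rw [hom, Pl, Pi.zero_apply, mul_zero]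
  refine ⟨w1, w2, c1, c2, om, t1, t2, ⟨?_, ?_, ?_, ?_⟩, ⟨?_, ?_, ?_, ?_⟩,
    ⟨omw1, omw2, omv, oml⟩, fun z hz => ?_⟩
  · rw [hc1, omw1, P0 w1 t1, w1j]; ring
  · rw [hc1, omw2, P0 w2 t2, w2j]; ring
  · rw [hc1, omv, P0 v hv]; ring
  · rw [hc1, oml, Pl, Pi.zero_apply]; ring
  · rw [hc2, omw1, P0 w1 t1, w1k]; ring
  · rw [hc2, omw2, P0 w2 t2, w2k]; ring
  · rw [hc2, omv, P0 v hv]; ring
  · rw [hc2, oml, Pl, Pi.zero_apply]; ring
  · have e1 := hc1 z
    have e2 := hc2 z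
    have e3 := hom z
    rw [P0 z hz] at e1 e2 e3
    have e4 : om z * v i = z i := by rw [e3]; field_simp
    have hz' := htot z
    rw [hz] at hz'
    have hv' := htot v
    rw [hv] at hv'
    funext x
    simp only [Pi.add_apply, Pi.smul_apply, smul_eq_mul]
    rcases hcov x with rfl | rfl | rfl | rfl
    · rw [w1i, w2i, e4]; ring
    · rw [w1j, w2j, e1]; ring
    · rw [w1k, w2k, e2]; ring
    · rw [w1l, w2l, e1, e2]
      linear_combination (-1 : ℝ) * hz' + om z * hv' + e4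

theorem A_frame (lam v : Fin 4 → ℝ) (hl : tot lam = 1) (hv : tot v = 0) (hv0 : v ≠ 0) :
    ∃ (w1 w2 : Fin 4 → ℝ) (c1 c2 om : (Fin 4 → ℝ) →ₗ[ℝ] ℝ),
      tot w1 = 0 ∧ tot w2 = 0 ∧
      (c1 w1 = 1 ∧ c1 w2 = 0 ∧ c1 v = 0 ∧ c1 lam = 0) ∧
      (c2 w1 = 0 ∧ c2 w2 = 1 ∧ c2 v = 0 ∧ c2 lam = 0) ∧
      (om w1 = 0 ∧ om w2 = 0 ∧ om v = 1 ∧ om lam = 0) ∧
      ∀ z, tot z = 0 → z = c1 z • w1 + c2 z • w2 + om z • v := by
  obtain ⟨i, hi⟩ : ∃ i, v i ≠ 0 := by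
    by_contra h
    push Not at h
    exact hv0 (funext h)
  have c4 : ∀ x : Fin 4, x = 0 ∨ x = 1 ∨ x = 2 ∨ x = 3 := by decide
  rcases c4 i with rfl | rfl | rfl | rfl
  · exact A2_aux 0 1 2 3 (by decide) (by decide) (by decide) (by decide) (by decide) (by decide)
      (fun z => by unfold tot; ring) (by decide) lam v hl hv hi
  · exact A2_aux 1 0 2 3 (by decide) (by decide) (by decide) (by decide) (by decide) (by decide)
      (fun z => by unfold tot; ring) (by decide) lam v hl hv hi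
  · exact A2_aux 2 0 1 3 (by decide) (by decide) (by decide) (by decide) (by decide) (by decide)
      (fun z => by unfold tot; ring) (by decide) lam v hl hv hi
  · exact A2_aux 3 0 1 2 (by decide) (by decide) (by decide) (by decide) (by decide) (by decide)
      (fun z => by unfold tot; ring) (by decide) lam v hl hv hi

end Pool.Agent.Helper160IEM
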