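import Mathlib
import Pool.Agent.Helper160IEM.B1

set_option autoImplicit false
set_option linter.unusedSimpArgs false

/-!
Module D0: basic facts about the maps of the space.
-/

namespace Pool.Agent.Helper160IEM

open Set Filter Topology MeasureTheory

section
variable {r : ℕ} (T : GIEM 4 r)

theorem a_zero : T.a 0 = 0 := T.2.1.2.1
theorem a_four : T.a 4 = 1 := T.2.1.2.2
theorem a_mono : StrictMono T.a := T.2.1.1
theorem b_zero : T.b 0 = 0 := T.2.2.1.2.1
theorem b_four : T.b 4 = 1 := T.2.2.1.2.2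
theorem b_mono : StrictMono T.b := T.2.2.1.1

theorem D0_alt (α : Fin 4) : T.a α.castSucc < T.a α.succ := a_mono T (Fin.castSucc_lt_succ)
theorem D0_blt (α : Fin 4) : T.b α.castSucc < T.b α.succ := b_mono T (Fin.castSucc_lt_succ)

theorem letter_mem {x : ℝ} (hx : x ∈ Ico (0 : ℝ) 1) :
    x ∈ Ico (T.a (T.letter x).castSucc) (T.a (T.letter x).succ) := by
  have h0 := a_zero T
  have h4 := a_four T
  unfold GIEM.letter
  split_ifs with h1 h2 h3
  · exact ⟨by simpa [h0] using hx.1, by simpa using h1⟩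
  · push Not at h1
    exact ⟨h1, h2⟩
  · push Not at h2
    exact ⟨h2, h3⟩
  · push Not at h3
    refine ⟨h3, ?_⟩
    change x < T.a 4
    rw [h4]; exact hx.2

theorem letter_eq {x : ℝ} {α : Fin 4} (hx : x ∈ Ico (T.a α.castSucc) (T.a α.succ)) :
    T.letter x = α := by
  have m01 : T.a 0 < T.a 1 := a_mono T (by decide)
  have m12 : T.a 1 < T.a 2 := a_mono T (by decide)
  have m23 : T.a 2 < T.a 3 := a_mono T (by decide)
  unfold GIEM.letter
  fin_cases α
  · have h : x < T.a 1 := hx.2
    rw [if_pos h]; rfl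
  · have h : x < T.a 2 := hx.2
    have h' : T.a 1 ≤ x := hx.1
    rw [if_neg (not_lt.2 h'), if_pos h]; rfl
  · have h : x < T.a 3 := hx.2
    have h' : T.a 2 ≤ x := hx.1
    rw [if_neg (not_lt.2 (by linarith)), if_neg (not_lt.2 h'), if_pos h]; rfl
  · have h' : T.a 3 ≤ x := hx.1
    rw [if_neg (not_lt.2 (by linarith)), if_neg (not_lt.2 (by linarith)),
      if_neg (not_lt.2 h')]; rfl

theorem D0_Fx_mem (α : Fin 4) {t : ℝ} (ht : t ∈ Icc (0 : ℝ) 1) :
    T.Fx α t = T.F α 0 ⟨t, ht⟩ := by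
  unfold GIEM.Fx
  rw [projIcc_of_mem zero_le_one ht]
  simp

theorem D0_Fx_zero (α : Fin 4) : T.Fx α 0 = 0 := by
  rw [D0_Fx_mem T α (left_mem_Icc.2 zero_le_one)]
  exact (T.2.2.2 α).zero

theorem D0_Fx_one (α : Fin 4) : T.Fx α 1 = 1 := by
  rw [D0_Fx_mem T α (right_mem_Icc.2 zero_le_one)]
  exact (T.2.2.2 α).one

theorem f_left (α : Fin 4) : T.f α (T.a α.castSucc) = T.b (sg α).castSucc := by
  unfold GIEM.f
  rw [sub_self, zero_div, D0_Fx_zero]; ring
theorem f_right (α : Fin 4) : T.f α (T.a α.succ) = T.b (sg α).succ := by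
  unfold GIEM.f
  have := D0_alt T α
  rw [div_self (by linarith), D0_Fx_one]; ring

theorem Fx_sub_self (α : Fin 4) (t : ℝ) :
    T.Fx α t - t = T.F α 0 (projIcc 0 1 zero_le_one t) - projIcc (0 : ℝ) 1 zero_le_one t := by
  unfold GIEM.Fx; ring
end

theorem D0_F0_strictMono (T : X1) (α : Fin 4) : StrictMono fun t : unitInterval => T.F α 0 t := by
  have hd := (T.2.2.2 α).deriv 0
  have hp := (T.2.2.2 α).pos 0 rfl
  have h1 : StrictMonoOn (fun t : ℝ => T.F α 0 (projIcc 0 1 zero_le_one t)) (Icc 0 1) := by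
    apply strictMonoOn_of_deriv_pos (convex_Icc 0 1)
    · intro t ht
      exact (hd ⟨t, ht⟩).continuousWithinAt
    · intro t ht
      rw [interior_Icc] at ht
      have h2 := (hd ⟨t, Ioo_subset_Icc_self ht⟩).hasDerivAt (Icc_mem_nhds ht.1 ht.2)
      have h3 : deriv (fun t : ℝ => T.F α 0 (projIcc 0 1 zero_le_one t)) t =
          T.1.2.2 α (Fin.succ 0) ⟨t, Ioo_subset_Icc_self ht⟩ := h2.deriv
      rw [h3]
      exact hp _
  intro s t hst
  have := h1 s.2 t.2 hst
  simpa using this

theorem D0_proj_lip {s t : ℝ} (h : s ≤ t) :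
    (projIcc (0 : ℝ) 1 zero_le_one t : ℝ) - projIcc (0 : ℝ) 1 zero_le_one s ≤ t - s := by
  simp only [projIcc]
  rcases le_total 1 t with h1 | h1 <;> rcases le_total 1 s with h2 | h2 <;>
    rcases le_total 0 t with h3 | h3 <;> rcases le_total 0 s with h4 | h4 <;>
    simp [h1, h2, h3, h4] <;> linarith

theorem D0_Fx_strictMono (T : X1) (α : Fin 4) : StrictMono (T.Fx α) := by
  intro s t hst
  unfold GIEM.Fx
  have h1 := D0_proj_lip hst.le
  have h2 : projIcc (0 : ℝ) 1 zero_le_one s ≤ projIcc (0 : ℝ) 1 zero_le_one t :=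
    monotone_projIcc _ hst.le
  rcases eq_or_lt_of_le h2 with h3 | h3
  · rw [h3]; linarith
  · have h4 := D0_F0_strictMono T α h3
    simp only at h4
    linarith

theorem f_strictMono (T : X1) (α : Fin 4) : StrictMono (T.f α) := by
  intro x y hxy
  unfold GIEM.f
  have h1 := D0_alt T α
  have h2 := D0_blt T (sg α)
  have h3 : (x - T.a α.castSucc) / (T.a α.succ - T.a α.castSucc) <
      (y - T.a α.castSucc) / (T.a α.succ - T.a α.castSucc) := by
    apply div_lt_div_of_pos_right _ (by linarith)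
    linarith
  have h4 := D0_Fx_strictMono T α h3
  have h5 : 0 < T.b (sg α).succ - T.b (sg α).castSucc := by linarith
  have := mul_lt_mul_of_pos_left h4 h5
  linarith

theorem cont_a (i : Fin 5) : Continuous fun T : X1 => T.a i := by
  unfold GIEM.a
  have : Continuous fun T : X1 => T.1.1 := continuous_subtype_val.fst
  exact (continuous_apply i).comp this
theorem cont_b (i : Fin 5) : Continuous fun T : X1 => T.b i := by
  unfold GIEM.b
  have : Continuous fun T : X1 => T.1.2.1 := continuous_subtype_val.snd.fst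
  exact (continuous_apply i).comp this

theorem D0_cont_F (α : Fin 4) (k : Fin 2) : Continuous fun T : X1 => T.F α k := by
  unfold GIEM.F
  have : Continuous fun T : X1 => T.1.2.2 := continuous_subtype_val.snd.snd
  exact (continuous_apply k).comp ((continuous_apply α).comp this)

theorem D0_cont_arg (α : Fin 4) : Continuous fun p : X1 × ℝ =>
    (p.2 - p.1.a α.castSucc) / (p.1.a α.succ - p.1.a α.castSucc) := by
  refine Continuous.div ?_ ?_ ?_
  · exact continuous_snd.sub ((cont_a _).comp continuous_fst)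
  · exact ((cont_a _).comp continuous_fst).sub ((cont_a _).comp continuous_fst)
  · intro p
    have := D0_alt p.1 α
    linarith

theorem cont_f (α : Fin 4) : Continuous fun p : X1 × ℝ => p.1.f α p.2 := by
  unfold GIEM.f GIEM.Fx
  have h1 := D0_cont_arg α
  have h2 : Continuous fun p : X1 × ℝ => projIcc (0 : ℝ) 1 zero_le_one
      ((p.2 - p.1.a α.castSucc) / (p.1.a α.succ - p.1.a α.castSucc)) := continuous_projIcc.comp h1
  have h3 : Continuous fun p : X1 × ℝ => p.1.F α 0 (projIcc (0 : ℝ) 1 zero_le_one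
      ((p.2 - p.1.a α.castSucc) / (p.1.a α.succ - p.1.a α.castSucc))) :=
    ((D0_cont_F α 0).comp continuous_fst).eval h2
  have h4 : ∀ i, Continuous fun p : X1 × ℝ => p.1.b i := fun i => (cont_b i).comp continuous_fst
  exact (h4 _).add (((h4 _).sub (h4 _)).mul (h3.add (h1.sub (continuous_subtype_val.comp h2))))

theorem cont_f' (α : Fin 4) : Continuous fun p : X1 × ℝ => p.1.f' α p.2 := by
  unfold GIEM.f'
  have h1 := D0_cont_arg α
  have h2 : Continuous fun p : X1 × ℝ => projIcc (0 : ℝ) 1 zero_le_one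
      ((p.2 - p.1.a α.castSucc) / (p.1.a α.succ - p.1.a α.castSucc)) := continuous_projIcc.comp h1
  have h3 : Continuous fun p : X1 × ℝ => p.1.F α 1 (projIcc (0 : ℝ) 1 zero_le_one
      ((p.2 - p.1.a α.castSucc) / (p.1.a α.succ - p.1.a α.castSucc))) :=
    ((D0_cont_F α 1).comp continuous_fst).eval h2
  have h4 : ∀ i, Continuous fun p : X1 × ℝ => p.1.b i := fun i => (cont_b i).comp continuous_fst
  have h5 : ∀ i, Continuous fun p : X1 × ℝ => p.1.a i := fun i => (cont_a i).comp continuous_fst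
  refine Continuous.mul (Continuous.div ((h4 _).sub (h4 _)) ((h5 _).sub (h5 _)) ?_) h3
  intro p
  have := D0_alt p.1 α
  linarith

theorem D0_F1_pos (T : X1) (α : Fin 4) (t : unitInterval) : 0 < T.F α 1 t :=
  (T.2.2.2 α).pos 0 rfl t

theorem f'_pos (T : X1) (α : Fin 4) (x : ℝ) : 0 < T.f' α x := by
  unfold GIEM.f'
  have h1 := D0_alt T α
  have h2 := D0_blt T (sg α)
  exact mul_pos (div_pos (by linarith) (by linarith)) (D0_F1_pos T α _)

theorem f_hasDerivWithinAt (T : X1) (α : Fin 4) {x : ℝ}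
    (hx : x ∈ Icc (T.a α.castSucc) (T.a α.succ)) :
    HasDerivWithinAt (T.f α) (T.f' α x) (Icc (T.a α.castSucc) (T.a α.succ)) x := by
  have h1 := D0_alt T α
  have hpos : 0 < T.a α.succ - T.a α.castSucc := by linarith
  have hmaps : ∀ y ∈ Icc (T.a α.castSucc) (T.a α.succ),
      (y - T.a α.castSucc) / (T.a α.succ - T.a α.castSucc) ∈ Icc (0 : ℝ) 1 := by
    intro y hy
    constructor
    · exact div_nonneg (by linarith [hy.1]) hpos.le
    · rw [div_le_one hpos]; linarith [hy.2]
  have hd := (T.2.2.2 α).deriv 0 ⟨_, hmaps x hx⟩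
  have hin : HasDerivWithinAt (fun y => (y - T.a α.castSucc) / (T.a α.succ - T.a α.castSucc))
      (1 / (T.a α.succ - T.a α.castSucc)) (Icc (T.a α.castSucc) (T.a α.succ)) x :=
    (((hasDerivAt_id x).sub_const _).div_const _).hasDerivWithinAt
  have hc := HasDerivWithinAt.comp x hd hin hmaps
  have hc2 := (hc.const_mul (T.b (sg α).succ - T.b (sg α).castSucc)).const_add
    (T.b (sg α).castSucc)
  have hval : T.f' α x = (T.b (sg α).succ - T.b (sg α).castSucc) *
      (T.1.2.2 α (Fin.succ 0) ⟨_, hmaps x hx⟩ * (1 / (T.a α.succ - T.a α.castSucc))) := by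
    unfold GIEM.f'
    rw [projIcc_of_mem zero_le_one (hmaps x hx)]
    change _ / _ * T.1.2.2 α (Fin.succ 0) ⟨_, hmaps x hx⟩ = _
    ring
  rw [hval]
  refine hc2.congr_of_mem ?_ hx
  intro y hy
  unfold GIEM.f
  rw [D0_Fx_mem T α (hmaps y hy)]
  simp only [Function.comp_apply]
  rw [projIcc_of_mem zero_le_one (hmaps y hy)]
  rfl

theorem D0_sg_inj : Function.Injective sg := by decide
theorem D0_sg_surj : Function.Surjective sg := by decide

/-- image in the bottom cell -/
theorem D0_T_bot (T : X1) {x : ℝ} (hx : x ∈ Ico (0 : ℝ) 1) :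
    T.T x ∈ Ico (T.b (sg (T.letter x)).castSucc) (T.b (sg (T.letter x)).succ) := by
  have h := letter_mem T hx
  unfold GIEM.T
  constructor
  · rw [← f_left]
    exact (f_strictMono T _).monotone h.1
  · rw [← f_right]
    exact f_strictMono T _ h.2

theorem D0_b_nonneg (T : X1) (i : Fin 5) : 0 ≤ T.b i := by
  rw [← b_zero T]
  exact (b_mono T).monotone (Fin.zero_le i)

theorem D0_b_le (T : X1) (i : Fin 5) : T.b i ≤ 1 := by
  rw [← b_four T]
  exact (b_mono T).monotone (Fin.le_last i)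

theorem D0_a_nonneg (T : X1) (i : Fin 5) : 0 ≤ T.a i := by
  rw [← a_zero T]
  exact (a_mono T).monotone (Fin.zero_le i)

theorem D0_a_le (T : X1) (i : Fin 5) : T.a i ≤ 1 := by
  rw [← a_four T]
  exact (a_mono T).monotone (Fin.le_last i)

/-- bottom cells are disjoint -/
theorem D0_b_cell (T : X1) {y : ℝ} {i j : Fin 4} (hi : y ∈ Ico (T.b i.castSucc) (T.b i.succ))
    (hj : y ∈ Ico (T.b j.castSucc) (T.b j.succ)) : i = j := by
  by_contra hne
  rcases lt_or_gt_of_ne hne with h | h
  · have : T.b i.succ ≤ T.b j.castSucc := (b_mono T).monotone (by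
      rw [Fin.le_def]; simpa using h)
    linarith [hi.2, hj.1]
  · have : T.b j.succ ≤ T.b i.castSucc := (b_mono T).monotone (by
      rw [Fin.le_def]; simpa using h)
    linarith [hj.2, hi.1]

/-- `T` maps `[0,1)` to itself. -/
theorem T_mem (T : X1) {x : ℝ} (hx : x ∈ Ico (0 : ℝ) 1) : T.T x ∈ Ico (0 : ℝ) 1 := by
  have h := D0_T_bot T hx
  exact ⟨(D0_b_nonneg T _).trans h.1, h.2.trans_le (D0_b_le T _)⟩

theorem T_iter_mem (T : X1) (i : ℕ) {x : ℝ} (hx : x ∈ Ico (0 : ℝ) 1) :
    T.T^[i] x ∈ Ico (0 : ℝ) 1 := by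
  induction i with
  | zero => exact hx
  | succ i ih => rw [Function.iterate_succ_apply']; exact T_mem T ih

theorem T_injOn (T : X1) : InjOn T.T (Ico (0 : ℝ) 1) := by
  intro x hx y hy hxy
  have h1 := D0_T_bot T hx
  have h2 := D0_T_bot T hy
  rw [← hxy] at h2
  have h3 : T.letter x = T.letter y := D0_sg_inj (D0_b_cell T h1 h2)
  unfold GIEM.T at hxy
  rw [h3] at hxy
  exact (f_strictMono T _).injective hxy

theorem D0_f_cont (T : X1) (α : Fin 4) : Continuous (T.f α) := by
  have := (cont_f α).comp (Continuous.prodMk (continuous_const (y := T)) continuous_id)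
  exact this

theorem T_surjOn (T : X1) : SurjOn T.T (Ico (0 : ℝ) 1) (Ico (0 : ℝ) 1) := by
  intro y hy
  obtain ⟨i, hi⟩ : ∃ i : Fin 4, y ∈ Ico (T.b i.castSucc) (T.b i.succ) := by
    have h0 := b_zero T
    have h4 := b_four T
    by_cases h1 : y < T.b 1
    · exact ⟨0, by simpa [h0] using hy.1, h1⟩
    by_cases h2 : y < T.b 2
    · exact ⟨1, not_lt.1 h1, h2⟩
    by_cases h3 : y < T.b 3
    · exact ⟨2, not_lt.1 h2, h3⟩
    · refine ⟨3, not_lt.1 h3, ?_⟩
      change y < T.b 4
      rw [h4]; exact hy.2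
  obtain ⟨α, rfl⟩ := D0_sg_surj i
  have hlt := D0_alt T α
  have hy2 : y ∈ Icc (T.f α (T.a α.castSucc)) (T.f α (T.a α.succ)) := by
    rw [f_left, f_right]; exact Ico_subset_Icc_self hi
  obtain ⟨x, hx, hxy⟩ := intermediate_value_Icc hlt.le (D0_f_cont T α).continuousOn hy2
  have hx2 : x < T.a α.succ := by
    rcases eq_or_lt_of_le hx.2 with h | h
    · exfalso
      rw [h, f_right] at hxy
      have := hi.2
      linarith
    · exact h
  refine ⟨x, ⟨(D0_a_nonneg T _).trans hx.1, hx2.trans_le (D0_a_le T _)⟩, ?_⟩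
  unfold GIEM.T
  rw [letter_eq T ⟨hx.1, hx2⟩, hxy]

/-- The point `x` lies in the part `[a_α, y)` of the branch iff its image lies in the image. -/
theorem T_cell (T : X1) {x : ℝ} (hx : x ∈ Ico (0 : ℝ) 1) (α : Fin 4) {y : ℝ}
    (hy : y ∈ Icc (T.a α.castSucc) (T.a α.succ)) :
    (T.a α.castSucc ≤ x ∧ x < y) ↔ (T.b (sg α).castSucc ≤ T.T x ∧ T.T x < T.f α y) := by
  constructor
  · rintro ⟨h1, h2⟩
    have h3 : T.letter x = α := letter_eq T ⟨h1, h2.trans_le hy.2⟩
    have h4 := D0_T_bot T hx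
    rw [h3] at h4
    refine ⟨h4.1, ?_⟩
    unfold GIEM.T
    rw [h3]
    exact f_strictMono T α h2
  · rintro ⟨h1, h2⟩
    have h5 : T.f α y ≤ T.b (sg α).succ := by
      rw [← f_right]
      exact (f_strictMono T α).monotone hy.2
    have h4 := D0_T_bot T hx
    have h3 : T.letter x = α := D0_sg_inj (D0_b_cell T h4 ⟨h1, h2.trans_le h5⟩)
    have h6 := letter_mem T hx
    rw [h3] at h6
    refine ⟨h6.1, ?_⟩
    unfold GIEM.T at h2
    rw [h3] at h2
    exact (f_strictMono T α).lt_iff_lt.1 h2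

theorem letter_measurable (T : X1) : Measurable T.letter := by
  unfold GIEM.letter
  refine Measurable.ite measurableSet_Iio measurable_const ?_
  refine Measurable.ite measurableSet_Iio measurable_const ?_
  exact Measurable.ite measurableSet_Iio measurable_const measurable_const

theorem T_measurable (T : X1) : Measurable T.T := by
  have h : T.T = fun x => if x < T.a 1 then T.f 0 x else if x < T.a 2 then T.f 1 x else
      if x < T.a 3 then T.f 2 x else T.f 3 x := by
    funext x
    unfold GIEM.T GIEM.letter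
    split_ifs <;> rfl
  rw [h]
  have hm : ∀ α, Measurable (T.f α) := fun α => (D0_f_cont T α).measurable
  refine Measurable.ite measurableSet_Iio (hm 0) ?_
  refine Measurable.ite measurableSet_Iio (hm 1) ?_
  exact Measurable.ite measurableSet_Iio (hm 2) (hm 3)

end Pool.Agent.Helper160IEM
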