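import Mathlib
import Pool.Agent.Helper160IEM.D0

set_option autoImplicit false
set_option linter.unusedSimpArgs false

/-!
Module D1: affine and standard maps, comparison with the definitions of the statement.
-/

namespace Pool.Agent.Helper160IEM

open Set Filter Topology MeasureTheory

/-! Affine and standard maps. -/

theorem aff_a (r : ℕ) (l l' : Fin 4 → ℝ) (h : IsLen l) (h' : IsLen l') (i : Fin 5) :
    (aff r l l' h h').a i = pts l i := rfl
theorem aff_b (r : ℕ) (l l' : Fin 4 → ℝ) (h : IsLen l) (h' : IsLen l') (i : Fin 5) :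
    (aff r l l' h h').b i = ptsB l' i := rfl
theorem pts_castSucc (l : Fin 4 → ℝ) (α : Fin 4) : pts l α.castSucc = sS l α := by
  fin_cases α <;> simp [pts, sS]
theorem pts_succ (l : Fin 4 → ℝ) (α : Fin 4) : pts l α.succ = sS l α + l α := by
  fin_cases α <;> simp [pts, sS]
theorem ptsB_castSucc (l : Fin 4 → ℝ) (α : Fin 4) :
    ptsB l (sg α).castSucc = sS l α + dl l α := by
  fin_cases α <;> simp [ptsB, sS, dl, sg] <;> ring
theorem ptsB_succ (l : Fin 4 → ℝ) (α : Fin 4) :
    ptsB l (sg α).succ = sS l α + dl l α + l α := by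
  fin_cases α <;> simp [ptsB, sS, dl, sg] <;> ring

theorem d_aff_Fx (r : ℕ) (l l' : Fin 4 → ℝ) (h : IsLen l) (h' : IsLen l') (α : Fin 4) (t : ℝ) :
    (aff r l l' h h').Fx α t = t := by
  have h1 : (aff r l l' h h').F α 0 = ⟨fun x => (x : ℝ), continuous_subtype_val⟩ := by
    show idJet r 0 = _
    simp [idJet]
  unfold GIEM.Fx
  rw [h1]
  simp

theorem std_f (r : ℕ) (l : Fin 4 → ℝ) (h : IsLen l) (α : Fin 4) (x : ℝ) :
    (aff r l l h h).f α x = x + dl l α := by
  have hp := h.1 α
  unfold GIEM.f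
  rw [d_aff_Fx, aff_a, aff_a, aff_b, aff_b, pts_castSucc, pts_succ, ptsB_castSucc, ptsB_succ]
  have h1 : sS l α + dl l α + l α - (sS l α + dl l α) = l α := by ring
  have h2 : sS l α + l α - sS l α = l α := by ring
  rw [h1, h2, mul_div_cancel₀ _ hp.ne']
  ring
theorem aff_f' (l l' : Fin 4 → ℝ) (h : IsLen l) (h' : IsLen l') (α : Fin 4) (x : ℝ) :
    (aff 1 l l' h h').f' α x = l' α / l α := by
  have hF : (aff 1 l l' h h').F α 1 = ContinuousMap.const _ 1 := by
    show idJet 1 1 = _
    simp [idJet]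
  unfold GIEM.f'
  rw [hF, aff_a, aff_a, aff_b, aff_b, pts_castSucc, pts_succ, ptsB_castSucc, ptsB_succ]
  simp

/-! Change of the smoothness class; comparison with the definitions of the statement. -/

/-- Forgetting higher derivatives. -/
noncomputable def toOne {r : ℕ} (hr : 1 ≤ r) (T : GIEM 4 r) : X1 :=
  ⟨(T.a, T.b, fun α k => T.F α (Fin.castLE (by omega) k)), by
    obtain ⟨h1, h2, h3⟩ := T.2
    refine ⟨h1, h2, fun α => ⟨(h3 α).zero, (h3 α).one, ?_, ?_⟩⟩
    · intro k x
      have := (h3 α).deriv (Fin.castLE hr k) x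
      exact this
    · intro k hk x
      exact (h3 α).pos (Fin.castLE hr k) hk x⟩

theorem cont_toOne {r : ℕ} (hr : 1 ≤ r) : Continuous (toOne (r := r) hr) := by
  apply Continuous.subtype_mk
  refine Continuous.prodMk ?_ (Continuous.prodMk ?_ ?_)
  · exact continuous_fst.comp continuous_subtype_val
  · exact (continuous_fst.comp continuous_snd).comp continuous_subtype_val
  · refine continuous_pi fun α => continuous_pi fun k => ?_
    exact (continuous_apply (Fin.castLE (by omega) k)).comp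
      ((continuous_apply α).comp ((continuous_snd.comp continuous_snd).comp continuous_subtype_val))

theorem toOne_aff {r : ℕ} (hr : 1 ≤ r) (l l' : Fin 4 → ℝ) (h : IsLen l) (h' : IsLen l') :
    toOne hr (aff r l l' h h') = aff 1 l l' h h' := by
  apply Subtype.ext
  refine Prod.ext rfl (Prod.ext rfl ?_)
  funext α k
  rfl

theorem d_toOne_f {r : ℕ} (hr : 1 ≤ r) (T : GIEM 4 r) (α : Fin 4) (x : ℝ) :
    (toOne hr T).f α x = T.f α x := by
  have h0 : (toOne hr T).F α 0 = T.F α 0 := by
    show T.F α (Fin.castLE _ 0) = T.F α 0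
    congr 1
  unfold GIEM.f GIEM.Fx
  rw [h0]
  rfl

theorem d_branch_eq {r : ℕ} (T : GIEM 4 r) (α : Fin 4) {x : ℝ} (hx : x ∈ T.topI pi0 α) :
    T.branch pi0 α x = T.f α x := by
  have hx' : x ∈ Icc (T.a α.castSucc) (T.a α.succ) := hx
  have hlt : T.a α.castSucc < T.a α.succ := a_mono T (Fin.castSucc_lt_succ)
  have ht : (x - T.a α.castSucc) / (T.a α.succ - T.a α.castSucc) ∈ Icc (0 : ℝ) 1 := by
    constructor
    · exact div_nonneg (by linarith [hx'.1]) (by linarith)
    · rw [div_le_one (by linarith)]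
      linarith [hx'.2]
  have h1 : T.Fx α ((x - T.a α.castSucc) / (T.a α.succ - T.a α.castSucc)) =
      T.F α 0 (projIcc 0 1 zero_le_one
        ((x - T.a α.castSucc) / (T.a α.succ - T.a α.castSucc))) := by
    unfold GIEM.Fx
    rw [projIcc_of_mem zero_le_one ht]
    simp
  unfold GIEM.f
  rw [h1]
  rfl

theorem semiConj_of_SC {r : ℕ} (hr : 1 ≤ r) (T : GIEM 4 r) (l : Fin 4 → ℝ) (h : IsLen l)
    (hT : SC (toOne hr T) l) : T.SemiConj (aff r l l h h) pi0 := by
  obtain ⟨g, hm, him, hg⟩ := hT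
  refine ⟨g, ?_, hm, him, ?_⟩
  · rw [continuousOn_iff_continuous_domRestrict]
    have hmaps : ∀ x : Icc (0 : ℝ) 1, g x ∈ Icc (0 : ℝ) 1 := fun x =>
      him.subset ⟨x, x.2, rfl⟩
    let g' : Icc (0 : ℝ) 1 → Icc (0 : ℝ) 1 := fun x => ⟨g x, hmaps x⟩
    have hg' : Continuous g' := by
      apply Monotone.continuous_of_surjective
      · intro x y hxy
        exact hm x.2 y.2 hxy
      · rintro ⟨y, hy⟩
        rw [← him] at hy
        obtain ⟨x, hx, rfl⟩ := hy
        exact ⟨⟨x, hx⟩, rfl⟩
    exact continuous_subtype_val.comp hg'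
  · intro α x hx
    have hx' : x ∈ Icc (T.a α.castSucc) (T.a α.succ) := hx
    obtain ⟨h1, h2⟩ := hg α x hx'
    have h3 : g x ∈ (aff r l l h h).topI pi0 α := by
      show g x ∈ Icc (pts l α.castSucc) (pts l α.succ)
      rw [pts_castSucc, pts_succ]
      exact h1
    refine ⟨h3, ?_⟩
    rw [d_branch_eq T α hx, d_branch_eq _ α h3, std_f, ← h2, d_toOne_f]

/-- The map of the statement agrees with the working one on `[0,1)`. -/
theorem map_eq_T {r : ℕ} (T : GIEM 4 r) {x : ℝ} (hx : x ∈ Ico (0 : ℝ) 1) :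
    T.map pi0 x = T.T x := by
  unfold GIEM.map GIEM.T
  have h1 := letter_mem T hx
  rw [Finset.sum_eq_single (T.letter x)]
  · have h2 : x ∈ Ico (T.a (pi0.top (T.letter x)).castSucc) (T.a (pi0.top (T.letter x)).succ) := h1
    rw [indicator_of_mem h2]
    exact d_branch_eq T _ ⟨h1.1, h1.2.le⟩
  · intro α _ hα
    apply indicator_of_notMem
    intro h3
    exact hα (letter_eq T h3).symm
  · intro h3
    exact absurd (Finset.mem_univ _) h3

/-- The affine maps depend continuously on their lengths. -/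
theorem cont_aff {r : ℕ} {Y : Type*} [TopologicalSpace Y] (l l' : Y → Fin 4 → ℝ)
    (h : ∀ y, IsLen (l y)) (h' : ∀ y, IsLen (l' y)) (hl : Continuous l) (hl' : Continuous l') :
    Continuous fun y => aff r (l y) (l' y) (h y) (h' y) := by
  apply Continuous.subtype_mk
  refine Continuous.prodMk ?_ (Continuous.prodMk ?_ ?_)
  · refine continuous_pi fun i => ?_
    fin_cases i <;> simp [pts] <;> fun_prop
  · refine continuous_pi fun i => ?_
    fin_cases i <;> simp [ptsB] <;> fun_prop
  · exact continuous_const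

end Pool.Agent.Helper160IEM
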