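import Mathlib
import Pool.Agent.Helper160IEM.D1
import Pool.Agent.Helper160IEM.A

set_option autoImplicit false
set_option linter.unusedSimpArgs false

/-!
Module B2: no connections.
-/

namespace Pool.Agent.Helper160IEM

open Set Filter Topology MeasureTheory

/-- Interior top partition points. -/
def B2_top (μ : Fin 4 → ℝ) (x : ℝ) : Prop := x = μ 0 ∨ x = μ 0 + μ 1 ∨ x = μ 0 + μ 1 + μ 2

/-- Interior bottom partition points. -/
def B2_bot (μ : Fin 4 → ℝ) (x : ℝ) : Prop := x = μ 3 ∨ x = μ 3 + μ 1 ∨ x = μ 3 + μ 1 + μ 0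

theorem B2_Bo_cases (μ : Fin 4 → ℝ) (α : Fin 4) (x : ℝ) (h : x ∈ Bo μ α) :
    (α = 0 ∧ 0 < x ∧ x < μ 0) ∨ (α = 1 ∧ μ 0 < x ∧ x < μ 0 + μ 1) ∨
    (α = 2 ∧ μ 0 + μ 1 < x ∧ x < μ 0 + μ 1 + μ 2) ∨
    (α = 3 ∧ μ 0 + μ 1 + μ 2 < x ∧ x < μ 0 + μ 1 + μ 2 + μ 3) := by
  have c4 : ∀ x : Fin 4, x = 0 ∨ x = 1 ∨ x = 2 ∨ x = 3 := by decide
  rcases c4 α with rfl | rfl | rfl | rfl <;>
    simp only [Bo, mem_Ioo, sS_zero, sS_one, sS_two, sS_three, zero_add] at h
  · exact Or.inl ⟨rfl, h⟩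
  · exact Or.inr (Or.inl ⟨rfl, h⟩)
  · exact Or.inr (Or.inr (Or.inl ⟨rfl, h⟩))
  · exact Or.inr (Or.inr (Or.inr ⟨rfl, h⟩))

theorem B2_top_not (μ : Fin 4 → ℝ) (hμ : ∀ α, 0 < μ α) (x : ℝ) (h : B2_top μ x) (α : Fin 4) :
    x ∉ Bo μ α := by
  intro hx
  have q0 := hμ 0; have q1 := hμ 1; have q2 := hμ 2; have q3 := hμ 3
  rcases B2_Bo_cases μ α x hx with ⟨-, h1, h2⟩ | ⟨-, h1, h2⟩ | ⟨-, h1, h2⟩ | ⟨-, h1, h2⟩ <;>
  rcases h with h | h | h <;> linarith

theorem B2_disj (μ : Fin 4 → ℝ) (hμ : ∀ α, 0 < μ α) (x : ℝ) (α β : Fin 4) (h : x ∈ Bo μ α)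
    (h' : x ∈ Bo μ β) : α = β := by
  have q0 := hμ 0; have q1 := hμ 1; have q2 := hμ 2; have q3 := hμ 3
  rcases B2_Bo_cases μ α x h with ⟨rfl, h1, h2⟩ | ⟨rfl, h1, h2⟩ | ⟨rfl, h1, h2⟩ | ⟨rfl, h1, h2⟩ <;>
  rcases B2_Bo_cases μ β x h' with ⟨rfl, h3, h4⟩ | ⟨rfl, h3, h4⟩ | ⟨rfl, h3, h4⟩ | ⟨rfl, h3, h4⟩ <;>
  first
  | rfl
  | (exfalso; linarith)

/-- Open paths from a point are comparable. -/
theorem B2_prefix (μ : Fin 4 → ℝ) (hμ : ∀ α, 0 < μ α) (w w' : List (Fin 4)) (x : ℝ)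
    (h : IsPath (Bo μ) (dl μ) x w) (h' : IsPath (Bo μ) (dl μ) x w') :
    (∃ w2, w' = w ++ w2) ∨ (∃ w2, w = w' ++ w2) := by
  induction w generalizing x w' with
  | nil => exact Or.inl ⟨w', rfl⟩
  | cons α w ih =>
    cases w' with
    | nil => exact Or.inr ⟨α :: w, rfl⟩
    | cons β w' =>
      rw [IsPath_cons] at h h'
      obtain rfl := B2_disj μ hμ x α β h.1 h'.1
      rcases ih w' _ h.2 h'.2 with ⟨w2, e⟩ | ⟨w2, e⟩
      · exact Or.inl ⟨w2, by rw [e]; rfl⟩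
      · exact Or.inr ⟨w2, by rw [e]; rfl⟩

/-- A path to an interior top point runs through every path that ends in an open interval. -/
theorem B2_cut (μ : Fin 4 → ℝ) (hμ : ∀ α, 0 < μ α) (w wf : List (Fin 4)) (x : ℝ)
    (h : IsPath (Bo μ) (dl μ) x w) (hf : IsPath (Bo μ) (dl μ) x wf)
    (ht : B2_top μ (x + (w.map (dl μ)).sum)) (β : Fin 4)
    (he : x + (wf.map (dl μ)).sum ∈ Bo μ β) :
    ∃ w2, w = wf ++ w2 ∧ IsPath (Bo μ) (dl μ) (x + (wf.map (dl μ)).sum) w2 ∧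
      B2_top μ (x + (wf.map (dl μ)).sum + (w2.map (dl μ)).sum) := by
  rcases B2_prefix μ hμ w wf x h hf with ⟨w2, e⟩ | ⟨w2, e⟩
  · exfalso
    cases w2 with
    | nil =>
      rw [List.append_nil] at e
      subst e
      exact B2_top_not μ hμ _ ht β he
    | cons γ w2 =>
      subst e
      rw [IsPath_append] at hf
      exact B2_top_not μ hμ _ ht γ ((IsPath_cons _ _ _ _ _).1 hf.2).1
  · subst e
    rw [IsPath_append] at h
    refine ⟨w2, rfl, h.2, ?_⟩
    rw [List.map_append, List.sum_append, ← add_assoc] at ht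
    exact ht

theorem B2_J (m n : ℕ) (μ : Fin 4 → ℝ) (z : ℝ)
    (h0 : 0 < z) (h1 : z < tot μ) : tot (KM m n μ) - z ∈ Bo (KM m n μ) 3 := by
  simp only [Bo, mem_Ioo, sS_three, tot, KM_three] at h1 ⊢
  constructor <;> linarith

theorem B2_bot_mem (μ : Fin 4 → ℝ) (hμ : ∀ α, 0 < μ α) (u : ℝ) (h : B2_bot μ u) :
    0 < u ∧ u < tot μ := by
  have q0 := hμ 0; have q1 := hμ 1; have q2 := hμ 2; have q3 := hμ 3
  unfold tot
  rcases h with h | h | h <;> constructor <;> linarith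

theorem B2_letter (μ : Fin 4 → ℝ) (z : ℝ) (h0 : 0 < z) (h1 : z < tot μ) (h : ¬ B2_top μ z) :
    ∃ j, z ∈ Bo μ j := by
  unfold B2_top at h
  push Not at h
  obtain ⟨n1, n2, n3⟩ := h
  unfold tot at h1
  by_cases c1 : z < μ 0
  · exact ⟨0, by simp only [Bo, mem_Ioo, sS_zero, zero_add]; exact ⟨h0, c1⟩⟩
  · have c1' : μ 0 < z := lt_of_le_of_ne (not_lt.1 c1) (Ne.symm n1)
    by_cases c2 : z < μ 0 + μ 1
    · exact ⟨1, by simp only [Bo, mem_Ioo, sS_one]; exact ⟨c1', c2⟩⟩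
    · have c2' : μ 0 + μ 1 < z := lt_of_le_of_ne (not_lt.1 c2) (Ne.symm n2)
      by_cases c3 : z < μ 0 + μ 1 + μ 2
      · exact ⟨2, by simp only [Bo, mem_Ioo, sS_two]; exact ⟨c2', c3⟩⟩
      · have c3' : μ 0 + μ 1 + μ 2 < z := lt_of_le_of_ne (not_lt.1 c3) (Ne.symm n3)
        exact ⟨3, by simp only [Bo, mem_Ioo, sS_three]; exact ⟨c3', h1⟩⟩

/-- The image of an open top interval lies in the open total interval. -/
theorem B2_image (μ : Fin 4 → ℝ) (hμ : ∀ α, 0 < μ α) (z : ℝ) (j : Fin 4) (h : z ∈ Bo μ j) :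
    0 < z + dl μ j ∧ z + dl μ j < tot μ := by
  have q0 := hμ 0; have q1 := hμ 1; have q2 := hμ 2; have q3 := hμ 3
  unfold tot
  rcases B2_Bo_cases μ j z h with ⟨rfl, h1, h2⟩ | ⟨rfl, h1, h2⟩ | ⟨rfl, h1, h2⟩ | ⟨rfl, h1, h2⟩ <;>
    simp only [dl_zero, dl_one, dl_two, dl_three] <;> constructor <;> linarith

/-- The forced paths of the bottom points. -/
theorem B2_forced (m n : ℕ) (hm : 2 ≤ m) (hn : 2 ≤ n) (μ : Fin 4 → ℝ) (hμ : ∀ α, 0 < μ α) (u : ℝ)
    (hu : B2_bot (KM m n μ) u) : ∃ wf : List (Fin 4), 1 ≤ wf.length ∧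
      IsPath (Bo (KM m n μ)) (dl (KM m n μ)) u wf ∧
      ∃ u', B2_bot μ u' ∧ u + (wf.map (dl (KM m n μ))).sum = tot (KM m n μ) - u' := by
  have hm' : ((m - 1 : ℕ) : ℝ) = m - 1 := by rw [Nat.cast_sub (by omega)]; simp
  have hn' : ((n - 1 : ℕ) : ℝ) = n - 1 := by rw [Nat.cast_sub (by omega)]; simp
  have hmR : (2 : ℝ) ≤ m := by exact_mod_cast hm
  have hnR : (2 : ℝ) ≤ n := by exact_mod_cast hn
  have q0 := hμ 0; have q1 := hμ 1; have q2 := hμ 2; have q3 := hμ 3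
  have hs : 0 ≤ μ 0 + μ 1 := by linarith
  have ht : 0 ≤ μ 0 + μ 1 + μ 2 + μ 3 := by linarith
  have a1 : 0 ≤ (m - 2 : ℝ) * (μ 0 + μ 1) := mul_nonneg (by linarith) hs
  have a2 : 0 ≤ (n - 2 : ℝ) * (μ 0 + μ 1 + μ 2 + μ 3) := mul_nonneg (by linarith) ht
  unfold B2_bot at hu
  simp only [KM_zero, KM_one, KM_two, KM_three] at hu
  rcases hu with hu | hu | hu
  · refine ⟨List.replicate (m - 1) 1 ++ List.replicate n 2, ?_, ?_, μ 3 + μ 1,
      Or.inr (Or.inl rfl), ?_⟩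
    · simp; omega
    · rw [IsPath_append, IsPath_replicate, IsPath_replicate]
      simp only [Bo, mem_Ioo, sS_zero, sS_one, sS_two, sS_three, dl_zero, dl_one, dl_two, dl_three,
        KM_zero, KM_one, KM_two, KM_three, tot, List.map_replicate, List.sum_replicate,
        nsmul_eq_mul, hm']
      subst hu
      refine ⟨fun i hi => ?_, fun i hi => ?_⟩
      · have := idx_bound hi (μ 0 + μ 1) hs
        rw [hm'] at this
        constructor <;> nlinarith
      · have := idx_bound hi (μ 0 + μ 1 + μ 2 + μ 3) ht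
        constructor <;> nlinarith
    · simp only [List.map_append, List.map_replicate, List.sum_append, List.sum_replicate,
        nsmul_eq_mul, hm', dl_one, dl_two, KM_zero, KM_one, KM_two, KM_three, tot]
      subst hu
      ring
  · refine ⟨List.replicate n 2, ?_, ?_, μ 3, Or.inl rfl, ?_⟩
    · simp; omega
    · rw [IsPath_replicate]
      simp only [Bo, mem_Ioo, sS_zero, sS_one, sS_two, sS_three, dl_zero, dl_one, dl_two, dl_three,
        KM_zero, KM_one, KM_two, KM_three, tot]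
      subst hu
      intro i hi
      have := idx_bound hi (μ 0 + μ 1 + μ 2 + μ 3) ht
      constructor <;> nlinarith
    · simp only [List.map_append, List.map_replicate, List.sum_append, List.sum_replicate,
        nsmul_eq_mul, hm', dl_one, dl_two, KM_zero, KM_one, KM_two, KM_three, tot]
      subst hu
      ring
  · refine ⟨List.replicate (n - 1) 2, ?_, ?_, μ 3 + μ 1 + μ 0, Or.inr (Or.inr rfl), ?_⟩
    · simp; omega
    · rw [IsPath_replicate]
      simp only [Bo, mem_Ioo, sS_zero, sS_one, sS_two, sS_three, dl_zero, dl_one, dl_two, dl_three,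
        KM_zero, KM_one, KM_two, KM_three, tot]
      subst hu
      intro i hi
      have := idx_bound hi (μ 0 + μ 1 + μ 2 + μ 3) ht
      rw [hn'] at this
      constructor <;> nlinarith
    · simp only [List.map_append, List.map_replicate, List.sum_append, List.sum_replicate,
        nsmul_eq_mul, hn', dl_one, dl_two, KM_zero, KM_one, KM_two, KM_three, tot]
      subst hu
      ring

theorem B2_Wd_length (m n : ℕ) (j : Fin 4) : 1 ≤ (Wd m n j).length := by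
  have c4 : ∀ x : Fin 4, x = 0 ∨ x = 1 ∨ x = 2 ∨ x = 3 := by decide
  rcases c4 j with rfl | rfl | rfl | rfl
  · rw [Wd_zero]; simp
  · rw [Wd_one]; simp
  · rw [Wd_two]; simp
  · rw [Wd_three]; simp

theorem B2_induce (m n : ℕ) (hm : 2 ≤ m) (hn : 2 ≤ n) (μ : Fin 4 → ℝ) (hμ : ∀ α, 0 < μ α)
    (hK : ∀ α, 0 < KM m n μ α) (N : ℕ) : ∀ (w : List (Fin 4)) (z : ℝ), w.length ≤ N →
      0 < z → z < tot μ → IsPath (Bo (KM m n μ)) (dl (KM m n μ)) (tot (KM m n μ) - z) w →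
      B2_top (KM m n μ) (tot (KM m n μ) - z + (w.map (dl (KM m n μ))).sum) →
      ∃ w' : List (Fin 4), w'.length ≤ w.length ∧ IsPath (Bo μ) (dl μ) z w' ∧
        B2_top μ (z + (w'.map (dl μ)).sum) := by
  induction N with
  | zero =>
    intro w z hw h0 h1 hp ht
    have hw0 : w = [] := List.length_eq_zero_iff.1 (by omega)
    subst hw0
    exfalso
    simp only [List.map_nil, List.sum_nil, add_zero] at ht
    exact B2_top_not _ hK _ ht 3 (B2_J m n μ z h0 h1)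
  | succ N ih =>
    intro w z hw h0 h1 hp ht
    by_cases hz : B2_top μ z
    · exact ⟨[], by simp, trivial, by simpa using hz⟩
    · obtain ⟨j, hj⟩ := B2_letter μ z h0 h1 hz
      have hW := B_step_open m n hm hn μ hμ j z hj
      obtain ⟨i0, i1⟩ := B2_image μ hμ z j hj
      have e : tot (KM m n μ) - z + ((Wd m n j).map (dl (KM m n μ))).sum =
          tot (KM m n μ) - (z + dl μ j) := by rw [B_step_sum m n hm hn μ j]; ring
      obtain ⟨w2, rfl, hp2, ht2⟩ := B2_cut _ hK w (Wd m n j) _ hp hW ht 3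
        (by rw [e]; exact B2_J m n μ _ i0 i1)
      rw [e] at hp2 ht2
      have hl := B2_Wd_length m n j
      rw [List.length_append] at hw
      obtain ⟨w', l', p', t'⟩ := ih w2 (z + dl μ j) (by omega) i0 i1 hp2 ht2
      refine ⟨j :: w', ?_, ⟨hj, p'⟩, ?_⟩
      · rw [List.length_append, List.length_cons]; omega
      · rw [List.map_cons, List.sum_cons, ← add_assoc]; exact t'

theorem B2_descent (s : ℕ → Fin 4 → ℝ) (hs : ∀ k α, 0 < s k α)
    (hK : ∀ k, s k = KM (mm k) (nn k) (s (k + 1))) (N : ℕ) : ∀ (k : ℕ) (w : List (Fin 4)) (u : ℝ),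
      w.length ≤ N → B2_bot (s k) u → IsPath (Bo (s k)) (dl (s k)) u w →
      ¬ B2_top (s k) (u + (w.map (dl (s k))).sum) := by
  induction N with
  | zero =>
    intro k w u hw hu hp ht
    obtain ⟨wf, hf1, hf2, u', hu', e⟩ := B2_forced (mm k) (nn k) (A_mm_ge k)
      (le_trans (by norm_num) (A_nn_ge k)) (s (k + 1)) (hs (k + 1)) u (by rw [← hK]; exact hu)
    rw [← hK] at hf2 e
    have hu2 := B2_bot_mem _ (hs (k + 1)) u' hu'
    have hJ := B2_J (mm k) (nn k) (s (k + 1)) u'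
      hu2.1 hu2.2
    rw [← hK] at hJ
    obtain ⟨w2, rfl, -, -⟩ := B2_cut _ (hs k) w wf u hp hf2 ht 3 (by rw [e]; exact hJ)
    rw [List.length_append] at hw
    omega
  | succ N ih =>
    intro k w u hw hu hp ht
    obtain ⟨wf, hf1, hf2, u', hu', e⟩ := B2_forced (mm k) (nn k) (A_mm_ge k)
      (le_trans (by norm_num) (A_nn_ge k)) (s (k + 1)) (hs (k + 1)) u (by rw [← hK]; exact hu)
    rw [← hK] at hf2 e
    have hu2 := B2_bot_mem _ (hs (k + 1)) u' hu'
    have hJ := B2_J (mm k) (nn k) (s (k + 1)) u'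
      hu2.1 hu2.2
    rw [← hK] at hJ
    obtain ⟨w2, rfl, hp2, ht2⟩ := B2_cut _ (hs k) w wf u hp hf2 ht 3 (by rw [e]; exact hJ)
    rw [List.length_append] at hw
    rw [e] at hp2 ht2
    rw [hK k] at hp2 ht2
    obtain ⟨w', l', p', t'⟩ := B2_induce (mm k) (nn k) (A_mm_ge k)
      (le_trans (by norm_num) (A_nn_ge k)) (s (k + 1)) (hs (k + 1))
      (fun α => by rw [← hK]; exact hs k α) w2.length w2 u' le_rfl hu2.1 hu2.2 hp2 ht2
    exact ih (k + 1) w' u' (by omega) hu' p' t'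

/-- Orbits that avoid the interior top points are open paths. -/
theorem B2_orbit (l : Fin 4 → ℝ) (h : IsLen l) (r : ℕ) (m : ℕ) : ∀ x : ℝ, 0 < x → x < 1 →
    (∀ i < m, ¬ B2_top l (((aff r l l h h).map pi0)^[i] x)) →
    ∃ w : List (Fin 4), IsPath (Bo l) (dl l) x w ∧
      ((aff r l l h h).map pi0)^[m] x = x + (w.map (dl l)).sum := by
  induction m with
  | zero => intro x _ _ _; exact ⟨[], trivial, by simp⟩
  | succ m ih =>
    intro x h0 h1 hx
    have hx0 : ¬ B2_top l x := by simpa using hx 0 (by omega)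
    have htot : tot l = 1 := h.2
    obtain ⟨j, hj⟩ := B2_letter l x h0 (by rw [htot]; exact h1) hx0
    have hT : (aff r l l h h).map pi0 x = x + dl l j := by
      rw [map_eq_T _ ⟨h0.le, h1⟩]
      have hlet : (aff r l l h h).letter x = j := by
        apply letter_eq
        rw [aff_a, aff_a, pts_castSucc, pts_succ]
        exact ⟨hj.1.le, hj.2⟩
      unfold GIEM.T
      rw [hlet, std_f]
    obtain ⟨i0, i1⟩ := B2_image l h.1 x j hj
    obtain ⟨w, p, e⟩ := ih (x + dl l j) i0 (by rw [← htot]; exact i1) (fun i hi => by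
      have := hx (i + 1) (by omega)
      rwa [Function.iterate_succ_apply, hT] at this)
    refine ⟨j :: w, ⟨hj, p⟩, ?_⟩
    rw [Function.iterate_succ_apply, hT, e, List.map_cons, List.sum_cons]
    ring

theorem B_noConn (l : Fin 4 → ℝ) (hl : Keane l) (h : IsLen l) (r : ℕ) :
    (aff r l l h h).NoConnection pi0 := by
  intro m i j hi0 hi4 hj0 hj4 hc
  obtain ⟨s, hs0, hs, hK⟩ := hl
  have c5 : ∀ x : Fin 5, x = 0 ∨ x = 1 ∨ x = 2 ∨ x = 3 ∨ x = Fin.last 4 := by decide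
  have hb : B2_bot l ((aff r l l h h).b i) := by
    rw [aff_b]
    rcases c5 i with rfl | rfl | rfl | rfl | rfl
    · exact absurd rfl hi0
    · exact Or.inl rfl
    · exact Or.inr (Or.inl rfl)
    · exact Or.inr (Or.inr rfl)
    · exact absurd rfl hi4
  have ha : B2_top l ((aff r l l h h).a j) := by
    rw [aff_a]
    rcases c5 j with rfl | rfl | rfl | rfl | rfl
    · exact absurd rfl hj0
    · exact Or.inl rfl
    · exact Or.inr (Or.inl rfl)
    · exact Or.inr (Or.inr rfl)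
    · exact absurd rfl hj4
  rw [← hc] at ha
  obtain ⟨b0, b1⟩ := B2_bot_mem l h.1 _ hb
  rw [h.2] at b1
  -- a minimal return
  have hex : ∃ m, B2_top l (((aff r l l h h).map pi0)^[m] ((aff r l l h h).b i)) := ⟨m, ha⟩
  classical
  obtain ⟨w, p, e⟩ := B2_orbit l h r (Nat.find hex) _ b0 b1 (fun i' hi' => Nat.find_min hex hi')
  have ht := Nat.find_spec hex
  rw [e] at ht
  refine B2_descent s hs hK w.length 0 w ((aff r l l h h).b i) le_rfl ?_ ?_ ?_
  · rw [hs0]; exact hb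
  · rw [hs0]; exact p
  · rw [hs0]; exact ht

end Pool.Agent.Helper160IEM
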