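import Mathlib
import Pool.Agent.Helper160IEM.B1

set_option autoImplicit false
set_option linter.unusedSimpArgs false

/-!
Module C1: the relation (R), passing to the induced system, propagation of constancy.
-/

namespace Pool.Agent.Helper160IEM

open Set Filter Topology

/-- The relation (R). -/
structure RelR (l : Fin 4 → ℝ) (f : Fin 4 → ℝ → ℝ) (g : ℝ → ℝ) : Prop where
  mono : MonotoneOn g (Ioo 0 (tot l))
  fmono : ∀ α, StrictMono (f α)
  rel : ∀ α, ∀ y ∈ Bo l α, ∀ y' ∈ Ioo 0 (tot l),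
    (y' < y + dl l α → g y' ≤ f α (g y)) ∧ (y + dl l α < y' → f α (g y) ≤ g y')

/-- `v` lies between the values of `g` left and right of `x`. -/
def Sand (l : Fin 4 → ℝ) (g : ℝ → ℝ) (x v : ℝ) : Prop :=
  ∀ y ∈ Ioo 0 (tot l), (y < x → g y ≤ v) ∧ (x < y → v ≤ g y)

theorem Bo_sub {l : Fin 4 → ℝ} (hl : ∀ α, 0 < l α) (α : Fin 4) : Bo l α ⊆ Ioo 0 (tot l) := by
  have q0 := hl 0; have q1 := hl 1; have q2 := hl 2; have q3 := hl 3
  intro x hx
  fin_cases α <;> simp [Bo, sS, tot] at hx ⊢ <;> constructor <;> linarith [hx.1, hx.2]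

theorem bot_bd {l : Fin 4 → ℝ} (hl : ∀ α, 0 < l α) (α : Fin 4) :
    0 ≤ sS l α + dl l α ∧ sS l α + dl l α + l α ≤ tot l := by
  have q0 := hl 0; have q1 := hl 1; have q2 := hl 2; have q3 := hl 3
  fin_cases α <;> simp [sS, dl, tot] <;> (try constructor) <;> linarith

theorem top_bd {l : Fin 4 → ℝ} (hl : ∀ α, 0 < l α) (α : Fin 4) :
    0 ≤ sS l α ∧ sS l α + l α ≤ tot l := by
  have q0 := hl 0; have q1 := hl 1; have q2 := hl 2; have q3 := hl 3
  fin_cases α <;> simp [sS, dl, tot] <;> (try constructor) <;> linarith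

theorem Sand_self {l : Fin 4 → ℝ} {f : Fin 4 → ℝ → ℝ} {g : ℝ → ℝ} (hR : RelR l f g) {x : ℝ}
    (hx : x ∈ Ioo 0 (tot l)) : Sand l g x (g x) :=
  fun _ hy => ⟨fun h => hR.mono hy hx h.le, fun h => hR.mono hx hy h.le⟩

theorem Sand_step {l : Fin 4 → ℝ} (hl : ∀ α, 0 < l α) {f : Fin 4 → ℝ → ℝ} {g : ℝ → ℝ}
    (hR : RelR l f g) {x v : ℝ} {α : Fin 4} (hx : x ∈ Bo l α) (h : Sand l g x v) :
    Sand l g (x + dl l α) (f α v) := by
  intro y' hy'
  constructor
  · intro hlt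
    -- choose `y` in the branch with `y' - δ < y < x`
    obtain ⟨y, hy1, hy2⟩ := exists_between (show max (y' - dl l α) (sS l α) < x from
      max_lt (by linarith) hx.1)
    have hyB : y ∈ Bo l α := ⟨(le_max_right _ _).trans_lt hy1, hy2.trans hx.2⟩
    have h1 := ((hR.rel α y hyB y' hy').1 (by linarith [(le_max_left _ _).trans_lt hy1]))
    exact h1.trans ((hR.fmono α).monotone ((h y (Bo_sub hl α hyB)).1 hy2))
  · intro hlt
    obtain ⟨y, hy1, hy2⟩ := exists_between (show x < min (y' - dl l α) (sS l α + l α) from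
      lt_min (by linarith) hx.2)
    have hyB : y ∈ Bo l α := ⟨hx.1.trans hy1, hy2.trans_le (min_le_right _ _)⟩
    have h1 := ((hR.rel α y hyB y' hy').2 (by linarith [hy2.trans_le (min_le_left _ _)]))
    exact ((hR.fmono α).monotone ((h y (Bo_sub hl α hyB)).2 hy1)).trans h1

/-- Composition of the branches along a word. -/
def fw (f : Fin 4 → ℝ → ℝ) (w : List (Fin 4)) (v : ℝ) : ℝ := w.foldl (fun u α => f α u) v

theorem fw_strictMono {f : Fin 4 → ℝ → ℝ} (hf : ∀ α, StrictMono (f α)) (w : List (Fin 4)) :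
    StrictMono (fw f w) := by
  induction w with
  | nil => exact strictMono_id
  | cons α w ih =>
    intro x y hxy
    exact ih (hf α hxy)

theorem Sand_path {l : Fin 4 → ℝ} (hl : ∀ α, 0 < l α) {f : Fin 4 → ℝ → ℝ} {g : ℝ → ℝ}
    (hR : RelR l f g) (w : List (Fin 4)) {x v : ℝ} (hx : IsPath (Bo l) (dl l) x w)
    (h : Sand l g x v) : Sand l g (x + (w.map (dl l)).sum) (fw f w v) := by
  induction w generalizing x v with
  | nil => simpa [fw] using h
  | cons α w ih =>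
    obtain ⟨h1, h2⟩ := hx
    have := ih h2 (Sand_step hl hR h1 h)
    simpa [fw, add_assoc] using this

/-- Induced branches. -/
def fnext (m n : ℕ) (f : Fin 4 → ℝ → ℝ) (j : Fin 4) (x : ℝ) : ℝ := - fw f (Wd m n j) (-x)

/-- Induced `g`. -/
def gnext (T : ℝ) (g : ℝ → ℝ) (z : ℝ) : ℝ := - g (T - z)

theorem KM_pos {m n : ℕ} (hm : 2 ≤ m) (hn : 2 ≤ n) {μ : Fin 4 → ℝ} (hμ : ∀ α, 0 < μ α) :
    ∀ α, 0 < KM m n μ α := by
  have hmR : (2 : ℝ) ≤ m := by exact_mod_cast hm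
  have hnR : (2 : ℝ) ≤ n := by exact_mod_cast hn
  have q0 := hμ 0; have q1 := hμ 1; have q2 := hμ 2; have q3 := hμ 3
  intro α
  fin_cases α
  · change 0 < KM m n μ 0; rw [KM_zero]; linarith
  · change 0 < KM m n μ 1; rw [KM_one]
    have : 0 < (m - 1 : ℝ) * μ 0 := mul_pos (by linarith) q0
    have : 0 < (m : ℝ) * μ 1 := mul_pos (by linarith) q1
    linarith
  · change 0 < KM m n μ 2; rw [KM_two]
    have : 0 < (n : ℝ) * (μ 0 + μ 1 + μ 3) := mul_pos (by linarith) (by linarith)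
    have : 0 < (n - 1 : ℝ) * μ 2 := mul_pos (by linarith) q2
    linarith
  · change 0 < KM m n μ 3; rw [KM_three]; linarith

theorem tot_le_KM {m n : ℕ} (hm : 2 ≤ m) (hn : 2 ≤ n) {μ : Fin 4 → ℝ} (hμ : ∀ α, 0 < μ α) :
    tot μ < tot (KM m n μ) := by
  have h := KM_pos hm hn hμ
  have e : KM m n μ 3 = tot μ := rfl
  have q0 := h 0; have q1 := h 1; have q2 := h 2
  simp only [tot] at *
  linarith

theorem RelR_next {m n : ℕ} (hm : 2 ≤ m) (hn : 2 ≤ n) {μ : Fin 4 → ℝ} (hμ : ∀ α, 0 < μ α)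
    {f : Fin 4 → ℝ → ℝ} {g : ℝ → ℝ} (hR : RelR (KM m n μ) f g) :
    RelR μ (fnext m n f) (gnext (tot (KM m n μ)) g) := by
  have hpos := KM_pos hm hn hμ
  have hlt := tot_le_KM hm hn hμ
  have hin : ∀ z ∈ Ioo 0 (tot μ), tot (KM m n μ) - z ∈ Ioo 0 (tot (KM m n μ)) := by
    intro z hz
    exact ⟨by linarith [hz.2], by linarith [hz.1]⟩
  refine ⟨?_, ?_, ?_⟩
  · intro z hz z' hz' hzz'
    exact neg_le_neg (hR.mono (hin z' hz') (hin z hz) (by linarith))
  · intro j x y hxy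
    exact neg_lt_neg (fw_strictMono hR.fmono _ (neg_lt_neg hxy))
  · intro j z hz z' hz'
    have hz0 := Bo_sub hμ j hz
    have hpath := B_step_open m n hm hn μ hμ j z hz
    have hS := Sand_path hpos hR _ hpath (Sand_self hR (hin z hz0))
    rw [B_step_sum m n hm hn μ j] at hS
    have hS' := hS _ (hin z' hz')
    constructor
    · intro h
      simp only [gnext, fnext, neg_neg]
      exact neg_le_neg (hS'.2 (by linarith))
    · intro h
      simp only [gnext, fnext, neg_neg]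
      exact neg_le_neg (hS'.1 (by linarith))

/-! ### Propagation of constancy -/

theorem fwd {l : Fin 4 → ℝ} (hl : ∀ α, 0 < l α) {f : Fin 4 → ℝ → ℝ} {g : ℝ → ℝ}
    (hR : RelR l f g) (α : Fin 4) {p q c : ℝ} (hp : sS l α ≤ p) (hq : q ≤ sS l α + l α)
    (h : ∀ y ∈ Ioo p q, g y = c) : ∀ y ∈ Ioo (p + dl l α) (q + dl l α), g y = f α c := by
  intro y' hy'
  have hb := bot_bd hl α
  have hy0 : y' ∈ Ioo 0 (tot l) := ⟨by linarith [hy'.1], by linarith [hy'.2]⟩
  obtain ⟨y1, h1, h1'⟩ := exists_between (show p < y' - dl l α by linarith [hy'.1])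
  obtain ⟨y2, h2, h2'⟩ := exists_between (show y' - dl l α < q by linarith [hy'.2])
  have e1 : g y1 = c := h y1 ⟨h1, by linarith⟩
  have e2 : g y2 = c := h y2 ⟨by linarith, h2'⟩
  have r1 := (hR.rel α y1 ⟨by linarith, by linarith⟩ y' hy0).2 (by linarith)
  have r2 := (hR.rel α y2 ⟨by linarith, by linarith⟩ y' hy0).1 (by linarith)
  rw [e1] at r1; rw [e2] at r2
  exact le_antisymm r2 r1

theorem bwd {l : Fin 4 → ℝ} (hl : ∀ α, 0 < l α) {f : Fin 4 → ℝ → ℝ} {g : ℝ → ℝ}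
    (hR : RelR l f g) (α : Fin 4) {p q c : ℝ} (hpq : p < q) (hp : sS l α ≤ p)
    (hq : q ≤ sS l α + l α) (h : ∀ y ∈ Ioo (p + dl l α) (q + dl l α), g y = c) :
    ∃ c', (∀ y ∈ Ioo p q, g y = c') ∧ f α c' = c := by
  have hb := bot_bd hl α
  have key : ∀ y ∈ Ioo p q, f α (g y) = c := by
    intro y hy
    obtain ⟨y1, h1, h1'⟩ := exists_between (show p < y from hy.1)
    obtain ⟨y2, h2, h2'⟩ := exists_between (show y < q from hy.2)
    have e1 : g (y1 + dl l α) = c := h _ ⟨by linarith, by linarith⟩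
    have e2 : g (y2 + dl l α) = c := h _ ⟨by linarith, by linarith⟩
    have hyB : y ∈ Bo l α := ⟨by linarith, by linarith⟩
    have r1 := (hR.rel α y hyB (y1 + dl l α) ⟨by linarith, by linarith⟩).1 (by linarith)
    have r2 := (hR.rel α y hyB (y2 + dl l α) ⟨by linarith, by linarith⟩).2 (by linarith)
    rw [e1] at r1; rw [e2] at r2
    exact le_antisymm r2 r1
  have hmid : (p + q) / 2 ∈ Ioo p q := ⟨by linarith, by linarith⟩
  refine ⟨g ((p + q) / 2), fun y hy => ?_, key _ hmid⟩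
  exact (hR.fmono α).injective ((key y hy).trans (key _ hmid).symm)

/-- Pulling back `k` times through the same letter with a positive translation. -/
theorem bwd_iter {l : Fin 4 → ℝ} (hl : ∀ α, 0 < l α) {f : Fin 4 → ℝ → ℝ} {g : ℝ → ℝ}
    (hR : RelR l f g) (α : Fin 4) (hd : 0 ≤ dl l α) (k : ℕ) {p q c : ℝ} (hpq : p < q)
    (hp : sS l α ≤ p) (hq : q + k * dl l α ≤ sS l α + l α + dl l α)
    (h : ∀ y ∈ Ioo (p + k * dl l α) (q + k * dl l α), g y = c) :
    ∃ c', (∀ y ∈ Ioo p q, g y = c') ∧ (f α)^[k] c' = c := by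
  induction k generalizing c with
  | zero => exact ⟨c, by simpa using h, rfl⟩
  | succ k ih =>
    push_cast at hq h
    have hk : 0 ≤ (k : ℝ) * dl l α := by positivity
    obtain ⟨c1, h1, h1'⟩ := bwd hl hR α (p := p + k * dl l α) (q := q + k * dl l α)
      (by linarith) (by linarith) (by linarith) (c := c) (by
        intro y hy
        exact h y ⟨by linarith [hy.1], by linarith [hy.2]⟩)
    obtain ⟨c2, h2, h2'⟩ := ih (by linarith) h1
    exact ⟨c2, h2, by rw [Function.iterate_succ_apply', h2', h1']⟩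

/-- `g` is constant on the open interval. -/
def Flat (g : ℝ → ℝ) (p q : ℝ) : Prop := ∃ c, ∀ y ∈ Ioo p q, g y = c

theorem Flat.sub {g : ℝ → ℝ} {p q p' q' : ℝ} (h : Flat g p q) (hp : p ≤ p') (hq : q' ≤ q) :
    Flat g p' q' := by
  obtain ⟨c, hc⟩ := h
  exact ⟨c, fun y hy => hc y ⟨by linarith [hy.1], by linarith [hy.2]⟩⟩

theorem Flat.bwd {l : Fin 4 → ℝ} (hl : ∀ α, 0 < l α) {f : Fin 4 → ℝ → ℝ} {g : ℝ → ℝ}
    (hR : RelR l f g) (α : Fin 4) {p q : ℝ} (hpq : p < q) (hp : sS l α ≤ p)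
    (hq : q ≤ sS l α + l α) (h : Flat g (p + dl l α) (q + dl l α)) : Flat g p q := by
  obtain ⟨c, hc⟩ := h
  obtain ⟨c', h', -⟩ := Helper160IEM.bwd hl hR α hpq hp hq hc
  exact ⟨c', h'⟩

theorem Flat.bwd_iter {l : Fin 4 → ℝ} (hl : ∀ α, 0 < l α) {f : Fin 4 → ℝ → ℝ} {g : ℝ → ℝ}
    (hR : RelR l f g) (α : Fin 4) (hd : 0 ≤ dl l α) (k : ℕ) {p q : ℝ} (hpq : p < q)
    (hp : sS l α ≤ p) (hq : q + k * dl l α ≤ sS l α + l α + dl l α)
    (h : Flat g (p + k * dl l α) (q + k * dl l α)) : Flat g p q := by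
  obtain ⟨c, hc⟩ := h
  obtain ⟨c', h', -⟩ := Helper160IEM.bwd_iter hl hR α hd k hpq hp hq hc
  exact ⟨c', h'⟩

/-- Cutting an interval at a point, keeping at least half. -/
theorem cut {p q : ℝ} (hpq : p < q) (c : ℝ) :
    ∃ p' q', p ≤ p' ∧ p' < q' ∧ q' ≤ q ∧ (q - p) / 2 ≤ q' - p' ∧ (q' ≤ c ∨ c ≤ p') := by
  rcases le_or_gt c ((p + q) / 2) with h | h
  · refine ⟨max p c, q, le_max_left _ _, max_lt hpq (by linarith), le_rfl, ?_,
      Or.inr (le_max_right _ _)⟩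
    rcases le_total p c with h1 | h1
    · rw [max_eq_right h1]; linarith
    · rw [max_eq_left h1]; linarith
  · refine ⟨p, min q c, le_rfl, lt_min hpq (by linarith), min_le_left _ _, ?_,
      Or.inl (min_le_right _ _)⟩
    rcases le_total q c with h1 | h1
    · rw [min_eq_left h1]; linarith
    · rw [min_eq_right h1]; linarith

end Pool.Agent.Helper160IEM
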