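import Mathlib
import Pool.Agent.Helper160IEM.C1

set_option autoImplicit false
set_option linter.unusedSimpArgs false

/-!
Module C2: pulling flat pieces back to the base of Keane's induction.
-/

namespace Pool.Agent.Helper160IEM

open Set Filter Topology

/-- One stage of the induction: `l = KM m n μ` together with the relation. -/
structure Stage (m n : ℕ) (μ : Fin 4 → ℝ) (f : Fin 4 → ℝ → ℝ) (g : ℝ → ℝ) : Prop where
  hm : 2 ≤ m
  hn : 2 ≤ n
  hμ : ∀ α, 0 < μ α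
  hR : RelR (KM m n μ) f g

variable {m n : ℕ} {μ : Fin 4 → ℝ} {f : Fin 4 → ℝ → ℝ} {g : ℝ → ℝ}

/-- `g` is flat on the part `(p,q)` of the base, in the coordinate `y = x - L`. -/
def FJ (m n : ℕ) (μ : Fin 4 → ℝ) (g : ℝ → ℝ) (p q : ℝ) : Prop :=
  Flat g (sS (KM m n μ) 3 + p) (sS (KM m n μ) 3 + q)

theorem Stage.J4 (S : Stage m n μ f g) {p q : ℝ} (hp : 0 ≤ p) (hpq : p < q) (hq : q ≤ tot μ)
    (h : Flat g p q) : FJ m n μ g p q := by
  have hl := KM_pos S.hm S.hn S.hμ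
  refine Flat.bwd hl S.hR 3 (by linarith) (by linarith) ?_ ?_
  · have : KM m n μ 3 = tot μ := rfl
    linarith
  · have e1 : sS (KM m n μ) 3 + p + dl (KM m n μ) 3 = p := by rw [sS_three, dl_three]; ring
    have e2 : sS (KM m n μ) 3 + q + dl (KM m n μ) 3 = q := by rw [sS_three, dl_three]; ring
    rwa [e1, e2]

/-- basic numeric facts about one stage -/
theorem Stage.nums (S : Stage m n μ f g) :
    0 < μ 0 ∧ 0 < μ 1 ∧ 0 < μ 2 ∧ 0 < μ 3 ∧ (2 : ℝ) ≤ m ∧ (2 : ℝ) ≤ n :=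
  ⟨S.hμ 0, S.hμ 1, S.hμ 2, S.hμ 3, by exact_mod_cast S.hm, by exact_mod_cast S.hn⟩

/-- the cells in `I_2` -/
theorem Stage.cell2 (S : Stage m n μ f g) (i : ℕ) {p q : ℝ} (hpq : p < q)
    (hp : μ 2 + μ 3 + i * (μ 0 + μ 1) ≤ p) (hq : q ≤ μ 2 + μ 3 + (i + 1) * (μ 0 + μ 1))
    (hq2 : q ≤ KM m n μ 0 + KM m n μ 1) (h : Flat g p q) :
    FJ m n μ g (p - i * (μ 0 + μ 1)) (q - i * (μ 0 + μ 1)) := by
  obtain ⟨q0, q1, q2, q3, hm, hn⟩ := S.nums
  have hl := KM_pos S.hm S.hn S.hμ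
  have hd : dl (KM m n μ) 1 = μ 0 + μ 1 := by rw [dl_one, KM_three, KM_zero]; ring
  have h2 : Flat g (p - i * (μ 0 + μ 1)) (q - i * (μ 0 + μ 1)) := by
    refine Flat.bwd_iter hl S.hR 1 (by rw [hd]; linarith) i (by linarith) ?_ ?_ ?_
    · simp only [sS_one, KM_zero]; linarith
    · rw [hd]
      simp only [sS_one]; linarith
    · rw [hd]
      have e1 : p - i * (μ 0 + μ 1) + i * (μ 0 + μ 1) = p := by ring
      have e2 : q - i * (μ 0 + μ 1) + i * (μ 0 + μ 1) = q := by ring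
      rwa [e1, e2]
  refine S.J4 ?_ (by linarith) ?_ h2
  · linarith
  · simp only [tot]; linarith

/-- floor with a positive step -/
theorem exists_cell {x s : ℝ} (hs : 0 < s) (hx : 0 ≤ x) :
    ∃ i : ℕ, i * s ≤ x ∧ x < (i + 1) * s := by
  refine ⟨⌊x / s⌋₊, ?_, ?_⟩
  · have := Nat.floor_le (div_nonneg hx hs.le)
    calc (⌊x / s⌋₊ : ℝ) * s ≤ x / s * s := mul_le_mul_of_nonneg_right this hs.le
      _ = x := by field_simp
  · have := Nat.lt_floor_add_one (x / s)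
    calc x = x / s * s := by field_simp
      _ < (⌊x / s⌋₊ + 1 : ℝ) * s := mul_lt_mul_of_pos_right this hs

theorem Stage.I2 (S : Stage m n μ f g) {p q : ℝ} (hpq : p < q) (hp : KM m n μ 0 ≤ p)
    (hq : q ≤ KM m n μ 0 + KM m n μ 1) (h : Flat g p q) :
    FJ m n μ g (μ 2 + μ 3) (tot μ) ∨ ∃ p' q', 0 ≤ p' ∧ p' < q' ∧ q' ≤ tot μ ∧
      (q - p) / 2 ≤ q' - p' ∧ FJ m n μ g p' q' := by
  obtain ⟨q0, q1, q2, q3, hm, hn⟩ := S.nums
  have hs : 0 < μ 0 + μ 1 := by linarith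
  rw [KM_zero] at hp
  obtain ⟨i, hi1, hi2⟩ := exists_cell hs (show 0 ≤ p - (μ 2 + μ 3) by linarith)
  obtain ⟨p', q', h1, h2, h3, h4, h5⟩ := cut hpq (μ 2 + μ 3 + (i + 1) * (μ 0 + μ 1))
  rcases h5 with h5 | h5
  · right
    refine ⟨p' - i * (μ 0 + μ 1), q' - i * (μ 0 + μ 1), by linarith, by linarith, ?_, by linarith,
      S.cell2 i h2 (by linarith) h5 (by linarith) (h.sub h1 h3)⟩
    simp only [tot]; linarith
  · -- in the next cell
    rcases le_or_gt q' (μ 2 + μ 3 + (i + 2) * (μ 0 + μ 1)) with h6 | h6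
    · right
      have hc := S.cell2 (i + 1) h2 (by push_cast; linarith) (by push_cast; linarith)
        (by linarith) (h.sub h1 h3)
      refine ⟨_, _, ?_, ?_, ?_, ?_, hc⟩ <;> push_cast <;> (try simp only [tot]) <;> linarith
    · left
      have hcase : p' = μ 2 + μ 3 + (i + 1) * (μ 0 + μ 1) ∨
          μ 2 + μ 3 + (i + 1) * (μ 0 + μ 1) < p' := by
        rcases h5.lt_or_eq with h | h
        · exact Or.inr h
        · exact Or.inl h.symm
      -- the full cell is contained in `(p, q)`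
      have hfull : Flat g (μ 2 + μ 3 + (i + 1) * (μ 0 + μ 1))
          (μ 2 + μ 3 + (i + 2) * (μ 0 + μ 1)) := h.sub (by linarith) (by linarith)
      have hc := S.cell2 (i + 1) (p := μ 2 + μ 3 + (i + 1) * (μ 0 + μ 1))
        (q := μ 2 + μ 3 + (i + 2) * (μ 0 + μ 1)) (by linarith) (by push_cast; linarith)
        (by push_cast; linarith) (by linarith) hfull
      push_cast at hc
      have e1 : μ 2 + μ 3 + (i + 1) * (μ 0 + μ 1) - (i + 1) * (μ 0 + μ 1) = μ 2 + μ 3 := by ring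
      have e2 : μ 2 + μ 3 + (i + 2) * (μ 0 + μ 1) - (i + 1) * (μ 0 + μ 1) = tot μ := by
        simp only [tot]; ring
      rwa [e1, e2] at hc

/-- from the right part of the first cell of `I_3` -/
theorem Stage.I1 (S : Stage m n μ f g) {p q : ℝ} (hpq : p < q)
    (hp : KM m n μ 3 + KM m n μ 1 ≤ p) (hq : q ≤ KM m n μ 3 + KM m n μ 1 + KM m n μ 0)
    (h : Flat g p q) :
    FJ m n μ g (p - (KM m n μ 3 + KM m n μ 1)) (q - (KM m n μ 3 + KM m n μ 1)) := by
  obtain ⟨q0, q1, q2, q3, hm, hn⟩ := S.nums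
  have hl := KM_pos S.hm S.hn S.hμ
  have h2 : Flat g (p - (KM m n μ 3 + KM m n μ 1)) (q - (KM m n μ 3 + KM m n μ 1)) := by
    refine Flat.bwd hl S.hR 0 (by linarith) ?_ ?_ ?_
    · simp only [sS_zero]; linarith
    · simp only [sS_zero]; linarith
    · rw [dl_zero]
      have e1 : p - (KM m n μ 3 + KM m n μ 1) + (KM m n μ 3 + KM m n μ 1) = p := by ring
      have e2 : q - (KM m n μ 3 + KM m n μ 1) + (KM m n μ 3 + KM m n μ 1) = q := by ring
      rwa [e1, e2]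
  refine S.J4 (by linarith) (by linarith) ?_ h2
  have e : KM m n μ 0 = μ 2 + μ 3 := rfl
  rw [e] at hq
  simp only [tot]; linarith

/-- the cells in `I_3`, pulled back to the first one -/
theorem Stage.cell3 (S : Stage m n μ f g) (i : ℕ) {p q : ℝ} (hpq : p < q)
    (hp : KM m n μ 0 + KM m n μ 1 + i * tot μ ≤ p)
    (hq2 : q ≤ KM m n μ 0 + KM m n μ 1 + KM m n μ 2) (h : Flat g p q) :
    Flat g (p - i * tot μ) (q - i * tot μ) := by
  obtain ⟨q0, q1, q2, q3, hm, hn⟩ := S.nums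
  have hl := KM_pos S.hm S.hn S.hμ
  have hd : dl (KM m n μ) 2 = tot μ := rfl
  have ht : 0 < tot μ := by simp only [tot]; linarith
  refine Flat.bwd_iter hl S.hR 2 (by rw [hd]; linarith) i (by linarith) ?_ ?_ ?_
  · simp only [sS_two]; linarith
  · rw [hd]
    simp only [sS_two]; linarith
  · rw [hd]
    have e1 : p - i * tot μ + i * tot μ = p := by ring
    have e2 : q - i * tot μ + i * tot μ = q := by ring
    rwa [e1, e2]

/-- a flat piece in the first cell of `I_3` -/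
theorem Stage.I3a (S : Stage m n μ f g) {p q : ℝ} (hpq : p < q)
    (hp : KM m n μ 0 + KM m n μ 1 ≤ p) (hq : q ≤ KM m n μ 0 + KM m n μ 1 + tot μ)
    (h : Flat g p q) :
    FJ m n μ g (μ 2 + μ 3) (tot μ) ∨ ∃ p' q', 0 ≤ p' ∧ p' < q' ∧ q' ≤ tot μ ∧
      (q - p) / 4 ≤ q' - p' ∧ FJ m n μ g p' q' := by
  obtain ⟨q0, q1, q2, q3, hm, hn⟩ := S.nums
  have hl := KM_pos S.hm S.hn S.hμ
  have e3 : KM m n μ 3 = tot μ := rfl
  have e0 : KM m n μ 0 = μ 2 + μ 3 := rfl
  have et : tot μ = μ 0 + μ 1 + μ 2 + μ 3 := rfl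
  have ebs : μ 0 + μ 1 ≤ KM m n μ 1 := by
    rw [KM_one]
    have : 0 ≤ (m - 2 : ℝ) * μ 0 := mul_nonneg (by linarith) q0.le
    have : 0 ≤ (m - 2 : ℝ) * μ 1 := mul_nonneg (by linarith) q1.le
    nlinarith
  obtain ⟨p', q', h1, h2, h3, h4, h5⟩ := cut hpq (KM m n μ 3 + KM m n μ 1)
  rcases h5 with h5 | h5
  · -- in the image of the second letter
    have hb : Flat g (p' - (μ 0 + μ 1)) (q' - (μ 0 + μ 1)) := by
      have hd : dl (KM m n μ) 1 = μ 0 + μ 1 := by rw [dl_one, KM_three, KM_zero]; ring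
      refine Flat.bwd hl S.hR 1 (by linarith) ?_ ?_ ?_
      · simp only [sS_one]; linarith
      · simp only [sS_one]; linarith
      · rw [hd]
        have e1 : p' - (μ 0 + μ 1) + (μ 0 + μ 1) = p' := by ring
        have e2 : q' - (μ 0 + μ 1) + (μ 0 + μ 1) = q' := by ring
        rw [e1, e2]
        exact h.sub h1 h3
    rcases S.I2 (by linarith) (by linarith) (by linarith) hb with h6 | ⟨p2, q2', a1, a2, a3, a4, a5⟩
    · exact Or.inl h6
    · exact Or.inr ⟨p2, q2', a1, a2, a3, by linarith, a5⟩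
  · right
    have h6 := S.I1 h2 h5 (by linarith) (h.sub h1 h3)
    refine ⟨_, _, by linarith, by linarith, by linarith, by linarith, h6⟩

theorem Stage.I3 (S : Stage m n μ f g) {p q : ℝ} (hpq : p < q)
    (hp : KM m n μ 0 + KM m n μ 1 ≤ p) (hq : q ≤ KM m n μ 0 + KM m n μ 1 + KM m n μ 2)
    (h : Flat g p q) :
    FJ m n μ g (μ 2 + μ 3) (tot μ) ∨ FJ m n μ g 0 (μ 2 + μ 3) ∨
      ∃ p' q', 0 ≤ p' ∧ p' < q' ∧ q' ≤ tot μ ∧ (q - p) / 8 ≤ q' - p' ∧ FJ m n μ g p' q' := by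
  obtain ⟨q0, q1, q2, q3, hm, hn⟩ := S.nums
  have hl := KM_pos S.hm S.hn S.hμ
  have e3 : KM m n μ 3 = tot μ := rfl
  have e0 : KM m n μ 0 = μ 2 + μ 3 := rfl
  have et : tot μ = μ 0 + μ 1 + μ 2 + μ 3 := rfl
  have ht : 0 < tot μ := by linarith
  obtain ⟨i, hi1, hi2⟩ := exists_cell ht (show 0 ≤ p - (KM m n μ 0 + KM m n μ 1) by linarith)
  obtain ⟨p', q', h1, h2, h3, h4, h5⟩ := cut hpq (KM m n μ 0 + KM m n μ 1 + (i + 1) * tot μ)
  rcases h5 with h5 | h5
  · have hc := S.cell3 i h2 (by linarith) (by linarith) (h.sub h1 h3)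
    rcases S.I3a (by linarith) (by linarith) (by linarith) hc with h6 | ⟨a, b, a1, a2, a3, a4, a5⟩
    · exact Or.inl h6
    · exact Or.inr (Or.inr ⟨a, b, a1, a2, a3, by linarith, a5⟩)
  · rcases le_or_gt q' (KM m n μ 0 + KM m n μ 1 + (i + 2) * tot μ) with h6 | h6
    · have hc := S.cell3 (i + 1) h2 (by push_cast; linarith) (by linarith) (h.sub h1 h3)
      push_cast at hc
      rcases S.I3a (by linarith) (by linarith) (by linarith) hc with h6 | ⟨a, b, a1, a2, a3, a4, a5⟩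
      · exact Or.inl h6
      · exact Or.inr (Or.inr ⟨a, b, a1, a2, a3, by linarith, a5⟩)
    · right; left
      have hfull : Flat g (KM m n μ 0 + KM m n μ 1 + (i + 1) * tot μ)
          (KM m n μ 0 + KM m n μ 1 + (i + 2) * tot μ) := h.sub (by linarith) (by linarith)
      have hc := S.cell3 (i + 1) (p := KM m n μ 0 + KM m n μ 1 + (i + 1) * tot μ)
        (q := KM m n μ 0 + KM m n μ 1 + (i + 2) * tot μ) (by linarith) (by push_cast; linarith)
        (by linarith) hfull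
      push_cast at hc
      have h7 := S.I1 (p := KM m n μ 3 + KM m n μ 1)
        (q := KM m n μ 3 + KM m n μ 1 + KM m n μ 0) (by linarith [hl 0]) le_rfl le_rfl
        (hc.sub (by linarith) (by linarith))
      have e1 : KM m n μ 3 + KM m n μ 1 - (KM m n μ 3 + KM m n μ 1) = 0 := by ring
      have e2 : KM m n μ 3 + KM m n μ 1 + KM m n μ 0 - (KM m n μ 3 + KM m n μ 1) = μ 2 + μ 3 := by
        rw [e0]; ring
      rwa [e1, e2] at h7

/-- a flat piece somewhere -/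
theorem Stage.any (S : Stage m n μ f g) {p q : ℝ} (hpq : p < q) (hp : 0 ≤ p)
    (hq : q ≤ tot (KM m n μ)) (h : Flat g p q) :
    FJ m n μ g (μ 2 + μ 3) (tot μ) ∨ FJ m n μ g 0 (μ 2 + μ 3) ∨
      ∃ p' q', 0 ≤ p' ∧ p' < q' ∧ q' ≤ tot μ ∧ (q - p) / 64 ≤ q' - p' ∧ FJ m n μ g p' q' := by
  obtain ⟨q0, q1, q2, q3, hm, hn⟩ := S.nums
  have e3 : KM m n μ 3 = tot μ := rfl
  have e0 : KM m n μ 0 = μ 2 + μ 3 := rfl
  have et : tot μ = μ 0 + μ 1 + μ 2 + μ 3 := rfl
  have eT : tot (KM m n μ) = KM m n μ 0 + KM m n μ 1 + KM m n μ 2 + KM m n μ 3 := rfl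
  obtain ⟨p1, p1', a1, a2, a3, a4, a5⟩ := cut hpq (KM m n μ 0)
  rcases a5 with a5 | a5
  · right; right
    exact ⟨p1, p1', by linarith, a2, by linarith, by linarith,
      S.J4 (by linarith) a2 (by linarith) (h.sub a1 a3)⟩
  obtain ⟨p2, p2', b1, b2, b3, b4, b5⟩ := cut a2 (KM m n μ 0 + KM m n μ 1)
  rcases b5 with b5 | b5
  · rcases S.I2 b2 (by linarith) b5 (h.sub (by linarith) (by linarith)) with
      h6 | ⟨a, b, c1, c2, c3, c4, c5⟩
    · exact Or.inl h6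
    · exact Or.inr (Or.inr ⟨a, b, c1, c2, c3, by linarith, c5⟩)
  obtain ⟨p3, p3', d1, d2, d3, d4, d5⟩ := cut b2 (KM m n μ 0 + KM m n μ 1 + KM m n μ 2)
  rcases d5 with d5 | d5
  · rcases S.I3 d2 (by linarith) d5 (h.sub (by linarith) (by linarith)) with
      h6 | h6 | ⟨a, b, c1, c2, c3, c4, c5⟩
    · exact Or.inl h6
    · exact Or.inr (Or.inl h6)
    · exact Or.inr (Or.inr ⟨a, b, c1, c2, c3, by linarith, c5⟩)
  · right; right
    refine ⟨p3 - sS (KM m n μ) 3, p3' - sS (KM m n μ) 3, ?_, by linarith, ?_, by linarith, ?_⟩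
    · simp only [sS_three]; linarith
    · simp only [sS_three]; linarith
    · unfold FJ
      have e1 : sS (KM m n μ) 3 + (p3 - sS (KM m n μ) 3) = p3 := by ring
      have e2 : sS (KM m n μ) 3 + (p3' - sS (KM m n μ) 3) = p3' := by ring
      rw [e1, e2]
      exact h.sub (by linarith) (by linarith)

end Pool.Agent.Helper160IEM
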