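import Mathlib
import Pool.Agent.Helper160IEM.C2

set_option autoImplicit false
set_option linter.unusedSimpArgs false

/-!
Module C3: full letters, and the descent of flatness.
-/

namespace Pool.Agent.Helper160IEM

open Set Filter Topology

variable {m n : ℕ} {μ : Fin 4 → ℝ} {f : Fin 4 → ℝ → ℝ} {g : ℝ → ℝ}

theorem FJ_next {p q : ℝ} (h : FJ m n μ g p q) :
    Flat (gnext (tot (KM m n μ)) g) (tot μ - q) (tot μ - p) := by
  obtain ⟨c, hc⟩ := h
  refine ⟨-c, fun z hz => ?_⟩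
  have e : tot (KM m n μ) = sS (KM m n μ) 3 + tot μ := rfl
  simp only [gnext]
  rw [hc _ ⟨by rw [e]; linarith [hz.2], by rw [e]; linarith [hz.1]⟩]

/-- some full letter is flat -/
def Big (μ : Fin 4 → ℝ) (g : ℝ → ℝ) : Prop := ∃ j, Flat g (sS μ j) (sS μ j + μ j)

theorem FJ_big_right (hμ : ∀ α, 0 < μ α) (h : FJ m n μ g (μ 2 + μ 3) (tot μ)) :
    Flat (gnext (tot (KM m n μ)) g) (sS μ 0) (sS μ 0 + μ 0) := by
  have q0 := hμ 0; have q1 := hμ 1; have q2 := hμ 2; have q3 := hμ 3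
  refine (FJ_next h).sub ?_ ?_ <;> simp [tot] <;> linarith

theorem FJ_big_left (hμ : ∀ α, 0 < μ α) (h : FJ m n μ g 0 (μ 2 + μ 3)) :
    Flat (gnext (tot (KM m n μ)) g) (sS μ 3) (sS μ 3 + μ 3) := by
  have q0 := hμ 0; have q1 := hμ 1; have q2 := hμ 2; have q3 := hμ 3
  refine (FJ_next h).sub ?_ ?_ <;> simp [tot] <;> linarith

theorem Stage.any' (S : Stage m n μ f g) {p q : ℝ} (hpq : p < q) (hp : 0 ≤ p)
    (hq : q ≤ tot (KM m n μ)) (h : Flat g p q) :
    Big μ (gnext (tot (KM m n μ)) g) ∨ ∃ p' q', 0 ≤ p' ∧ p' < q' ∧ q' ≤ tot μ ∧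
      (q - p) / 64 ≤ q' - p' ∧ Flat (gnext (tot (KM m n μ)) g) p' q' := by
  rcases S.any hpq hp hq h with h1 | h1 | ⟨a, b, c1, c2, c3, c4, c5⟩
  · exact Or.inl ⟨0, FJ_big_right S.hμ h1⟩
  · exact Or.inl ⟨3, FJ_big_left S.hμ h1⟩
  · exact Or.inr ⟨_, _, by linarith, by linarith, by linarith, by linarith, FJ_next c5⟩

theorem Stage.big (S : Stage m n μ f g) (j : Fin 4)
    (h : Flat g (sS (KM m n μ) j) (sS (KM m n μ) j + KM m n μ j)) :
    (j = 3 ∧ Flat (gnext (tot (KM m n μ)) g) 0 (tot μ)) ∨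
    (j ≠ 3 ∧ Flat (gnext (tot (KM m n μ)) g) (sS μ 3) (sS μ 3 + μ 3)) ∨
    (j = 1 ∧ Flat (gnext (tot (KM m n μ)) g) (sS μ 0) (sS μ 0 + μ 0)) := by
  obtain ⟨q0, q1, q2, q3, hm, hn⟩ := S.nums
  have hl := KM_pos S.hm S.hn S.hμ
  have e3 : KM m n μ 3 = tot μ := rfl
  have e0 : KM m n μ 0 = μ 2 + μ 3 := rfl
  have et : tot μ = μ 0 + μ 1 + μ 2 + μ 3 := rfl
  have ebs : μ 0 + μ 1 ≤ KM m n μ 1 := by
    rw [KM_one]
    have : 0 ≤ (m - 2 : ℝ) * μ 0 := mul_nonneg (by linarith) q0.le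
    have : 0 ≤ (m - 2 : ℝ) * μ 1 := mul_nonneg (by linarith) q1.le
    nlinarith
  have ebt : tot μ ≤ KM m n μ 2 := by
    rw [KM_two]
    have : 0 ≤ (n - 2 : ℝ) * (μ 0 + μ 1 + μ 2 + μ 3) := mul_nonneg (by linarith) (by linarith)
    nlinarith
  fin_cases j
  · -- letter 0
    right; left
    refine ⟨by decide, FJ_big_left S.hμ ?_⟩
    refine S.J4 le_rfl (by linarith) (by linarith) (h.sub ?_ ?_)
    · simp [sS]
    · simp [sS]
  · right; right
    refine ⟨rfl, FJ_big_right S.hμ ?_⟩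
    refine S.J4 (by linarith) (by linarith) le_rfl (h.sub ?_ ?_)
    · change KM m n μ 0 ≤ _; rw [e0]
    · change _ ≤ KM m n μ 0 + KM m n μ 1; rw [e0]; linarith
  · right; left
    refine ⟨by decide, FJ_big_left S.hμ ?_⟩
    have h7 := S.I1 (p := KM m n μ 3 + KM m n μ 1)
        (q := KM m n μ 3 + KM m n μ 1 + KM m n μ 0) (by linarith [hl 0]) le_rfl le_rfl
        (h.sub (by change KM m n μ 0 + KM m n μ 1 ≤ _; linarith)
          (by change _ ≤ KM m n μ 0 + KM m n μ 1 + KM m n μ 2; linarith))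
    have e1 : KM m n μ 3 + KM m n μ 1 - (KM m n μ 3 + KM m n μ 1) = 0 := by ring
    have e2 : KM m n μ 3 + KM m n μ 1 + KM m n μ 0 - (KM m n μ 3 + KM m n μ 1) = μ 2 + μ 3 := by
      rw [e0]; ring
    rwa [e1, e2] at h7
  · left
    refine ⟨rfl, ?_⟩
    have : FJ m n μ g 0 (tot μ) := by
      unfold FJ
      refine h.sub ?_ ?_
      · change sS (KM m n μ) 3 ≤ _; linarith
      · change _ ≤ sS (KM m n μ) 3 + KM m n μ 3; rw [e3]
    have := FJ_next this
    simpa using this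

/-- values on overlapping intervals agree -/
theorem overlap {c c' p q p' q' y : ℝ} (h : ∀ y ∈ Ioo p q, g y = c)
    (h' : ∀ y ∈ Ioo p' q', g y = c') (h1 : y ∈ Ioo p q) (h2 : y ∈ Ioo p' q') : c = c' :=
  (h y h1).symm.trans (h' y h2)

theorem Stage.down (S : Stage m n μ f g) (h : Flat (gnext (tot (KM m n μ)) g) 0 (tot μ)) :
    Flat g 0 (tot (KM m n μ)) := by
  obtain ⟨q0, q1, q2, q3, hm, hn⟩ := S.nums
  have hl := KM_pos S.hm S.hn S.hμ
  have hR := S.hR
  have e3 : KM m n μ 3 = tot μ := rfl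
  have e0 : KM m n μ 0 = μ 2 + μ 3 := rfl
  have et : tot μ = μ 0 + μ 1 + μ 2 + μ 3 := rfl
  have e1 : KM m n μ 1 = (m - 1) * (μ 0 + μ 1) + μ 1 := by rw [KM_one]; ring
  have e2 : KM m n μ 2 = n * tot μ - μ 2 := by rw [KM_two, et]; ring
  have ebs : μ 0 + μ 1 ≤ KM m n μ 1 := by
    rw [KM_one]
    have : 0 ≤ (m - 2 : ℝ) * μ 0 := mul_nonneg (by linarith) q0.le
    have : 0 ≤ (m - 2 : ℝ) * μ 1 := mul_nonneg (by linarith) q1.le
    nlinarith
  have ebt : tot μ ≤ KM m n μ 2 := by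
    rw [KM_two]
    have : 0 ≤ (n - 2 : ℝ) * (μ 0 + μ 1 + μ 2 + μ 3) := mul_nonneg (by linarith) (by linarith)
    nlinarith
  have eT : tot (KM m n μ) = KM m n μ 0 + KM m n μ 1 + KM m n μ 2 + tot μ := rfl
  set t := tot μ with ht
  set l0 := KM m n μ 0 with hl0
  set l1 := KM m n μ 1 with hl1
  set l2 := KM m n μ 2 with hl2
  have d0 : dl (KM m n μ) 0 = t + l1 := rfl
  have d1 : dl (KM m n μ) 1 = μ 0 + μ 1 := by
    rw [dl_one]; change t - l0 = _; linarith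
  have d2 : dl (KM m n μ) 2 = t := rfl
  have d3 : dl (KM m n μ) 3 = -(l0 + l1 + l2) := rfl
  have s1 : sS (KM m n μ) 1 = l0 := rfl
  have s2 : sS (KM m n μ) 2 = l0 + l1 := rfl
  have s3 : sS (KM m n μ) 3 = l0 + l1 + l2 := rfl
  obtain ⟨c, hc⟩ := h
  -- the base
  have hJ : ∀ y ∈ Ioo (l0 + l1 + l2) (l0 + l1 + l2 + t), g y = -c := by
    intro y hy
    have := hc (tot (KM m n μ) - y) ⟨by rw [eT]; linarith [hy.2], by rw [eT]; linarith [hy.1]⟩
    simp only [gnext, sub_sub_cancel] at this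
    linarith
  set c0 := -c with hc0
  -- image of the base
  have h1 : ∀ y ∈ Ioo 0 t, g y = f 3 c0 := by
    have := fwd hl hR 3 (p := l0 + l1 + l2) (q := l0 + l1 + l2 + t) (by rw [s3])
      (by rw [s3, e3]) hJ
    rw [d3] at this
    intro y hy
    exact this y ⟨by linarith [hy.1], by linarith [hy.2]⟩
  set x1 := f 3 c0 with hx1
  have h3 : ∀ y ∈ Ioo (t + l1) (l0 + l1 + t), g y = f 0 x1 := by
    have := fwd hl hR 0 (p := 0) (q := l0) (by rw [sS_zero]) (by rw [sS_zero]; linarith)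
      (c := x1) (fun y hy => h1 y ⟨hy.1, by linarith [hy.2]⟩)
    rw [d0] at this
    intro y hy
    exact this y ⟨by linarith [hy.1], by linarith [hy.2]⟩
  set x3 := f 0 x1 with hx3
  -- the far cell in I_3
  have hn1 : ((n - 1 : ℕ) : ℝ) = n - 1 := by rw [Nat.cast_sub (by have := S.hn; omega)]; simp
  have hm1 : ((m - 1 : ℕ) : ℝ) = m - 1 := by rw [Nat.cast_sub (by have := S.hm; omega)]; simp
  obtain ⟨v, hv, hv'⟩ := bwd_iter hl hR 2 (by rw [d2]; linarith) (n - 1)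
    (p := l0 + l1 + t - μ 2) (q := l0 + l1 + 2 * t - μ 2) (c := c0) (by linarith)
    (by rw [s2]; linarith) (by rw [s2, d2, hn1, ← hl2, e2]; linarith) (by
      intro y hy
      rw [d2, hn1] at hy
      exact hJ y ⟨by linarith [hy.1], by linarith [hy.2]⟩)
  have hv3 : v = x3 := by
    obtain ⟨y, hy1, hy2⟩ := exists_between (show max (l0 + l1 + t - μ 2) (t + l1) < l0 + l1 + t from
      max_lt (by linarith) (by linarith))
    exact overlap hv h3 ⟨(le_max_left _ _).trans_lt hy1, by linarith⟩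
      ⟨(le_max_right _ _).trans_lt hy1, hy2⟩
  have hf2 : f 2 x3 = x3 := by
    have hsh := fwd hl hR 2 (p := t + l1) (q := l0 + l1 + t) (by rw [s2]; linarith)
      (by rw [s2]; linarith) h3
    rw [d2] at hsh
    obtain ⟨y, hy1, hy2⟩ := exists_between (show t + l1 + t < l0 + l1 + 2 * t - μ 2 by linarith)
    have := overlap hsh hv (y := y) ⟨hy1, by linarith⟩ ⟨by linarith, hy2⟩
    rw [this, hv3]
  have hc03 : c0 = x3 := by
    rw [← hv', hv3]
    exact (Function.iterate_fixed hf2 _)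
  -- first piece of I_3
  have h2a : ∀ y ∈ Ioo (l0 + l1) (l0 + l1 + t - μ 2), g y = x3 := by
    obtain ⟨c', hc1, hc2⟩ := bwd hl hR 2 (p := l0 + l1) (q := l0 + l1 + t - μ 2) (c := x3)
      (by linarith) (by rw [s2]) (by rw [s2]; linarith) (by
        intro y hy
        rw [d2] at hy
        rw [hv y ⟨by linarith [hy.1], by linarith [hy.2]⟩, hv3])
    have : c' = x3 := (hR.fmono 2).injective (hc2.trans hf2.symm)
    intro y hy
    rw [hc1 y hy, this]
  -- the far cell in I_2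
  obtain ⟨w, hw, hw'⟩ := bwd_iter hl hR 1 (by rw [d1]; linarith) (m - 1)
    (p := l0 + μ 1) (q := l0 + μ 1 + (μ 0 + μ 1)) (c := x3) (by linarith)
    (by rw [s1]; linarith) (by rw [s1, d1, hm1, ← hl1, e1]; linarith) (by
      intro y hy
      rw [d1, hm1] at hy
      exact h2a y ⟨by linarith [hy.1], by linarith [hy.2]⟩)
  have hw1 : w = x1 := by
    obtain ⟨y, hy1, hy2⟩ := exists_between (show l0 + μ 1 < t by linarith)
    exact overlap hw h1 ⟨hy1, by linarith⟩ ⟨by linarith, hy2⟩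
  have hf1 : f 1 x1 = x1 := by
    have hsh := fwd hl hR 1 (p := l0) (q := t) (by rw [s1]) (by rw [s1]; linarith)
      (c := x1) (fun y hy => h1 y ⟨by linarith [hy.1], hy.2⟩)
    rw [d1] at hsh
    obtain ⟨y, hy1, hy2⟩ := exists_between (show l0 + (μ 0 + μ 1) < l0 + μ 1 + (μ 0 + μ 1) by
      linarith)
    have := overlap hsh hw (y := y) ⟨hy1, by linarith⟩ ⟨by linarith, hy2⟩
    rw [this, hw1]
  have hx13 : x3 = x1 := by
    rw [← hw', hw1]
    exact (Function.iterate_fixed hf1 _)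
  -- conclusion by monotonicity
  refine ⟨x1, fun y hy => ?_⟩
  rw [eT] at hy
  obtain ⟨y1, hy1, hy1'⟩ := exists_between (show 0 < min y t from lt_min hy.1 (by linarith))
  obtain ⟨y2, hy2, hy2'⟩ := exists_between (show max y (l0 + l1 + l2) < l0 + l1 + l2 + t from
    max_lt hy.2 (by linarith))
  have hy1a := hy1'.trans_le (min_le_left _ _)
  have hy1b := hy1'.trans_le (min_le_right _ _)
  have hy2a := (le_max_left _ _).trans_lt hy2
  have hy2b := (le_max_right _ _).trans_lt hy2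
  have r1 := hR.mono (a := y1) (b := y) ⟨hy1, by rw [eT]; linarith [hy.2]⟩
    ⟨hy.1, by rw [eT]; exact hy.2⟩ hy1a.le
  have r2 := hR.mono (a := y) (b := y2) ⟨hy.1, by rw [eT]; exact hy.2⟩
    ⟨by linarith [hy.1], by rw [eT]; exact hy2'⟩ hy2a.le
  rw [h1 y1 ⟨hy1, hy1b⟩] at r1
  rw [hJ y2 ⟨hy2b, hy2'⟩, hc03, hx13] at r2
  exact le_antisymm r2 r1

end Pool.Agent.Helper160IEM
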