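import Mathlib
import Pool.Agent.Helper160IEM.C3
import Pool.Agent.Helper160IEM.A

set_option autoImplicit false
set_option linter.unusedSimpArgs false

/-!
Module C: rigidity.
-/

namespace Pool.Agent.Helper160IEM

open Set Filter Topology MeasureTheory

/-- The induced relations of all stages. -/
noncomputable def fgs (s : ℕ → Fin 4 → ℝ) (f : Fin 4 → ℝ → ℝ) (g : ℝ → ℝ) :
    ℕ → (Fin 4 → ℝ → ℝ) × (ℝ → ℝ)
  | 0 => (f, g)
  | k + 1 => (fnext (mm k) (nn k) (fgs s f g k).1, gnext (tot (s k)) (fgs s f g k).2)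

theorem C_rigidity (l : Fin 4 → ℝ) (hl : Keane l) (f : Fin 4 → ℝ → ℝ) (g : ℝ → ℝ)
    (hR : RelR l f g)
    (hne : ∃ y ∈ Ioo 0 (tot l), ∃ y' ∈ Ioo 0 (tot l), g y ≠ g y') :
    StrictMonoOn g (Ioo 0 (tot l)) := by
  obtain ⟨s, hs0, hpos, hstep⟩ := hl
  have hnn : ∀ k, 2 ≤ nn k := fun k => by have := A_nn_ge k; omega
  -- relations at all stages
  have hRk : ∀ k, RelR (s k) (fgs s f g k).1 (fgs s f g k).2 := by
    intro k
    induction k with
    | zero => rw [hs0]; exact hR
    | succ k ih =>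
      have e := hstep k
      rw [e] at ih
      have := RelR_next (A_mm_ge k) (hnn k) (hpos (k + 1)) ih
      rw [← e] at this
      exact this
  have hSt : ∀ k, Stage (mm k) (nn k) (s (k + 1)) (fgs s f g k).1 (fgs s f g k).2 := by
    intro k
    refine ⟨A_mm_ge k, hnn k, hpos (k + 1), ?_⟩
    rw [← hstep k]; exact hRk k
  have hg : ∀ k, (fgs s f g (k + 1)).2 =
      gnext (tot (KM (mm k) (nn k) (s (k + 1)))) (fgs s f g k).2 := by
    intro k
    rw [← hstep k]; rfl
  have htp : ∀ k, 0 < tot (s k) := by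
    intro k
    have q0 := hpos k 0; have q1 := hpos k 1; have q2 := hpos k 2; have q3 := hpos k 3
    simp only [tot]; linarith
  -- lengths decrease
  have hlen : ∀ k, 128 * tot (s (k + 1)) ≤ tot (s k) := by
    intro k
    have hn : (1024 : ℝ) ≤ nn k := by exact_mod_cast A_nn_ge k
    have q0 := hpos (k + 1) 0; have q1 := hpos (k + 1) 1; have q2 := hpos (k + 1) 2
    have q3 := hpos (k + 1) 3
    have p0 := hpos k 0; have p1 := hpos k 1; have p3 := hpos k 3
    have e2 : s k 2 = nn k * (s (k + 1) 0 + s (k + 1) 1 + s (k + 1) 3) +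
        (nn k - 1) * s (k + 1) 2 := by
      rw [hstep k]; rfl
    have h1 : 1023 * (s (k + 1) 0 + s (k + 1) 1 + s (k + 1) 3) ≤
        nn k * (s (k + 1) 0 + s (k + 1) 1 + s (k + 1) 3) :=
      mul_le_mul_of_nonneg_right (by linarith) (by linarith)
    have h2 : 1023 * s (k + 1) 2 ≤ (nn k - 1 : ℝ) * s (k + 1) 2 :=
      mul_le_mul_of_nonneg_right (by linarith) q2.le
    simp only [tot]
    linarith
  have hlenk : ∀ k, 128 ^ k * tot (s k) ≤ tot (s 0) := by
    intro k
    induction k with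
    | zero => simp
    | succ k ih =>
      have := hlen k
      have h2 : (0 : ℝ) < 128 ^ k := by positivity
      calc (128 : ℝ) ^ (k + 1) * tot (s (k + 1)) = 128 ^ k * (128 * tot (s (k + 1))) := by ring
        _ ≤ 128 ^ k * tot (s k) := mul_le_mul_of_nonneg_left this h2.le
        _ ≤ tot (s 0) := ih
  by_contra hnot
  -- a flat interval at stage zero
  have hflat0 : ∃ p q, 0 ≤ p ∧ p < q ∧ q ≤ tot (s 0) ∧ Flat g p q := by
    rw [StrictMonoOn] at hnot
    push Not at hnot
    obtain ⟨p, hp, q, hq, hpq, hle⟩ := hnot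
    rw [hs0]
    refine ⟨p, q, hp.1.le, hpq, hq.2.le, g p, fun y hy => ?_⟩
    have hy0 : y ∈ Ioo 0 (tot l) := ⟨hp.1.trans hy.1, hy.2.trans hq.2⟩
    have r1 := hR.mono hp hy0 hy.1.le
    have r2 := hR.mono hy0 hq hy.2.le
    exact le_antisymm (r2.trans hle) r1
  obtain ⟨p0, q0, a1, a2, a3, a4⟩ := hflat0
  -- some stage has a flat letter
  have hbig : ∃ k, Big (s k) (fgs s f g k).2 := by
    by_contra hno
    push Not at hno
    have hall : ∀ k, ∃ p q, 0 ≤ p ∧ p < q ∧ q ≤ tot (s k) ∧ (q0 - p0) ≤ 64 ^ k * (q - p) ∧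
        Flat (fgs s f g k).2 p q := by
      intro k
      induction k with
      | zero => exact ⟨p0, q0, a1, a2, a3, by simp, a4⟩
      | succ k ih =>
        obtain ⟨p, q, b1, b2, b3, b4, b5⟩ := ih
        have := (hSt k).any' b2 b1 (by rw [← hstep k]; exact b3) b5
        rw [← hg k] at this
        rcases this with h | ⟨p', q', c1, c2, c3, c4, c5⟩
        · exact absurd h (hno (k + 1))
        · refine ⟨p', q', c1, c2, c3, ?_, c5⟩
          have h2 : (0 : ℝ) < 64 ^ k := by positivity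
          calc q0 - p0 ≤ 64 ^ k * (q - p) := b4
            _ = 64 ^ (k + 1) * ((q - p) / 64) := by ring
            _ ≤ 64 ^ (k + 1) * (q' - p') :=
              mul_le_mul_of_nonneg_left c4 (by positivity)
    -- contradiction with the lengths
    have hd : 0 < q0 - p0 := by linarith
    obtain ⟨k, hk⟩ := pow_unbounded_of_one_lt (tot (s 0) / (q0 - p0)) (show (1 : ℝ) < 2 by norm_num)
    obtain ⟨p, q, b1, b2, b3, b4, b5⟩ := hall k
    have h1 := hlenk k
    have h64 : (0 : ℝ) < 64 ^ k := by positivity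
    have h2 : q0 - p0 ≤ 64 ^ k * tot (s k) :=
      b4.trans (mul_le_mul_of_nonneg_left (by linarith) h64.le)
    have h3 : (128 : ℝ) ^ k = 2 ^ k * 64 ^ k := by rw [← mul_pow]; norm_num
    rw [h3] at h1
    have h4 : 2 ^ k * (q0 - p0) ≤ tot (s 0) := by
      calc 2 ^ k * (q0 - p0) ≤ 2 ^ k * (64 ^ k * tot (s k)) :=
            mul_le_mul_of_nonneg_left h2 (by positivity)
        _ = 2 ^ k * 64 ^ k * tot (s k) := by ring
        _ ≤ _ := h1
    rw [div_lt_iff₀ hd] at hk
    linarith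
  -- some stage is flat everywhere
  have step3 : ∀ k, Flat (fgs s f g k).2 (sS (s k) 3) (sS (s k) 3 + s k 3) →
      Flat (fgs s f g (k + 1)).2 0 (tot (s (k + 1))) := by
    intro k h
    have h' := (hSt k).big 3 (by rw [← hstep k]; exact h)
    rw [← hg k] at h'
    rcases h' with ⟨-, h1⟩ | ⟨h1, -⟩ | ⟨h1, -⟩
    · exact h1
    · exact absurd rfl h1
    · exact absurd h1 (by decide)
  have stepn : ∀ k j, j ≠ 3 → j ≠ 1 → Flat (fgs s f g k).2 (sS (s k) j) (sS (s k) j + s k j) →
      Flat (fgs s f g (k + 1)).2 (sS (s (k + 1)) 3) (sS (s (k + 1)) 3 + s (k + 1) 3) := by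
    intro k j hj3 hj1 h
    have h' := (hSt k).big j (by rw [← hstep k]; exact h)
    rw [← hg k] at h'
    rcases h' with ⟨h1, -⟩ | ⟨-, h1⟩ | ⟨h1, -⟩
    · exact absurd h1 hj3
    · exact h1
    · exact absurd h1 hj1
  have step1 : ∀ k, Flat (fgs s f g k).2 (sS (s k) 1) (sS (s k) 1 + s k 1) →
      Flat (fgs s f g (k + 1)).2 (sS (s (k + 1)) 3) (sS (s (k + 1)) 3 + s (k + 1) 3) ∨
      Flat (fgs s f g (k + 1)).2 (sS (s (k + 1)) 0) (sS (s (k + 1)) 0 + s (k + 1) 0) := by
    intro k h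
    have h' := (hSt k).big 1 (by rw [← hstep k]; exact h)
    rw [← hg k] at h'
    rcases h' with ⟨h1, -⟩ | ⟨-, h1⟩ | ⟨-, h1⟩
    · exact absurd h1 (by decide)
    · exact Or.inl h1
    · exact Or.inr h1
  have hex : ∃ k, Flat (fgs s f g k).2 0 (tot (s k)) := by
    obtain ⟨k, j, hj⟩ := hbig
    by_cases h3 : j = 3
    · subst h3; exact ⟨_, step3 k hj⟩
    by_cases h1 : j = 1
    · subst h1
      rcases step1 k hj with h | h
      · exact ⟨_, step3 _ h⟩
      · exact ⟨_, step3 _ (stepn _ 0 (by decide) (by decide) h)⟩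
    · exact ⟨_, step3 _ (stepn _ j h3 h1 hj)⟩
  -- and so is stage zero
  obtain ⟨k, hk⟩ := hex
  have hzero : ∀ k, Flat (fgs s f g k).2 0 (tot (s k)) → Flat g 0 (tot (s 0)) := by
    intro k
    induction k with
    | zero => exact fun h => h
    | succ k ih =>
      intro h
      refine ih ?_
      rw [hg k] at h
      have := (hSt k).down h
      rwa [← hstep k] at this
  obtain ⟨c, hc⟩ := hzero k hk
  rw [hs0] at hc
  obtain ⟨y, hy, y', hy', hyy'⟩ := hne
  exact hyy' ((hc y hy).trans (hc y' hy').symm)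

end Pool.Agent.Helper160IEM
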