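import Mathlib
import Pool.Agent.Helper160IEM.D0
import Pool.Agent.Helper160IEM.C

set_option autoImplicit false
set_option linter.unusedSimpArgs false

/-!
Module D: the limit lemma.
-/

namespace Pool.Agent.Helper160IEM

open Set Filter Topology MeasureTheory

/-- Defect of a distribution function with respect to `T` at most `e`. -/
def DefectLE (T : X1) (G : ℝ → ℝ) (e : ℝ) : Prop :=
  ∀ α : Fin 4, ∀ x ∈ Icc (T.a α.castSucc) (T.a α.succ),
    |(G (T.f α x) - G (T.b (sg α).castSucc)) - (G x - G (T.a α.castSucc))| ≤ e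

/-- Increments. -/
def Lam (T : X1) (G : ℝ → ℝ) (α : Fin 4) : ℝ := G (T.a α.succ) - G (T.a α.castSucc)

/-! ### Generalised inverses -/

/-- The generalised inverse of `G`. -/
noncomputable def D_gj (G : ℝ → ℝ) (y : ℝ) : ℝ := sSup {x | x ∈ Icc (0 : ℝ) 1 ∧ G x ≤ y}

theorem D_bdd (G : ℝ → ℝ) (y : ℝ) : BddAbove {x | x ∈ Icc (0 : ℝ) 1 ∧ G x ≤ y} :=
  ⟨1, fun _ hx => hx.1.2⟩

theorem D_ne {G : ℝ → ℝ} (h0 : G 0 = 0) {y : ℝ} (hy : 0 ≤ y) :
    {x | x ∈ Icc (0 : ℝ) 1 ∧ G x ≤ y}.Nonempty := ⟨0, ⟨le_rfl, zero_le_one⟩, by rw [h0]; exact hy⟩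

theorem D_le_gj {G : ℝ → ℝ} {x y : ℝ} (hx : x ∈ Icc (0 : ℝ) 1) (h : G x ≤ y) : x ≤ D_gj G y :=
  le_csSup (D_bdd G y) ⟨hx, h⟩

theorem D_gj_mem {G : ℝ → ℝ} (h0 : G 0 = 0) {y : ℝ} (hy : 0 ≤ y) : D_gj G y ∈ Icc (0 : ℝ) 1 :=
  ⟨D_le_gj ⟨le_rfl, zero_le_one⟩ (by rw [h0]; exact hy), csSup_le (D_ne h0 hy) fun _ hx => hx.1.2⟩

theorem D_gj_le {G : ℝ → ℝ} (hm : MonotoneOn G (Icc 0 1)) (h0 : G 0 = 0) {x y : ℝ} (hy : 0 ≤ y)
    (hx : x ∈ Icc (0 : ℝ) 1) (h : y < G x) : D_gj G y ≤ x := by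
  refine csSup_le (D_ne h0 hy) fun z hz => ?_
  by_contra hc
  push Not at hc
  exact absurd (hm hx hz.1 hc.le) (by linarith [hz.2])

theorem D_le_of_lt {G : ℝ → ℝ} (hm : MonotoneOn G (Icc 0 1)) (h0 : G 0 = 0) {x y : ℝ} (hy : 0 ≤ y)
    (hx : x ∈ Icc (0 : ℝ) 1) (h : x < D_gj G y) : G x ≤ y := by
  obtain ⟨z, hz, hxz⟩ := exists_lt_of_lt_csSup (D_ne h0 hy) h
  exact (hm hx hz.1 hxz.le).trans hz.2

theorem D_lt_of_lt {G : ℝ → ℝ} {x y : ℝ} (hx : x ∈ Icc (0 : ℝ) 1) (h : D_gj G y < x) : y < G x := by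
  by_contra hc
  push Not at hc
  exact absurd (D_le_gj hx hc) (by linarith)

theorem D_gj_mono {G : ℝ → ℝ} (h0 : G 0 = 0) {y y' : ℝ} (hy : 0 ≤ y) (h : y ≤ y') :
    D_gj G y ≤ D_gj G y' :=
  csSup_le_csSup (D_bdd G y') (D_ne h0 hy) fun _ hx => ⟨hx.1, hx.2.trans h⟩

theorem D_a_mem (T : X1) (i : Fin 5) : T.a i ∈ Icc (0 : ℝ) 1 := by
  have h := (a_mono T).monotone
  constructor
  · rw [← a_zero T]; exact h (Fin.zero_le i)
  · rw [← a_four T]; exact h (Fin.le_last i)

theorem D_b_mem (T : X1) (i : Fin 5) : T.b i ∈ Icc (0 : ℝ) 1 := by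
  have h := (b_mono T).monotone
  constructor
  · rw [← b_zero T]; exact h (Fin.zero_le i)
  · rw [← b_four T]; exact h (Fin.le_last i)

theorem D_f_mem (T : X1) (α : Fin 4) {x : ℝ} (hx : x ∈ Icc (T.a α.castSucc) (T.a α.succ)) :
    T.f α x ∈ Icc (T.b (sg α).castSucc) (T.b (sg α).succ) := by
  constructor
  · rw [← f_left]; exact (f_strictMono T α).monotone hx.1
  · rw [← f_right]; exact (f_strictMono T α).monotone hx.2

theorem D_f_mem' (T : X1) (α : Fin 4) {x : ℝ} (hx : x ∈ Icc (T.a α.castSucc) (T.a α.succ)) :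
    T.f α x ∈ Icc (0 : ℝ) 1 := by
  have h := D_f_mem T α hx
  exact ⟨(D_b_mem T _).1.trans h.1, h.2.trans (D_b_mem T _).2⟩

/-- The relation at finite level. -/
theorem D_fin (T : X1) {G : ℝ → ℝ} (hm : MonotoneOn G (Icc 0 1)) (h0 : G 0 = 0) {e : ℝ}
    (hd : DefectLE T G e) (α : Fin 4) {y y' δ : ℝ} (hy : 0 ≤ y) (hy' : 0 ≤ y') (hδ : 0 < δ)
    (hya : G (T.a α.castSucc) < y) (hyb : y < G (T.a α.succ)) :
    (y' < y + (G (T.b (sg α).castSucc) - G (T.a α.castSucc)) - e →
      D_gj G y' ≤ T.f α (D_gj G y + δ)) ∧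
    (y + (G (T.b (sg α).castSucc) - G (T.a α.castSucc)) + e < y' →
      T.f α (D_gj G y - δ) ≤ D_gj G y') := by
  have h1 : T.a α.castSucc ≤ D_gj G y := D_le_gj (D_a_mem T _) hya.le
  have h2 : D_gj G y ≤ T.a α.succ := D_gj_le hm h0 hy (D_a_mem T _) hyb
  have haa : T.a α.castSucc ≤ T.a α.succ := h1.trans h2
  constructor
  · intro h
    have hx : min (D_gj G y + δ) (T.a α.succ) ∈ Icc (T.a α.castSucc) (T.a α.succ) :=
      ⟨le_min (by linarith) haa, min_le_right _ _⟩
    have hx01 : min (D_gj G y + δ) (T.a α.succ) ∈ Icc (0 : ℝ) 1 :=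
      ⟨(D_a_mem T _).1.trans hx.1, hx.2.trans (D_a_mem T _).2⟩
    have hG : y < G (min (D_gj G y + δ) (T.a α.succ)) := by
      rcases min_choice (D_gj G y + δ) (T.a α.succ) with hc | hc
      · rw [hc] at hx01 ⊢
        exact D_lt_of_lt hx01 (by linarith)
      · rw [hc]; exact hyb
    have hD := abs_le.1 (hd α _ hx)
    refine (D_gj_le hm h0 hy' (D_f_mem' T α hx) ?_).trans
      ((f_strictMono T α).monotone (min_le_left _ _))
    linarith [hD.1]
  · intro h
    have hx : max (D_gj G y - δ) (T.a α.castSucc) ∈ Icc (T.a α.castSucc) (T.a α.succ) :=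
      ⟨le_max_right _ _, max_le (by linarith) haa⟩
    have hx01 : max (D_gj G y - δ) (T.a α.castSucc) ∈ Icc (0 : ℝ) 1 :=
      ⟨(D_a_mem T _).1.trans hx.1, hx.2.trans (D_a_mem T _).2⟩
    have hG : G (max (D_gj G y - δ) (T.a α.castSucc)) ≤ y := by
      rcases max_choice (D_gj G y - δ) (T.a α.castSucc) with hc | hc
      · rw [hc] at hx01 ⊢
        exact D_le_of_lt hm h0 hy hx01 (by linarith)
      · rw [hc]; exact hya.le
    have hD := abs_le.1 (hd α _ hx)
    refine ((f_strictMono T α).monotone (le_max_left _ _)).trans (D_le_gj (D_f_mem' T α hx) ?_)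
    linarith [hD.2]

theorem D_pts_cs (l : Fin 4 → ℝ) (α : Fin 4) : pts l α.castSucc = sS l α := by
  fin_cases α <;> simp [pts, sS]
theorem D_pts_s (l : Fin 4 → ℝ) (α : Fin 4) : pts l α.succ = sS l α + l α := by
  fin_cases α <;> simp [pts, sS]
theorem D_ptsB_cs (l : Fin 4 → ℝ) (α : Fin 4) : ptsB l (sg α).castSucc = sS l α + dl l α := by
  fin_cases α <;> simp [ptsB, sS, dl, sg] <;> ring
theorem D_ptsB_s (l : Fin 4 → ℝ) (α : Fin 4) :
    ptsB l (sg α).succ = sS l α + dl l α + l α := by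
  fin_cases α <;> simp [ptsB, sS, dl, sg] <;> ring

theorem D_keane_pos {l : Fin 4 → ℝ} (hl : Keane l) : ∀ α, 0 < l α := by
  obtain ⟨s, h0, hp, -⟩ := hl
  rw [← h0]
  exact hp 0

/-- From the limit of the generalised inverses to the semi-conjugacy. -/
theorem D_half (T : X1) (l : Fin 4 → ℝ) (hl : Keane l) (htot : tot l = 1) (g : ℝ → ℝ)
    (hg01 : ∀ y ∈ Ioo (0 : ℝ) 1, g y ∈ Icc (0 : ℝ) 1) (hR : RelR l T.f g)
    (hA : ∀ i : Fin 5, ∀ y ∈ Ioo (0 : ℝ) 1, (y < pts l i → g y ≤ T.a i) ∧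
      (pts l i < y → T.a i ≤ g y))
    (hB : ∀ i : Fin 5, ∀ y ∈ Ioo (0 : ℝ) 1, (y < ptsB l i → g y ≤ T.b i) ∧
      (ptsB l i < y → T.b i ≤ g y)) : SC T l := by
  have hp := D_keane_pos hl
  have hI : Ioo (0 : ℝ) (tot l) = Ioo 0 1 := by rw [htot]
  -- strict monotonicity
  have hsm : StrictMonoOn g (Ioo (0 : ℝ) 1) := by
    have := C_rigidity l hl T.f g hR (by
      have m0 : sS l 0 + l 0 / 2 ∈ Bo l 0 := ⟨by linarith [hp 0], by linarith [hp 0]⟩
      have m3 : sS l 3 + l 3 / 2 ∈ Bo l 3 := ⟨by linarith [hp 3], by linarith [hp 3]⟩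
      refine ⟨_, Bo_sub hp 0 m0, _, Bo_sub hp 3 m3, ?_⟩
      have i0 := Bo_sub hp 0 m0
      have i3 := Bo_sub hp 3 m3
      rw [htot] at i0 i3
      have h1 := (hA (0 : Fin 4).succ _ i0).1 (by rw [D_pts_s]; exact m0.2)
      have h3 := (hA (3 : Fin 4).castSucc _ i3).2 (by rw [D_pts_cs]; exact m3.1)
      have h4 : T.a (0 : Fin 4).succ < T.a (3 : Fin 4).castSucc := a_mono T (by decide)
      exact (by linarith : g (sS l 0 + l 0 / 2) < g (sS l 3 + l 3 / 2)).ne)
    rwa [hI] at this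
  have hg_pos : ∀ y ∈ Ioo (0 : ℝ) 1, 0 < g y := by
    intro y hy
    have h2 : y / 2 ∈ Ioo (0 : ℝ) 1 := ⟨by linarith [hy.1], by linarith [hy.1, hy.2]⟩
    have := hsm h2 hy (by linarith [hy.1])
    linarith [(hg01 _ h2).1]
  -- the map
  set S : ℝ → Set ℝ := fun x => {y | y = 0 ∨ (y ∈ Ioo (0 : ℝ) 1 ∧ g y ≤ x)} with hS
  have hSb : ∀ x, BddAbove (S x) := by
    intro x
    refine ⟨1, ?_⟩
    rintro y (rfl | hy)
    · exact zero_le_one
    · exact hy.1.2.le
  have hSn : ∀ x, (S x).Nonempty := fun x => ⟨0, Or.inl rfl⟩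
  set h : ℝ → ℝ := fun x => sSup (S x) with hh
  have h_nonneg : ∀ x, 0 ≤ h x := fun x => le_csSup (hSb x) (Or.inl rfl)
  have h_le_one : ∀ x, h x ≤ 1 := by
    intro x
    refine csSup_le (hSn x) ?_
    rintro y (rfl | hy)
    · exact zero_le_one
    · exact hy.1.2.le
  have le_h : ∀ x y, y ∈ Ioo (0 : ℝ) 1 → g y ≤ x → y ≤ h x := fun x y hy hgy =>
    le_csSup (hSb x) (Or.inr ⟨hy, hgy⟩)
  have lt_of_lt_h : ∀ x y, y ∈ Ioo (0 : ℝ) 1 → y < h x → g y ≤ x := by
    intro x y hy hlt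
    obtain ⟨z, hz, hyz⟩ := exists_lt_of_lt_csSup (hSn x) hlt
    rcases hz with rfl | hz
    · exact absurd hy.1 (by linarith)
    · exact (hsm.monotoneOn hy hz.1 hyz.le).trans hz.2
  have h_le : ∀ x c, 0 ≤ c → (∀ y ∈ Ioo (0 : ℝ) 1, c < y → x < g y) → h x ≤ c := by
    intro x c hc hy
    refine csSup_le (hSn x) ?_
    rintro y (rfl | hy')
    · exact hc
    · by_contra hcon
      push Not at hcon
      exact absurd (hy y hy'.1 hcon) (by linarith [hy'.2])
  have gt_of_h_lt : ∀ x y, y ∈ Ioo (0 : ℝ) 1 → h x < y → x < g y := by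
    intro x y hy hlt
    by_contra hc
    push Not at hc
    exact absurd (le_h x y hy hc) (by linarith)
  have le_h' : ∀ x c, c ≤ 1 → (∀ y ∈ Ioo (0 : ℝ) 1, y < c → g y ≤ x) → c ≤ h x := by
    intro x c hc hy
    by_contra hcon
    push Not at hcon
    obtain ⟨y, hy1, hy2⟩ := exists_between hcon
    have hy01 : y ∈ Ioo (0 : ℝ) 1 := ⟨(h_nonneg x).trans_lt hy1, hy2.trans_le hc⟩
    exact absurd (le_h x y hy01 (hy y hy01 hy2)) (by linarith)
  have h_g : ∀ y ∈ Ioo (0 : ℝ) 1, h (g y) = y := by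
    intro y hy
    refine le_antisymm (h_le _ _ hy.1.le fun y' hy' hlt => hsm hy hy' hlt) (le_h _ _ hy le_rfl)
  have hpos_top := top_bd hp
  have hpos_bot := bot_bd hp
  have hcell : ∀ α : Fin 4, ∀ x ∈ Icc (T.a α.castSucc) (T.a α.succ), h x ∈ Bc l α := by
    intro α x hx
    constructor
    · refine le_h' x _ ?_ fun y hy hlt => ?_
      · have := (hpos_top α).2
        rw [htot] at this
        linarith [hp α]
      · exact ((hA α.castSucc y hy).1 (by rw [D_pts_cs]; exact hlt)).trans hx.1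
    · refine h_le x _ ?_ fun y hy hlt => ?_
      · linarith [(hpos_top α).1, hp α]
      · obtain ⟨z, hz1, hz2⟩ := exists_between hlt
        have hz01 : z ∈ Ioo (0 : ℝ) 1 :=
          ⟨by linarith [(hpos_top α).1, hp α], hz2.trans hy.2⟩
        have h1 := (hA α.succ z hz01).2 (by rw [D_pts_s]; exact hz1)
        exact hx.2.trans_lt (h1.trans_lt (hsm hz01 hy hz2))
  refine ⟨h, ?_, ?_, fun α x hx => ⟨hcell α x hx, ?_⟩⟩
  · intro x _ x' _ hxx
    refine csSup_le_csSup (hSb x') (hSn x) ?_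
    rintro y (rfl | hy)
    · exact Or.inl rfl
    · exact Or.inr ⟨hy.1, hy.2.trans hxx⟩
  · apply Subset.antisymm
    · rintro _ ⟨x, -, rfl⟩
      exact ⟨h_nonneg x, h_le_one x⟩
    · intro y hy
      rcases hy.1.eq_or_lt with h0 | h0
      · refine ⟨0, ⟨le_rfl, zero_le_one⟩, ?_⟩
        rw [← h0]
        exact le_antisymm (h_le _ _ le_rfl fun y' hy' _ => hg_pos y' hy') (h_nonneg _)
      · rcases hy.2.eq_or_lt with h1 | h1
        · refine ⟨1, ⟨zero_le_one, le_rfl⟩, ?_⟩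
          rw [h1]
          exact le_antisymm (h_le_one _) (le_h' _ _ le_rfl fun y' hy' _ => (hg01 y' hy').2)
        · exact ⟨g y, hg01 y ⟨h0, h1⟩, h_g y ⟨h0, h1⟩⟩
  · have hxB := hcell α x hx
    have hw := D_f_mem T α hx
    have hbt := hpos_bot α
    rw [htot] at hbt
    have hfm := f_strictMono T α
    apply le_antisymm
    · refine h_le _ _ (by linarith [hxB.1, hbt.1]) fun y' hy' hlt => ?_
      rcases hxB.2.eq_or_lt with hc | hc
      · obtain ⟨z, hz1, hz2⟩ := exists_between hlt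
        have hz01 : z ∈ Ioo (0 : ℝ) 1 := ⟨by linarith [hxB.1, hbt.1], hz2.trans hy'.2⟩
        have h1 := (hB (sg α).succ z hz01).2 (by rw [D_ptsB_s]; linarith)
        exact hw.2.trans_lt (h1.trans_lt (hsm hz01 hy' hz2))
      · obtain ⟨y, hy1, hy2⟩ := exists_between
          (show h x < min (y' - dl l α) (sS l α + l α) from lt_min (by linarith) hc)
        have hyB : y ∈ Bo l α := ⟨hxB.1.trans_lt hy1, hy2.trans_le (min_le_right _ _)⟩
        have hy01 : y ∈ Ioo (0 : ℝ) 1 := by rw [← hI]; exact Bo_sub hp α hyB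
        have h1 := (hR.rel α y hyB y' (by rw [hI]; exact hy')).2
          (by linarith [hy2.trans_le (min_le_left _ _)])
        exact (hfm (gt_of_h_lt x y hy01 hy1)).trans_le h1
    · refine le_h' _ _ (by linarith [hxB.2, hbt.2]) fun y' hy' hlt => ?_
      rcases lt_or_ge y' (sS l α + dl l α) with hc | hc
      · exact ((hB (sg α).castSucc y' hy').1 (by rw [D_ptsB_cs]; exact hc)).trans hw.1
      · obtain ⟨y, hy1, hy2⟩ := exists_between
          (show max (y' - dl l α) (sS l α) < h x from max_lt (by linarith) (by linarith))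
        have hyB : y ∈ Bo l α := ⟨(le_max_right _ _).trans_lt hy1, hy2.trans_le hxB.2⟩
        have hy01 : y ∈ Ioo (0 : ℝ) 1 := by rw [← hI]; exact Bo_sub hp α hyB
        have h1 := (hR.rel α y hyB y' (by rw [hI]; exact hy')).1
          (by linarith [(le_max_left (y' - dl l α) (sS l α)).trans_lt hy1])
        exact h1.trans (hfm.monotone (lt_of_lt_h x y hy01 hy2))

theorem D_LL {ι : Type*} (F : Filter ι) [NeBot F] (Tq : ι → X1) (T : X1)
    (hT : Tendsto Tq F (𝓝 T)) (G : ι → ℝ → ℝ)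
    (hmono : ∀ᶠ j in F, MonotoneOn (G j) (Icc 0 1))
    (h0 : ∀ᶠ j in F, G j 0 = 0) (h1 : ∀ᶠ j in F, G j 1 = 1)
    (hdef : ∀ e > 0, ∀ᶠ j in F, DefectLE (Tq j) (G j) e)
    (l : Fin 4 → ℝ) (hl : Keane l) (htot : tot l = 1)
    (hL : ∀ α, Tendsto (fun j => Lam (Tq j) (G j) α) F (𝓝 (l α))) : SC T l := by
  have hp := D_keane_pos hl
  have hI : Ioo (0 : ℝ) (tot l) = Ioo 0 1 := by rw [htot]
  set U : Ultrafilter ι := Ultrafilter.of F with hU
  have hUF : (U : Filter ι) ≤ F := Ultrafilter.of_le F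
  have hT' : Tendsto Tq U (𝓝 T) := hT.mono_left hUF
  have hmono' := hUF hmono
  have h0' := hUF h0
  have h1' := hUF h1
  have hdef' : ∀ e > 0, ∀ᶠ j in (U : Filter ι), DefectLE (Tq j) (G j) e :=
    fun e he => hUF (hdef e he)
  have hL' : ∀ α, Tendsto (fun j => Lam (Tq j) (G j) α) U (𝓝 (l α)) :=
    fun α => (hL α).mono_left hUF
  have ha : ∀ i, Tendsto (fun j => (Tq j).a i) U (𝓝 (T.a i)) :=
    fun i => ((cont_a i).tendsto T).comp hT'
  have hb : ∀ i, Tendsto (fun j => (Tq j).b i) U (𝓝 (T.b i)) :=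
    fun i => ((cont_b i).tendsto T).comp hT'
  -- limits of the values at the partition points
  have GA : ∀ i : Fin 5, Tendsto (fun j => G j ((Tq j).a i)) U (𝓝 (pts l i)) := by
    have step : ∀ α : Fin 4, Tendsto (fun j => G j ((Tq j).a α.castSucc)) U
        (𝓝 (pts l α.castSucc)) → Tendsto (fun j => G j ((Tq j).a α.succ)) U
        (𝓝 (pts l α.succ)) := by
      intro α hα
      have := hα.add (hL' α)
      rw [D_pts_cs, ← D_pts_s] at this
      refine this.congr fun j => ?_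
      simp only [Lam]
      ring
    intro i
    induction i using Fin.induction with
    | zero =>
      have : Tendsto (fun _ : ι => (0 : ℝ)) U (𝓝 (pts l 0)) := by
        simp [pts]
      refine this.congr' ?_
      filter_upwards [h0'] with j hj
      rw [a_zero, hj]
    | succ α ih => exact step α ih
  have GBd : ∀ α : Fin 4, Tendsto (fun j => G j ((Tq j).b (sg α).succ) -
      G j ((Tq j).b (sg α).castSucc)) U (𝓝 (l α)) := by
    intro α
    have h2 : Tendsto (fun j => (G j ((Tq j).b (sg α).succ) -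
        G j ((Tq j).b (sg α).castSucc)) - Lam (Tq j) (G j) α) U (𝓝 0) := by
      rw [Metric.tendsto_nhds]
      intro e he
      filter_upwards [hdef' (e / 2) (by linarith)] with j hj
      have h3 := hj α ((Tq j).a α.succ) ⟨(a_mono (Tq j)).monotone (Fin.castSucc_le_succ α), le_rfl⟩
      rw [f_right] at h3
      rw [Real.dist_eq, sub_zero]
      simp only [Lam]
      linarith
    have := h2.add (hL' α)
    rw [zero_add] at this
    refine this.congr fun j => ?_
    ring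
  have GB : ∀ i : Fin 5, Tendsto (fun j => G j ((Tq j).b i)) U (𝓝 (ptsB l i)) := by
    have z0 : Tendsto (fun j => G j ((Tq j).b 0)) U (𝓝 0) := by
      have : Tendsto (fun _ : ι => (0 : ℝ)) U (𝓝 0) := tendsto_const_nhds
      refine this.congr' ?_
      filter_upwards [h0'] with j hj
      rw [b_zero, hj]
    have g3 := GBd 3
    have g1 := GBd 1
    have g0 := GBd 0
    have g2 := GBd 2
    change Tendsto (fun j => G j ((Tq j).b 1) - G j ((Tq j).b 0)) U (𝓝 (l 3)) at g3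
    change Tendsto (fun j => G j ((Tq j).b 2) - G j ((Tq j).b 1)) U (𝓝 (l 1)) at g1
    change Tendsto (fun j => G j ((Tq j).b 3) - G j ((Tq j).b 2)) U (𝓝 (l 0)) at g0
    change Tendsto (fun j => G j ((Tq j).b 4) - G j ((Tq j).b 3)) U (𝓝 (l 2)) at g2
    have z1 : Tendsto (fun j => G j ((Tq j).b 1)) U (𝓝 (l 3)) := by
      have := g3.add z0
      simpa using this
    have z2 : Tendsto (fun j => G j ((Tq j).b 2)) U (𝓝 (l 3 + l 1)) := by
      have := z1.add g1
      refine this.congr fun j => ?_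
      ring
    have z3 : Tendsto (fun j => G j ((Tq j).b 3)) U (𝓝 (l 3 + l 1 + l 0)) := by
      have := z2.add g0
      refine this.congr fun j => ?_
      ring
    have z4 : Tendsto (fun j => G j ((Tq j).b 4)) U (𝓝 (l 3 + l 1 + l 0 + l 2)) := by
      have := z3.add g2
      refine this.congr fun j => ?_
      ring
    intro i
    fin_cases i
    · exact z0
    · exact z1
    · exact z2
    · exact z3
    · exact z4
  -- the limit of the inverses
  have hlim : ∀ y : ℝ, ∃ c, 0 ≤ y → c ∈ Icc (0 : ℝ) 1 ∧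
      Tendsto (fun j => D_gj (G j) y) U (𝓝 c) := by
    intro y
    by_cases hy : 0 ≤ y
    · have hmem : ((U.map fun j => D_gj (G j) y : Ultrafilter ℝ) : Filter ℝ) ≤
          𝓟 (Icc (0 : ℝ) 1) := by
        rw [le_principal_iff, Ultrafilter.mem_coe, Ultrafilter.mem_map]
        filter_upwards [h0'] with j hj
        exact D_gj_mem hj hy
      obtain ⟨c, hc, hle⟩ := isCompact_Icc.ultrafilter_le_nhds _ hmem
      exact ⟨c, fun _ => ⟨hc, hle⟩⟩
    · exact ⟨0, fun h => absurd h hy⟩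
  choose g hg using hlim
  have L1 : ∀ (c : ι → ℝ) (c₀ γ : ℝ), (∀ j, c j ∈ Icc (0 : ℝ) 1) → Tendsto c U (𝓝 c₀) →
      Tendsto (fun j => G j (c j)) U (𝓝 γ) → ∀ y ∈ Ioo (0 : ℝ) 1,
      (y < γ → g y ≤ c₀) ∧ (γ < y → c₀ ≤ g y) := by
    intro c c₀ γ hc hcl hGl y hy
    constructor
    · intro hlt
      refine le_of_tendsto_of_tendsto (hg y hy.1.le).2 hcl ?_
      filter_upwards [hGl.eventually (lt_mem_nhds hlt), hmono', h0'] with j hj hm hz
      exact D_gj_le hm hz hy.1.le (hc j) hj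
    · intro hlt
      refine le_of_tendsto_of_tendsto hcl (hg y hy.1.le).2 ?_
      filter_upwards [hGl.eventually (gt_mem_nhds hlt)] with j hj
      exact D_le_gj (hc j) hj.le
  have hA : ∀ i : Fin 5, ∀ y ∈ Ioo (0 : ℝ) 1, (y < pts l i → g y ≤ T.a i) ∧
      (pts l i < y → T.a i ≤ g y) := fun i =>
    L1 _ _ _ (fun j => D_a_mem (Tq j) i) (ha i) (GA i)
  have hB : ∀ i : Fin 5, ∀ y ∈ Ioo (0 : ℝ) 1, (y < ptsB l i → g y ≤ T.b i) ∧
      (ptsB l i < y → T.b i ≤ g y) := fun i =>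
    L1 _ _ _ (fun j => D_b_mem (Tq j) i) (hb i) (GB i)
  have hf : ∀ (α : Fin 4) (c : ι → ℝ) (c₀ : ℝ), Tendsto c U (𝓝 c₀) →
      Tendsto (fun j => (Tq j).f α (c j)) U (𝓝 (T.f α c₀)) := by
    intro α c c₀ hc
    exact ((cont_f α).tendsto (T, c₀)).comp (hT'.prodMk_nhds hc)
  have hfc : ∀ α, Continuous (T.f α) := fun α => (cont_f α).comp (by fun_prop : Continuous fun x : ℝ => (T, x))
  have hR : RelR l T.f g := by
    refine ⟨?_, fun α => f_strictMono T α, ?_⟩
    · rw [hI]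
      intro y hy y' hy' hyy
      refine le_of_tendsto_of_tendsto (hg y hy.1.le).2 (hg y' hy'.1.le).2 ?_
      filter_upwards [h0'] with j hj
      exact D_gj_mono hj hy.1.le hyy
    · rw [hI]
      intro α y hyB y' hy'
      have hy : y ∈ Ioo (0 : ℝ) 1 := by rw [← hI]; exact Bo_sub hp α hyB
      have GAc := GA α.castSucc
      have GAs := GA α.succ
      have GBc := GB (sg α).castSucc
      rw [D_pts_cs] at GAc
      rw [D_pts_s] at GAs
      rw [D_ptsB_cs] at GBc
      have hdiff : Tendsto (fun j => G j ((Tq j).b (sg α).castSucc) -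
          G j ((Tq j).a α.castSucc)) U (𝓝 (dl l α)) := by
        have := GBc.sub GAc
        rw [add_sub_cancel_left] at this
        exact this
      constructor
      · intro hlt
        have hδ : ∀ δ > 0, g y' ≤ T.f α (g y + δ) := by
          intro δ hδ
          refine le_of_tendsto_of_tendsto (hg y' hy'.1.le).2
            (hf α _ _ ((hg y hy.1.le).2.add_const δ)) ?_
          have he : 0 < (y + dl l α - y') / 2 := by linarith
          filter_upwards [hmono', h0', hdef' _ he, GAc.eventually (gt_mem_nhds hyB.1),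
            GAs.eventually (lt_mem_nhds hyB.2), hdiff.eventually
            (lt_mem_nhds (show dl l α - (y + dl l α - y') / 2 < dl l α by linarith))]
            with j j1 j2 j3 j4 j5 j6
          exact (D_fin (Tq j) j1 j2 j3 α hy.1.le hy'.1.le hδ j4 j5).1 (by linarith)
        have hlim2 : Tendsto (fun δ : ℝ => T.f α (g y + δ)) (𝓝[>] 0) (𝓝 (T.f α (g y))) := by
          have : Tendsto (fun δ : ℝ => T.f α (g y + δ)) (𝓝 0) (𝓝 (T.f α (g y + 0))) :=
            ((hfc α).comp (continuous_const.add continuous_id)).tendsto 0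
          rw [add_zero] at this
          exact this.mono_left nhdsWithin_le_nhds
        exact ge_of_tendsto hlim2 (by
          filter_upwards [self_mem_nhdsWithin] with δ hδ'
          exact hδ δ hδ')
      · intro hlt
        have hδ : ∀ δ > 0, T.f α (g y - δ) ≤ g y' := by
          intro δ hδ
          refine le_of_tendsto_of_tendsto
            (hf α _ _ ((hg y hy.1.le).2.sub_const δ)) (hg y' hy'.1.le).2 ?_
          have he : 0 < (y' - (y + dl l α)) / 2 := by linarith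
          filter_upwards [hmono', h0', hdef' _ he, GAc.eventually (gt_mem_nhds hyB.1),
            GAs.eventually (lt_mem_nhds hyB.2), hdiff.eventually
            (gt_mem_nhds (show dl l α < dl l α + (y' - (y + dl l α)) / 2 by linarith))]
            with j j1 j2 j3 j4 j5 j6
          exact (D_fin (Tq j) j1 j2 j3 α hy.1.le hy'.1.le hδ j4 j5).2 (by linarith)
        have hlim2 : Tendsto (fun δ : ℝ => T.f α (g y - δ)) (𝓝[>] 0) (𝓝 (T.f α (g y))) := by
          have : Tendsto (fun δ : ℝ => T.f α (g y - δ)) (𝓝 0) (𝓝 (T.f α (g y - 0))) :=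
            ((hfc α).comp (continuous_const.sub continuous_id)).tendsto 0
          rw [sub_zero] at this
          exact this.mono_left nhdsWithin_le_nhds
        exact le_of_tendsto hlim2 (by
          filter_upwards [self_mem_nhdsWithin] with δ hδ'
          exact hδ δ hδ')
  exact D_half T l hl htot g (fun y hy => (hg y hy.1.le).1) hR hA hB

end Pool.Agent.Helper160IEM
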