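import Mathlib
import Pool.Agent.Helper160IEM.D
import Pool.Agent.Helper160IEM.D1

set_option autoImplicit false
set_option linter.unusedSimpArgs false

/-!
Module E2: maps of the Keane cone are semi-conjugate to each other.
-/

namespace Pool.Agent.Helper160IEM

open Set Filter Topology MeasureTheory

/-! ### words and base points -/

/-- Return words of stage `k`, in the original letters. -/
def E2V : ℕ → Fin 4 → List (Fin 4)
  | 0, j => [j]
  | k + 1, j => (Wd (mm k) (nn k) j).flatMap (E2V k)

/-- Coordinate of stage `k` to original coordinate. -/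
def E2pt (s : ℕ → Fin 4 → ℝ) : ℕ → ℝ → ℝ
  | 0, z => z
  | k + 1, z => E2pt s k (tot (s k) - z)

theorem E2pt_add (s : ℕ → Fin 4 → ℝ) (k : ℕ) (z c : ℝ) :
    E2pt s k (z + c) = E2pt s k z + (-1) ^ k * c := by
  induction k generalizing z c with
  | zero => simp [E2pt]
  | succ k ih =>
    simp only [E2pt]
    rw [show tot (s k) - (z + c) = (tot (s k) - z) + (-c) by ring, ih]
    ring

theorem E2_lift (B : Fin 4 → Set ℝ) (δ : Fin 4 → ℝ) (B' : Fin 4 → Set ℝ) (δ' : Fin 4 → ℝ)
    (p : ℝ → ℝ) (σ : ℝ) (hp : ∀ z c, p (z + c) = p z + σ * c) (V : Fin 4 → List (Fin 4))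
    (hV : ∀ j, ∀ z ∈ B j, IsPath B' δ' (p z) (V j))
    (hs : ∀ j, ((V j).map δ').sum = σ * δ j) (w : List (Fin 4)) :
    ((w.flatMap V).map δ').sum = σ * (w.map δ).sum ∧
      ∀ z, IsPath B δ z w → IsPath B' δ' (p z) (w.flatMap V) := by
  induction w with
  | nil => simp
  | cons j w ih =>
    obtain ⟨ih1, ih2⟩ := ih
    constructor
    · rw [List.flatMap_cons, List.map_append, List.sum_append, ih1, hs, List.map_cons,
        List.sum_cons, mul_add]
    · intro z hz
      rw [IsPath_cons] at hz
      rw [List.flatMap_cons, IsPath_append]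
      refine ⟨hV j z hz.1, ?_⟩
      rw [hs, ← hp]
      exact ih2 _ hz.2

theorem E2_path (s : ℕ → Fin 4 → ℝ) (hpos : ∀ k α, 0 < s k α)
    (hs : ∀ k, s k = KM (mm k) (nn k) (s (k + 1))) (k : ℕ) (j : Fin 4) :
    ((E2V k j).map (dl (s 0))).sum = (-1) ^ k * dl (s k) j ∧
      ∀ z ∈ Bo (s k) j, IsPath (Bo (s 0)) (dl (s 0)) (E2pt s k z) (E2V k j) := by
  induction k generalizing j with
  | zero => simp [E2V, E2pt]
  | succ k ih =>
    have hm := A_mm_ge k
    have hn : 2 ≤ nn k := le_trans (by norm_num) (A_nn_ge k)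
    have h := E2_lift (Bo (s k)) (dl (s k)) (Bo (s 0)) (dl (s 0)) (E2pt s k) ((-1) ^ k)
      (E2pt_add s k) (E2V k) (fun j => (ih j).2) (fun j => (ih j).1) (Wd (mm k) (nn k) j)
    constructor
    · change (((Wd (mm k) (nn k) j).flatMap (E2V k)).map (dl (s 0))).sum = _
      rw [h.1]
      conv_lhs => rw [hs k]
      rw [B_step_sum _ _ hm hn]
      ring
    · intro z hz
      have h1 := B_step_open (mm k) (nn k) hm hn (s (k + 1)) (hpos (k + 1)) j z hz
      rw [← hs k] at h1
      exact h.2 _ h1

/-! ### counting letters -/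

theorem E2_sum_count (φ : Fin 4 → ℝ) (w : List (Fin 4)) :
    (w.map φ).sum = ∑ i, (w.count i : ℝ) * φ i := by
  induction w with
  | nil => simp
  | cons j w ih =>
    rw [List.map_cons, List.sum_cons, ih]
    have h : ∀ i, (((j :: w).count i : ℕ) : ℝ) * φ i =
        (w.count i : ℝ) * φ i + if i = j then φ i else 0 := by
      intro i
      rw [List.count_cons]
      by_cases hij : j = i
      · subst hij; simp; ring
      · have : ¬ i = j := fun h => hij h.symm
        simp [hij, this]
    simp only [h]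
    rw [Finset.sum_add_distrib, Finset.sum_ite_eq' Finset.univ j]
    simp [add_comm]

theorem E2_KM_count (m n : ℕ) (hm : 1 ≤ m) (hn : 1 ≤ n) (μ : Fin 4 → ℝ) (i : Fin 4) :
    KM m n μ i = ∑ j, ((Wd m n j).count i : ℝ) * μ j := by
  have hm' : ((m - 1 : ℕ) : ℝ) = m - 1 := by rw [Nat.cast_sub hm]; simp
  have hn' : ((n - 1 : ℕ) : ℝ) = n - 1 := by rw [Nat.cast_sub hn]; simp
  rw [Fin.sum_univ_four, Wd_zero, Wd_one, Wd_two, Wd_three]
  fin_cases i
  · change KM m n μ 0 = _
    simp [List.count_cons, List.count_append, List.count_replicate]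
  · change KM m n μ 1 = _
    simp [List.count_cons, List.count_append, List.count_replicate, hm']
  · change KM m n μ 2 = _
    simp [List.count_cons, List.count_append, List.count_replicate, hn']; ring
  · change KM m n μ 3 = _
    simp [List.count_cons, List.count_append, List.count_replicate]

theorem E2_count (s : ℕ → Fin 4 → ℝ) (hs : ∀ k, s k = KM (mm k) (nn k) (s (k + 1))) (k : ℕ)
    (α : Fin 4) : ∑ j, s k j * ((E2V k j).count α : ℝ) = s 0 α := by
  induction k with
  | zero =>
    have h : ∀ j, s 0 j * ((E2V 0 j).count α : ℝ) = if j = α then s 0 j else 0 := by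
      intro j
      by_cases hj : j = α
      · subst hj; simp [E2V]
      · simp [E2V, List.count_cons, hj]
    simp only [h]
    rw [Finset.sum_ite_eq' Finset.univ α]
    simp
  | succ k ih =>
    have hm := A_mm_ge k
    have hn : 1 ≤ nn k := le_trans (by norm_num) (A_nn_ge k)
    rw [← ih]
    have h1 : ∀ j, ((E2V (k + 1) j).count α : ℝ) =
        ∑ i, ((Wd (mm k) (nn k) j).count i : ℝ) * ((E2V k i).count α : ℝ) := by
      intro j
      rw [← E2_sum_count]
      change (((Wd (mm k) (nn k) j).flatMap (E2V k)).count α : ℝ) = _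
      rw [List.count_flatMap, ← Nat.coe_castRingHom, map_list_sum, List.map_map]
      rfl
    simp only [h1, Finset.mul_sum]
    rw [Finset.sum_comm]
    refine Finset.sum_congr rfl fun i _ => ?_
    conv_rhs => rw [hs k, E2_KM_count (mm k) (nn k) (by omega) hn, Finset.sum_mul]
    exact Finset.sum_congr rfl fun j _ => by ring

/-! ### counting points of a path -/

/-- Number of points of the path below `y`. -/
noncomputable def E2cnt (δ : Fin 4 → ℝ) (y : ℝ) : ℝ → List (Fin 4) → ℝ
  | _, [] => 0
  | x, α :: w => (if x < y then 1 else 0) + E2cnt δ y (x + δ α) w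

theorem E2cnt_mono (δ : Fin 4 → ℝ) (w : List (Fin 4)) (x : ℝ) {y y' : ℝ} (h : y ≤ y') :
    E2cnt δ y x w ≤ E2cnt δ y' x w := by
  induction w generalizing x with
  | nil => simp [E2cnt]
  | cons α w ih =>
    simp only [E2cnt]
    refine add_le_add ?_ (ih _)
    by_cases h1 : x < y
    · simp [h1, h1.trans_le h]
    · simp only [h1, if_false]
      split_ifs <;> norm_num

theorem E2cnt_zero {l : Fin 4 → ℝ} (hl : ∀ α, 0 < l α) (w : List (Fin 4)) (x : ℝ)
    (h : IsPath (Bo l) (dl l) x w) : E2cnt (dl l) 0 x w = 0 := by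
  induction w generalizing x with
  | nil => simp [E2cnt]
  | cons α w ih =>
    rw [IsPath_cons] at h
    simp only [E2cnt]
    rw [ih _ h.2, if_neg (not_lt.2 (Bo_sub hl α h.1).1.le), add_zero]

/-- The indicator of `[c, y)`, as a difference. -/
noncomputable def E2ind (c y t : ℝ) : ℝ := (if t < y then 1 else 0) - (if t < c then 1 else 0)

theorem E2ind_abs {c y t : ℝ} (h : c ≤ y) : 0 ≤ E2ind c y t ∧ E2ind c y t ≤ 1 := by
  unfold E2ind
  by_cases h1 : t < c
  · simp [h1, h1.trans_le h]
  · simp only [h1, if_false]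
    split_ifs <;> norm_num

theorem E2cnt_diff (δ : Fin 4 → ℝ) (w : List (Fin 4)) (x y c : ℝ) (α : Fin 4) :
    E2cnt δ y x (α :: w) - E2cnt δ c x (α :: w) =
      E2ind c y x + (E2cnt δ y (x + δ α) w - E2cnt δ c (x + δ α) w) := by
  simp only [E2cnt, E2ind]; ring

/-- position of the top intervals -/
theorem E2_top_ne {l : Fin 4 → ℝ} (hl : ∀ α, 0 < l α) {α β : Fin 4} (h : β ≠ α) :
    sS l β + l β ≤ sS l α ∨ sS l α + l α ≤ sS l β := by
  have q0 := hl 0; have q1 := hl 1; have q2 := hl 2; have q3 := hl 3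
  fin_cases α <;> fin_cases β <;> first
    | exact absurd rfl h
    | (simp [sS]; done)
    | (simp [sS]; first | (left; linarith) | (right; linarith))

/-- position of the bottom intervals -/
theorem E2_bot_ne {l : Fin 4 → ℝ} (hl : ∀ α, 0 < l α) {α β : Fin 4} (h : β ≠ α) :
    sS l β + dl l β + l β ≤ sS l α + dl l α ∨ sS l α + dl l α + l α ≤ sS l β + dl l β := by
  have q0 := hl 0; have q1 := hl 1; have q2 := hl 2; have q3 := hl 3
  fin_cases α <;> fin_cases β <;> first
    | exact absurd rfl h
    | (simp [sS, dl]; done)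
    | (simp [sS, dl]; first | (left; linarith) | (right; linarith))

theorem E2ind_out {c y t d : ℝ} (hc : c ≤ y) (hy : y ≤ d) (h : t < c ∨ d ≤ t) :
    E2ind c y t = 0 := by
  unfold E2ind
  rcases h with h | h
  · simp [h, h.trans_le hc]
  · have h1 : ¬ t < y := not_lt.2 (hy.trans h)
    have h2 : ¬ t < c := not_lt.2 ((hc.trans hy).trans h)
    simp [h1, h2]

theorem E2_Lam {l : Fin 4 → ℝ} (hl : ∀ α, 0 < l α) (α : Fin 4) (w : List (Fin 4)) (x : ℝ)
    (h : IsPath (Bo l) (dl l) x w) :
    E2cnt (dl l) (sS l α + l α) x w - E2cnt (dl l) (sS l α) x w = w.count α := by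
  have q := hl α
  induction w generalizing x with
  | nil => simp [E2cnt]
  | cons β w ih =>
    rw [IsPath_cons] at h
    rw [E2cnt_diff, ih _ h.2, List.count_cons]
    by_cases hβ : β = α
    · subst hβ
      have h1 : x < sS l β + l β := h.1.2
      have h2 : ¬ x < sS l β := not_lt.2 h.1.1.le
      rw [E2ind, if_pos h1, if_neg h2]
      simp [add_comm]
    · rw [E2ind_out (d := sS l α + l α) (by linarith) le_rfl]
      · simp [hβ]
      · have h1 := h.1.1; have h2 := h.1.2
        rcases E2_top_ne hl hβ with h3 | h3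
        · left; linarith
        · right; linarith

theorem E2_defect {l : Fin 4 → ℝ} (hl : ∀ α, 0 < l α) (α : Fin 4) {y : ℝ}
    (hy : y ∈ Icc (sS l α) (sS l α + l α)) (w : List (Fin 4)) (x : ℝ)
    (h : IsPath (Bo l) (dl l) x w) :
    (E2cnt (dl l) (y + dl l α) x w - E2cnt (dl l) (sS l α + dl l α) x w) -
      (E2cnt (dl l) y x w - E2cnt (dl l) (sS l α) x w) =
    E2ind (sS l α + dl l α) (y + dl l α) x -
      E2ind (sS l α + dl l α) (y + dl l α) (x + (w.map (dl l)).sum) := by
  induction w generalizing x with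
  | nil => simp [E2cnt]
  | cons β w ih =>
    rw [IsPath_cons] at h
    have h1 := ih _ h.2
    rw [E2cnt_diff, E2cnt_diff, List.map_cons, List.sum_cons, ← add_assoc]
    have h2 : E2ind (sS l α) y x = E2ind (sS l α + dl l α) (y + dl l α) (x + dl l β) := by
      by_cases hβ : β = α
      · subst hβ
        simp only [E2ind, add_lt_add_iff_right]
      · rw [E2ind_out (d := sS l α + l α) hy.1 hy.2, E2ind_out (d := sS l α + dl l α + l α)
          (by linarith [hy.1]) (by linarith [hy.2])]
        · have h1 := h.1.1; have h2 := h.1.2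
          rcases E2_bot_ne hl hβ with h3 | h3
          · left; linarith
          · right; linarith
        · have h1 := h.1.1; have h2 := h.1.2
          rcases E2_top_ne hl hβ with h3 | h3
          · left; linarith
          · right; linarith
    linarith

/-! ### the stages shrink -/

theorem E2_tot (s : ℕ → Fin 4 → ℝ) (hpos : ∀ k α, 0 < s k α)
    (hs : ∀ k, s k = KM (mm k) (nn k) (s (k + 1))) (k : ℕ) :
    0 ≤ tot (s k) ∧ tot (s k) ≤ tot (s 0) * (1 / 2) ^ k := by
  have hnn : ∀ k, 0 ≤ tot (s k) := by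
    intro k
    have q0 := hpos k 0; have q1 := hpos k 1; have q2 := hpos k 2; have q3 := hpos k 3
    unfold tot; linarith
  refine ⟨hnn k, ?_⟩
  induction k with
  | zero => simp
  | succ k ih =>
    have hm : (2 : ℝ) ≤ mm k := by exact_mod_cast A_mm_ge k
    have hn : (2 : ℝ) ≤ nn k := by exact_mod_cast le_trans (by norm_num) (A_nn_ge k)
    have q0 := hpos (k + 1) 0; have q1 := hpos (k + 1) 1
    have q2 := hpos (k + 1) 2; have q3 := hpos (k + 1) 3
    have h1 : 2 * tot (s (k + 1)) ≤ tot (s k) := by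
      rw [hs k]
      simp only [tot, KM_zero, KM_one, KM_two, KM_three]
      have a0 : 0 ≤ ((mm k : ℝ) - 1) * s (k + 1) 0 := mul_nonneg (by linarith) q0.le
      have a1 : 0 ≤ (mm k : ℝ) * s (k + 1) 1 := mul_nonneg (by linarith) q1.le
      have a2 : 0 ≤ ((nn k : ℝ) - 2) * (s (k + 1) 0 + s (k + 1) 1 + s (k + 1) 3) :=
        mul_nonneg (by linarith) (by linarith)
      have a3 : 0 ≤ ((nn k : ℝ) - 2) * s (k + 1) 2 := mul_nonneg (by linarith) q2.le
      nlinarith
    rw [pow_succ]
    linarith

theorem E_N2 (l l' : Fin 4 → ℝ) (hl : Keane l) (hl' : Keane l') (h : IsLen l) (h' : IsLen l') :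
    SC (std l' h') l := by
  obtain ⟨s, hs0, hspos, hs⟩ := hl
  obtain ⟨s', hs0', hspos', hs'⟩ := id hl'
  have hlpos : ∀ α, 0 < l' α := h'.1
  -- base points and paths
  let x : ℕ → Fin 4 → ℝ := fun k j => E2pt s' k (sS (s' k) j + s' k j / 2)
  have hpath : ∀ k j, IsPath (Bo l') (dl l') (x k j) (E2V k j) := by
    intro k j
    have h1 := (E2_path s' hspos' hs' k j).2 (sS (s' k) j + s' k j / 2)
      ⟨by linarith [hspos' k j], by linarith [hspos' k j]⟩
    rw [hs0'] at h1
    exact h1
  let G : ℕ → ℝ → ℝ := fun k y => ∑ j, s k j * E2cnt (dl l') y (x k j) (E2V k j)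
  have hGd : ∀ k y c, G k y - G k c =
      ∑ j, s k j * (E2cnt (dl l') y (x k j) (E2V k j) - E2cnt (dl l') c (x k j) (E2V k j)) := by
    intro k y c
    simp only [G]
    rw [← Finset.sum_sub_distrib]
    exact Finset.sum_congr rfl fun j _ => by ring
  have ha : ∀ α : Fin 4, (std l' h').a α.castSucc = sS l' α := by
    intro α; rw [std, aff_a, pts_castSucc]
  have ha' : ∀ α : Fin 4, (std l' h').a α.succ = sS l' α + l' α := by
    intro α; rw [std, aff_a, pts_succ]
  have hb : ∀ α : Fin 4, (std l' h').b (sg α).castSucc = sS l' α + dl l' α := by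
    intro α; rw [std, aff_b, ptsB_castSucc]
  have hf : ∀ (α : Fin 4) (t : ℝ), (std l' h').f α t = t + dl l' α := by
    intro α t; rw [std, std_f]
  have hLam : ∀ k α, Lam (std l' h') (G k) α = l α := by
    intro k α
    rw [Lam, ha, ha', hGd]
    rw [← hs0, ← E2_count s hs k α]
    exact Finset.sum_congr rfl fun j _ => by rw [E2_Lam hlpos α _ _ (hpath k j)]
  have hmono : ∀ k, Monotone (G k) := by
    intro k y y' hy
    exact Finset.sum_le_sum fun j _ => mul_le_mul_of_nonneg_left (E2cnt_mono _ _ _ hy)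
      (hspos k j).le
  have hG0 : ∀ k, G k 0 = 0 := by
    intro k
    simp only [G]
    refine Finset.sum_eq_zero fun j _ => ?_
    rw [E2cnt_zero hlpos _ _ (hpath k j), mul_zero]
  have hG1 : ∀ k, G k 1 = 1 := by
    intro k
    have e0 := hLam k 0; have e1 := hLam k 1; have e2 := hLam k 2; have e3 := hLam k 3
    simp only [Lam, ha, ha', sS_zero, sS_one, sS_two, sS_three, zero_add] at e0 e1 e2 e3
    have ht := h.2
    have ht' := h'.2
    simp only [tot] at ht ht'
    rw [ht'] at e3
    have := hG0 k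
    linarith
  refine D_LL atTop (fun _ => std l' h') (std l' h') tendsto_const_nhds G
    (Eventually.of_forall fun k => (hmono k).monotoneOn _)
    (Eventually.of_forall hG0) (Eventually.of_forall hG1) ?_ l ⟨s, hs0, hspos, hs⟩ h.2 ?_
  · intro e he
    have hlim : Tendsto (fun k : ℕ => tot (s 0) * (1 / 2 : ℝ) ^ k) atTop (𝓝 0) := by
      have h1 := (tendsto_pow_atTop_nhds_zero_of_lt_one (r := (1 / 2 : ℝ)) (by norm_num)
        (by norm_num)).const_mul (tot (s 0))
      rwa [mul_zero] at h1
    filter_upwards [hlim.eventually (gt_mem_nhds he)] with k hk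
    intro α y hy
    rw [ha, ha'] at hy
    rw [ha, hb, hf, hGd, hGd, ← Finset.sum_sub_distrib]
    have h1 : ∀ j, s k j * (E2cnt (dl l') (y + dl l' α) (x k j) (E2V k j) -
        E2cnt (dl l') (sS l' α + dl l' α) (x k j) (E2V k j)) -
        s k j * (E2cnt (dl l') y (x k j) (E2V k j) -
          E2cnt (dl l') (sS l' α) (x k j) (E2V k j)) =
        s k j * (E2ind (sS l' α + dl l' α) (y + dl l' α) (x k j) -
          E2ind (sS l' α + dl l' α) (y + dl l' α) (x k j + ((E2V k j).map (dl l')).sum)) := by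
      intro j
      rw [← E2_defect hlpos α hy _ _ (hpath k j)]
      ring
    rw [Finset.sum_congr rfl fun j _ => h1 j]
    refine (Finset.abs_sum_le_sum_abs _ _).trans ?_
    have h2 : ∀ j, |s k j * (E2ind (sS l' α + dl l' α) (y + dl l' α) (x k j) -
          E2ind (sS l' α + dl l' α) (y + dl l' α) (x k j + ((E2V k j).map (dl l')).sum))| ≤
        s k j := by
      intro j
      rw [abs_mul, abs_of_pos (hspos k j)]
      have hc : sS l' α + dl l' α ≤ y + dl l' α := by linarith [hy.1]
      have b1 := E2ind_abs (t := x k j) hc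
      have b2 := E2ind_abs (t := x k j + ((E2V k j).map (dl l')).sum) hc
      have b3 : |E2ind (sS l' α + dl l' α) (y + dl l' α) (x k j) -
          E2ind (sS l' α + dl l' α) (y + dl l' α) (x k j + ((E2V k j).map (dl l')).sum)| ≤ 1 := by
        rw [abs_le]; constructor <;> linarith [b1.1, b1.2, b2.1, b2.2]
      exact (mul_le_mul_of_nonneg_left b3 (hspos k j).le).trans (mul_one _).le
    refine (Finset.sum_le_sum fun j _ => h2 j).trans ?_
    have h3 : ∑ j, s k j = tot (s k) := by rw [Fin.sum_univ_four, tot]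
    rw [h3]
    exact ((E2_tot s hspos hs k).2.trans hk.le)
  · intro α
    simp only [hLam]
    exact tendsto_const_nhds

end Pool.Agent.Helper160IEM
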