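import Mathlib
import Pool.Agent.Helper160IEM.D1
import Pool.Agent.Helper160IEM.A

set_option autoImplicit false
set_option linter.unusedSimpArgs false

/-!
Module E3: a standard map semi-conjugate to a map of the cone is in the cone.
-/

namespace Pool.Agent.Helper160IEM

open Set Filter Topology MeasureTheory

/-- Semi-conjugacy of standard maps of arbitrary total lengths. -/
structure E3_SC (ell l : Fin 4 → ℝ) (h : ℝ → ℝ) : Prop where
  mono : MonotoneOn h (Icc 0 (tot ell))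
  surj : ∀ y ∈ Icc 0 (tot l), ∃ x ∈ Icc 0 (tot ell), h x = y
  rel : ∀ α, ∀ x ∈ Bc ell α, h x ∈ Bc l α ∧ h (x + dl ell α) = h x + dl l α

theorem E3_Bc_sub {l : Fin 4 → ℝ} (hl : ∀ α, 0 < l α) (α : Fin 4) : Bc l α ⊆ Icc 0 (tot l) := by
  have q0 := hl 0; have q1 := hl 1; have q2 := hl 2; have q3 := hl 3
  intro x hx
  fin_cases α <;> simp [Bc, tot] at hx ⊢ <;> constructor <;> linarith [hx.1, hx.2]

theorem E3_Bo_sub {l : Fin 4 → ℝ} (α : Fin 4) : Bo l α ⊆ Bc l α := Ioo_subset_Icc_self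

theorem E3_cover {l : Fin 4 → ℝ} {x : ℝ} (hx : x ∈ Icc 0 (tot l)) :
    ∃ α, x ∈ Bc l α := by
  obtain ⟨h0, h1⟩ := hx
  rcases le_total x (l 0) with h | h
  · exact ⟨0, by simp [Bc]; exact ⟨h0, h⟩⟩
  rcases le_total x (l 0 + l 1) with h' | h'
  · exact ⟨1, by simp [Bc]; exact ⟨h, h'⟩⟩
  rcases le_total x (l 0 + l 1 + l 2) with h'' | h''
  · exact ⟨2, by simp [Bc]; exact ⟨h', h''⟩⟩
  · exact ⟨3, by simp [Bc]; exact ⟨h'', by simpa [tot] using h1⟩⟩

theorem E3_disj {l : Fin 4 → ℝ} (hl : ∀ α, 0 < l α) {a b : Fin 4} (hab : a ≠ b) {x : ℝ}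
    (h1 : x ∈ Bo l a) (h2 : x ∈ Bc l b) : False := by
  have q0 := hl 0; have q1 := hl 1; have q2 := hl 2; have q3 := hl 3
  fin_cases a <;> fin_cases b <;>
    first
    | exact hab rfl
    | (simp [Bo, Bc] at h1 h2
       linarith [h1.1, h1.2, h2.1, h2.2])

theorem E3_image_closed {l : Fin 4 → ℝ} (hl : ∀ α, 0 < l α) (α : Fin 4) {x : ℝ}
    (hx : x ∈ Bc l α) : x + dl l α ∈ Icc 0 (tot l) := by
  have q0 := hl 0; have q1 := hl 1; have q2 := hl 2; have q3 := hl 3
  fin_cases α <;> simp [Bc, tot] at hx ⊢ <;> constructor <;> linarith [hx.1, hx.2]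

theorem E3_image_open {l : Fin 4 → ℝ} (hl : ∀ α, 0 < l α) (α : Fin 4) {x : ℝ}
    (hx : x ∈ Bo l α) : x + dl l α ∈ Ioo 0 (tot l) := by
  have q0 := hl 0; have q1 := hl 1; have q2 := hl 2; have q3 := hl 3
  fin_cases α <;> simp [Bo, tot] at hx ⊢ <;> constructor <;> linarith [hx.1, hx.2]

/-- The top points are mapped to the top points. -/
theorem E3_top {ell l : Fin 4 → ℝ} {h : ℝ → ℝ} (he : ∀ α, 0 < ell α) (hl : ∀ α, 0 < l α)
    (H : E3_SC ell l h) (α : Fin 4) :
    h (sS ell α) = sS l α ∧ h (sS ell α + ell α) = sS l α + l α := by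
  have q0 := he 0; have q1 := he 1; have q2 := he 2; have q3 := he 3
  have p0 := hl 0; have p1 := hl 1; have p2 := hl 2; have p3 := hl 3
  have hL : ∀ β : Fin 4, h (sS ell β) ∈ Bc l β := fun β =>
    (H.rel β _ ⟨le_refl _, by linarith [he β]⟩).1
  have hR : ∀ β : Fin 4, h (sS ell β + ell β) ∈ Bc l β := fun β =>
    (H.rel β _ ⟨by linarith [he β], le_refl _⟩).1
  have e0 : h 0 = 0 := by
    obtain ⟨x, hx, hx0⟩ := H.surj 0 ⟨le_refl _, by unfold tot; linarith⟩
    have h1 := hL 0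
    simp [Bc] at h1
    have h2 := H.mono ⟨le_refl _, by unfold tot; linarith⟩ hx hx.1
    linarith [h1.1]
  have e4 : h (tot ell) = tot l := by
    obtain ⟨x, hx, hx0⟩ := H.surj (tot l) ⟨by unfold tot; linarith, le_refl _⟩
    have h1 := hR 3
    simp [Bc] at h1
    have h2 := H.mono hx ⟨by unfold tot; linarith, le_refl _⟩ hx.2
    have h3 : h (tot ell) ≤ tot l := h1.2
    linarith
  have e1 : h (ell 0) = l 0 := by
    have h1 := hR 0
    have h2 := hL 1
    simp [Bc] at h1 h2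
    linarith [h1.2, h2.1]
  have e2 : h (ell 0 + ell 1) = l 0 + l 1 := by
    have h1 := hR 1
    have h2 := hL 2
    simp [Bc] at h1 h2
    linarith [h1.2, h2.1]
  have e3 : h (ell 0 + ell 1 + ell 2) = l 0 + l 1 + l 2 := by
    have h1 := hR 2
    have h2 := hL 3
    simp [Bc] at h1 h2
    linarith [h1.2, h2.1]
  fin_cases α
  · simp [e0, e1]
  · simp [e1, e2]
  · simp [e2, e3]
  · simp [e3]
    exact e4

/-- Closed paths are mapped to closed paths. -/
theorem E3_lift_closed {ell l : Fin 4 → ℝ} {h : ℝ → ℝ} (H : E3_SC ell l h) (w : List (Fin 4))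
    (x : ℝ) (hp : IsPath (Bc ell) (dl ell) x w) :
    IsPath (Bc l) (dl l) (h x) w ∧ h (x + (w.map (dl ell)).sum) = h x + (w.map (dl l)).sum := by
  induction w generalizing x with
  | nil => simp
  | cons α w ih =>
    rw [IsPath_cons] at hp ⊢
    obtain ⟨h1, h2⟩ := H.rel α x hp.1
    obtain ⟨h3, h4⟩ := ih _ hp.2
    rw [h2] at h3 h4
    refine ⟨⟨h1, h3⟩, ?_⟩
    rw [List.map_cons, List.sum_cons, List.map_cons, List.sum_cons, ← add_assoc, ← add_assoc, h4]

/-- Open paths are lifted. -/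
theorem E3_lift_open {ell l : Fin 4 → ℝ} {h : ℝ → ℝ} (he : ∀ α, 0 < ell α) (hl : ∀ α, 0 < l α)
    (H : E3_SC ell l h) (w : List (Fin 4)) (x : ℝ) (hx : x ∈ Icc 0 (tot ell))
    (hp : IsPath (Bo l) (dl l) (h x) w) :
    IsPath (Bo ell) (dl ell) x w ∧ h (x + (w.map (dl ell)).sum) = h x + (w.map (dl l)).sum := by
  induction w generalizing x with
  | nil => simp
  | cons α w ih =>
    rw [IsPath_cons] at hp ⊢
    obtain ⟨t1, t2⟩ := E3_top he hl H α
    have m1 : sS ell α ∈ Icc 0 (tot ell) :=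
      E3_Bc_sub he α ⟨le_refl _, by linarith [he α]⟩
    have m2 : sS ell α + ell α ∈ Icc 0 (tot ell) :=
      E3_Bc_sub he α ⟨by linarith [he α], le_refl _⟩
    have hxo : x ∈ Bo ell α := by
      constructor
      · by_contra hc
        push Not at hc
        have := H.mono hx m1 hc
        rw [t1] at this
        exact absurd hp.1.1 (not_lt.2 this)
      · by_contra hc
        push Not at hc
        have := H.mono m2 hx hc
        rw [t2] at this
        exact absurd hp.1.2 (not_lt.2 this)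
    obtain ⟨h1, h2⟩ := H.rel α x (E3_Bo_sub α hxo)
    have h5 : x + dl ell α ∈ Icc 0 (tot ell) := E3_image_closed he α (E3_Bo_sub α hxo)
    obtain ⟨h3, h4⟩ := ih (x + dl ell α) h5 (by rw [h2]; exact hp.2)
    refine ⟨⟨hxo, h3⟩, ?_⟩
    rw [h2] at h4
    rw [List.map_cons, List.sum_cons, List.map_cons, List.sum_cons, ← add_assoc, ← add_assoc, h4]

/-- Two words that differ at some position after a common part. -/
def E3_Sep (w w' : List (Fin 4)) : Prop :=
  ∃ (u : List (Fin 4)) (a b : Fin 4) (v v' : List (Fin 4)),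
    w = u ++ a :: v ∧ w' = u ++ b :: v' ∧ a ≠ b

theorem E3_Sep_symm {w w' : List (Fin 4)} (h : E3_Sep w w') : E3_Sep w' w := by
  obtain ⟨u, a, b, v, v', h1, h2, h3⟩ := h
  exact ⟨u, b, a, v', v, h2, h1, h3.symm⟩

theorem E3_Sep_path {l : Fin 4 → ℝ} (hl : ∀ α, 0 < l α) {w w' : List (Fin 4)} (h : E3_Sep w w')
    {x : ℝ} (h1 : IsPath (Bo l) (dl l) x w) (h2 : IsPath (Bc l) (dl l) x w') : False := by
  obtain ⟨u, a, b, v, v', rfl, rfl, hab⟩ := h
  rw [IsPath_append, IsPath_cons] at h1 h2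
  exact E3_disj hl hab h1.2.1 h2.2.1

theorem E3_Sep_Wd (m n : ℕ) (hm : 2 ≤ m) (hn : 2 ≤ n) {i j : Fin 4} (hij : i ≠ j) :
    E3_Sep (Wd m n i ++ [3]) (Wd m n j ++ [3]) := by
  obtain ⟨m, rfl⟩ : ∃ k, m = k + 2 := ⟨m - 2, by omega⟩
  obtain ⟨n, rfl⟩ : ∃ k, n = k + 2 := ⟨n - 2, by omega⟩
  have h01 : E3_Sep (Wd (m + 2) (n + 2) 0 ++ [3]) (Wd (m + 2) (n + 2) 1 ++ [3]) := by
    refine ⟨3 :: List.replicate (m + 1) 1, 2, 1, List.replicate (n + 1) 2 ++ [3],
      List.replicate (n + 2) 2 ++ [3], ?_, ?_, by decide⟩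
    · rw [Wd_zero, List.replicate_succ (n := n + 1)]
      simp
    · rw [Wd_one, List.replicate_succ' (n := m + 1)]
      simp
  have h02 : E3_Sep (Wd (m + 2) (n + 2) 0 ++ [3]) (Wd (m + 2) (n + 2) 2 ++ [3]) := by
    refine ⟨[3], 1, 0, List.replicate m 1 ++ List.replicate (n + 2) 2 ++ [3],
      List.replicate (n + 1) 2 ++ [3], ?_, ?_, by decide⟩
    · rw [Wd_zero]
      simp [List.replicate_succ]
    · rw [Wd_two]
      simp
  have h03 : E3_Sep (Wd (m + 2) (n + 2) 0 ++ [3]) (Wd (m + 2) (n + 2) 3 ++ [3]) := by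
    refine ⟨[3], 1, 0, List.replicate m 1 ++ List.replicate (n + 2) 2 ++ [3],
      List.replicate (n + 2) 2 ++ [3], ?_, ?_, by decide⟩
    · rw [Wd_zero]
      simp [List.replicate_succ]
    · rw [Wd_three]
      simp
  have h12 : E3_Sep (Wd (m + 2) (n + 2) 1 ++ [3]) (Wd (m + 2) (n + 2) 2 ++ [3]) := by
    refine ⟨[3], 1, 0, List.replicate (m + 1) 1 ++ List.replicate (n + 2) 2 ++ [3],
      List.replicate (n + 1) 2 ++ [3], ?_, ?_, by decide⟩
    · rw [Wd_one]
      simp [List.replicate_succ]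
    · rw [Wd_two]
      simp
  have h13 : E3_Sep (Wd (m + 2) (n + 2) 1 ++ [3]) (Wd (m + 2) (n + 2) 3 ++ [3]) := by
    refine ⟨[3], 1, 0, List.replicate (m + 1) 1 ++ List.replicate (n + 2) 2 ++ [3],
      List.replicate (n + 2) 2 ++ [3], ?_, ?_, by decide⟩
    · rw [Wd_one]
      simp [List.replicate_succ]
    · rw [Wd_three]
      simp
  have h23 : E3_Sep (Wd (m + 2) (n + 2) 2 ++ [3]) (Wd (m + 2) (n + 2) 3 ++ [3]) := by
    refine ⟨3 :: 0 :: List.replicate (n + 1) 2, 3, 2, [], [3], ?_, ?_, by decide⟩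
    · rw [Wd_two]
      simp
    · rw [Wd_three, List.replicate_succ' (n := n + 1)]
      simp
  fin_cases i <;> fin_cases j <;>
    first
    | exact absurd rfl hij
    | exact h01
    | exact h02
    | exact h03
    | exact h12
    | exact h13
    | exact h23
    | exact E3_Sep_symm h01
    | exact E3_Sep_symm h02
    | exact E3_Sep_symm h03
    | exact E3_Sep_symm h12
    | exact E3_Sep_symm h13
    | exact E3_Sep_symm h23

/-- Open path of the return word followed by the letter `3`. -/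
theorem E3_path_open (m n : ℕ) (hm : 2 ≤ m) (hn : 2 ≤ n) (μ : Fin 4 → ℝ) (hμ : ∀ α, 0 < μ α)
    (j : Fin 4) (z : ℝ) (hz : z ∈ Bo μ j) :
    IsPath (Bo (KM m n μ)) (dl (KM m n μ)) (tot (KM m n μ) - z) (Wd m n j ++ [3]) := by
  rw [IsPath_append]
  refine ⟨B_step_open m n hm hn μ hμ j z hz, ?_⟩
  rw [B_step_sum m n hm hn]
  have h1 := E3_image_open hμ j hz
  simp only [IsPath_cons, IsPath_nil, and_true]
  constructor
  · simp only [sS_three, tot, KM_zero, KM_one, KM_two, KM_three] at h1 ⊢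
    linarith [h1.1, h1.2]
  · simp only [sS_three, tot, KM_zero, KM_one, KM_two, KM_three] at h1 ⊢
    linarith [h1.1, h1.2]

/-- Closed path of the return word followed by the letter `3`. -/
theorem E3_path_closed (m n : ℕ) (hm : 2 ≤ m) (hn : 2 ≤ n) (μ : Fin 4 → ℝ) (hμ : ∀ α, 0 < μ α)
    (j : Fin 4) (z : ℝ) (hz : z ∈ Bc μ j) :
    IsPath (Bc (KM m n μ)) (dl (KM m n μ)) (tot (KM m n μ) - z) (Wd m n j ++ [3]) := by
  rw [IsPath_append]
  refine ⟨B_step_closed m n hm hn μ hμ j z hz, ?_⟩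
  rw [B_step_sum m n hm hn]
  have h1 := E3_image_closed hμ j hz
  simp only [IsPath_cons, IsPath_nil, and_true]
  constructor
  · simp only [sS_three, tot, KM_zero, KM_one, KM_two, KM_three] at h1 ⊢
    linarith [h1.1, h1.2]
  · simp only [sS_three, tot, KM_zero, KM_one, KM_two, KM_three] at h1 ⊢
    linarith [h1.1, h1.2]

theorem E3_KM_pos {m n : ℕ} (hm : 2 ≤ m) (hn : 2 ≤ n) {μ : Fin 4 → ℝ} (hμ : ∀ α, 0 < μ α)
    (α : Fin 4) : 0 < KM m n μ α := by
  have q0 := hμ 0; have q1 := hμ 1; have q2 := hμ 2; have q3 := hμ 3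
  have hmR : (2 : ℝ) ≤ m := by exact_mod_cast hm
  have hnR : (2 : ℝ) ≤ n := by exact_mod_cast hn
  have a1 : 0 < (m - 1 : ℝ) * μ 0 := mul_pos (by linarith) q0
  have a2 : 0 < (m : ℝ) * μ 1 := mul_pos (by linarith) q1
  have a3 : 0 < (n : ℝ) * (μ 0 + μ 1 + μ 3) := mul_pos (by linarith) (by linarith)
  have a4 : 0 < (n - 1 : ℝ) * μ 2 := mul_pos (by linarith) q2
  fin_cases α
  · change 0 < KM m n μ 0; rw [KM_zero]; linarith
  · change 0 < KM m n μ 1; rw [KM_one]; linarith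
  · change 0 < KM m n μ 2; rw [KM_two]; linarith
  · change 0 < KM m n μ 3; rw [KM_three]; linarith

/-- The induced semi-conjugacy. -/
theorem E3_ind (m n : ℕ) (hm : 2 ≤ m) (hn : 2 ≤ n) (μ μ' : Fin 4 → ℝ) (hμ : ∀ α, 0 < μ α)
    (hμ' : ∀ α, 0 < μ' α) (h : ℝ → ℝ) (H : E3_SC (KM m n μ') (KM m n μ) h) :
    E3_SC μ' μ (fun z => tot (KM m n μ) - h (tot (KM m n μ') - z)) := by
  have q0 := hμ 0; have q1 := hμ 1; have q2 := hμ 2; have q3 := hμ 3
  have q0' := hμ' 0; have q1' := hμ' 1; have q2' := hμ' 2; have q3' := hμ' 3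
  have hl : ∀ α, 0 < KM m n μ α := E3_KM_pos hm hn hμ
  have he : ∀ α, 0 < KM m n μ' α := E3_KM_pos hm hn hμ'
  obtain ⟨t1, t2⟩ := E3_top he hl H 3
  have e3 : KM m n μ' 3 = tot μ' := rfl
  have e3' : KM m n μ 3 = tot μ := rfl
  have eT : sS (KM m n μ') 3 + KM m n μ' 3 = tot (KM m n μ') := rfl
  have eT' : sS (KM m n μ) 3 + KM m n μ 3 = tot (KM m n μ) := rfl
  have hS : 0 ≤ sS (KM m n μ') 3 := by
    have := he 0; have := he 1; have := he 2
    rw [sS_three]; linarith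
  have htot' : 0 < tot μ' := by unfold tot; linarith
  have htot : 0 < tot μ := by unfold tot; linarith
  set k : ℝ → ℝ := fun z => tot (KM m n μ) - h (tot (KM m n μ') - z) with hk
  have hmem : ∀ z ∈ Icc 0 (tot μ'), tot (KM m n μ') - z ∈ Icc 0 (tot (KM m n μ')) := by
    intro z hz
    constructor
    · rw [← eT, e3]; linarith [hz.2]
    · linarith [hz.1]
  have hmono : MonotoneOn k (Icc 0 (tot μ')) := by
    intro x hx y hy hxy
    have := H.mono (hmem y hy) (hmem x hx) (by linarith)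
    simp only [hk]
    linarith
  have hk0 : k 0 = 0 := by
    simp only [hk, sub_zero]
    rw [← eT, t2, eT', sub_self]
  have hk1 : k (tot μ') = tot μ := by
    simp only [hk]
    have : tot (KM m n μ') - tot μ' = sS (KM m n μ') 3 := by rw [← eT, e3]; ring
    rw [this, t1, ← eT', e3']; ring
  have hsurj : ∀ y ∈ Icc 0 (tot μ), ∃ x ∈ Icc 0 (tot μ'), k x = y := by
    intro y hy
    obtain ⟨x, hx, hxy⟩ := H.surj (tot (KM m n μ) - y)
      ⟨by rw [← eT', e3']; have := hl 0; have := hl 1; have := hl 2; rw [sS_three]; linarith [hy.2],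
        by linarith [hy.1]⟩
    by_cases hc : sS (KM m n μ') 3 ≤ x
    · refine ⟨tot (KM m n μ') - x, ⟨by linarith [hx.2], ?_⟩, ?_⟩
      · rw [← eT, e3]; linarith
      · simp only [hk, sub_sub_cancel, hxy]
    · push Not at hc
      refine ⟨tot μ', ⟨htot'.le, le_refl _⟩, ?_⟩
      rw [hk1]
      have h1 := H.mono hx (⟨hS, by rw [← eT, e3]; linarith⟩ :
        sS (KM m n μ') 3 ∈ Icc 0 (tot (KM m n μ'))) hc.le
      rw [t1, hxy] at h1
      have : tot (KM m n μ) - sS (KM m n μ) 3 = tot μ := by rw [← eT', e3']; ring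
      linarith [hy.2]
  have hkmem : ∀ z ∈ Icc 0 (tot μ'), k z ∈ Icc 0 (tot μ) := by
    intro z hz
    refine ⟨?_, ?_⟩
    · rw [← hk0]; exact hmono ⟨le_refl _, htot'.le⟩ hz hz.1
    · rw [← hk1]; exact hmono hz ⟨htot'.le, le_refl _⟩ hz.2
  -- the code argument
  have hcode : ∀ (i j : Fin 4) (z : ℝ), z ∈ Bc μ' j → k z ∈ Bo μ i → i = j := by
    intro i j z hz hkz
    by_contra hij
    have p1 := E3_path_closed m n hm hn μ' hμ' j z hz
    have p2 := (E3_lift_closed H _ _ p1).1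
    have p3 := E3_path_open m n hm hn μ hμ i (k z) hkz
    have : tot (KM m n μ) - k z = h (tot (KM m n μ') - z) := by simp [hk]
    rw [this] at p3
    exact E3_Sep_path hl (E3_Sep_Wd m n hm hn hij) p3 p2
  have hlow : ∀ (β α : Fin 4), sS μ β + μ β = sS μ α → sS μ' β + μ' β = sS μ' α →
      ∀ z ∈ Bc μ' α, sS μ α ≤ k z := by
    intro β α h1 h2 z hz
    by_contra hc
    push Not at hc
    obtain ⟨y, hy1, hy2⟩ : ∃ y, max (k z) (sS μ β) < y ∧ y < sS μ α := by
      apply exists_between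
      rw [max_lt_iff]
      exact ⟨hc, by rw [← h1]; linarith [hμ β]⟩
    have hyB : y ∈ Bo μ β := ⟨(le_max_right _ _).trans_lt hy1, by rw [h1]; exact hy2⟩
    obtain ⟨x, hx, hxy⟩ := hsurj y (E3_Bc_sub hμ β (E3_Bo_sub β hyB))
    obtain ⟨γ, hγ⟩ := E3_cover hx
    have := hcode β γ x hγ (by rw [hxy]; exact hyB)
    subst this
    have hxz : x ≤ z := hγ.2.trans (by rw [h2]; exact hz.1)
    have := hmono hx (E3_Bc_sub hμ' α hz) hxz
    rw [hxy] at this
    exact absurd ((le_max_left _ _).trans_lt hy1) (not_lt.2 this)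
  have hupp : ∀ (β α : Fin 4), sS μ α + μ α = sS μ β → sS μ' α + μ' α = sS μ' β →
      ∀ z ∈ Bc μ' α, k z ≤ sS μ α + μ α := by
    intro β α h1 h2 z hz
    by_contra hc
    push Not at hc
    obtain ⟨y, hy1, hy2⟩ : ∃ y, sS μ β < y ∧ y < min (k z) (sS μ β + μ β) := by
      apply exists_between
      rw [lt_min_iff]
      exact ⟨by rw [← h1]; exact hc, by linarith [hμ β]⟩
    have hyB : y ∈ Bo μ β := ⟨hy1, hy2.trans_le (min_le_right _ _)⟩
    obtain ⟨x, hx, hxy⟩ := hsurj y (E3_Bc_sub hμ β (E3_Bo_sub β hyB))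
    obtain ⟨γ, hγ⟩ := E3_cover hx
    have := hcode β γ x hγ (by rw [hxy]; exact hyB)
    subst this
    have hxz : z ≤ x := (hz.2.trans (by rw [h2])).trans hγ.1
    have := hmono (E3_Bc_sub hμ' α hz) hx hxz
    rw [hxy] at this
    exact absurd (hy2.trans_le (min_le_left _ _)) (not_lt.2 this)
  have hBc : ∀ α, ∀ z ∈ Bc μ' α, k z ∈ Bc μ α := by
    intro α z hz
    have hz' := E3_Bc_sub hμ' α hz
    have hkz := hkmem z hz'
    fin_cases α
    · exact ⟨by simpa using hkz.1, hupp 1 0 (by simp) (by simp) z hz⟩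
    · exact ⟨hlow 0 1 (by simp) (by simp) z hz, hupp 2 1 (by simp) (by simp) z hz⟩
    · exact ⟨hlow 1 2 (by simp) (by simp) z hz, hupp 3 2 (by simp) (by simp) z hz⟩
    · exact ⟨hlow 2 3 (by simp) (by simp) z hz, hkz.2⟩
  refine ⟨hmono, hsurj, fun α z hz => ⟨hBc α z hz, ?_⟩⟩
  have p1 := B_step_closed m n hm hn μ' hμ' α z hz
  have p2 := (E3_lift_closed H _ _ p1).2
  rw [B_step_sum m n hm hn, B_step_sum m n hm hn] at p2
  simp only [hk]
  have e5 : tot (KM m n μ') - (z + dl μ' α) = tot (KM m n μ') - z + -dl μ' α := by ring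
  rw [e5, p2]
  ring

/-- One step of the induction. -/
theorem E3_step (m n : ℕ) (hm : 2 ≤ m) (hn : 2 ≤ n) (μ ell : Fin 4 → ℝ) (hμ : ∀ α, 0 < μ α)
    (he : ∀ α, 0 < ell α) (h : ℝ → ℝ) (H : E3_SC ell (KM m n μ) h) :
    ∃ μ' : Fin 4 → ℝ, (∀ α, 0 < μ' α) ∧ (∃ h', E3_SC μ' μ h') ∧ ell = KM m n μ' := by
  have hmR : (2 : ℝ) ≤ m := by exact_mod_cast hm
  have hnR : (2 : ℝ) ≤ n := by exact_mod_cast hn
  have hm' : ((m - 1 : ℕ) : ℝ) = m - 1 := by rw [Nat.cast_sub (by omega)]; simp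
  have hn' : ((n - 1 : ℕ) : ℝ) = n - 1 := by rw [Nat.cast_sub (by omega)]; simp
  have q0 := hμ 0; have q1 := hμ 1; have q2 := hμ 2; have q3 := hμ 3
  have p0 := he 0; have p1 := he 1; have p2 := he 2; have p3 := he 3
  have hl : ∀ α, 0 < KM m n μ α := E3_KM_pos hm hn hμ
  have hs : 0 ≤ μ 0 + μ 1 := by linarith
  have ht : 0 ≤ μ 0 + μ 1 + μ 2 + μ 3 := by linarith
  have a1 : 0 ≤ (m - 2 : ℝ) * (μ 0 + μ 1) := mul_nonneg (by linarith) hs
  have a2 : 0 ≤ (n - 2 : ℝ) * (μ 0 + μ 1 + μ 2 + μ 3) := mul_nonneg (by linarith) ht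
  -- images of the bottom points
  have b1 : h (ell 3) = KM m n μ 3 := by
    have h1 := (H.rel 3 (sS ell 3 + ell 3) ⟨by linarith, le_refl _⟩).2
    rw [(E3_top he hl H 3).2] at h1
    simp only [sS_three, dl_three] at h1
    have e1 : ell 0 + ell 1 + ell 2 + ell 3 + -(ell 0 + ell 1 + ell 2) = ell 3 := by ring
    rw [e1] at h1
    rw [h1]; ring
  have b2 : h (ell 3 + ell 1) = KM m n μ 3 + KM m n μ 1 := by
    have h1 := (H.rel 1 (sS ell 1 + ell 1) ⟨by linarith, le_refl _⟩).2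
    rw [(E3_top he hl H 1).2] at h1
    simp only [sS_one, dl_one] at h1
    have e1 : ell 0 + ell 1 + (ell 3 - ell 0) = ell 3 + ell 1 := by ring
    rw [e1] at h1
    rw [h1]; ring
  have b3 : h (ell 3 + ell 1 + ell 0) = KM m n μ 3 + KM m n μ 1 + KM m n μ 0 := by
    have h1 := (H.rel 0 (sS ell 0 + ell 0) ⟨by linarith, le_refl _⟩).2
    rw [(E3_top he hl H 0).2] at h1
    simp only [sS_zero, dl_zero] at h1
    have e1 : 0 + ell 0 + (ell 3 + ell 1) = ell 3 + ell 1 + ell 0 := by ring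
    rw [e1] at h1
    rw [h1]; ring
  -- the three open paths
  have c1 : IsPath (Bo (KM m n μ)) (dl (KM m n μ)) (h (ell 3))
      (List.replicate (m - 1) 1 ++ List.replicate n 2 ++ [3]) := by
    rw [b1, IsPath_append, IsPath_append, IsPath_replicate, IsPath_replicate]
    simp only [Bo, mem_Ioo, sS_zero, sS_one, sS_two, sS_three, dl_zero, dl_one, dl_two, dl_three,
      KM_zero, KM_one, KM_two, KM_three, tot, List.map_replicate, List.sum_replicate,
      nsmul_eq_mul, hm', List.map_append, List.sum_append, IsPath_cons, IsPath_nil, and_true]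
    refine ⟨⟨fun i hi => ?_, fun i hi => ?_⟩, ?_⟩
    · have := idx_bound hi (μ 0 + μ 1) hs
      rw [hm'] at this
      constructor <;> linarith [this.1, this.2]
    · have := idx_bound hi (μ 0 + μ 1 + μ 2 + μ 3) ht
      constructor <;> linarith [this.1, this.2]
    · constructor <;> linarith
  have c2 : IsPath (Bo (KM m n μ)) (dl (KM m n μ)) (h (ell 3 + ell 1))
      (List.replicate n 2 ++ [3]) := by
    rw [b2, IsPath_append, IsPath_replicate]
    simp only [Bo, mem_Ioo, sS_zero, sS_one, sS_two, sS_three, dl_zero, dl_one, dl_two, dl_three,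
      KM_zero, KM_one, KM_two, KM_three, tot, List.map_replicate, List.sum_replicate,
      nsmul_eq_mul, hm', List.map_append, List.sum_append, IsPath_cons, IsPath_nil, and_true]
    refine ⟨fun i hi => ?_, ?_⟩
    · have := idx_bound hi (μ 0 + μ 1 + μ 2 + μ 3) ht
      constructor <;> linarith [this.1, this.2]
    · constructor <;> linarith
  have c3 : IsPath (Bo (KM m n μ)) (dl (KM m n μ)) (h (ell 3 + ell 1 + ell 0))
      (List.replicate (n - 1) 2 ++ [3]) := by
    rw [b3, IsPath_append, IsPath_replicate]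
    simp only [Bo, mem_Ioo, sS_zero, sS_one, sS_two, sS_three, dl_zero, dl_one, dl_two, dl_three,
      KM_zero, KM_one, KM_two, KM_three, tot, List.map_replicate, List.sum_replicate,
      nsmul_eq_mul, hn', List.map_append, List.sum_append, IsPath_cons, IsPath_nil, and_true]
    refine ⟨fun i hi => ?_, ?_⟩
    · have := idx_bound hi (μ 0 + μ 1 + μ 2 + μ 3) ht
      rw [hn'] at this
      constructor <;> linarith [this.1, this.2]
    · constructor <;> linarith
  -- lift them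
  have d1 := (E3_lift_open he hl H _ (ell 3) ⟨p3.le, by unfold tot; linarith⟩ c1).1
  have d2 := (E3_lift_open he hl H _ (ell 3 + ell 1) ⟨by linarith, by unfold tot; linarith⟩ c2).1
  have d3 := (E3_lift_open he hl H _ (ell 3 + ell 1 + ell 0)
    ⟨by linarith, by unfold tot; linarith⟩ c3).1
  have f1 := (E3_lift_open he hl H (List.replicate (m - 1) 1 ++ List.replicate n 2) (ell 3)
    ⟨p3.le, by unfold tot; linarith⟩ ((IsPath_append _ _ _ _ _).1 c1).1).2
  have f2 := (E3_lift_open he hl H (List.replicate n 2) (ell 3 + ell 1)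
    ⟨by linarith, by unfold tot; linarith⟩ ((IsPath_append _ _ _ _ _).1 c2).1).2
  have f3 := (E3_lift_open he hl H (List.replicate (n - 1) 2) (ell 3 + ell 1 + ell 0)
    ⟨by linarith, by unfold tot; linarith⟩ ((IsPath_append _ _ _ _ _).1 c3).1).2
  rw [IsPath_append] at d1 d2 d3
  have g1 := d1.2
  have g2 := d2.2
  have g3 := d3.2
  rw [IsPath_cons] at g1 g2 g3
  rw [b1] at f1
  rw [b2] at f2
  rw [b3] at f3
  simp only [Bo, mem_Ioo, sS_zero, sS_one, sS_two, sS_three, dl_zero, dl_one, dl_two, dl_three,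
      KM_zero, KM_one, KM_two, KM_three, List.map_replicate, List.sum_replicate,
      nsmul_eq_mul, hm', hn', List.map_append, List.sum_append, IsPath_nil, and_true]
      at f1 f2 f3 g1 g2 g3
  -- ordering of the end points
  set X1' := ell 3 + ((m - 1 : ℝ) * (ell 3 - ell 0) + n * ell 3) with hX1
  set X2' := ell 3 + ell 1 + n * ell 3 with hX2
  set X3' := ell 3 + ell 1 + ell 0 + (n - 1 : ℝ) * ell 3 with hX3
  have mem : ∀ x, ell 0 + ell 1 + ell 2 < x → x < ell 0 + ell 1 + ell 2 + ell 3 →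
      x ∈ Icc 0 (tot ell) := by
    intro x h1 h2
    exact ⟨by linarith, by unfold tot; linarith⟩
  have o12 : X1' < X2' := by
    by_contra hc
    push Not at hc
    have := H.mono (mem _ g2.1 g2.2) (mem _ g1.1 g1.2) hc
    rw [f1, f2] at this
    linarith
  have o31 : X3' < X1' := by
    by_contra hc
    push Not at hc
    have := H.mono (mem _ g1.1 g1.2) (mem _ g3.1 g3.2) hc
    rw [f1, f3] at this
    linarith
  have hT : tot ell = ell 0 + ell 1 + ell 2 + ell 3 := rfl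
  let μ' : Fin 4 → ℝ := ![X1' - X3', X2' - X1', X3' - (ell 0 + ell 1 + ell 2), tot ell - X2']
  have m0 : μ' 0 = X1' - X3' := rfl
  have m1 : μ' 1 = X2' - X1' := rfl
  have m2 : μ' 2 = X3' - (ell 0 + ell 1 + ell 2) := rfl
  have m3 : μ' 3 = tot ell - X2' := rfl
  have hpos : ∀ α, 0 < μ' α := by
    intro α
    fin_cases α
    · change 0 < μ' 0; rw [m0]; linarith
    · change 0 < μ' 1; rw [m1]; linarith
    · change 0 < μ' 2; rw [m2]; linarith [g3.1]
    · change 0 < μ' 3; rw [m3, hT]; linarith [g2.2]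
  have heq : ell = KM m n μ' := by
    funext α
    fin_cases α
    · change ell 0 = KM m n μ' 0
      rw [KM_zero, m2, m3, hT, hX2, hX3]; ring
    · change ell 1 = KM m n μ' 1
      rw [KM_one, m0, m1, hX1, hX2, hX3]; ring
    · change ell 2 = KM m n μ' 2
      rw [KM_two, m0, m1, m2, m3, hT, hX1, hX2, hX3]; ring
    · change ell 3 = KM m n μ' 3
      rw [KM_three, m0, m1, m2, m3, hT]; ring
  refine ⟨μ', hpos, ⟨_, E3_ind m n hm hn μ μ' hμ hpos h ?_⟩, heq⟩
  rw [← heq]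
  exact H

theorem E_N3 (ell l : Fin 4 → ℝ) (he : IsLen ell) (hl : Keane l) (h : IsLen l)
    (hSC : SC (std ell he) l) : Keane ell := by
  obtain ⟨s, hs0, hspos, hsstep⟩ := hl
  obtain ⟨f, hf1, hf2, hf3⟩ := hSC
  have H0 : E3_SC ell (s 0) f := by
    rw [hs0]
    refine ⟨by rw [he.2]; exact hf1, ?_, ?_⟩
    · intro y hy
      rw [h.2, ← hf2] at hy
      obtain ⟨x, hx, hxy⟩ := hy
      exact ⟨x, by rw [he.2]; exact hx, hxy⟩
    · intro α x hx
      have h1 := hf3 α x (by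
        unfold std
        rw [aff_a, aff_a, pts_castSucc, pts_succ]
        exact hx)
      unfold std at h1
      rw [std_f] at h1
      exact h1
  have step : ∀ (k : ℕ) (p : {p : Fin 4 → ℝ // (∀ α, 0 < p α) ∧ ∃ g, E3_SC p (s k) g}),
      ∃ q : {q : Fin 4 → ℝ // (∀ α, 0 < q α) ∧ ∃ g, E3_SC q (s (k + 1)) g},
        p.1 = KM (mm k) (nn k) q.1 := by
    intro k p
    obtain ⟨p, hp, g, hg⟩ := p
    rw [hsstep k] at hg
    obtain ⟨μ', h1, h2, h3⟩ := E3_step (mm k) (nn k) (A_mm_ge k)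
      (le_trans (by norm_num) (A_nn_ge k)) (s (k + 1)) p (hspos (k + 1)) hp g hg
    exact ⟨⟨μ', h1, h2⟩, h3⟩
  choose nxt hnxt using step
  let S : ∀ k, {p : Fin 4 → ℝ // (∀ α, 0 < p α) ∧ ∃ g, E3_SC p (s k) g} :=
    fun k => Nat.rec (motive := fun k => {p : Fin 4 → ℝ // (∀ α, 0 < p α) ∧ ∃ g, E3_SC p (s k) g})
      ⟨ell, he.1, f, H0⟩ (fun k p => nxt k p) k
  refine ⟨fun k => (S k).1, rfl, fun k => (S k).2.1, fun k => ?_⟩
  exact hnxt k (S k)

theorem E_trans (T : X1) (l l' : Fin 4 → ℝ) (h' : IsLen l') (h1 : SC T l')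
    (h2 : SC (std l' h') l) : SC T l := by
  obtain ⟨f, f1, f2, f3⟩ := h1
  obtain ⟨g, g1, g2, g3⟩ := h2
  have hf : ∀ x ∈ Icc (0 : ℝ) 1, f x ∈ Icc (0 : ℝ) 1 := by
    intro x hx
    rw [← f2]
    exact ⟨x, hx, rfl⟩
  refine ⟨g ∘ f, ?_, ?_, ?_⟩
  · intro x hx y hy hxy
    exact g1 (hf x hx) (hf y hy) (f1 hx hy hxy)
  · rw [image_comp, f2, g2]
  · intro α x hx
    obtain ⟨k1, k2⟩ := f3 α x hx
    have h1 := g3 α (f x) (by
      unfold std
      rw [aff_a, aff_a, pts_castSucc, pts_succ]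
      exact k1)
    unfold std at h1
    rw [std_f] at h1
    simp only [Function.comp_apply]
    rw [k2]
    exact h1

end Pool.Agent.Helper160IEM
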