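import Mathlib
import Pool.Agent.Helper160IEM.D

set_option autoImplicit false
set_option linter.unusedSimpArgs false

/-!
Definitions for module F: averages.
-/

namespace Pool.Agent.Helper160IEM

open Set Filter Topology MeasureTheory

/-- `Dn T n x` is the derivative of `T^n` at `x`. -/
noncomputable def Dn (T : X1) (n : ℕ) (x : ℝ) : ℝ :=
  ∏ i ∈ Finset.range n, T.f' (T.letter (T.T^[i] x)) (T.T^[i] x)

/-- The averaged distribution functions. -/
noncomputable def Gn (T : X1) (n : ℕ) (η : ℝ) (y : ℝ) : ℝ :=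
  (1 / (n : ℝ)) * ∫ x in Ico (0 : ℝ) 1,
    (∑ i ∈ Finset.range n, if T.T^[i] x < y then (1 : ℝ) else 0) *
      ((1 - η) / 2 + (1 + η) / 2 * Dn T n x)

end Pool.Agent.Helper160IEM
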