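import Mathlib
import Pool.Agent.Helper160IEM.F0

set_option autoImplicit false
set_option linter.unusedSimpArgs false

/-!
Module F1: averages, basic properties and signs.
-/

namespace Pool.Agent.Helper160IEM

open Set Filter Topology MeasureTheory

/-- integrability of bounded measurable functions on `[0,1)` -/
theorem F1_int {g : ℝ → ℝ} (hg : Measurable g) {C : ℝ} (hC : ∀ x ∈ Ico (0 : ℝ) 1, |g x| ≤ C) :
    IntegrableOn g (Ico (0 : ℝ) 1) := by
  refine Measure.integrableOn_of_bounded (M := C) (by simp) hg.aestronglyMeasurable ?_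
  rw [ae_restrict_iff' measurableSet_Ico]
  exact Eventually.of_forall fun x hx => by simpa using hC x hx

/-- the derivative of `T` -/
noncomputable def F1_g (T : X1) (x : ℝ) : ℝ := T.f' (T.letter x) x

theorem F1_g_pos (T : X1) (x : ℝ) : 0 < F1_g T x := f'_pos T _ _

theorem F1_f'_cont (T : X1) (α : Fin 4) : Continuous (T.f' α) :=
  (cont_f' α).comp (Continuous.prodMk_right T)

theorem F1_f_cont (T : X1) (α : Fin 4) : Continuous (T.f α) :=
  (cont_f α).comp (Continuous.prodMk_right T)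

theorem F1_g_meas (T : X1) : Measurable (F1_g T) := by
  have h : F1_g T = fun x => ∑ α : Fin 4, (T.letter ⁻¹' {α}).indicator (T.f' α) x := by
    funext x
    rw [Finset.sum_eq_single (T.letter x)]
    · rw [indicator_of_mem (by simp)]; rfl
    · intro β _ hβ
      rw [indicator_of_notMem]
      intro h
      exact hβ h.symm
    · intro h; exact absurd (Finset.mem_univ _) h
  rw [h]
  refine Finset.measurable_sum _ fun α _ => ?_
  exact ((F1_f'_cont T α).measurable).indicator (letter_measurable T (measurableSet_singleton α))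

theorem F1_g_bdd (T : X1) : ∃ C, 1 ≤ C ∧ ∀ x ∈ Ico (0 : ℝ) 1, F1_g T x ≤ C := by
  have h : ∀ α : Fin 4, ∃ C, ∀ x ∈ Icc (0 : ℝ) 1, T.f' α x ≤ C := by
    intro α
    obtain ⟨C, hC⟩ := (isCompact_Icc (a := (0 : ℝ)) (b := 1)).bddAbove_image
      (F1_f'_cont T α).continuousOn
    exact ⟨C, fun x hx => hC ⟨x, hx, rfl⟩⟩
  choose C hC using h
  refine ⟨max 1 (max (max (C 0) (C 1)) (max (C 2) (C 3))), le_max_left _ _, fun x hx => ?_⟩
  have h1 := hC (T.letter x) x ⟨hx.1, hx.2.le⟩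
  refine le_trans h1 ?_
  refine le_trans ?_ (le_max_right _ _)
  generalize T.letter x = α
  fin_cases α
  · exact (le_max_left _ _).trans (le_max_left _ _)
  · exact (le_max_right _ _).trans (le_max_left _ _)
  · exact (le_max_left _ _).trans (le_max_right _ _)
  · exact (le_max_right _ _).trans (le_max_right _ _)

theorem F1_Dn (T : X1) (n : ℕ) (x : ℝ) : Dn T n x = ∏ i ∈ Finset.range n, F1_g T (T.T^[i] x) := rfl

theorem Dn_pos (T : X1) (n : ℕ) (x : ℝ) : 0 < Dn T n x :=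
  Finset.prod_pos fun _ _ => F1_g_pos T _

theorem F1_iter_meas (T : X1) (i : ℕ) : Measurable (T.T^[i]) := (T_measurable T).iterate i

theorem Dn_measurable (T : X1) (n : ℕ) : Measurable (Dn T n) := by
  have : Dn T n = fun x => ∏ i ∈ Finset.range n, F1_g T (T.T^[i] x) := by
    funext x; exact F1_Dn T n x
  rw [this]
  exact Finset.measurable_prod _ fun i _ => (F1_g_meas T).comp (F1_iter_meas T i)

/-- Uniform bound for the derivative on `[0,1)`. -/
theorem Dn_bdd (T : X1) (n : ℕ) : ∃ C, ∀ x ∈ Ico (0 : ℝ) 1, Dn T n x ≤ C := by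
  obtain ⟨C, h1, hC⟩ := F1_g_bdd T
  refine ⟨C ^ n, fun x hx => ?_⟩
  rw [F1_Dn]
  calc ∏ i ∈ Finset.range n, F1_g T (T.T^[i] x) ≤ ∏ _i ∈ Finset.range n, C :=
        Finset.prod_le_prod (fun i _ => (F1_g_pos T _).le) fun i _ => hC _ (T_iter_mem T i hx)
    _ = C ^ n := by simp

theorem F1_Dn_int (T : X1) (n : ℕ) : IntegrableOn (Dn T n) (Ico (0 : ℝ) 1) := by
  obtain ⟨C, hC⟩ := Dn_bdd T n
  exact F1_int (Dn_measurable T n) fun x hx => by
    rw [abs_of_pos (Dn_pos T n x)]; exact hC x hx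

/-- a partition of `[0,1)` -/
theorem F1_union {p : Fin 5 → ℝ} (hp : StrictMono p) (h0 : p 0 = 0) (h4 : p 4 = 1) :
    Ico (0 : ℝ) 1 = ⋃ α : Fin 4, Ico (p α.castSucc) (p α.succ) := by
  have h01 : p 0 < p 1 := hp (by decide)
  have h12 : p 1 < p 2 := hp (by decide)
  have h23 : p 2 < p 3 := hp (by decide)
  have h34 : p 3 < p 4 := hp (by decide)
  ext x
  simp only [mem_iUnion, mem_Ico]
  constructor
  · rintro ⟨hx0, hx1⟩
    rcases lt_or_ge x (p 1) with h | h
    · exact ⟨0, by change p 0 ≤ x; linarith, h⟩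
    rcases lt_or_ge x (p 2) with h' | h'
    · exact ⟨1, h, h'⟩
    rcases lt_or_ge x (p 3) with h'' | h''
    · exact ⟨2, h', h''⟩
    · exact ⟨3, h'', by change x < p 4; linarith⟩
  · rintro ⟨α, hα, hα'⟩
    have h1 : p 0 ≤ p α.castSucc := hp.monotone (Fin.zero_le _)
    have h2 : p α.succ ≤ p 4 := hp.monotone (Fin.le_last _)
    constructor <;> linarith

theorem F1_disj {p : Fin 5 → ℝ} (hp : StrictMono p) :
    Pairwise (Function.onFun Disjoint fun α : Fin 4 => Ico (p α.castSucc) (p α.succ)) := by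
  have key : ∀ α β : Fin 4, α < β →
      Disjoint (Ico (p α.castSucc) (p α.succ)) (Ico (p β.castSucc) (p β.succ)) := by
    intro α β h
    rw [Set.disjoint_left]
    rintro x ⟨_, h1⟩ ⟨h2, _⟩
    have : p α.succ ≤ p β.castSucc := hp.monotone (by
      rw [Fin.le_def]; simp only [Fin.val_succ, Fin.val_castSucc]; exact h)
    linarith
  intro α β h
  rcases lt_or_gt_of_ne h with h | h
  · exact key α β h
  · exact (key β α h).symm

theorem F1_image (T : X1) (α : Fin 4) :
    T.f α '' Ico (T.a α.castSucc) (T.a α.succ) = Ico (T.b (sg α).castSucc) (T.b (sg α).succ) := by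
  have hlt : T.a α.castSucc < T.a α.succ := a_mono T Fin.castSucc_lt_succ
  rw [← f_left T α, ← f_right T α]
  apply Subset.antisymm
  · rintro _ ⟨x, ⟨hx, hx'⟩, rfl⟩
    exact ⟨(f_strictMono T α).monotone hx, f_strictMono T α hx'⟩
  · exact intermediate_value_Ico hlt.le (F1_f_cont T α).continuousOn

/-- change of variables -/
theorem F1_cov (T : X1) {g : ℝ → ℝ} (hg : Measurable g) {C : ℝ}
    (hC : ∀ x ∈ Ico (0 : ℝ) 1, |g x| ≤ C) :
    ∫ x in Ico (0 : ℝ) 1, g (T.T x) * F1_g T x = ∫ x in Ico (0 : ℝ) 1, g x := by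
  have hi := F1_int hg hC
  have hi2 : IntegrableOn (fun x => g (T.T x) * F1_g T x) (Ico (0 : ℝ) 1) := by
    obtain ⟨C', h1, hC'⟩ := F1_g_bdd T
    refine F1_int (C := C * C') ((hg.comp (T_measurable T)).mul (F1_g_meas T)) ?_
    intro x hx
    rw [abs_mul, abs_of_pos (F1_g_pos T x)]
    have h2 := hC _ (T_mem T hx)
    exact mul_le_mul h2 (hC' x hx) (F1_g_pos T x).le ((abs_nonneg _).trans h2)
  have ua := F1_union (a_mono T) (a_zero T) (a_four T)
  have ub := F1_union (b_mono T) (b_zero T) (b_four T)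
  have e1 : ∫ x in Ico (0 : ℝ) 1, g (T.T x) * F1_g T x =
      ∑ α : Fin 4, ∫ x in Ico (T.a α.castSucc) (T.a α.succ), g (T.T x) * F1_g T x := by
    rw [ua]
    refine integral_iUnion_fintype (fun α => measurableSet_Ico) (F1_disj (a_mono T)) fun α => ?_
    refine hi2.mono_set ?_
    rw [ua]; exact subset_iUnion (fun α : Fin 4 => Ico (T.a α.castSucc) (T.a α.succ)) α
  have e2 : ∫ x in Ico (0 : ℝ) 1, g x =
      ∑ α : Fin 4, ∫ x in Ico (T.b α.castSucc) (T.b α.succ), g x := by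
    rw [ub]
    refine integral_iUnion_fintype (fun α => measurableSet_Ico) (F1_disj (b_mono T)) fun α => ?_
    refine hi.mono_set ?_
    rw [ub]; exact subset_iUnion (fun α : Fin 4 => Ico (T.b α.castSucc) (T.b α.succ)) α
  have hbij : Function.Bijective sg := by decide
  have e3 : ∑ α : Fin 4, ∫ x in Ico (T.b α.castSucc) (T.b α.succ), g x =
      ∑ α : Fin 4, ∫ x in Ico (T.b (sg α).castSucc) (T.b (sg α).succ), g x :=
    (Function.Bijective.sum_comp hbij
      (fun α : Fin 4 => ∫ x in Ico (T.b α.castSucc) (T.b α.succ), g x)).symm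
  rw [e1, e2, e3]
  refine Finset.sum_congr rfl fun α _ => ?_
  rw [← F1_image T α, integral_image_eq_integral_abs_deriv_smul measurableSet_Ico
    (f' := T.f' α) (fun x hx => (f_hasDerivWithinAt T α (Ico_subset_Icc_self hx)).mono
      Ico_subset_Icc_self) ((f_strictMono T α).injective.injOn) g]
  refine setIntegral_congr_fun measurableSet_Ico fun x hx => ?_
  have hl : T.letter x = α := letter_eq T hx
  simp only [F1_g, GIEM.T, hl, smul_eq_mul]
  rw [abs_of_pos (f'_pos T α x)]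
  ring

theorem F1_Dn_succ (T : X1) (n : ℕ) (x : ℝ) :
    Dn T (n + 1) x = Dn T n (T.T x) * F1_g T x := by
  rw [F1_Dn, F1_Dn, Finset.prod_range_succ']
  rfl

theorem Dn_integral (T : X1) (n : ℕ) : ∫ x in Ico (0 : ℝ) 1, Dn T n x = 1 := by
  induction n with
  | zero => simp [Dn]
  | succ n ih =>
    obtain ⟨C, hC⟩ := Dn_bdd T n
    have h1 := F1_cov T (Dn_measurable T n) (C := C) (fun x hx => by
      rw [abs_of_pos (Dn_pos T n x)]; exact hC x hx)
    rw [ih] at h1
    exact (setIntegral_congr_fun measurableSet_Ico fun x _ => F1_Dn_succ T n x).trans h1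

/-- the weight -/
noncomputable def F1_rho (T : X1) (n : ℕ) (η x : ℝ) : ℝ := (1 - η) / 2 + (1 + η) / 2 * Dn T n x

theorem F1_rho_nonneg (T : X1) (n : ℕ) (η : ℝ) (hη : |η| ≤ 1) (x : ℝ) : 0 ≤ F1_rho T n η x := by
  have h := abs_le.1 hη
  have := (Dn_pos T n x).le
  have h1 : 0 ≤ (1 + η) / 2 * Dn T n x := mul_nonneg (by linarith) this
  rw [F1_rho]; linarith

theorem F1_rho_int (T : X1) (n : ℕ) (η : ℝ) : IntegrableOn (F1_rho T n η) (Ico (0 : ℝ) 1) := by
  have h1 : IntegrableOn (fun _ : ℝ => (1 - η) / 2) (Ico (0 : ℝ) 1) := by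
    rw [integrableOn_const_iff]; right; simp
  exact h1.add ((F1_Dn_int T n).const_mul _)

theorem F1_rho_integral (T : X1) (n : ℕ) (η : ℝ) :
    ∫ x in Ico (0 : ℝ) 1, F1_rho T n η x = 1 := by
  have h1 : IntegrableOn (fun _ : ℝ => (1 - η) / 2) (Ico (0 : ℝ) 1) := by
    rw [integrableOn_const_iff]; right; simp
  have h2 : ∫ x in Ico (0 : ℝ) 1, F1_rho T n η x =
      (∫ x in Ico (0 : ℝ) 1, (1 - η) / 2) + ∫ x in Ico (0 : ℝ) 1, (1 + η) / 2 * Dn T n x :=
    integral_add h1 ((F1_Dn_int T n).const_mul _)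
  rw [h2, integral_const_mul, Dn_integral]
  simp
  ring

theorem F1_rho_meas (T : X1) (n : ℕ) (η : ℝ) : Measurable (F1_rho T n η) :=
  measurable_const.add ((Dn_measurable T n).const_mul _)

/-- bounded measurable function times the weight -/
theorem F1_mul_int (T : X1) (n : ℕ) (η : ℝ) {g : ℝ → ℝ} (hg : Measurable g) {C : ℝ}
    (hC : ∀ x, |g x| ≤ C) :
    IntegrableOn (fun x => g x * F1_rho T n η x) (Ico (0 : ℝ) 1) := by
  refine Integrable.bdd_mul (c := C) (F1_rho_int T n η) hg.aestronglyMeasurable ?_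
  exact Eventually.of_forall fun x => by simpa using hC x

/-- the number of visits to the left of `y` -/
noncomputable def F1_cnt (T : X1) (n : ℕ) (x y : ℝ) : ℝ :=
  ∑ i ∈ Finset.range n, if T.T^[i] x < y then (1 : ℝ) else 0

theorem F1_cnt_meas (T : X1) (n : ℕ) (y : ℝ) : Measurable fun x => F1_cnt T n x y := by
  refine Finset.measurable_sum _ fun i _ => ?_
  exact Measurable.ite ((F1_iter_meas T i) measurableSet_Iio) measurable_const measurable_const

theorem F1_cnt_nonneg (T : X1) (n : ℕ) (x y : ℝ) : 0 ≤ F1_cnt T n x y :=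
  Finset.sum_nonneg fun i _ => by split_ifs <;> norm_num

theorem F1_cnt_le (T : X1) (n : ℕ) (x y : ℝ) : F1_cnt T n x y ≤ n := by
  calc F1_cnt T n x y ≤ ∑ _i ∈ Finset.range n, (1 : ℝ) :=
        Finset.sum_le_sum fun i _ => by split_ifs <;> norm_num
    _ = n := by simp

theorem F1_cnt_mono (T : X1) (n : ℕ) (x : ℝ) {y z : ℝ} (h : y ≤ z) :
    F1_cnt T n x y ≤ F1_cnt T n x z := by
  refine Finset.sum_le_sum fun i _ => ?_
  split_ifs with h1 h2
  · exact le_rfl
  · exact absurd (h1.trans_le h) h2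
  · norm_num
  · norm_num

theorem F1_cnt_int (T : X1) (n : ℕ) (η y : ℝ) :
    IntegrableOn (fun x => F1_cnt T n x y * F1_rho T n η x) (Ico (0 : ℝ) 1) :=
  F1_mul_int T n η (F1_cnt_meas T n y) (C := n) fun x => by
    rw [abs_of_nonneg (F1_cnt_nonneg T n x y)]; exact F1_cnt_le T n x y

theorem F1_Gn (T : X1) (n : ℕ) (η y : ℝ) :
    Gn T n η y = (1 / (n : ℝ)) * ∫ x in Ico (0 : ℝ) 1, F1_cnt T n x y * F1_rho T n η x := rfl

theorem F_mono (T : X1) (n : ℕ) (hn : 1 ≤ n) (η : ℝ) (hη : |η| ≤ 1) : Monotone (Gn T n η) := by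
  intro y z h
  rw [F1_Gn, F1_Gn]
  refine mul_le_mul_of_nonneg_left ?_ (by positivity)
  exact integral_mono (F1_cnt_int T n η y) (F1_cnt_int T n η z) fun x =>
    mul_le_mul_of_nonneg_right (F1_cnt_mono T n x h) (F1_rho_nonneg T n η hη x)

theorem F_zero (T : X1) (n : ℕ) (hn : 1 ≤ n) (η : ℝ) (hη : |η| ≤ 1) : Gn T n η 0 = 0 := by
  rw [F1_Gn]
  have : ∫ x in Ico (0 : ℝ) 1, F1_cnt T n x 0 * F1_rho T n η x =
      ∫ x in Ico (0 : ℝ) 1, (0 : ℝ) := by
    refine setIntegral_congr_fun measurableSet_Ico fun x hx => ?_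
    have h1 : F1_cnt T n x 0 = 0 := Finset.sum_eq_zero fun i _ => by
      rw [if_neg (not_lt.2 (T_iter_mem T i hx).1)]
    simp only [h1, zero_mul]
  rw [this]; simp

theorem F_one (T : X1) (n : ℕ) (hn : 1 ≤ n) (η : ℝ) (hη : |η| ≤ 1) : Gn T n η 1 = 1 := by
  rw [F1_Gn]
  have : ∫ x in Ico (0 : ℝ) 1, F1_cnt T n x 1 * F1_rho T n η x =
      ∫ x in Ico (0 : ℝ) 1, (n : ℝ) * F1_rho T n η x := by
    refine setIntegral_congr_fun measurableSet_Ico fun x hx => ?_
    have h1 : F1_cnt T n x 1 = n := by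
      rw [F1_cnt, Finset.sum_congr rfl (fun i _ => if_pos (T_iter_mem T i hx).2)]
      simp
    simp only [h1]
  rw [this, integral_const_mul, F1_rho_integral]
  have : (n : ℝ) ≠ 0 := by positivity
  field_simp

theorem F1_diff (T : X1) (n : ℕ) (η y z : ℝ) :
    Gn T n η z - Gn T n η y =
      (1 / (n : ℝ)) * ∫ x in Ico (0 : ℝ) 1, (F1_cnt T n x z - F1_cnt T n x y) * F1_rho T n η x := by
  rw [F1_Gn, F1_Gn, ← mul_sub, ← integral_sub (F1_cnt_int T n η z) (F1_cnt_int T n η y)]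
  congr 2
  funext x
  ring

/-- the number of visits to `[y,z)` -/
theorem F1_cnt_diff (T : X1) (n : ℕ) (x : ℝ) {y z : ℝ} (h : y ≤ z) :
    F1_cnt T n x z - F1_cnt T n x y =
      ∑ i ∈ Finset.range n, if y ≤ T.T^[i] x ∧ T.T^[i] x < z then (1 : ℝ) else 0 := by
  rw [F1_cnt, F1_cnt, ← Finset.sum_sub_distrib]
  refine Finset.sum_congr rfl fun i _ => ?_
  by_cases h1 : T.T^[i] x < y
  · rw [if_pos (h1.trans_le h), if_pos h1, if_neg (fun h2 => absurd h1 (not_lt.2 h2.1))]; ring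
  · by_cases h2 : T.T^[i] x < z
    · rw [if_pos h2, if_neg h1, if_pos ⟨not_lt.1 h1, h2⟩]; ring
    · rw [if_neg h2, if_neg h1, if_neg (fun h3 => h2 h3.2)]; ring

theorem F_defect (T : X1) (n : ℕ) (hn : 1 ≤ n) (η : ℝ) (hη : |η| ≤ 1) :
    DefectLE T (Gn T n η) (1 / n) := by
  intro α y hy
  rw [F1_diff, F1_diff, ← mul_sub]
  have hfy : T.b (sg α).castSucc ≤ T.f α y := by
    rw [← f_left T α]; exact (f_strictMono T α).monotone hy.1
  have hmeas : ∀ u v : ℝ, IntegrableOn
      (fun x => (F1_cnt T n x u - F1_cnt T n x v) * F1_rho T n η x) (Ico (0 : ℝ) 1) := by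
    intro u v
    have := (F1_cnt_int T n η u).sub (F1_cnt_int T n η v)
    refine this.congr_fun ?_ measurableSet_Ico
    intro x _
    simp only [Pi.sub_apply]; ring
  rw [← integral_sub (hmeas (T.f α y) (T.b (sg α).castSucc)) (hmeas y (T.a α.castSucc))]
  have h1 : |∫ x in Ico (0 : ℝ) 1, ((F1_cnt T n x (T.f α y) - F1_cnt T n x (T.b (sg α).castSucc)) *
      F1_rho T n η x - (F1_cnt T n x y - F1_cnt T n x (T.a α.castSucc)) * F1_rho T n η x)| ≤
      ∫ x in Ico (0 : ℝ) 1, F1_rho T n η x := by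
    rw [← Real.norm_eq_abs]
    refine norm_integral_le_of_norm_le (F1_rho_int T n η) ?_
    rw [ae_restrict_iff' measurableSet_Ico]
    refine Eventually.of_forall fun x hx => ?_
    rw [← sub_mul, norm_mul, Real.norm_of_nonneg (F1_rho_nonneg T n η hη x)]
    have h2 : ‖(F1_cnt T n x (T.f α y) - F1_cnt T n x (T.b (sg α).castSucc)) -
        (F1_cnt T n x y - F1_cnt T n x (T.a α.castSucc))‖ ≤ 1 := by
      rw [F1_cnt_diff T n x hfy, F1_cnt_diff T n x hy.1]
      have h3 : ∀ i : ℕ, (if T.a α.castSucc ≤ T.T^[i] x ∧ T.T^[i] x < y then (1 : ℝ) else 0) =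
          (if T.b (sg α).castSucc ≤ T.T^[i + 1] x ∧ T.T^[i + 1] x < T.f α y
            then (1 : ℝ) else 0) := by
        intro i
        have := T_cell T (T_iter_mem T i hx) α hy
        rw [Function.iterate_succ_apply']
        by_cases h : T.a α.castSucc ≤ T.T^[i] x ∧ T.T^[i] x < y
        · rw [if_pos h, if_pos (this.1 h)]
        · rw [if_neg h, if_neg (fun h' => h (this.2 h'))]
      rw [Finset.sum_congr rfl (fun i _ => h3 i)]
      have h4 := Finset.sum_range_sub' (fun i : ℕ =>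
        (if T.b (sg α).castSucc ≤ T.T^[i] x ∧ T.T^[i] x < T.f α y then (1 : ℝ) else 0)) n
      rw [Finset.sum_sub_distrib] at h4
      rw [h4, Real.norm_eq_abs, abs_le]
      constructor <;> split_ifs <;> norm_num
    exact mul_le_of_le_one_left (F1_rho_nonneg T n η hη x) h2
  rw [F1_rho_integral] at h1
  rw [abs_mul, abs_of_nonneg (by positivity : (0 : ℝ) ≤ 1 / n)]
  calc (1 / (n : ℝ)) * _ ≤ (1 / (n : ℝ)) * 1 := mul_le_mul_of_nonneg_left h1 (by positivity)
    _ = 1 / n := by ring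

/-- the weighted sum of the increments -/
theorem F1_wsum (T : X1) (n : ℕ) (η : ℝ) (c : Fin 4 → ℝ) :
    ∑ α, c α * Lam T (Gn T n η) α = (1 / (n : ℝ)) *
      ∫ x in Ico (0 : ℝ) 1, (∑ i ∈ Finset.range n, c (T.letter (T.T^[i] x))) * F1_rho T n η x := by
  have hmeas : ∀ u v : ℝ, IntegrableOn
      (fun x => (F1_cnt T n x u - F1_cnt T n x v) * F1_rho T n η x) (Ico (0 : ℝ) 1) := by
    intro u v
    have := (F1_cnt_int T n η u).sub (F1_cnt_int T n η v)
    refine this.congr_fun ?_ measurableSet_Ico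
    intro x _
    simp only [Pi.sub_apply]; ring
  have h1 : ∀ α : Fin 4, c α * Lam T (Gn T n η) α = (1 / (n : ℝ)) *
      ∫ x in Ico (0 : ℝ) 1, c α * ((F1_cnt T n x (T.a α.succ) -
        F1_cnt T n x (T.a α.castSucc)) * F1_rho T n η x) := by
    intro α
    rw [Lam, F1_diff, integral_const_mul]; ring
  rw [Finset.sum_congr rfl (fun α _ => h1 α), ← Finset.mul_sum,
    ← integral_finsetSum _ (fun α _ => (hmeas _ _).const_mul _)]
  congr 1
  refine setIntegral_congr_fun measurableSet_Ico fun x hx => ?_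
  show ∑ α : Fin 4, c α * ((F1_cnt T n x (T.a α.succ) - F1_cnt T n x (T.a α.castSucc)) *
      F1_rho T n η x) = (∑ i ∈ Finset.range n, c (T.letter (T.T^[i] x))) * F1_rho T n η x
  have h2 : ∀ α : Fin 4, c α * ((F1_cnt T n x (T.a α.succ) - F1_cnt T n x (T.a α.castSucc)) *
      F1_rho T n η x) = (∑ i ∈ Finset.range n, if T.letter (T.T^[i] x) = α then c α else 0) *
        F1_rho T n η x := by
    intro α
    rw [F1_cnt_diff T n x (a_mono T Fin.castSucc_lt_succ).le, ← mul_assoc, Finset.mul_sum]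
    congr 1
    refine Finset.sum_congr rfl fun i _ => ?_
    by_cases h : T.letter (T.T^[i] x) = α
    · have h3 := letter_mem T (T_iter_mem T i hx)
      rw [h] at h3
      rw [if_pos h, if_pos ⟨h3.1, h3.2⟩, mul_one]
    · rw [if_neg h, if_neg (fun h3 => h (letter_eq T ⟨h3.1, h3.2⟩)), mul_zero]
  rw [Finset.sum_congr rfl (fun α _ => h2 α), ← Finset.sum_mul, Finset.sum_comm]
  congr 1
  refine Finset.sum_congr rfl fun i _ => ?_
  simp

theorem F1_letter_sum_meas (T : X1) (n : ℕ) (c : Fin 4 → ℝ) :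
    Measurable fun x => ∑ i ∈ Finset.range n, c (T.letter (T.T^[i] x)) := by
  refine Finset.measurable_sum _ fun i _ => ?_
  exact (measurable_of_finite c).comp ((letter_measurable T).comp (F1_iter_meas T i))

theorem F1_letter_sum_bdd (T : X1) (n : ℕ) (c : Fin 4 → ℝ) (x : ℝ) :
    |∑ i ∈ Finset.range n, c (T.letter (T.T^[i] x))| ≤ n * ∑ α, |c α| := by
  calc |∑ i ∈ Finset.range n, c (T.letter (T.T^[i] x))|
      ≤ ∑ i ∈ Finset.range n, |c (T.letter (T.T^[i] x))| := Finset.abs_sum_le_sum_abs _ _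
    _ ≤ ∑ _i ∈ Finset.range n, ∑ α, |c α| := Finset.sum_le_sum fun i _ =>
        Finset.single_le_sum (f := fun α => |c α|) (fun α _ => abs_nonneg _) (Finset.mem_univ _)
    _ = n * ∑ α, |c α| := by simp

/-- comparison of the letter sum with the logarithm of the derivative -/
theorem F1_log (T : X1) (n : ℕ) (c : Fin 4 → ℝ) (δ : ℝ)
    (hc : ∀ α, ∀ x ∈ Icc (T.a α.castSucc) (T.a α.succ), |Real.log (T.f' α x) - c α| ≤ δ)
    {x : ℝ} (hx : x ∈ Ico (0 : ℝ) 1) :
    |Real.log (Dn T n x) - ∑ i ∈ Finset.range n, c (T.letter (T.T^[i] x))| ≤ n * δ := by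
  rw [F1_Dn, Real.log_prod (fun i _ => (F1_g_pos T _).ne'), ← Finset.sum_sub_distrib]
  calc |∑ i ∈ Finset.range n, (Real.log (F1_g T (T.T^[i] x)) - c (T.letter (T.T^[i] x)))|
      ≤ ∑ i ∈ Finset.range n, |Real.log (F1_g T (T.T^[i] x)) - c (T.letter (T.T^[i] x))| :=
        Finset.abs_sum_le_sum_abs _ _
    _ ≤ ∑ _i ∈ Finset.range n, δ := Finset.sum_le_sum fun i _ =>
        hc _ _ (Ico_subset_Icc_self (letter_mem T (T_iter_mem T i hx)))
    _ = n * δ := by simp

theorem F_sign_left (T : X1) (n : ℕ) (hn : 1 ≤ n) (c : Fin 4 → ℝ) (δ : ℝ)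
    (hc : ∀ α, ∀ x ∈ Icc (T.a α.castSucc) (T.a α.succ), |Real.log (T.f' α x) - c α| ≤ δ) :
    ∑ α, c α * Lam T (Gn T n (-1)) α ≤ δ := by
  rw [F1_wsum]
  have hrho : ∀ x, F1_rho T n (-1) x = 1 := fun x => by rw [F1_rho]; ring
  have h1 : ∫ x in Ico (0 : ℝ) 1, (∑ i ∈ Finset.range n, c (T.letter (T.T^[i] x))) *
      F1_rho T n (-1) x ≤ ∫ x in Ico (0 : ℝ) 1, (Dn T n x + (n * δ - 1)) := by
    refine setIntegral_mono_on (F1_mul_int T n (-1) (F1_letter_sum_meas T n c)
      (F1_letter_sum_bdd T n c)) ?_ measurableSet_Ico ?_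
    · refine (F1_Dn_int T n).add ?_
      show IntegrableOn (fun _ : ℝ => (n * δ - 1)) (Ico (0 : ℝ) 1)
      rw [integrableOn_const_iff]; right; simp
    · intro x hx
      rw [hrho, mul_one]
      have h2 := (abs_le.1 (F1_log T n c δ hc hx)).1
      have h3 := Real.log_le_sub_one_of_pos (Dn_pos T n x)
      linarith
  have h2 : ∫ x in Ico (0 : ℝ) 1, (Dn T n x + (n * δ - 1)) = n * δ := by
    rw [integral_add (F1_Dn_int T n) (by
      show IntegrableOn (fun _ : ℝ => (n * δ - 1)) (Ico (0 : ℝ) 1)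
      rw [integrableOn_const_iff]; right; simp), Dn_integral]
    simp
  rw [h2] at h1
  have hn' : (0 : ℝ) < n := by positivity
  calc (1 / (n : ℝ)) * _ ≤ (1 / (n : ℝ)) * (n * δ) := mul_le_mul_of_nonneg_left h1 (by positivity)
    _ = δ := by field_simp

theorem F_sign_right (T : X1) (n : ℕ) (hn : 1 ≤ n) (c : Fin 4 → ℝ) (δ : ℝ)
    (hc : ∀ α, ∀ x ∈ Icc (T.a α.castSucc) (T.a α.succ), |Real.log (T.f' α x) - c α| ≤ δ) :
    - δ ≤ ∑ α, c α * Lam T (Gn T n 1) α := by
  rw [F1_wsum]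
  have hrho : ∀ x, F1_rho T n 1 x = Dn T n x := fun x => by rw [F1_rho]; ring
  have h1 : ∫ x in Ico (0 : ℝ) 1, ((1 - n * δ) * Dn T n x + (-1)) ≤
      ∫ x in Ico (0 : ℝ) 1, (∑ i ∈ Finset.range n, c (T.letter (T.T^[i] x))) *
      F1_rho T n 1 x := by
    refine setIntegral_mono_on ?_ (F1_mul_int T n 1 (F1_letter_sum_meas T n c)
      (F1_letter_sum_bdd T n c)) measurableSet_Ico ?_
    · refine ((F1_Dn_int T n).const_mul _).add ?_
      show IntegrableOn (fun _ : ℝ => (-1 : ℝ)) (Ico (0 : ℝ) 1)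
      rw [integrableOn_const_iff]; right; simp
    · intro x hx
      rw [hrho]
      have h2 := (abs_le.1 (F1_log T n c δ hc hx)).2
      have hD := Dn_pos T n x
      have h3 : Dn T n x - 1 ≤ Real.log (Dn T n x) * Dn T n x := by
        have h4 := Real.one_sub_inv_le_log_of_pos hD
        have h5 := mul_le_mul_of_nonneg_right h4 hD.le
        rw [sub_mul, inv_mul_cancel₀ hD.ne', one_mul] at h5
        exact h5
      have h6 : (Real.log (Dn T n x) - n * δ) * Dn T n x ≤
          (∑ i ∈ Finset.range n, c (T.letter (T.T^[i] x))) * Dn T n x :=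
        mul_le_mul_of_nonneg_right (by linarith) hD.le
      nlinarith
  have h2 : ∫ x in Ico (0 : ℝ) 1, ((1 - n * δ) * Dn T n x + (-1)) = - (n * δ) := by
    rw [integral_add ((F1_Dn_int T n).const_mul _) (by
      show IntegrableOn (fun _ : ℝ => (-1 : ℝ)) (Ico (0 : ℝ) 1)
      rw [integrableOn_const_iff]; right; simp), integral_const_mul, Dn_integral]
    simp
    ring
  rw [h2] at h1
  have hn' : (0 : ℝ) < n := by positivity
  calc - δ = (1 / (n : ℝ)) * (- (n * δ)) := by field_simp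
    _ ≤ _ := mul_le_mul_of_nonneg_left h1 (by positivity)

end Pool.Agent.Helper160IEM
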