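import Mathlib
import Pool.Agent.Helper160IEM.F0

set_option autoImplicit false
set_option linter.unusedSimpArgs false

/-!
Module F2: continuity of the averages.
-/

namespace Pool.Agent.Helper160IEM

open Set Filter Topology MeasureTheory

theorem f2_firstCountable : FirstCountableTopology X1 := by
  unfold X1 GIEM
  infer_instance

/-- The letter is locally constant. -/
theorem f2_letter {T₀ : X1} {y : X1 → ℝ} (hy : ContinuousAt y T₀) (h1 : y T₀ ∈ Ico (0 : ℝ) 1)
    (hne : ∀ j, y T₀ ≠ T₀.a j) : ∀ᶠ T in 𝓝 T₀, T.letter (y T) = T₀.letter (y T₀) := by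
  have h2 := letter_mem T₀ h1
  have h3 : T₀.a (T₀.letter (y T₀)).castSucc < y T₀ := lt_of_le_of_ne h2.1 (hne _).symm
  have e1 := ((cont_a (T₀.letter (y T₀)).castSucc).continuousAt (x := T₀)).eventually_lt hy h3
  have e2 := hy.eventually_lt ((cont_a (T₀.letter (y T₀)).succ).continuousAt (x := T₀)) h2.2
  filter_upwards [e1, e2] with T h4 h5
  exact letter_eq T ⟨h4.le, h5⟩

theorem f2_step {T₀ : X1} {y : X1 → ℝ} (hy : ContinuousAt y T₀) (h1 : y T₀ ∈ Ico (0 : ℝ) 1)
    (hne : ∀ j, y T₀ ≠ T₀.a j) : ContinuousAt (fun T : X1 => T.T (y T)) T₀ := by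
  have h2 := f2_letter hy h1 hne
  have h3 : ContinuousAt (fun T : X1 => T.f (T₀.letter (y T₀)) (y T)) T₀ :=
    (cont_f (T₀.letter (y T₀))).continuousAt.comp (continuousAt_id.prodMk hy)
  refine h3.congr ?_
  filter_upwards [h2] with T h4
  unfold GIEM.T
  rw [h4]

theorem f2_step' {T₀ : X1} {y : X1 → ℝ} (hy : ContinuousAt y T₀) (h1 : y T₀ ∈ Ico (0 : ℝ) 1)
    (hne : ∀ j, y T₀ ≠ T₀.a j) : ContinuousAt (fun T : X1 => T.f' (T.letter (y T)) (y T)) T₀ := by
  have h2 := f2_letter hy h1 hne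
  have h3 : ContinuousAt (fun T : X1 => T.f' (T₀.letter (y T₀)) (y T)) T₀ :=
    (cont_f' (T₀.letter (y T₀))).continuousAt.comp (continuousAt_id.prodMk hy)
  refine h3.congr ?_
  filter_upwards [h2] with T h4
  rw [h4]

theorem f2_iter (T₀ : X1) {x : ℝ} (hx : x ∈ Ico (0 : ℝ) 1) (n : ℕ)
    (h : ∀ i < n, ∀ j : Fin 5, T₀.T^[i] x ≠ T₀.a j) (i : ℕ) (hi : i ≤ n) :
    ContinuousAt (fun T : X1 => T.T^[i] x) T₀ := by
  induction i with
  | zero => exact continuousAt_const
  | succ i ih =>
    have h1 := f2_step (ih (by omega)) (T_iter_mem T₀ i hx) (h i (by omega))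
    simp only [Function.iterate_succ_apply']
    exact h1

theorem f2_Dn (T₀ : X1) {x : ℝ} (hx : x ∈ Ico (0 : ℝ) 1) (n : ℕ)
    (h : ∀ i < n, ∀ j : Fin 5, T₀.T^[i] x ≠ T₀.a j) :
    ContinuousAt (fun T : X1 => Dn T n x) T₀ := by
  unfold Dn
  apply tendsto_finsetProd
  intro i hi
  have hi' := Finset.mem_range.1 hi
  exact f2_step' (f2_iter T₀ hx n h i hi'.le) (T_iter_mem T₀ i hx) (h i hi')

/-- Bound of the derivative of the branches. -/
noncomputable def f2K (T : X1) (α : Fin 4) : ℝ :=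
  (T.b (sg α).succ - T.b (sg α).castSucc) / (T.a α.succ - T.a α.castSucc) * ‖T.F α 1‖

theorem f2K_cont (α : Fin 4) : Continuous fun T : X1 => f2K T α := by
  unfold f2K
  refine Continuous.mul ?_ ?_
  · refine Continuous.div ((cont_b _).sub (cont_b _)) ((cont_a _).sub (cont_a _)) (fun T => ?_)
    have : T.a α.castSucc < T.a α.succ := a_mono T Fin.castSucc_lt_succ
    linarith
  · apply Continuous.norm
    exact (continuous_apply (1 : Fin 2)).comp
      ((continuous_apply α).comp ((continuous_snd.comp continuous_snd).comp continuous_subtype_val))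

theorem f2K_le (T : X1) (α : Fin 4) (x : ℝ) : T.f' α x ≤ f2K T α := by
  unfold GIEM.f' f2K
  have h1 : T.a α.castSucc < T.a α.succ := a_mono T Fin.castSucc_lt_succ
  have h2 : T.b (sg α).castSucc < T.b (sg α).succ := b_mono T Fin.castSucc_lt_succ
  apply mul_le_mul_of_nonneg_left
  · refine (le_abs_self _).trans ?_
    rw [← Real.norm_eq_abs]
    exact ContinuousMap.norm_coe_le_norm _ _
  · exact div_nonneg (by linarith) (by linarith)

theorem f2_bound (T₀ : X1) (n : ℕ) : ∃ C : ℝ, 0 ≤ C ∧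
    ∀ᶠ T in 𝓝 T₀, ∀ x, 0 ≤ Dn T n x ∧ Dn T n x ≤ C := by
  set K : ℝ := ∑ α, |f2K T₀ α| + 1 with hK
  have hK0 : 0 ≤ K := by positivity
  refine ⟨K ^ n, by positivity, ?_⟩
  have h1 : ∀ α, ∀ᶠ T in 𝓝 T₀, f2K T α < K := by
    intro α
    apply ((f2K_cont α).continuousAt (x := T₀)).eventually_lt continuousAt_const
    have : |f2K T₀ α| ≤ ∑ α, |f2K T₀ α| :=
      Finset.single_le_sum (f := fun α => |f2K T₀ α|) (fun _ _ => abs_nonneg _)
        (Finset.mem_univ α)
    have := le_abs_self (f2K T₀ α)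
    linarith
  filter_upwards [eventually_all.2 h1] with T hT x
  unfold Dn
  refine ⟨Finset.prod_nonneg fun i _ => (f'_pos T _ _).le, ?_⟩
  calc ∏ i ∈ Finset.range n, T.f' (T.letter (T.T^[i] x)) (T.T^[i] x)
      ≤ ∏ i ∈ Finset.range n, K :=
        Finset.prod_le_prod (fun i _ => (f'_pos T _ _).le)
          (fun i _ => (f2K_le T _ _).trans (hT _).le)
    _ = K ^ n := by simp

theorem f2_measT (T : X1) (i : ℕ) : Measurable (fun x => T.T^[i] x) :=
  (T_measurable T).iterate i

theorem f2_measf' (T : X1) : Measurable (fun x => T.f' (T.letter x) x) := by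
  have h1 : ∀ α, Measurable (T.f' α) := fun α =>
    ((cont_f' α).comp (Continuous.prodMk continuous_const continuous_id)).measurable
  have h2 : Measurable (fun q : Fin 4 × ℝ => T.f' q.1 q.2) :=
    measurable_from_prod_countable_right h1
  exact h2.comp ((letter_measurable T).prodMk measurable_id)

theorem f2_measDn (T : X1) (n : ℕ) : Measurable (Dn T n) := by
  unfold Dn
  apply Finset.measurable_fun_prod
  intro i _
  exact (f2_measf' T).comp (f2_measT T i)

theorem f2_G (n : ℕ) (j : Fin 5) :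
    Continuous fun p : X1 × ℝ => Gn p.1 n p.2 (p.1.a j) := by
  have := f2_firstCountable
  unfold Gn
  apply continuous_const.mul
  rw [continuous_iff_continuousAt]
  rintro ⟨T₀, η₀⟩
  obtain ⟨C, hC0, hC⟩ := f2_bound T₀ n
  set B : ℝ := n * ((|(1 - η₀) / 2| + 1) + (|(1 + η₀) / 2| + 1) * C) with hB
  refine continuousAt_of_dominated (bound := fun _ => B) ?_ ?_ ?_ ?_
  · refine Eventually.of_forall fun p => Measurable.aestronglyMeasurable ?_
    refine Measurable.mul ?_ ?_
    · apply Finset.measurable_fun_sum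
      intro i _
      exact Measurable.ite (measurableSet_lt (f2_measT p.1 i) measurable_const)
        measurable_const measurable_const
    · exact measurable_const.add (measurable_const.mul (f2_measDn p.1 n))
  · have e1 : ∀ᶠ p : X1 × ℝ in 𝓝 (T₀, η₀), ∀ x, 0 ≤ Dn p.1 n x ∧ Dn p.1 n x ≤ C :=
      (continuous_fst.tendsto (T₀, η₀)).eventually hC
    have e2 : ∀ᶠ p : X1 × ℝ in 𝓝 (T₀, η₀), |(1 - p.2) / 2| < |(1 - η₀) / 2| + 1 := by
      have hc : Continuous fun p : X1 × ℝ => |(1 - p.2) / 2| := by fun_prop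
      exact (hc.continuousAt (x := (T₀, η₀))).eventually_lt continuousAt_const (by simp)
    have e3 : ∀ᶠ p : X1 × ℝ in 𝓝 (T₀, η₀), |(1 + p.2) / 2| < |(1 + η₀) / 2| + 1 := by
      have hc : Continuous fun p : X1 × ℝ => |(1 + p.2) / 2| := by fun_prop
      exact (hc.continuousAt (x := (T₀, η₀))).eventually_lt continuousAt_const (by simp)
    filter_upwards [e1, e2, e3] with p h1 h2 h3
    refine Eventually.of_forall fun x => ?_
    rw [norm_mul, hB]
    apply mul_le_mul
    · rw [Real.norm_eq_abs]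
      refine (Finset.abs_sum_le_sum_abs _ _).trans ?_
      calc ∑ i ∈ Finset.range n, |if p.1.T^[i] x < p.1.a j then (1 : ℝ) else 0|
          ≤ ∑ i ∈ Finset.range n, (1 : ℝ) := by
            apply Finset.sum_le_sum
            intro i _
            split_ifs <;> simp
        _ = n := by simp
    · rw [Real.norm_eq_abs]
      refine (abs_add_le _ _).trans ?_
      rw [abs_mul, abs_of_nonneg (h1 x).1]
      have := mul_le_mul h3.le (h1 x).2 (h1 x).1 (by positivity)
      linarith
    · exact norm_nonneg _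
    · exact Nat.cast_nonneg _
  · exact integrable_const _
  · -- pointwise continuity
    set S : Set ℝ := ⋃ i ∈ Finset.range n, ⋃ j : Fin 5, {x ∈ Ico (0 : ℝ) 1 | T₀.T^[i] x = T₀.a j}
      with hS
    have hSfin : S.Finite := by
      apply Set.Finite.biUnion (Finset.finite_toSet _)
      intro i _
      apply Set.finite_iUnion
      intro j
      apply Set.Subsingleton.finite
      rintro x ⟨hx1, hx2⟩ y ⟨hy1, hy2⟩
      have hinj : InjOn (T₀.T^[i]) (Ico (0 : ℝ) 1) := (T_injOn T₀).iterate (fun x hx => T_mem T₀ hx) i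
      exact hinj hx1 hy1 (hx2.trans hy2.symm)
    have hS0 : ∀ᵐ x ∂(volume : Measure ℝ), x ∉ S :=
      measure_eq_zero_iff_ae_notMem.1 (hSfin.measure_zero volume)
    rw [ae_restrict_iff' measurableSet_Ico]
    filter_upwards [hS0] with x hxS hx
    have havoid : ∀ i < n, ∀ j : Fin 5, T₀.T^[i] x ≠ T₀.a j := by
      intro i hi j h
      apply hxS
      rw [hS]
      simp only [mem_iUnion]
      exact ⟨i, Finset.mem_range.2 hi, j, hx, h⟩
    have hfst : Tendsto (Prod.fst : X1 × ℝ → X1) (𝓝 (T₀, η₀)) (𝓝 T₀) :=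
      continuous_fst.tendsto (T₀, η₀)
    apply ContinuousAt.mul
    · apply tendsto_finsetSum
      intro i hi
      have hi' := Finset.mem_range.1 hi
      have h1 := f2_iter T₀ hx n havoid i hi'.le
      have h2 : ∀ᶠ T : X1 in 𝓝 T₀, (T.T^[i] x < T.a j ↔ T₀.T^[i] x < T₀.a j) := by
        rcases lt_or_gt_of_ne (havoid i hi' j) with h | h
        · filter_upwards [h1.eventually_lt ((cont_a j).continuousAt (x := T₀)) h] with T h3
          exact ⟨fun _ => h, fun _ => h3⟩
        · filter_upwards [((cont_a j).continuousAt (x := T₀)).eventually_lt h1 h] with T h3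
          exact ⟨fun h4 => absurd h4 (not_lt.2 h3.le), fun h4 => absurd h4 (not_lt.2 h.le)⟩
      have h3 := hfst.eventually h2
      refine Tendsto.congr' ?_ tendsto_const_nhds
      filter_upwards [h3] with p h4
      simp only [h4]
    · have h1 : ContinuousAt (fun p : X1 × ℝ => Dn p.1 n x) (T₀, η₀) :=
        ContinuousAt.comp (g := fun T : X1 => Dn T n x) (f := Prod.fst) (f2_Dn T₀ hx n havoid) hfst
      have h2 : ContinuousAt (fun p : X1 × ℝ => (1 - p.2) / 2) (T₀, η₀) := by fun_prop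
      have h3 : ContinuousAt (fun p : X1 × ℝ => (1 + p.2) / 2) (T₀, η₀) := by fun_prop
      exact h2.add (h3.mul h1)

theorem F_cont (n : ℕ) (α : Fin 4) :
    Continuous fun p : X1 × ℝ => Lam p.1 (Gn p.1 n p.2) α := by
  unfold Lam
  exact (f2_G n α.succ).sub (f2_G n α.castSucc)

end Pool.Agent.Helper160IEM
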