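import Mathlib
import Pool.Agent.Helper160IEM.A
import Pool.Agent.Helper160IEM.A2

set_option autoImplicit false
set_option linter.unusedSimpArgs false

/-!
Definitions for module G: the frame of the family.
-/

namespace Pool.Agent.Helper160IEM

open Set Filter Topology MeasureTheory

/-- The frame used for the family. -/
structure Frame where
  lam : Fin 4 → ℝ
  v : Fin 4 → ℝ
  w1 : Fin 4 → ℝ
  w2 : Fin 4 → ℝ
  c1 : (Fin 4 → ℝ) →ₗ[ℝ] ℝ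
  c2 : (Fin 4 → ℝ) →ₗ[ℝ] ℝ
  om : (Fin 4 → ℝ) →ₗ[ℝ] ℝ
  tlam : tot lam = 1
  tv : tot v = 0
  tw1 : tot w1 = 0
  tw2 : tot w2 = 0
  hc1 : c1 w1 = 1 ∧ c1 w2 = 0 ∧ c1 v = 0 ∧ c1 lam = 0
  hc2 : c2 w1 = 0 ∧ c2 w2 = 1 ∧ c2 v = 0 ∧ c2 lam = 0
  hom : om w1 = 0 ∧ om w2 = 0 ∧ om v = 1 ∧ om lam = 0
  dec : ∀ z, tot z = 0 → z = c1 z • w1 + c2 z • w2 + om z • v
  keane : ∀ t : ℝ, |t| ≤ 1 → Keane (lam + t • v)
  uniq : ∀ l, Keane l → tot l = 1 → ∃ t : ℝ, l = lam + t • v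

theorem exists_frame : Nonempty Frame := by
  obtain ⟨lam, v, h1, h2, h3, h4, h5⟩ := A_exists_lam
  obtain ⟨w1, w2, c1, c2, om, a1, a2, a3, a4, a5, a6⟩ := A_frame lam v h1 h2 h3
  exact ⟨⟨lam, v, w1, w2, c1, c2, om, h1, h2, a1, a2, a3, a4, a5, a6, h4, h5⟩⟩

/-- Length vector with parameters. -/
def Frame.ell (P : Frame) (x : ℝ × ℝ) : Fin 4 → ℝ := P.lam + x.1 • P.w1 + x.2 • P.w2

/-- The square. -/
def Sq (ρ : ℝ) : Set (ℝ × ℝ) := Icc (-ρ) ρ ×ˢ Icc (-ρ) ρ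

end Pool.Agent.Helper160IEM
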