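import Mathlib
import Pool.Agent.Helper160IEM.G0
import Pool.Agent.Helper160IEM.D1
import Pool.Agent.Helper160IEM.E2
import Pool.Agent.Helper160IEM.E3
import Pool.Agent.Helper160IEM.F1
import Pool.Agent.Helper160IEM.F2

set_option autoImplicit false
set_option linter.unusedSimpArgs false

/-!
Module G1: nonvanishing on the lateral faces.
-/

namespace Pool.Agent.Helper160IEM

open Set Filter Topology MeasureTheory

/-- The vector of increments of the averages. -/
noncomputable def LamV (T : X1) (n : ℕ) (η : ℝ) : Fin 4 → ℝ := fun α => Lam T (Gn T n η) α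

/-- The displacement. -/
def Frame.kap (P : Frame) (x : ℝ × ℝ) : Fin 4 → ℝ := x.1 • P.w1 + x.2 • P.w2

theorem Frame.ell_eq (P : Frame) (x : ℝ × ℝ) : P.ell x = P.lam + P.kap x := by
  simp only [Frame.ell, Frame.kap, add_assoc]

theorem Keane.pos {l : Fin 4 → ℝ} (h : Keane l) (α : Fin 4) : 0 < l α := by
  obtain ⟨s, h0, h1, -⟩ := h
  rw [← h0]; exact h1 0 α

theorem tot_add (z w : Fin 4 → ℝ) : tot (z + w) = tot z + tot w := by
  simp only [tot, Pi.add_apply]; ring

theorem tot_sub (z w : Fin 4 → ℝ) : tot (z - w) = tot z - tot w := by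
  simp only [tot, Pi.sub_apply]; ring

theorem tot_smul (c : ℝ) (z : Fin 4 → ℝ) : tot (c • z) = c * tot z := by
  simp only [tot, Pi.smul_apply, smul_eq_mul]; ring

theorem Frame.tot_kap (P : Frame) (x : ℝ × ℝ) : tot (P.kap x) = 0 := by
  simp only [Frame.kap, tot_add, tot_smul, P.tw1, P.tw2]; ring

theorem Frame.c1_kap (P : Frame) (x : ℝ × ℝ) : P.c1 (P.kap x) = x.1 := by
  simp only [Frame.kap, map_add, map_smul, P.hc1.1, P.hc1.2.1, smul_eq_mul]; ring

theorem Frame.c2_kap (P : Frame) (x : ℝ × ℝ) : P.c2 (P.kap x) = x.2 := by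
  simp only [Frame.kap, map_add, map_smul, P.hc2.1, P.hc2.2.1, smul_eq_mul]; ring

theorem Frame.om_kap (P : Frame) (x : ℝ × ℝ) : P.om (P.kap x) = 0 := by
  simp only [Frame.kap, map_add, map_smul, P.hom.1, P.hom.2.1, smul_eq_mul]; ring

theorem Frame.continuous_kap (P : Frame) : Continuous P.kap := by
  unfold Frame.kap; fun_prop

theorem Frame.continuous_ell (P : Frame) : Continuous P.ell := by
  unfold Frame.ell; fun_prop

theorem Frame.keane' (P : Frame) {η : ℝ} (h : |η| ≤ 1) : Keane (P.lam + (-η) • P.v) :=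
  P.keane (-η) (by rwa [abs_neg])

theorem Frame.isLen' (P : Frame) {η : ℝ} (h : |η| ≤ 1) : IsLen (P.lam + (-η) • P.v) :=
  ⟨(P.keane' h).pos, by rw [tot_add, tot_smul, P.tlam, P.tv]; ring⟩

theorem Frame.keane_lam (P : Frame) : Keane P.lam := by
  have := P.keane 0 (by simp)
  simpa using this

theorem Frame.isLen_lam (P : Frame) : IsLen P.lam := ⟨P.keane_lam.pos, P.tlam⟩

theorem tot_LamV (T : X1) (n : ℕ) (hn : 1 ≤ n) (η : ℝ) (hη : |η| ≤ 1) :
    tot (LamV T n η) = 1 := by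
  have h0 := F_zero T n hn η hη
  have h1 := F_one T n hn η hη
  have e0 : T.a ((0 : Fin 4).castSucc) = 0 := a_zero T
  have e1 : T.a ((3 : Fin 4).succ) = 1 := a_four T
  have c0 : ((0 : Fin 4).succ) = ((1 : Fin 4).castSucc) := rfl
  have c1 : ((1 : Fin 4).succ) = ((2 : Fin 4).castSucc) := rfl
  have c2 : ((2 : Fin 4).succ) = ((3 : Fin 4).castSucc) := rfl
  simp only [tot, LamV, Lam]
  rw [c0, c1, c2, e0, e1, h0, h1]; ring

theorem LamV_nonneg (T : X1) (n : ℕ) (hn : 1 ≤ n) (η : ℝ) (hη : |η| ≤ 1) (α : Fin 4) :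
    0 ≤ LamV T n η α := by
  have := F_mono T n hn η hη ((a_mono T) (Fin.castSucc_lt_succ (i := α))).le
  simp only [LamV, Lam]; linarith

/-- the data of a bad configuration: the deformed equation holds -/
def BadSet (P : Frame) : Set ((((ℝ × ℝ) × X1) × ℝ × ℝ) × ℕ) :=
  {q | |q.1.2.1| ≤ 1 ∧ q.1.2.2 ∈ Icc (0 : ℝ) 1 ∧ 1 ≤ q.2 ∧
    (1 - q.1.2.2) • (LamV q.1.1.2 q.2 q.1.2.1 - P.lam) + q.1.2.2 • P.kap q.1.1.1 +
      q.1.2.1 • P.v = 0}

/-- uniform closeness of the branches to translations, near a standard map -/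
theorem near_std (l : Fin 4 → ℝ) (h : IsLen l) (e : ℝ) (he : 0 < e) :
    ∀ᶠ T : X1 in 𝓝 (std l h), ∀ α, ∀ x ∈ Icc (T.a α.castSucc) (T.a α.succ),
      |(T.f α x - T.b (sg α).castSucc) - (x - T.a α.castSucc)| ≤ e := by
  rw [Filter.eventually_all]
  intro α
  have key : ∀ᶠ T : X1 in 𝓝 (std l h), ∀ x ∈ Icc (0 : ℝ) 1,
      |(T.f α x - T.b (sg α).castSucc) - (x - T.a α.castSucc)| < e := by
    refine isCompact_Icc.eventually_forall_of_forall_eventually ?_
    intro x _
    have hc : Continuous fun z : X1 × ℝ =>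
        |(z.1.f α z.2 - z.1.b (sg α).castSucc) - (z.2 - z.1.a α.castSucc)| :=
      (((cont_f α).sub ((cont_b _).comp continuous_fst)).sub
        (continuous_snd.sub ((cont_a _).comp continuous_fst))).abs
    have h0 : |((std l h).f α x - (std l h).b (sg α).castSucc) -
        (x - (std l h).a α.castSucc)| < e := by
      unfold std
      rw [std_f, aff_b, aff_a, ptsB_castSucc, pts_castSucc]
      have : x + dl l α - (sS l α + dl l α) - (x - sS l α) = 0 := by ring
      rw [this]; simpa using he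
    exact hc.continuousAt.eventually_lt continuousAt_const h0
  filter_upwards [key] with T hT x hx
  have h0 : T.a 0 ≤ T.a α.castSucc := (a_mono T).monotone (Fin.zero_le _)
  have h1 : T.a α.succ ≤ T.a 4 := (a_mono T).monotone (Fin.le_last _)
  rw [a_zero] at h0
  rw [a_four] at h1
  exact (hT x ⟨by linarith [hx.1], by linarith [hx.2]⟩).le

theorem local_good (P : Frame) (x₀ : ℝ × ℝ) (hx₀ : x₀ ≠ 0) (hlen : IsLen (P.ell x₀)) (η₀ s₀ : ℝ)
    (hη₀ : |η₀| ≤ 1) (hs₀ : s₀ ∈ Icc (0 : ℝ) 1) :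
    ∀ᶠ q in 𝓝 ((((x₀, std (P.ell x₀) hlen), η₀, s₀) : ((ℝ × ℝ) × X1) × ℝ × ℝ)) ×ˢ
      (atTop : Filter ℕ), q ∉ BadSet P := by
  by_contra hcon
  rw [Filter.not_eventually] at hcon
  simp only [not_not] at hcon
  set F : Filter ((((ℝ × ℝ) × X1) × ℝ × ℝ) × ℕ) :=
    (𝓝 ((((x₀, std (P.ell x₀) hlen), η₀, s₀) : ((ℝ × ℝ) × X1) × ℝ × ℝ)) ×ˢ
      (atTop : Filter ℕ)) ⊓ 𝓟 (BadSet P) with hF
  have : NeBot F := by
    rw [hF, ← Filter.frequently_mem_iff_neBot]
    exact hcon
  have hF1 : F ≤ 𝓝 ((((x₀, std (P.ell x₀) hlen), η₀, s₀) : ((ℝ × ℝ) × X1) × ℝ × ℝ)) ×ˢ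
      (atTop : Filter ℕ) := inf_le_left
  have hFB : ∀ᶠ q in F, q ∈ BadSet P := by
    rw [hF]; exact Filter.Eventually.filter_mono inf_le_right (Filter.mem_principal_self _)
  have t1 : Tendsto (fun q : (((ℝ × ℝ) × X1) × ℝ × ℝ) × ℕ => q.1) F
      (𝓝 ((((x₀, std (P.ell x₀) hlen), η₀, s₀) : ((ℝ × ℝ) × X1) × ℝ × ℝ))) :=
    tendsto_fst.mono_left hF1
  have t2 : Tendsto (fun q : (((ℝ × ℝ) × X1) × ℝ × ℝ) × ℕ => q.2) F atTop :=
    tendsto_snd.mono_left hF1
  have tx : Tendsto (fun q : (((ℝ × ℝ) × X1) × ℝ × ℝ) × ℕ => q.1.1.1) F (𝓝 x₀) :=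
    (continuous_fst.comp continuous_fst).continuousAt.tendsto.comp t1
  have tT : Tendsto (fun q : (((ℝ × ℝ) × X1) × ℝ × ℝ) × ℕ => q.1.1.2) F
      (𝓝 (std (P.ell x₀) hlen)) :=
    (continuous_snd.comp continuous_fst).continuousAt.tendsto.comp t1
  have te : Tendsto (fun q : (((ℝ × ℝ) × X1) × ℝ × ℝ) × ℕ => q.1.2.1) F (𝓝 η₀) :=
    (continuous_fst.comp continuous_snd).continuousAt.tendsto.comp t1
  have ts : Tendsto (fun q : (((ℝ × ℝ) × X1) × ℝ × ℝ) × ℕ => q.1.2.2) F (𝓝 s₀) :=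
    (continuous_snd.comp continuous_snd).continuousAt.tendsto.comp t1
  let G : ((((ℝ × ℝ) × X1) × ℝ × ℝ) × ℕ) → ℝ → ℝ :=
    fun q y => (1 - q.1.2.2) * Gn q.1.1.2 q.2 q.1.2.1 y + q.1.2.2 * y
  have hSC : SC (std (P.ell x₀) hlen) (P.lam + (-η₀) • P.v) := by
    refine D_LL F (fun q => q.1.1.2) _ tT G ?_ ?_ ?_ ?_ _ (P.keane' hη₀) (P.isLen' hη₀).2 ?_
    · filter_upwards [hFB] with q hq
      obtain ⟨h1, h2, h3, -⟩ := hq
      intro y _ y' _ hyy
      have m1 := F_mono q.1.1.2 q.2 h3 q.1.2.1 h1 hyy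
      simp only [G]
      have r1 := mul_le_mul_of_nonneg_left m1 (show 0 ≤ 1 - q.1.2.2 by linarith [h2.2])
      have r2 := mul_le_mul_of_nonneg_left hyy h2.1
      linarith
    · filter_upwards [hFB] with q hq
      obtain ⟨h1, h2, h3, -⟩ := hq
      simp only [G, F_zero q.1.1.2 q.2 h3 q.1.2.1 h1]; ring
    · filter_upwards [hFB] with q hq
      obtain ⟨h1, h2, h3, -⟩ := hq
      simp only [G, F_one q.1.1.2 q.2 h3 q.1.2.1 h1]; ring
    · intro e he
      have hn : ∀ᶠ q in F, (1 : ℝ) / (q.2 : ℝ) ≤ e / 2 := by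
        have : Tendsto (fun n : ℕ => (1 : ℝ) / (n : ℝ)) atTop (𝓝 0) :=
          tendsto_one_div_atTop_nhds_zero_nat
        exact t2.eventually (this.eventually (eventually_le_nhds (by linarith)))
      filter_upwards [hFB, hn, tT.eventually (near_std _ hlen (e / 2) (by linarith))]
        with q hq hqn hqs
      obtain ⟨h1, h2, h3, -⟩ := hq
      intro α x hx
      have d1 := F_defect q.1.1.2 q.2 h3 q.1.2.1 h1 α x hx
      have d2 := hqs α x hx
      have e1 : (G q (q.1.1.2.f α x) - G q (q.1.1.2.b (sg α).castSucc)) -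
          (G q x - G q (q.1.1.2.a α.castSucc)) =
          (1 - q.1.2.2) * ((Gn q.1.1.2 q.2 q.1.2.1 (q.1.1.2.f α x) -
            Gn q.1.1.2 q.2 q.1.2.1 (q.1.1.2.b (sg α).castSucc)) -
            (Gn q.1.1.2 q.2 q.1.2.1 x - Gn q.1.1.2 q.2 q.1.2.1 (q.1.1.2.a α.castSucc))) +
          q.1.2.2 * ((q.1.1.2.f α x - q.1.1.2.b (sg α).castSucc) -
            (x - q.1.1.2.a α.castSucc)) := by
        simp only [G]; ring
      rw [e1]
      have hs1 : 0 ≤ 1 - q.1.2.2 := by linarith [h2.2]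
      have hs0 := h2.1
      calc _ ≤ (1 - q.1.2.2) * (1 / (q.2 : ℝ)) + q.1.2.2 * (e / 2) := by
            refine (abs_add_le _ _).trans (add_le_add ?_ ?_)
            · rw [abs_mul, abs_of_nonneg hs1]
              exact mul_le_mul_of_nonneg_left d1 hs1
            · rw [abs_mul, abs_of_nonneg hs0]
              exact mul_le_mul_of_nonneg_left d2 hs0
        _ ≤ 1 * (e / 2) + 1 * (e / 2) := by
            refine add_le_add ?_ ?_
            · exact mul_le_mul (by linarith) hqn (by positivity) (by norm_num)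
            · exact mul_le_mul_of_nonneg_right h2.2 (by linarith)
        _ = e := by ring
    · intro α
      -- the increments on the bad set
      have hev : ∀ᶠ q in F, (1 - q.1.2.2) * P.lam α - q.1.2.2 * P.kap q.1.1.1 α -
          q.1.2.1 * P.v α + q.1.2.2 * (q.1.1.2.a α.succ - q.1.1.2.a α.castSucc) =
          Lam q.1.1.2 (G q) α := by
        filter_upwards [hFB] with q hq
        obtain ⟨h1, h2, h3, h4⟩ := hq
        have h5 := congrFun h4 α
        simp only [Pi.add_apply, Pi.smul_apply, Pi.sub_apply, smul_eq_mul, Pi.zero_apply,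
          LamV, Lam] at h5
        simp only [Lam, G]
        linarith
      refine Tendsto.congr' hev ?_
      have ta : Tendsto (fun q : (((ℝ × ℝ) × X1) × ℝ × ℝ) × ℕ =>
          q.1.1.2.a α.succ - q.1.1.2.a α.castSucc) F (𝓝 (P.ell x₀ α)) := by
        have h1 := ((cont_a α.succ).continuousAt (x := std (P.ell x₀) hlen)).tendsto.comp tT
        have h2 := ((cont_a α.castSucc).continuousAt (x := std (P.ell x₀) hlen)).tendsto.comp tT
        have h3 := h1.sub h2
        have e : (std (P.ell x₀) hlen).a α.succ - (std (P.ell x₀) hlen).a α.castSucc =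
            P.ell x₀ α := by
          unfold std
          rw [aff_a, aff_a, pts_succ, pts_castSucc]; ring
        rw [e] at h3
        exact h3
      have tk : Tendsto (fun q : (((ℝ × ℝ) × X1) × ℝ × ℝ) × ℕ => P.kap q.1.1.1 α) F
          (𝓝 (P.kap x₀ α)) :=
        (((continuous_apply α).comp P.continuous_kap).continuousAt (x := x₀)).tendsto.comp tx
      have := ((((tendsto_const_nhds (x := (1 : ℝ)) (f := F)).sub ts).mul
        (tendsto_const_nhds (x := P.lam α))).sub (ts.mul tk)).sub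
        (te.mul (tendsto_const_nhds (x := P.v α)))
      have := this.add (ts.mul ta)
      have e : (1 - s₀) * P.lam α - s₀ * P.kap x₀ α - η₀ * P.v α + s₀ * P.ell x₀ α =
          (P.lam + (-η₀) • P.v) α := by
        rw [P.ell_eq]
        simp only [Pi.add_apply, Pi.smul_apply, smul_eq_mul]; ring
      rw [e] at this
      exact this
  have hK := E_N3 _ _ hlen (P.keane' hη₀) (P.isLen' hη₀) hSC
  obtain ⟨t, ht⟩ := P.uniq _ hK hlen.2
  rw [P.ell_eq] at ht
  have hk : P.kap x₀ = t • P.v := add_left_cancel ht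
  apply hx₀
  have k1 := P.c1_kap x₀
  have k2 := P.c2_kap x₀
  rw [hk, map_smul, P.hc1.2.2.1, smul_zero] at k1
  rw [hk, map_smul, P.hc2.2.2.1, smul_zero] at k2
  exact Prod.ext k1.symm k2.symm

end Pool.Agent.Helper160IEM
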