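import Mathlib
import Pool.Agent.Helper160IEM.G1

set_option autoImplicit false
set_option linter.unusedSimpArgs false

/-!
Module G2: signs on the faces `η = 1` and `η = -1`.
-/

namespace Pool.Agent.Helper160IEM

open Set Filter Topology MeasureTheory

theorem om_eq (om : (Fin 4 → ℝ) →ₗ[ℝ] ℝ) (z : Fin 4 → ℝ) :
    om z = ∑ α, om (Pi.single α 1) * z α := by
  conv_lhs => rw [← Finset.univ_sum_single z]
  rw [map_sum]
  refine Finset.sum_congr rfl fun α _ => ?_
  have : (Pi.single α (z α) : Fin 4 → ℝ) = z α • Pi.single α 1 := by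
    rw [← Pi.single_smul, smul_eq_mul, mul_one]
  rw [this, map_smul, smul_eq_mul, mul_comm]

/-- size of the functional -/
noncomputable def Frame.M (P : Frame) : ℝ := ∑ α, P.om (Pi.single α 1) ^ 2

theorem Frame.M_nonneg (P : Frame) : 0 ≤ P.M := Finset.sum_nonneg fun _ _ => sq_nonneg _

theorem Frame.sq_le_M (P : Frame) (α : Fin 4) : P.om (Pi.single α 1) ^ 2 ≤ P.M :=
  Finset.single_le_sum (f := fun α => P.om (Pi.single α 1) ^ 2) (fun _ _ => sq_nonneg _)
    (Finset.mem_univ α)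

theorem small_om (P : Frame) {ε : ℝ} (h0 : 0 < ε) (h1 : ε < 1 / (4 * (P.M + 1))) (α : Fin 4) :
    |ε * P.om (Pi.single α 1)| ≤ 1 / 4 := by
  have hM := P.M_nonneg
  have h2 := P.sq_le_M α
  have h3 : |P.om (Pi.single α 1)| ≤ 1 + P.M := by
    rcases le_or_gt |P.om (Pi.single α 1)| 1 with h | h
    · linarith
    · have : |P.om (Pi.single α 1)| ≤ |P.om (Pi.single α 1)| ^ 2 := by nlinarith
      rw [sq_abs] at this
      linarith
  rw [abs_mul, abs_of_pos h0]
  rw [lt_div_iff₀ (by positivity)] at h1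
  calc ε * |P.om (Pi.single α 1)| ≤ ε * (1 + P.M) := mul_le_mul_of_nonneg_left h3 h0.le
    _ ≤ 1 / 4 := by linarith

theorem LamV_sum (T : X1) (n : ℕ) (hn : 1 ≤ n) (η : ℝ) (hη : |η| ≤ 1) :
    ∑ α, LamV T n η α = 1 := by
  rw [← tot_LamV T n hn η hη, Fin.sum_univ_four]; rfl

theorem sign_right (P : Frame) {ε : ℝ} (h0 : 0 < ε) (h1 : ε < 1 / (4 * (P.M + 1))) (T : X1)
    (n : ℕ) (hn : 1 ≤ n)
    (hc : ∀ α, ∀ x ∈ Icc (T.a α.castSucc) (T.a α.succ),
      |Real.log (T.f' α x) - Real.log (1 + ε * P.om (Pi.single α 1))| ≤ ε / 4) :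
    - (1 / 4) ≤ P.om (LamV T n 1) := by
  have h := F_sign_right T n hn (fun α => Real.log (1 + ε * P.om (Pi.single α 1))) (ε / 4) hc
  have h2 : ∑ α, Real.log (1 + ε * P.om (Pi.single α 1)) * Lam T (Gn T n 1) α ≤
      ε * P.om (LamV T n 1) := by
    rw [om_eq, Finset.mul_sum]
    refine Finset.sum_le_sum fun α _ => ?_
    have hs := small_om P h0 h1 α
    rw [abs_le] at hs
    have hl := Real.log_le_sub_one_of_pos (show 0 < 1 + ε * P.om (Pi.single α 1) by linarith)
    have hn0 := LamV_nonneg T n hn 1 (by simp) α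
    have := mul_le_mul_of_nonneg_right hl hn0
    simp only [LamV] at this ⊢
    linarith
  have h3 : - (ε / 4) ≤ ε * P.om (LamV T n 1) := h.trans h2
  by_contra hcon
  push Not at hcon
  have := mul_lt_mul_of_pos_left hcon h0
  linarith

theorem log_lower {t : ℝ} (ht : |t| ≤ 1 / 4) : t - 2 * t ^ 2 ≤ Real.log (1 + t) := by
  rw [abs_le] at ht
  have hp : 0 < 1 + t := by linarith
  have h := Real.one_sub_inv_le_log_of_pos hp
  refine le_trans ?_ h
  have e : 1 - (1 + t)⁻¹ - (t - 2 * t ^ 2) = t ^ 2 * (1 + 2 * t) / (1 + t) := by field_simp; ring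
  have : 0 ≤ t ^ 2 * (1 + 2 * t) / (1 + t) :=
    div_nonneg (mul_nonneg (sq_nonneg t) (by linarith)) hp.le
  linarith

theorem sign_left (P : Frame) {ε : ℝ} (h0 : 0 < ε) (h1 : ε < 1 / (4 * (P.M + 1))) (T : X1)
    (n : ℕ) (hn : 1 ≤ n)
    (hc : ∀ α, ∀ x ∈ Icc (T.a α.castSucc) (T.a α.succ),
      |Real.log (T.f' α x) - Real.log (1 + ε * P.om (Pi.single α 1))| ≤ ε / 4) :
    P.om (LamV T n (-1)) ≤ 3 / 4 := by
  have h := F_sign_left T n hn (fun α => Real.log (1 + ε * P.om (Pi.single α 1))) (ε / 4) hc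
  have h2 : ε * P.om (LamV T n (-1)) - 2 * (ε ^ 2 * P.M) ≤
      ∑ α, Real.log (1 + ε * P.om (Pi.single α 1)) * Lam T (Gn T n (-1)) α := by
    have h3 : ε * P.om (LamV T n (-1)) - ∑ α, 2 * (ε ^ 2 * P.M) * LamV T n (-1) α ≤
      ∑ α, Real.log (1 + ε * P.om (Pi.single α 1)) * Lam T (Gn T n (-1)) α := by
      rw [om_eq, Finset.mul_sum, ← Finset.sum_sub_distrib]
      refine Finset.sum_le_sum fun α _ => ?_
      have hs := small_om P h0 h1 α
      have hl := log_lower hs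
      have hn0 := LamV_nonneg T n hn (-1) (by simp) α
      have hM := mul_le_mul_of_nonneg_left (P.sq_le_M α) (sq_nonneg ε)
      have := mul_le_mul_of_nonneg_right (show ε * P.om (Pi.single α 1) - 2 * (ε ^ 2 * P.M) ≤
        Real.log (1 + ε * P.om (Pi.single α 1)) by nlinarith [sq_nonneg (ε * P.om (Pi.single α 1))]) hn0
      simp only [LamV] at this ⊢
      linarith
    rwa [← Finset.mul_sum, LamV_sum T n hn (-1) (by simp), mul_one] at h3
  have hM := P.M_nonneg
  rw [lt_div_iff₀ (by positivity)] at h1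
  have h4 : ε * P.om (LamV T n (-1)) ≤ ε / 4 + 2 * (ε ^ 2 * P.M) := by linarith
  by_contra hcon
  push Not at hcon
  have h5 := mul_lt_mul_of_pos_left hcon h0
  have h6 : ε * (ε * (4 * (P.M + 1))) < ε * 1 := mul_lt_mul_of_pos_left h1 h0
  nlinarith

end Pool.Agent.Helper160IEM
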