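import Mathlib
import Pool.Agent.Helper160IEM.G2
import Pool.Agent.H63Fed.Miranda

set_option autoImplicit false
set_option linter.unusedSimpArgs false

/-!
Module G: stable intersection.
-/

namespace Pool.Agent.Helper160IEM

open Set Filter Topology MeasureTheory

/-- Clamping to `[-ρ, ρ]`. -/
noncomputable def cl (ρ y : ℝ) : ℝ := max (-ρ) (min ρ y)

theorem cl_mem {ρ : ℝ} (hρ : 0 < ρ) (y : ℝ) : cl ρ y ∈ Icc (-ρ) ρ :=
  ⟨le_max_left _ _, max_le (by linarith) (min_le_left _ _)⟩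

theorem cl_of_mem {ρ y : ℝ} (h : y ∈ Icc (-ρ) ρ) : cl ρ y = y := by
  unfold cl; rw [min_eq_right h.2, max_eq_right h.1]

theorem cl_of_ge {ρ y : ℝ} (hρ : 0 < ρ) (h : ρ ≤ y) : cl ρ y = ρ := by
  unfold cl; rw [min_eq_left h, max_eq_right (by linarith)]

theorem cl_of_le {ρ y : ℝ} (h : y ≤ -ρ) : cl ρ y = -ρ := by
  unfold cl
  exact max_eq_left ((min_le_right _ _).trans h)

theorem continuous_cl (ρ : ℝ) : Continuous (cl ρ) := by
  unfold cl; fun_prop

/-- Retraction to the square. -/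
noncomputable def clp (ρ : ℝ) (x : ℝ × ℝ) : ℝ × ℝ := (cl ρ x.1, cl ρ x.2)

theorem clp_mem {ρ : ℝ} (hρ : 0 < ρ) (x : ℝ × ℝ) : clp ρ x ∈ Sq ρ :=
  ⟨cl_mem hρ x.1, cl_mem hρ x.2⟩

theorem clp_of_mem {ρ : ℝ} {x : ℝ × ℝ} (h : x ∈ Sq ρ) : clp ρ x = x :=
  Prod.ext (cl_of_mem h.1) (cl_of_mem h.2)

theorem continuous_clp (ρ : ℝ) : Continuous (clp ρ) :=
  ((continuous_cl ρ).comp continuous_fst).prodMk ((continuous_cl ρ).comp continuous_snd)

/-- The sides of the square. -/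
def Bd (ρ : ℝ) : Set (ℝ × ℝ) := {x | x ∈ Sq ρ ∧ (|x.1| = ρ ∨ |x.2| = ρ)}

theorem isClosed_Sq (ρ : ℝ) : IsClosed (Sq ρ) := isClosed_Icc.prod isClosed_Icc

theorem isCompact_Sq (ρ : ℝ) : IsCompact (Sq ρ) := isCompact_Icc.prod isCompact_Icc

theorem isClosed_Bd (ρ : ℝ) : IsClosed (Bd ρ) := by
  refine (isClosed_Sq ρ).inter (IsClosed.union ?_ ?_)
  · exact isClosed_eq (by fun_prop) continuous_const
  · exact isClosed_eq (by fun_prop) continuous_const

theorem isCompact_Bd (ρ : ℝ) : IsCompact (Bd ρ) :=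
  (isCompact_Sq ρ).of_isClosed_subset (isClosed_Bd ρ) fun _ h => h.1

theorem exists_W (P : Frame) (ρ : ℝ) (hρ : 0 < ρ) (hlen : ∀ x ∈ Sq ρ, IsLen (P.ell x)) :
    ∃ (W : Set ((ℝ × ℝ) × X1)) (N : ℕ), IsOpen W ∧
      (∀ (x : ℝ × ℝ) (hx : x ∈ Sq ρ), (x, std (P.ell x) (hlen x hx)) ∈ W) ∧
      ∀ x T, (x, T) ∈ W → x ∈ Bd ρ → ∀ η ∈ Icc (-1 : ℝ) 1, ∀ s ∈ Icc (0 : ℝ) 1, ∀ n, N ≤ n →
        (((x, T), η, s), n) ∉ BadSet P := by
  let T0 : ℝ × ℝ → X1 := fun x => std (P.ell (clp ρ x)) (hlen _ (clp_mem hρ x))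
  have hT0 : Continuous T0 := by
    refine cont_aff (r := 1) (fun x => P.ell (clp ρ x)) (fun x => P.ell (clp ρ x))
      (fun x => hlen _ (clp_mem hρ x)) (fun x => hlen _ (clp_mem hρ x)) ?_ ?_ <;>
    exact P.continuous_ell.comp (continuous_clp ρ)
  have hT0eq : ∀ (x : ℝ × ℝ) (hx : x ∈ Sq ρ), T0 x = std (P.ell x) (hlen x hx) := by
    intro x hx
    have e := clp_of_mem hx
    simp only [T0]
    congr 1
    rw [e]
  let j : (ℝ × ℝ) × ℝ × ℝ → ((ℝ × ℝ) × X1) × ℝ × ℝ := fun z => ((z.1, T0 z.1), z.2)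
  have hj : Continuous j := by fun_prop
  set C : Set (((ℝ × ℝ) × X1) × ℝ × ℝ) := j '' (Bd ρ ×ˢ (Icc (-1 : ℝ) 1 ×ˢ Icc (0 : ℝ) 1)) with hC
  have hCc : IsCompact C :=
    ((isCompact_Bd ρ).prod (isCompact_Icc.prod isCompact_Icc)).image hj
  have hev : ∀ᶠ q in 𝓝ˢ C ×ˢ (atTop : Filter ℕ), q ∉ BadSet P := by
    rw [hCc.nhdsSet_prod_eq_biSup]
    simp only [Filter.eventually_iSup]
    rintro _ ⟨⟨x, η, s⟩, ⟨hx, hη, hs⟩, rfl⟩
    have hx0 : x ≠ 0 := by
      rintro rfl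
      rcases hx.2 with h | h <;> simp at h <;> linarith
    have := local_good P x hx0 (hlen x hx.1) η s (abs_le.2 hη) hs
    simp only [j]
    rw [hT0eq x hx.1]
    exact this
  rw [Filter.eventually_prod_iff] at hev
  obtain ⟨pa, hpa, pb, hpb, hab⟩ := hev
  rw [eventually_nhdsSet_iff_exists] at hpa
  obtain ⟨V, hVo, hCV, hV⟩ := hpa
  obtain ⟨N, hN⟩ := Filter.eventually_atTop.1 hpb
  refine ⟨interior {p | p.1 ∈ Bd ρ → ∀ y ∈ Icc (-1 : ℝ) 1 ×ˢ Icc (0 : ℝ) 1, (p, y) ∈ V}, N,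
    isOpen_interior, ?_, ?_⟩
  · intro x hx
    rw [mem_interior_iff_mem_nhds, ← hT0eq x hx]
    by_cases hb : x ∈ Bd ρ
    · have : ∀ᶠ p in 𝓝 (x, T0 x), ∀ y ∈ Icc (-1 : ℝ) 1 ×ˢ Icc (0 : ℝ) 1, (p, y) ∈ V := by
        refine (isCompact_Icc.prod isCompact_Icc).eventually_forall_of_forall_eventually ?_
        intro y hy
        exact hVo.mem_nhds (hCV ⟨(x, y), ⟨hb, hy⟩, rfl⟩)
      filter_upwards [this] with p hp _ using hp
    · have : ∀ᶠ p : (ℝ × ℝ) × X1 in 𝓝 (x, T0 x), p.1 ∉ Bd ρ := by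
        exact (continuous_fst.continuousAt (x := (x, T0 x))).eventually
          ((isClosed_Bd ρ).isOpen_compl.mem_nhds hb)
      filter_upwards [this] with p hp h using absurd h hp
  · intro x T hW hx η hη s hs n hn
    have h1 := interior_subset hW
    have h2 := h1 hx (η, s) ⟨hη, hs⟩
    exact hab (hV _ h2) (hN n hn)

theorem cont_LamV (n : ℕ) : Continuous fun p : X1 × ℝ => LamV p.1 n p.2 :=
  continuous_pi fun α => F_cont n α

theorem cont_LamV_comp {Y : Type*} [TopologicalSpace Y] (n : ℕ) (A : Y → X1) (b : Y → ℝ)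
    (hA : Continuous A) (hb : Continuous b) : Continuous fun u => LamV (A u) n (b u) := by
  have h := (cont_LamV n).comp (hA.prodMk hb)
  exact h

theorem cont_Ps (P : Frame) {Y : Type*} [TopologicalSpace Y] (n : ℕ) (A : Y → X1) (b t : Y → ℝ)
    (x : Y → ℝ × ℝ) (hA : Continuous A) (hb : Continuous b) (ht : Continuous t)
    (hx : Continuous x) :
    Continuous fun u => (1 - t u) • (LamV (A u) n (b u) - P.lam) + t u • P.kap (x u) +
      b u • P.v := by
  have h1 := cont_LamV_comp n A b hA hb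
  have h2 : Continuous fun u => P.kap (x u) := P.continuous_kap.comp hx
  exact (((continuous_const.sub ht).smul (h1.sub continuous_const)).add (ht.smul h2)).add
      (hb.smul continuous_const)

theorem exists_zero (P : Frame) (ρ : ℝ) (hρ : 0 < ρ) (n : ℕ) (hn : 1 ≤ n)
    (F : ℝ × ℝ → X1) (hF : Continuous F)
    (hbd : ∀ x ∈ Bd ρ, ∀ η ∈ Icc (-1 : ℝ) 1, ∀ s ∈ Icc (0 : ℝ) 1,
      (((x, F x), η, s), n) ∉ BadSet P)
    (hl : ∀ x ∈ Sq ρ, P.om (LamV (F x) n (-1)) ≤ 3 / 4)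
    (hr : ∀ x ∈ Sq ρ, - (1 / 4) ≤ P.om (LamV (F x) n 1)) :
    ∃ x ∈ Sq ρ, ∃ η ∈ Icc (-1 : ℝ) 1, LamV (F x) n η = P.lam + (-η) • P.v := by
  -- coordinates on the unit cube
  let y : (Fin 3 → ℝ) → ℝ × ℝ := fun u => (ρ * (4 * u 0 - 2), ρ * (4 * u 1 - 2))
  let et : (Fin 3 → ℝ) → ℝ := fun u => 2 * u 2 - 1
  let t : (Fin 3 → ℝ) → ℝ := fun u => max 0 (max |4 * u 0 - 2| |4 * u 1 - 2| - 1)
  let Ps : (Fin 3 → ℝ) → (Fin 4 → ℝ) := fun u =>
    (1 - t u) • (LamV (F (clp ρ (y u))) n (et u) - P.lam) + t u • P.kap (clp ρ (y u)) + et u • P.v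
  let Fm : (Fin 3 → ℝ) → (Fin 3 → ℝ) := fun u => ![P.c1 (Ps u), P.c2 (Ps u), P.om (Ps u)]
  have hy : Continuous y := by fun_prop
  have het : Continuous et := by fun_prop
  have ht : Continuous t := by fun_prop
  have hPs : Continuous Ps := by
    exact cont_Ps P n (fun u => F (clp ρ (y u))) et t (fun u => clp ρ (y u))
      (hF.comp ((continuous_clp ρ).comp hy)) het ht ((continuous_clp ρ).comp hy)
  have hc : ∀ c : (Fin 4 → ℝ) →ₗ[ℝ] ℝ, Continuous c := fun c => c.continuous_of_finiteDimensional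
  have hFm : Continuous Fm := by
    refine continuous_pi fun i => ?_
    fin_cases i
    · exact (hc P.c1).comp hPs
    · exact (hc P.c2).comp hPs
    · exact (hc P.om).comp hPs
  have hFm0 : ∀ u, Fm u 0 = P.c1 (Ps u) := fun u => rfl
  have hFm1 : ∀ u, Fm u 1 = P.c2 (Ps u) := fun u => rfl
  have hFm2 : ∀ u, Fm u 2 = P.om (Ps u) := fun u => rfl
  have hi3 : ∀ i : Fin 3, i = 0 ∨ i = 1 ∨ i = 2 := by decide
  have hPse : ∀ u, Ps u = (1 - t u) • (LamV (F (clp ρ (y u))) n (et u) - P.lam) +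
    t u • P.kap (clp ρ (y u)) + et u • P.v := fun u => rfl
  have hete : ∀ u, et u = 2 * u 2 - 1 := fun u => rfl
  have hte : ∀ u, t u = max 0 (max |4 * u 0 - 2| |4 * u 1 - 2| - 1) := fun u => rfl
  have hye : ∀ u, y u = (ρ * (4 * u 0 - 2), ρ * (4 * u 1 - 2)) := fun u => rfl
  clear_value Fm Ps t et y
  have ht1 : ∀ u : Fin 3 → ℝ, (∀ i, 0 ≤ u i ∧ u i ≤ 1) → t u ∈ Icc (0 : ℝ) 1 := by
    intro u hu
    rw [hte]
    refine ⟨le_max_left _ _, max_le (by norm_num) ?_⟩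
    have h0 := hu 0; have h1 := hu 1
    have a0 : |4 * u 0 - 2| ≤ 2 := by rw [abs_le]; constructor <;> linarith
    have a1 : |4 * u 1 - 2| ≤ 2 := by rw [abs_le]; constructor <;> linarith
    have := max_le a0 a1
    linarith
  have het1 : ∀ u : Fin 3 → ℝ, (∀ i, 0 ≤ u i ∧ u i ≤ 1) → et u ∈ Icc (-1 : ℝ) 1 := by
    intro u hu
    have h2 := hu 2
    rw [hete]
    constructor <;> linarith
  -- the lateral faces
  have hside0 : ∀ u : Fin 3 → ℝ, (∀ i, 0 ≤ u i ∧ u i ≤ 1) → (u 0 = 0 ∨ u 0 = 1 ∨ u 1 = 0 ∨ u 1 = 1) →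
      t u = 1 := by
    intro u hu h
    refine le_antisymm (ht1 u hu).2 ?_
    rw [hte]
    have : (2 : ℝ) ≤ max |4 * u 0 - 2| |4 * u 1 - 2| := by
      rcases h with h | h | h | h
      · refine le_max_of_le_left ?_; rw [h]; norm_num
      · refine le_max_of_le_left ?_; rw [h]; norm_num
      · refine le_max_of_le_right ?_; rw [h]; norm_num
      · refine le_max_of_le_right ?_; rw [h]; norm_num
    refine le_max_of_le_right ?_
    linarith
  have hval1 : ∀ u : Fin 3 → ℝ, t u = 1 → P.c1 (Ps u) = cl ρ (ρ * (4 * u 0 - 2)) ∧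
      P.c2 (Ps u) = cl ρ (ρ * (4 * u 1 - 2)) := by
    intro u hu
    simp only [hPse, hu, sub_self, zero_smul, one_smul, zero_add, map_add, map_smul, P.c1_kap,
      P.c2_kap, P.hc1.2.2.1, P.hc2.2.2.1, smul_zero, add_zero, clp, hye, and_self]
  obtain ⟨u, hu, hzero⟩ := H63Fed.Miranda.poincare_miranda 3 Fm hFm.continuousOn
    (by
      intro u hu i hi
      rcases hi3 i with rfl | rfl | rfl
      · rw [hFm0, (hval1 u (hside0 u hu (Or.inl hi))).1, hi, cl_of_le (by nlinarith)]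
        linarith
      · rw [hFm1, (hval1 u (hside0 u hu (Or.inr (Or.inr (Or.inl hi))))).2, hi,
          cl_of_le (by nlinarith)]
        linarith
      · rw [hFm2]
        have e : et u = -1 := by rw [hete, hi]; norm_num
        have h1 := hl _ (clp_mem hρ (y u))
        have h2 := ht1 u hu
        simp only [hPse, e, map_add, map_sub, map_smul, smul_eq_mul, P.om_kap, P.hom.2.2.1,
          P.hom.2.2.2]
        nlinarith [h2.1, h2.2])
    (by
      intro u hu i hi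
      rcases hi3 i with rfl | rfl | rfl
      · rw [hFm0, (hval1 u (hside0 u hu (Or.inr (Or.inl hi)))).1, hi, cl_of_ge hρ (by nlinarith)]
        linarith
      · rw [hFm1, (hval1 u (hside0 u hu (Or.inr (Or.inr (Or.inr hi))))).2, hi,
          cl_of_ge hρ (by nlinarith)]
        linarith
      · rw [hFm2]
        have e : et u = 1 := by rw [hete, hi]; norm_num
        have h1 := hr _ (clp_mem hρ (y u))
        have h2 := ht1 u hu
        simp only [hPse, e, map_add, map_sub, map_smul, smul_eq_mul, P.om_kap, P.hom.2.2.1,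
          P.hom.2.2.2]
        nlinarith [h2.1, h2.2])
  -- the zero
  have z0 : P.c1 (Ps u) = 0 := by rw [← hFm0, hzero]; rfl
  have z1 : P.c2 (Ps u) = 0 := by rw [← hFm1, hzero]; rfl
  have z2 : P.om (Ps u) = 0 := by rw [← hFm2, hzero]; rfl
  have heta := het1 u hu
  have htu := ht1 u hu
  have habs : |et u| ≤ 1 := abs_le.2 heta
  have htot : tot (Ps u) = 0 := by
    simp only [hPse, tot_add, tot_sub, tot_smul, tot_LamV _ n hn _ habs, P.tlam, P.tot_kap, P.tv]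
    ring
  have hPs0 : Ps u = 0 := by
    rw [P.dec _ htot, z0, z1, z2]; simp
  rcases htu.1.eq_or_lt with h | h
  · refine ⟨clp ρ (y u), clp_mem hρ _, et u, heta, ?_⟩
    have h1 : Ps u = LamV (F (clp ρ (y u))) n (et u) - P.lam + et u • P.v := by
      rw [hPse, ← h]; simp
    rw [h1] at hPs0
    have h2 : LamV (F (clp ρ (y u))) n (et u) =
        (LamV (F (clp ρ (y u))) n (et u) - P.lam + et u • P.v) + (P.lam + (-et u) • P.v) := by
      rw [neg_smul]; abel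
    rw [h2, hPs0, zero_add]
  · exfalso
    have hB : clp ρ (y u) ∈ Bd ρ := by
      refine ⟨clp_mem hρ _, ?_⟩
      have h1 : 1 < max |4 * u 0 - 2| |4 * u 1 - 2| := by
        by_contra hcon
        push Not at hcon
        have : t u = 0 := by rw [hte]; exact max_eq_left (by linarith)
        linarith
      have key : ∀ w : ℝ, 1 < |4 * w - 2| → |cl ρ (ρ * (4 * w - 2))| = ρ := by
        intro w hw
        rcases lt_abs.1 hw with h2 | h2
        · rw [cl_of_ge hρ (by nlinarith), abs_of_pos hρ]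
        · rw [cl_of_le (by nlinarith), abs_neg, abs_of_pos hρ]
      rw [hye]
      rcases lt_max_iff.1 h1 with h2 | h2
      · exact Or.inl (key _ h2)
      · exact Or.inr (key _ h2)
    rw [hPse] at hPs0
    exact hbd _ hB (et u) heta (t u) htu ⟨habs, htu, hn, hPs0⟩

theorem G_stable (P : Frame) (ρ : ℝ) (hρ : 0 < ρ) (hlen : ∀ x ∈ Sq ρ, IsLen (P.ell x)) :
    ∃ W : Set ((ℝ × ℝ) × X1), IsOpen W ∧
      (∀ (x : ℝ × ℝ) (hx : x ∈ Sq ρ), (x, std (P.ell x) (hlen x hx)) ∈ W) ∧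
      ∃ ε₀ > 0, ∀ ε : ℝ, 0 < ε → ε < ε₀ → ∃ δ > 0, ∀ F : (ℝ × ℝ) → X1, Continuous F →
        (∀ x ∈ Sq ρ, (x, F x) ∈ W) →
        (∀ x ∈ Sq ρ, ∀ α, ∀ t ∈ Icc ((F x).a α.castSucc) ((F x).a α.succ),
          |Real.log ((F x).f' α t) - Real.log (1 + ε * P.om (Pi.single α 1))| ≤ δ) →
        ∃ x ∈ Sq ρ, SC (F x) P.lam := by
  obtain ⟨W, N, hW, hstd, hbad⟩ := exists_W P ρ hρ hlen
  have hM := P.M_nonneg
  refine ⟨W, hW, hstd, 1 / (4 * (P.M + 1)), by positivity, ?_⟩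
  intro ε h0 h1
  refine ⟨ε / 4, by positivity, ?_⟩
  intro F hF hFW hder
  -- zeros
  have hz : ∀ k : ℕ, ∃ z : (ℝ × ℝ) × ℝ, z ∈ Sq ρ ×ˢ Icc (-1 : ℝ) 1 ∧
      LamV (F z.1) (N + k + 1) z.2 = P.lam + (-z.2) • P.v := by
    intro k
    obtain ⟨x, hx, η, hη, h⟩ := exists_zero P ρ hρ (N + k + 1) (by omega) F hF
      (fun x hx η hη s hs => hbad x (F x) (hFW x hx.1) hx η hη s hs _ (by omega))
      (fun x hx => sign_left P h0 h1 (F x) _ (by omega) (hder x hx))
      (fun x hx => sign_right P h0 h1 (F x) _ (by omega) (hder x hx))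
    exact ⟨(x, η), ⟨hx, hη⟩, h⟩
  choose z hz1 hz2 using hz
  obtain ⟨⟨x, η⟩, hxη, φ, hφ, hlim⟩ :=
    ((isCompact_Sq ρ).prod (isCompact_Icc (a := (-1 : ℝ)) (b := 1))).tendsto_subseq hz1
  refine ⟨x, hxη.1, ?_⟩
  have hη : |η| ≤ 1 := abs_le.2 hxη.2
  have tx : Tendsto (fun k => (z (φ k)).1) atTop (𝓝 x) :=
    (continuous_fst.continuousAt (x := (x, η))).tendsto.comp hlim
  have te : Tendsto (fun k => (z (φ k)).2) atTop (𝓝 η) :=
    (continuous_snd.continuousAt (x := (x, η))).tendsto.comp hlim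
  have hSC : SC (F x) (P.lam + (-η) • P.v) := by
    refine D_LL atTop (fun k => F (z (φ k)).1) (F x) ((hF.continuousAt (x := x)).tendsto.comp tx)
      (fun k => Gn (F (z (φ k)).1) (N + φ k + 1) (z (φ k)).2) ?_ ?_ ?_ ?_ _ (P.keane' hη)
      (P.isLen' hη).2 ?_
    · exact Filter.Eventually.of_forall fun k =>
        (F_mono _ _ (by omega) _ (abs_le.2 (hz1 (φ k)).2)).monotoneOn _
    · exact Filter.Eventually.of_forall fun k => F_zero _ _ (by omega) _ (abs_le.2 (hz1 (φ k)).2)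
    · exact Filter.Eventually.of_forall fun k => F_one _ _ (by omega) _ (abs_le.2 (hz1 (φ k)).2)
    · intro e he
      have h2 : ∀ᶠ k : ℕ in atTop, (1 : ℝ) / ((N + φ k + 1 : ℕ) : ℝ) ≤ e := by
        have h3 : Tendsto (fun k : ℕ => N + φ k + 1) atTop atTop := by
          refine tendsto_atTop_mono (fun k => ?_) tendsto_id
          have := hφ.id_le k
          simp only [id] at this ⊢
          omega
        have h4 := (tendsto_one_div_atTop_nhds_zero_nat (𝕜 := ℝ)).comp h3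
        exact h4.eventually (eventually_le_nhds he)
      filter_upwards [h2] with k hk α y hy
      exact (F_defect _ _ (by omega) _ (abs_le.2 (hz1 (φ k)).2) α y hy).trans hk
    · intro α
      have h2 : (fun k => Lam (F (z (φ k)).1) (Gn (F (z (φ k)).1) (N + φ k + 1) (z (φ k)).2) α) =
          fun k => (P.lam + (-(z (φ k)).2) • P.v) α := by
        funext k
        exact congrFun (hz2 (φ k)) α
      rw [h2]
      have : Tendsto (fun k => P.lam α + (-(z (φ k)).2) * P.v α) atTop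
          (𝓝 (P.lam α + (-η) * P.v α)) :=
        tendsto_const_nhds.add (te.neg.mul tendsto_const_nhds)
      simpa using this
  exact E_trans (F x) P.lam _ (P.isLen' hη) hSC
    (E_N2 _ _ P.keane_lam (P.keane' hη) P.isLen_lam (P.isLen' hη))

end Pool.Agent.Helper160IEM
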