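import Mathlib
import Pool.Agent.Helper160IEM.G0

set_option autoImplicit false
set_option linter.unusedSimpArgs false

/-!
Module H1: general position in a chart.
-/

namespace Pool.Agent.Helper160IEM

open Set Filter Topology MeasureTheory

/-- the retraction of the plane to the square -/
noncomputable def H1_ret (ρ : ℝ) (h : -ρ ≤ ρ) (x : ℝ × ℝ) : ℝ × ℝ :=
  (projIcc (-ρ) ρ h x.1, projIcc (-ρ) ρ h x.2)

theorem H1_ret_cont (ρ : ℝ) (h : -ρ ≤ ρ) : Continuous (H1_ret ρ h) := by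
  unfold H1_ret
  exact (continuous_subtype_val.comp (continuous_projIcc.comp continuous_fst)).prodMk
    (continuous_subtype_val.comp (continuous_projIcc.comp continuous_snd))

theorem H1_ret_mem (ρ : ℝ) (h : -ρ ≤ ρ) (x : ℝ × ℝ) : H1_ret ρ h x ∈ Sq ρ := by
  unfold H1_ret Sq
  exact ⟨(projIcc (-ρ) ρ h x.1).2, (projIcc (-ρ) ρ h x.2).2⟩

theorem H1_ret_id (ρ : ℝ) (h : -ρ ≤ ρ) {x : ℝ × ℝ} (hx : x ∈ Sq ρ) : H1_ret ρ h x = x := by
  unfold H1_ret
  rw [projIcc_of_mem h hx.1, projIcc_of_mem h hx.2]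

/-- a continuous map of the plane to space is close to maps which avoid the origin -/
theorem H1_avoid (g : ℝ × ℝ → EuclideanSpace ℝ (Fin 3)) (hg : Continuous g) (δ : ℝ) (hδ : 0 < δ) :
    ∃ g' : ℝ × ℝ → EuclideanSpace ℝ (Fin 3), Continuous g' ∧ (∀ x, dist (g' x) (g x) < δ) ∧
      ∀ x, g' x ≠ 0 := by
  obtain ⟨g1, h1, h2, -⟩ := Continuous.exists_contDiff_approx (n := 1) hg
    (continuous_const (y := δ / 2)) (fun _ => by linarith)
  have h3 : Dense (range g1)ᶜ := by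
    refine ContDiff.dense_compl_range_of_finrank_lt_finrank (by exact_mod_cast h1) ?_
    simp
  obtain ⟨c, hc1, hc2⟩ := Metric.dense_iff.1 h3 0 (δ / 2) (by linarith)
  rw [mem_ball_zero_iff] at hc1
  refine ⟨fun x => g1 x - c, h1.continuous.sub continuous_const, ?_, ?_⟩
  · intro x
    calc dist (g1 x - c) (g x) ≤ dist (g1 x - c) (g1 x) + dist (g1 x) (g x) := dist_triangle _ _ _
      _ < δ / 2 + δ / 2 := by
        refine add_lt_add ?_ (h2 x)
        rw [dist_eq_norm]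
        simpa using hc1
      _ = δ := by ring
  · intro x hx
    apply hc2
    exact ⟨x, sub_eq_zero.1 hx⟩

/-- Abstract general position: if `φ` is a chart with a three dimensional factor, and `F` is a two
parameter family in the chart, then arbitrarily close families avoid the zero set of that factor. -/
theorem H_perturb {X : Type*} [TopologicalSpace X] {E : Type*} [NormedAddCommGroup E]
    [NormedSpace ℝ E] (φ : OpenPartialHomeomorph X (E × EuclideanSpace ℝ (Fin 3)))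
    (F : ℝ × ℝ → X) (hF : Continuous F) (ρ : ℝ) (hρ : 0 < ρ)
    (hs : ∀ x ∈ Sq ρ, F x ∈ φ.source) (W : Set ((ℝ × ℝ) × X)) (hW : IsOpen W)
    (hFW : ∀ x ∈ Sq ρ, (x, F x) ∈ W) :
    ∃ F' : ℝ × ℝ → X, Continuous F' ∧ (∀ x ∈ Sq ρ, (x, F' x) ∈ W) ∧
      ∀ x ∈ Sq ρ, F' x ∈ φ.source ∧ (φ (F' x)).2 ≠ 0 := by
  have hle : -ρ ≤ ρ := by linarith
  have hrc := H1_ret_cont ρ hle
  -- the family in the chart
  have hGc : Continuous fun x => φ (F (H1_ret ρ hle x)) := by
    have h1 : Continuous fun x => F (H1_ret ρ hle x) := hF.comp hrc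
    exact φ.continuousOn.comp_continuous h1 fun x => hs _ (H1_ret_mem ρ hle x)
  obtain ⟨G, hG⟩ : ∃ G : ℝ × ℝ → E × EuclideanSpace ℝ (Fin 3),
      G = fun x => φ (F (H1_ret ρ hle x)) := ⟨_, rfl⟩
  rw [← hG] at hGc
  -- the tube
  have hΩ : IsOpen ((univ ×ˢ φ.target) ∩
      (fun p : (ℝ × ℝ) × (E × EuclideanSpace ℝ (Fin 3)) => (p.1, φ.symm p.2)) ⁻¹' W) := by
    refine ContinuousOn.isOpen_inter_preimage ?_ (isOpen_univ.prod φ.open_target) hW
    refine continuousOn_fst.prodMk ?_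
    exact φ.continuousOn_symm.comp continuousOn_snd fun p hp => hp.2
  obtain ⟨Ω, hΩdef⟩ : ∃ Ω : Set ((ℝ × ℝ) × (E × EuclideanSpace ℝ (Fin 3))),
      Ω = (univ ×ˢ φ.target) ∩
      (fun p : (ℝ × ℝ) × (E × EuclideanSpace ℝ (Fin 3)) => (p.1, φ.symm p.2)) ⁻¹' W := ⟨_, rfl⟩
  rw [← hΩdef] at hΩ
  have hKc : IsCompact ((fun x => (x, G x)) '' Sq ρ) := by
    refine IsCompact.image ?_ (continuous_id.prodMk hGc)
    exact isCompact_Icc.prod isCompact_Icc
  have hKΩ : (fun x => (x, G x)) '' Sq ρ ⊆ Ω := by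
    rintro _ ⟨x, hx, rfl⟩
    have h1 : G x = φ (F x) := by rw [hG]; simp only; rw [H1_ret_id ρ hle hx]
    rw [hΩdef]
    refine ⟨⟨mem_univ _, ?_⟩, ?_⟩
    · change G x ∈ φ.target
      rw [h1]
      exact φ.map_source (hs x hx)
    · change (x, φ.symm (G x)) ∈ W
      rw [h1, φ.left_inv (hs x hx)]
      exact hFW x hx
  obtain ⟨δ, hδ, hthick⟩ := hKc.exists_thickening_subset_open hΩ hKΩ
  have htube : ∀ x ∈ Sq ρ, ∀ p, dist p (G x) < δ → (x, p) ∈ Ω := by
    intro x hx p hp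
    apply hthick
    rw [Metric.mem_thickening_iff]
    refine ⟨(x, G x), ⟨x, hx, rfl⟩, ?_⟩
    rw [Prod.dist_eq, dist_self, max_eq_right dist_nonneg]
    exact hp
  obtain ⟨g', hg'c, hg'd, hg'0⟩ := H1_avoid (fun x => (G x).2) (continuous_snd.comp hGc) δ hδ
  have hGret : ∀ x, G (H1_ret ρ hle x) = G x := by
    intro x
    rw [hG]
    simp only
    rw [H1_ret_id ρ hle (H1_ret_mem ρ hle x)]
  have hmem : ∀ x, (H1_ret ρ hle x, ((G x).1, g' (H1_ret ρ hle x))) ∈ Ω := by
    intro x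
    apply htube _ (H1_ret_mem ρ hle x)
    have h1 := hg'd (H1_ret ρ hle x)
    simp only [hGret] at h1
    rw [hGret, Prod.dist_eq, dist_self, max_eq_right dist_nonneg]
    exact h1
  have hmem' : ∀ x, ((G x).1, g' (H1_ret ρ hle x)) ∈ φ.target := by
    intro x
    have := hmem x
    rw [hΩdef] at this
    exact this.1.2
  refine ⟨fun x => φ.symm ((G x).1, g' (H1_ret ρ hle x)), ?_, ?_, ?_⟩
  · refine φ.continuousOn_symm.comp_continuous ?_ hmem'
    exact (continuous_fst.comp hGc).prodMk (hg'c.comp hrc)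
  · intro x hx
    have := hmem x
    rw [hΩdef] at this
    have h2 := this.2
    simp only [mem_preimage, H1_ret_id ρ hle hx] at h2
    simp only [H1_ret_id ρ hle hx]
    exact h2
  · intro x hx
    refine ⟨φ.map_target (hmem' x), ?_⟩
    simp only
    rw [φ.right_inv (hmem' x)]
    exact hg'0 _

end Pool.Agent.Helper160IEM
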