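import Mathlib
import Pool.Agent.Helper160IEM.B2
import Pool.Agent.Helper160IEM.G
import Pool.Agent.Helper160IEM.H1

set_option autoImplicit false
set_option linter.unusedSimpArgs false

/-!
Module H: the final theorem.
-/

namespace Pool.Agent.Helper160IEM

open Set Filter Topology MeasureTheory

theorem pi0_irreducible : pi0.Irreducible := by
  intro k hk0 hk4 h
  have hk : k = 1 ∨ k = 2 ∨ k = 3 := by omega
  rcases hk with rfl | rfl | rfl
  · have h1 : (0 : Fin 4) ∈ {α : Fin 4 | (pi0.top α : ℕ) < 1} := by simp [pi0]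
    rw [h] at h1
    simp [pi0] at h1
  · have h1 : (0 : Fin 4) ∈ {α : Fin 4 | (pi0.top α : ℕ) < 2} := by simp [pi0]
    rw [h] at h1
    simp [pi0] at h1
  · have h1 : (2 : Fin 4) ∈ {α : Fin 4 | (pi0.top α : ℕ) < 3} := by simp [pi0]
    rw [h] at h1
    simp [pi0] at h1

theorem aff_standard (r : ℕ) (l : Fin 4 → ℝ) (h : IsLen l) : (aff r l l h h).IsStandard pi0 := by
  intro α
  constructor
  · have e1 : (pi0.bot α) = sg α := rfl
    have e2 : (pi0.top α) = α := rfl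
    rw [e1, e2, aff_b, aff_b, aff_a, aff_a, ptsB_succ, ptsB_castSucc, pts_succ, pts_castSucc]
    ring
  · intro x
    have : (aff r l l h h).F α 0 = idJet r 0 := rfl
    rw [this]
    simp [idJet]

theorem SC_self (l : Fin 4 → ℝ) (h : IsLen l) : SC (std l h) l := by
  refine ⟨id, monotoneOn_id, by simp, ?_⟩
  intro α x hx
  unfold std at hx ⊢
  rw [aff_a, aff_a, pts_castSucc, pts_succ] at hx
  refine ⟨hx, ?_⟩
  rw [std_f]; rfl

/-- bottom lengths of the family -/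
noncomputable def ellB (P : Frame) (ε : ℝ) (x : ℝ × ℝ) : Fin 4 → ℝ :=
  fun α => P.ell x α * (1 + ε * P.om (Pi.single α 1))

theorem tot_eq_sum (z : Fin 4 → ℝ) : tot z = ∑ α, z α := by
  rw [Fin.sum_univ_four]; rfl

theorem ellB_isLen (P : Frame) {ε : ℝ} {x : ℝ × ℝ} (hl : IsLen (P.ell x))
    (hε : ∀ α, |ε * P.om (Pi.single α 1)| ≤ 1 / 4) : IsLen (ellB P ε x) := by
  constructor
  · intro α
    have := hε α
    rw [abs_le] at this
    exact mul_pos (hl.1 α) (by linarith)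
  · have h1 : P.om (P.ell x) = 0 := by
      rw [P.ell_eq, map_add, P.om_kap, P.hom.2.2.2, add_zero]
    rw [om_eq] at h1
    have h2 := hl.2
    rw [tot_eq_sum] at h2 ⊢
    have : ∀ α, ellB P ε x α = P.ell x α + ε * (P.om (Pi.single α 1) * P.ell x α) := by
      intro α; simp only [ellB]; ring
    rw [Finset.sum_congr rfl fun α _ => this α, Finset.sum_add_distrib, ← Finset.mul_sum, h1, h2]
    ring

theorem small_om' (P : Frame) {ε : ℝ} (h1 : |ε| ≤ 1 / (4 * (P.M + 1))) (α : Fin 4) :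
    |ε * P.om (Pi.single α 1)| ≤ 1 / 4 := by
  have hM := P.M_nonneg
  have h2 := P.sq_le_M α
  have h3 : |P.om (Pi.single α 1)| ≤ 1 + P.M := by
    rcases le_or_gt |P.om (Pi.single α 1)| 1 with h | h
    · linarith
    · have : |P.om (Pi.single α 1)| ≤ |P.om (Pi.single α 1)| ^ 2 := by nlinarith
      rw [sq_abs] at this
      linarith
  rw [abs_mul]
  rw [le_div_iff₀ (by positivity)] at h1
  calc |ε| * |P.om (Pi.single α 1)| ≤ |ε| * (1 + P.M) :=
        mul_le_mul_of_nonneg_left h3 (abs_nonneg _)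
    _ ≤ 1 / 4 := by linarith

/-- positivity near the base point -/
theorem exists_rho (P : Frame) : ∃ ρ > 0, ∀ x ∈ Sq ρ, IsLen (P.ell x) := by
  have h1 : ∀ᶠ x : ℝ × ℝ in 𝓝 0, ∀ α, 0 < P.ell x α := by
    rw [Filter.eventually_all]
    intro α
    have hc : Continuous fun x => P.ell x α := (continuous_apply α).comp P.continuous_ell
    refine (hc.continuousAt (x := 0)).eventually (lt_mem_nhds ?_)
    have : P.ell 0 = P.lam := by simp [Frame.ell]
    change 0 < P.ell 0 α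
    rw [this]
    exact P.keane_lam.pos α
  obtain ⟨ε, hε, h2⟩ := Metric.eventually_nhds_iff.1 h1
  refine ⟨ε / 2, by positivity, fun x hx => ⟨h2 ?_, ?_⟩⟩
  · have e1 : |x.1| ≤ ε / 2 := abs_le.2 hx.1
    have e2 : |x.2| ≤ ε / 2 := abs_le.2 hx.2
    rw [Prod.dist_eq]
    simp only [Prod.fst_zero, Prod.snd_zero, Real.dist_eq, sub_zero]
    exact max_lt (by linarith) (by linarith)
  · rw [P.ell_eq, tot_add, P.tlam, P.tot_kap, add_zero]

theorem isOpen_closeSet (α : Fin 4) (c δ : ℝ) :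
    IsOpen {T : X1 | ∀ t ∈ Icc (0 : ℝ) 1, |Real.log (T.f' α t) - c| < δ} := by
  rw [isOpen_iff_mem_nhds]
  intro T hT
  refine isCompact_Icc.eventually_forall_of_forall_eventually ?_
  intro t ht
  have hc : ContinuousAt (fun z : X1 × ℝ => |Real.log (z.1.f' α z.2) - c|) (T, t) := by
    refine ContinuousAt.abs (ContinuousAt.sub ?_ continuousAt_const)
    exact ContinuousAt.log ((cont_f' α).continuousAt) (f'_pos T α t).ne'
  exact hc.eventually_lt continuousAt_const (hT t ht)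

theorem H_final (r : ℕ) (hr : 1 ≤ r) : ∃ (π : Comb 4), π.Irreducible ∧ ∃ T₀ : GIEM 4 r,
    T₀.IsStandard π ∧ T₀.NoConnection π ∧
      ∀ S : Set (GIEM 4 r), {T | T.SemiConj T₀ π} ⊆ S → ¬ IsTopSubmanifold S 3 := by
  obtain ⟨P⟩ := exists_frame
  have hlam := P.isLen_lam
  refine ⟨pi0, pi0_irreducible, aff r P.lam P.lam hlam hlam, aff_standard r _ hlam,
    B_noConn _ P.keane_lam hlam r, ?_⟩
  intro S hS hsub
  have hT0S : aff r P.lam P.lam hlam hlam ∈ S := by
    apply hS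
    refine semiConj_of_SC hr _ _ hlam ?_
    rw [toOne_aff]
    exact SC_self _ hlam
  obtain ⟨E, i1, i2, i3, φ, hφ0, hφ⟩ := hsub _ hT0S
  -- the family
  obtain ⟨ρ₀, hρ₀, hlen₀⟩ := exists_rho P
  have hM := P.M_nonneg
  set ε₁ : ℝ := 1 / (4 * (P.M + 1)) with hε₁
  have hε₁p : 0 < ε₁ := by positivity
  have hB : ∀ z : ℝ × (ℝ × ℝ), IsLen (ellB P (cl ε₁ z.1) (clp ρ₀ z.2)) := fun z =>
    ellB_isLen P (hlen₀ _ (clp_mem hρ₀ z.2)) (small_om' P (abs_le.2 (cl_mem hε₁p z.1)))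
  let Tf : ℝ × (ℝ × ℝ) → GIEM 4 r := fun z =>
    aff r (P.ell (clp ρ₀ z.2)) (ellB P (cl ε₁ z.1) (clp ρ₀ z.2)) (hlen₀ _ (clp_mem hρ₀ z.2)) (hB z)
  have hTf : Continuous Tf := by
    refine cont_aff (fun z : ℝ × (ℝ × ℝ) => P.ell (clp ρ₀ z.2))
      (fun z => ellB P (cl ε₁ z.1) (clp ρ₀ z.2)) _ _ ?_ ?_
    · exact P.continuous_ell.comp ((continuous_clp ρ₀).comp continuous_snd)
    · refine continuous_pi fun α => ?_
      have h1 : Continuous fun z : ℝ × (ℝ × ℝ) => P.ell (clp ρ₀ z.2) α :=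
        (continuous_apply α).comp (P.continuous_ell.comp ((continuous_clp ρ₀).comp continuous_snd))
      exact h1.mul (continuous_const.add (((continuous_cl ε₁).comp continuous_fst).mul
        continuous_const))
  have hTfeq : ∀ (ε : ℝ) (x : ℝ × ℝ) (hx : x ∈ Sq ρ₀) (hε : ε ∈ Icc (-ε₁) ε₁)
      (h2 : IsLen (ellB P ε x)), Tf (ε, x) = aff r (P.ell x) (ellB P ε x) (hlen₀ x hx) h2 := by
    intro ε x hx hε h2
    have e1 := clp_of_mem hx
    have e2 := cl_of_mem hε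
    simp only [Tf]
    congr 1
    · rw [e1]
    · rw [e1, e2]
  have hB0 : ∀ x, ellB P 0 x = P.ell x := by
    intro x; funext α; simp [ellB]
  have hTf0 : ∀ (x : ℝ × ℝ) (hx : x ∈ Sq ρ₀),
      Tf (0, x) = aff r (P.ell x) (P.ell x) (hlen₀ x hx) (hlen₀ x hx) := by
    intro x hx
    rw [hTfeq 0 x hx ⟨by linarith, hε₁p.le⟩ (by rw [hB0]; exact hlen₀ x hx)]
    congr 1
    exact hB0 x
  have hTf00 : Tf (0, 0) = aff r P.lam P.lam hlam hlam := by
    have h0 : (0 : ℝ × ℝ) ∈ Sq ρ₀ := ⟨⟨by simp; linarith, by simp; linarith⟩,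
      ⟨by simp; linarith, by simp; linarith⟩⟩
    rw [hTf0 0 h0]
    have e : P.ell 0 = P.lam := by simp [Frame.ell]
    congr 1
  -- the family stays in the chart
  have hnear : ∀ᶠ z in 𝓝 ((0, 0) : ℝ × (ℝ × ℝ)), Tf z ∈ φ.source := by
    refine hTf.continuousAt.eventually (φ.open_source.mem_nhds ?_)
    rw [hTf00]; exact hφ0
  obtain ⟨η, hη, hnear'⟩ := Metric.eventually_nhds_iff.1 hnear
  set ρ := min ρ₀ (η / 2) with hρdef
  have hρ : 0 < ρ := lt_min hρ₀ (by positivity)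
  have hsubSq : Sq ρ ⊆ Sq ρ₀ := by
    intro x hx
    have : ρ ≤ ρ₀ := min_le_left _ _
    exact ⟨⟨by linarith [hx.1.1], by linarith [hx.1.2]⟩, ⟨by linarith [hx.2.1], by linarith [hx.2.2]⟩⟩
  have hlen : ∀ x ∈ Sq ρ, IsLen (P.ell x) := fun x hx => hlen₀ x (hsubSq hx)
  have hsrc : ∀ ε : ℝ, |ε| < η → ∀ x ∈ Sq ρ, Tf (ε, x) ∈ φ.source := by
    intro ε hε x hx
    apply hnear'
    have : ρ ≤ η / 2 := min_le_right _ _
    have e1 : |x.1| ≤ ρ := abs_le.2 hx.1
    have e2 : |x.2| ≤ ρ := abs_le.2 hx.2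
    rw [Prod.dist_eq, Prod.dist_eq]
    simp only [Prod.fst_zero, Prod.snd_zero, Real.dist_eq, sub_zero]
    exact max_lt hε (max_lt (by linarith) (by linarith))
  obtain ⟨W, hW, hstd, ε₀, hε₀, hst⟩ := G_stable P ρ hρ hlen
  -- closeness for small `ε`
  have hcl : ∀ᶠ ε : ℝ in 𝓝 0, ∀ x ∈ Sq ρ, (x, toOne hr (Tf (ε, x))) ∈ W := by
    refine (isCompact_Sq ρ).eventually_forall_of_forall_eventually ?_
    intro x hx
    have hc : Continuous fun z : ℝ × (ℝ × ℝ) => (z.2, toOne hr (Tf z)) :=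
      continuous_snd.prodMk ((cont_toOne hr).comp hTf)
    refine hc.continuousAt.eventually (hW.mem_nhds ?_)
    change (x, toOne hr (Tf (0, x))) ∈ W
    rw [hTf0 x (hsubSq hx), toOne_aff]
    exact hstd x hx
  obtain ⟨κ, hκ, hcl'⟩ := Metric.eventually_nhds_iff.1 hcl
  obtain ⟨ε, hε0, hεlt⟩ := exists_between (show 0 < min (min ε₀ ε₁) (min η κ) from
    lt_min (lt_min hε₀ hε₁p) (lt_min hη hκ))
  have hεε₀ : ε < ε₀ := hεlt.trans_le ((min_le_left _ _).trans (min_le_left _ _))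
  have hεε₁ : ε < ε₁ := hεlt.trans_le ((min_le_left _ _).trans (min_le_right _ _))
  have hεη : ε < η := hεlt.trans_le ((min_le_right _ _).trans (min_le_left _ _))
  have hεκ : ε < κ := hεlt.trans_le ((min_le_right _ _).trans (min_le_right _ _))
  have hclε : ∀ x ∈ Sq ρ, (x, toOne hr (Tf (ε, x))) ∈ W := by
    apply hcl'
    rw [Real.dist_eq, sub_zero, abs_of_pos hε0]; exact hεκ
  obtain ⟨δ, hδ, hmain⟩ := hst ε hε0 hεε₀
  -- the open set of admissible perturbations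
  let W' : Set ((ℝ × ℝ) × GIEM 4 r) :=
    {p | (p.1, toOne hr p.2) ∈ W} ∩
      ⋂ α : Fin 4, {p | ∀ t ∈ Icc (0 : ℝ) 1, |Real.log ((toOne hr p.2).f' α t) -
        Real.log (1 + ε * P.om (Pi.single α 1))| < δ}
  have hW' : IsOpen W' := by
    refine IsOpen.inter ?_ (isOpen_iInter_of_finite fun α => ?_)
    · exact hW.preimage (continuous_fst.prodMk ((cont_toOne hr).comp continuous_snd))
    · exact (isOpen_closeSet α _ δ).preimage ((cont_toOne hr).comp continuous_snd)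
  have hF0W : ∀ x ∈ Sq ρ, (x, Tf (ε, x)) ∈ W' := by
    intro x hx
    refine ⟨hclε x hx, ?_⟩
    rw [mem_iInter]
    intro α t _
    have hBx : IsLen (ellB P ε x) := ellB_isLen P (hlen x hx)
      (small_om' P (by rw [abs_of_pos hε0]; exact hεε₁.le))
    change |Real.log ((toOne hr (Tf (ε, x))).f' α t) - _| < δ
    rw [hTfeq ε x (hsubSq hx) ⟨by linarith, hεε₁.le⟩ hBx, toOne_aff, aff_f']
    have hp := (hlen x hx).1 α
    have e : ellB P ε x α / P.ell x α = 1 + ε * P.om (Pi.single α 1) := by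
      simp only [ellB]; field_simp
    rw [e, sub_self, abs_zero]; exact hδ
  obtain ⟨F', hF'c, hF'W, hF'0⟩ := H_perturb φ (fun x => Tf (ε, x)) (by fun_prop) ρ hρ
    (fun x hx => hsrc ε (by rw [abs_of_pos hε0]; exact hεη) x hx) W' hW' hF0W
  obtain ⟨x, hx, hSC⟩ := hmain (fun x => toOne hr (F' x)) ((cont_toOne hr).comp hF'c)
    (fun x hx => (hF'W x hx).1) (by
      intro x hx α t ht
      have h1 := mem_iInter.1 (hF'W x hx).2 α
      have ha0 : (toOne hr (F' x)).a 0 ≤ (toOne hr (F' x)).a α.castSucc :=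
        (a_mono _).monotone (Fin.zero_le _)
      have ha1 : (toOne hr (F' x)).a α.succ ≤ (toOne hr (F' x)).a 4 :=
        (a_mono _).monotone (Fin.le_last _)
      rw [a_zero] at ha0
      rw [a_four] at ha1
      exact (h1 t ⟨by linarith [ht.1], by linarith [ht.2]⟩).le)
  have hmem : F' x ∈ S := hS (semiConj_of_SC hr (F' x) P.lam hlam hSC)
  exact (hF'0 x hx).2 ((hφ (F' x) (hF'0 x hx).1).1 hmem)

end Pool.Agent.Helper160IEM
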